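import Pool.Agent.P.MP_40718a_co.Wb.IfaceB

section
/-! Step CUT2. -/

set_option linter.unusedSectionVars false

namespace Pool.Agent.P.MP_40718a_co.Wb

open Finset ABF Bc

theorem cut2_conf {V E : Type} [Fintype V] [Fintype E] [DecidableEq V] [DecidableEq E]
    {s t : E → V} {I Ω K : Finset V} {b : ℕ} (h5 : SmallIn s t Ω 5 b) (hE : Exp s t I Ω)
    (hK : K ⊆ Ω) (hne : (K ∩ I).Nonempty) (hmin : Cn s t K)
    (ho : (cut s t K \ ins s t I).card ≤ 3) : K ⊆ ball s t I b := by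
  have hY : (K \ I).card ≤ b := by
    rcases (K \ I).eq_empty_or_nonempty with h0 | h0
    · simp [h0]
    have a1 := hE (K \ I) (sdiff_subset_sdiff hK (Subset.refl _)) h0
    have a2 : cut s t (K \ I) \ cut s t I ⊆ cut s t K \ ins s t I := by
      intro e he
      simp only [mem_sdiff, mem_cut, mem_ins] at he ⊢
      tauto
    have a3 := card_le_card a2
    have a4 := card_sdiff_add_card_inter (cut s t (K \ I)) (cut s t I)
    exact h5 _ (sdiff_subset.trans hK) (by omega)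
  obtain ⟨r, hr, hs⟩ := exists_sphere (s := s) (t := t) (K \ I) I
  have a6 : K ∩ ball s t I (r + 1) ⊆ ball s t I r := by
    intro x hx
    by_cases hxI : x ∈ I
    · exact subset_ball r hxI
    · exact hs (mem_inter.2 ⟨mem_sdiff.2 ⟨(mem_inter.1 hx).1, hxI⟩, (mem_inter.1 hx).2⟩)
  have a7 := hmin _ inter_subset_left
    (hne.mono (inter_subset_inter_left (subset_ball r))) (cut_inter_ball a6)
  exact (a7.ge.trans inter_subset_right).trans (ball_mono_r (hr.trans hY))

theorem p_CUT2 (hDEN2 : S_DEN2) :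
    S_CUT2 := by
  intro V E _ _ _ _ s t D I J Z X a p ρ b hc h3 hp hD hmin hZ h2 h4
  set G := cut s t X \ D.biUnion fun c => ins s t (I c)
  have hG : ∀ e ∈ cut s t X, (∀ c ∈ D, e ∉ ins s t (I c)) → e ∈ G := fun e he h =>
    mem_sdiff.2 ⟨he, fun h1 => let ⟨c, hc, h2⟩ := mem_biUnion.1 h1; h c hc h2⟩
  by_cases hcore : ∀ e ∈ cut s t X, ∀ c ∈ D, e ∉ ins s t (I c)
  · have := card_le_card (show cut s t X ⊆ G from fun e he => hG e he (hcore e he))
    exact Or.inl ((h3 X (by omega)).resolve_right (by omega))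
  push Not at hcore
  obtain ⟨e0, he0, c, hcD, hec⟩ := hcore
  obtain ⟨d1, d2, d3, d4, d6, d5⟩ := hD c hcD
  have hne : (X ∩ I c).Nonempty := by
    rw [mem_cut] at he0
    rw [mem_ins] at hec
    by_cases h : s e0 ∈ X
    · exact ⟨_, mem_inter.2 ⟨h, hec.1⟩⟩
    · exact ⟨t e0, mem_inter.2 ⟨by tauto, hec.2⟩⟩
  rcases hDEN2 V E s t (ends s t c) Z X ρ a p d6 hZ with ⟨r, hr1, hr2, hr3⟩ | hden
  · have a1 := hmin _ inter_subset_left
      (hne.mono (inter_subset_inter_left (d1.trans (ball_mono_r hr1)))) (cut_inter_ball hr3)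
    have hKΩ := (a1.ge.trans inter_subset_right).trans (ball_mono_r hr2.le)
    have ho : (cut s t X \ ins s t (I c)).card ≤ 3 := by
      refine (card_le_card fun e he => ?_).trans h4
      rw [mem_sdiff] at he
      refine hG e he.1 fun c' hc' hin => ?_
      by_cases hcc : c = c'
      · exact he.2 (hcc ▸ hin)
      · have a2 := disjoint_left.1 (d5 c' hc' hcc)
        have a3 := he.1
        rw [mem_cut] at a3
        rw [mem_ins] at hin
        have a4 : s e ∉ X := fun h => a2 (hKΩ h) hin.1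
        have a5 : t e ∉ X := fun h => a2 (hKΩ h) hin.2
        tauto
    exact Or.inr ⟨c, hcD, (cut2_conf d4 d3 hKΩ hne hmin ho).trans d2, ho⟩
  · exfalso
    have : cut s t X ∩ ins s t (ball s t (ends s t c) (a + p * (2 * ρ + 2)) \
        ball s t (ends s t c) a) ⊆ G := by
      intro e he
      rw [mem_inter, mem_ins, mem_sdiff] at he
      refine hG e he.1 fun c' hc' hin => ?_
      rw [mem_ins] at hin
      by_cases hcc : c = c'
      · exact he.2.1.2 (d1 (hcc ▸ hin.1))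
      · exact disjoint_left.1 (d5 c' hc' hcc) he.2.1.1 hin.1
    have := card_le_card this
    omega

end Pool.Agent.P.MP_40718a_co.Wb

end

section
/-! Step CLS2. -/

set_option linter.unusedSectionVars false

namespace Pool.Agent.P.MP_40718a_co.Wb

open Finset ABF Bc

theorem p_CLS2 (hOBJ2 : S_OBJ2) (hYB2 : S_YB2) :
    S_CLS2 := by
  intro q m
  obtain ⟨K, hK⟩ := Bc.all_SGN q 240 m
  refine ⟨K, ?_⟩
  intro V E _ _ _ _ s t ld a p ρ b n D I J φ A Z hc hq hm hm' hp hn hpre hdis hA hld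
  classical
  set Ω : E → Finset V := fun c => ball s t (ends s t c) (a + p * (2 * ρ + 2)) with hΩ
  have hap : a + 1 ≤ a + p * (2 * ρ + 2) := by nlinarith
  have hJΩ : ∀ c ∈ D, ball s t (J c) 1 ⊆ Ω c := by
    intro c hcD
    refine (ball_mono (hpre c hcD).1.2.2.2.2.1 1).trans ?_
    rw [Bc.ball_add]
    exact ball_mono_r hap
  have hobj : ∀ c i, ∃ ψ : Fin (3 * q) × Fin 240 → E → ℤ,
      c ∈ D → Obj s t q (Ω c) (J c) (Z i) (φ c) ψ := by
    intro c i
    by_cases hcD : c ∈ D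
    · obtain ⟨⟨d1, d2, -, -, d5, d6, -, d8⟩, -⟩ := hpre c hcD
      obtain ⟨ψ, h⟩ := hOBJ2 V E s t q 240 c (ends s t c) (I c) (J c) (Z i) ρ a p (φ c) d1 d2
        ((hA i).2.2 c hcD).1 d5 ((cut_card_le hc _).trans (by omega)) d8
      exact ⟨ψ, fun _ => h⟩
    · exact ⟨fun _ _ => 0, fun h => absurd h hcD⟩
  choose ψ hψ using hobj
  obtain ⟨cls, hcls⟩ := hK V E s t D J Ω φ ψ A Z hc (fun i => (hA i).1) fun c h i => hψ c i h
  refine ⟨cls, fun κ => ?_⟩
  rcases hcls κ with h | ⟨σ, g, hg, hvs, hσ⟩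
  · exact Or.inl h
  right
  obtain ⟨y1, y2⟩ := Bc.all_YA V E s t q 240 m ld D J Ω φ ψ σ g A (fun c hcD => ⟨hJΩ c hcD,
    (hpre c hcD).1.1.1, fun i => ⟨(hψ c i hcD).1, (hψ c i hcD).2.1, ((hA i).2.2 c hcD).2,
      (hσ c hcD).1 i⟩⟩) hdis hg hld
  have hloc : ∀ c ∈ D, Loc s t q 240 c (I c) (J c) (φ c) ∧ (∀ w, ∑ i, σ i w c ≤ (m : ℤ)) ∧
      ((∀ w, 0 ≤ ∑ i, σ i w c) ∨ ∀ w, |∑ i, σ i w c| ≤ 1) := fun c hcD =>
    ⟨(hpre c hcD).1.1, fun w => by
      simpa using sum_le_card_nsmul univ (fun i => σ i w c) 1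
        fun i _ => (le_abs_self _).trans ((hσ c hcD).1 i w), (hσ c hcD).2.1⟩
  obtain ⟨z1, -, z3⟩ := Bc.all_YB V E s t q 240 m ld D I J φ (fun c w => ∑ i, σ i w c)
    (yv q 240 m D φ ψ σ g) (by omega) (by omega) (by omega) hloc y1 y2
  have z2 := hYB2 V E s t q 240 m ld D I J φ (fun c w => ∑ i, σ i w c)
    (yv q 240 m D φ ψ σ g) le_rfl hm hm' hloc y1 y2
  refine ⟨yv q 240 m D φ ψ σ g, 3 * q * (240 : ℕ) * m,
    D.filter fun c => ∀ w, 0 ≤ ∑ i, σ i w c, filter_subset _ _, ?_, z1, hvs,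
    fun e he => z2 e fun c h1 h2 => he c (mem_filter.2 ⟨h1, h2⟩),
    fun c hc' => z3 c (mem_filter.1 hc').1 (mem_filter.1 hc').2, ?_⟩
  · have a1 : (0 : ℤ) < q := by exact_mod_cast hq
    have a3 : (0 : ℤ) < m := by exact_mod_cast (show 0 < m by omega)
    positivity
  · intro c hcD hκ
    rw [y1 c hcD c (Or.inl (hpre c hcD).1.2.1)]
    simp only [(hσ c hcD).2.2 hκ, sum_const, card_univ, Fintype.card_fin, nsmul_eq_mul, mul_one]
    rw [← mul_sum, (hpre c hcD).1.1.2.2.2.2.2.1]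
    ring

end Pool.Agent.P.MP_40718a_co.Wb

end

section
/-! Step HCL. -/

set_option linter.unusedSectionVars false

namespace Pool.Agent.P.MP_40718a_co.Wb

open Finset ABF Bc

theorem p_HCL (hCUT2 : S_CUT2) :
    S_HCL := by
  intro V E _ _ _ _ s t q m ld a p ρ b n D I J φ A Z U y Q D' hc hS _ hm h30 hp _ hD hdj hA hld
    hD' hQ hy hv hlow hX
  have hIJ : ∀ c ∈ D, I c ⊆ J c := fun c h => (hD c h).1.2.2.1
  have hIa : ∀ c ∈ D, I c ⊆ ball s t (ends s t c) a := fun c h =>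
    (hIJ c h).trans (hD c h).1.2.2.2.2.1
  refine ⟨hQ, hy, hv, fun e he => ?_, fun e he => hlow e fun c h h' => he (mem_biUnion.2
    ⟨c, h, h'⟩), fun i => (hA i).2.1, fun X _ ho hn h2 h3 => ?_⟩
  · obtain ⟨c, h, h'⟩ := mem_biUnion.1 he
    exact mem_biUnion.2 ⟨c, hD' h, mem_meet.2 (.inl (hIJ c (hD' h) (mem_ins.1 h').1))⟩
  obtain ⟨i, hi⟩ : ∃ i, ¬ ∃ e ∈ cut s t X \ D'.biUnion fun c => ins s t (I c), e ∈ A i := by
    by_contra h
    have h1 := (cnt_exists_le (cut s t X \ D'.biUnion fun c => ins s t (I c))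
      fun e i => e ∈ A i).trans (sum_le_card_nsmul _ _ ld fun e _ => hld e)
    rw [cnt_congr (Q := fun _ => True) fun i => iff_true_intro (not_not.1 fun e => h ⟨i, e⟩),
      cnt_true, Fintype.card_fin, smul_eq_mul] at h1
    have := Nat.mul_le_mul_right ld h3
    omega
  have hd : Disjoint (cut s t X) (A i) := disjoint_left.2 fun e h1 h4 => hi ⟨e, mem_sdiff.2
    ⟨h1, fun h => by
      obtain ⟨c, h, h'⟩ := mem_biUnion.1 h
      exact (((hA i).2.2 c (hD' h)).2 e h4).1 (hIJ c (hD' h) (mem_ins.1 h').1)⟩, h4⟩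
  by_cases hZ : Disjoint X (Z i)
  swap
  · obtain ⟨z, z1, z2⟩ := not_disjoint_iff.1 hZ
    exact .inr (.inr ⟨i, fun w hw => ((hA i).1 z z2 w hw X hd).1 z1⟩)
  rcases hCUT2 V E s t D' I J (Z i) X a p ρ b hc hS hp (fun c h => ⟨hIa c (hD' h),
    (hD c (hD' h)).1.2.2.2.1, (hD c (hD' h)).1.2.2.2.2.2.2.1, (hD c (hD' h)).2,
    ((hA i).2.2 c (hD' h)).1, fun c' h' e => (hdj c (hD' h) c' (hD' h') e).mono_right
      ((hIa c' (hD' h')).trans (ball_mono_r (Nat.le_add_right _ _)))⟩) hn hZ h2 h3 with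
    h | ⟨c, h, h4, h5⟩
  · exact .inl (le_antisymm h ho.pos)
  · refine .inr (.inl ⟨fun e he => mem_biUnion.2 ⟨c, hD' h, meet_mono h4 ?_⟩, hX c h X h4 ho h5⟩)
    rw [meet_eq]
    exact mem_union_right _ he

end Pool.Agent.P.MP_40718a_co.Wb

end

section
/-! Step MGS. -/

set_option linter.unusedSectionVars false

namespace Pool.Agent.P.MP_40718a_co.Wb

open Finset ABF Bc

theorem p_MGS :
    S_MGS := by
  intro V E _ _ _ _ s t P T F k ⟨p0, h0⟩ hd h
  obtain ⟨π, hπ⟩ : ∃ π : V → V, π = fun v => if v ∈ P then p0 else v := ⟨_, rfl⟩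
  obtain ⟨A, h1, h2⟩ := all_MG V E (π ∘ s) (π ∘ t) (Fin k) (fun _ => p0) F T fun Y hY => by
    by_cases a : p0 ∈ Y
    · have := h (univ.filter fun v => π v ∈ Y) (fun v hv => by simp [hπ, hv, a])
        (disjoint_left.2 fun v hv b => by
          have c := (mem_filter.1 hv).2
          simp only [hπ, if_neg (disjoint_right.1 hd b)] at c
          exact disjoint_left.1 hY c b)
      refine ((cnt_le_card _).trans_eq (Fintype.card_fin k)).trans (this.trans_eq ?_)
      congr 2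
      ext e
      simp
    · simp [cnt_eq_zero fun _ : Fin k => a]
  refine ⟨A, fun j W a b => ?_, h2⟩
  obtain ⟨e, he⟩ := (h1 j).2 W (a h0) b
  obtain ⟨c1, c2⟩ := mem_inter.1 he
  have k : ∀ v, π v ∈ W ↔ v ∈ W := fun v => by
    by_cases c : v ∈ P
    · simp [hπ, c, a c, a h0]
    · simp [hπ, c]
  refine ⟨e, mem_inter.2 ⟨c2, mem_inter.2 ⟨?_, (h1 j).1 c2⟩⟩⟩
  simpa [k] using c1

end Pool.Agent.P.MP_40718a_co.Wb

end

section
/-! Step FAM. -/

set_option linter.unusedSectionVars false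

namespace Pool.Agent.P.MP_40718a_co.Wb

open Finset ABF Bc

theorem fam_sum {E : Type} {k ld : ℕ} (A : Fin k → Finset E) (S : Finset E)
    (h : ∀ e, cnt (fun j => e ∈ A j) ≤ ld) : cnt (fun j => ∃ e ∈ S, e ∈ A j) ≤ S.card * ld := by
  refine (cnt_exists_le S fun e j => e ∈ A j).trans ?_
  simpa using sum_le_card_nsmul S _ ld fun e _ => h e

theorem p_FAM :
    S_FAM := by
  intro k z
  refine ⟨(2 ^ k) ^ z, ?_⟩
  intro V E _ _ _ _ s t C _ ld n n2 A J hc hz hld hk hA
  classical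
  have hcard : Fintype.card (C → Finset (Fin k)) ≤ Fintype.card (Fin ((2 ^ k) ^ z)) := by
    rw [Fintype.card_fun, Fintype.card_finset, Fintype.card_fin, Fintype.card_fin]
    exact Nat.pow_le_pow_right (by positivity) hz
  obtain ⟨φ⟩ := Function.Embedding.nonempty_of_card_le hcard
  refine ⟨fun c => φ fun π => univ.filter fun j => Disjoint (A π j) (meet s t (J c)), ?_⟩
  intro D c0 h0 hD π G hG
  have key : ∀ j : Fin k, True → (∃ e ∈ meet s t (J c0), e ∈ A π j) ∨
      ∃ e ∈ G \ exc s t J D, e ∈ A π j := by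
    intro j _
    by_cases hj : Disjoint (A π j) (meet s t (J c0))
    · right
      obtain ⟨e, he⟩ := hG j
      rw [mem_inter] at he
      refine ⟨e, mem_sdiff.2 ⟨he.2, fun hx => ?_⟩, he.1⟩
      obtain ⟨c, hcD, hec⟩ := mem_biUnion.1 hx
      have h1 := congrFun (φ.injective (hD c hcD).1) π
      have h2 : j ∈ univ.filter fun j => Disjoint (A π j) (meet s t (J c)) := by
        rw [h1]; exact mem_filter.2 ⟨mem_univ _, hj⟩
      exact disjoint_left.1 (mem_filter.1 h2).2 he.1 hec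
    · left
      obtain ⟨e, h1, h2⟩ := not_disjoint_iff.1 hj
      exact ⟨e, h2, h1⟩
  have h1 := cnt_le_add key
  rw [cnt_true, Fintype.card_fin] at h1
  have h2 := fam_sum (A π) (meet s t (J c0)) (hA π)
  have h3 := fam_sum (A π) (G \ exc s t J D) (hA π)
  have h4 : (meet s t (J c0)).card ≤ 3 * n :=
    (meet_card hc _).trans (Nat.mul_le_mul_left _ (hD c0 h0).2)
  have h5 : (meet s t (J c0)).card * ld ≤ 3 * n * ld := Nat.mul_le_mul_right _ h4
  refine Nat.le_of_mul_le_mul_right (c := ld) ?_ hld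
  nlinarith

end Pool.Agent.P.MP_40718a_co.Wb

end

section
/-! Step OW. -/

set_option linter.unusedSectionVars false

namespace Pool.Agent.P.MP_40718a_co.Wb

open Finset ABF Bc

variable {V E : Type} [Fintype V] [Fintype E] [DecidableEq V] [DecidableEq E]

/-- first end in the bipartite double cover -/
def ow_s (s : E → V) (x : E × Bool) : V × Bool := (s x.1, x.2)

/-- second end in the bipartite double cover -/
def ow_t (t : E → V) (x : E × Bool) : V × Bool := (t x.1, !x.2)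

/-- vertices of `U` whose copy `c` and only this copy lies in `W` -/
def ow_W (U : Finset V) (W : Finset (V × Bool)) (c : Bool) : Finset V :=
  U.filter fun v => (v, c) ∈ W ∧ (v, !c) ∉ W

theorem ow_mem {U : Finset V} {W : Finset (V × Bool)} {c : Bool} {v : V} :
    v ∈ ow_W U W c ↔ v ∈ U ∧ (v, c) ∈ W ∧ (v, !c) ∉ W := by
  simp only [ow_W, mem_filter]

theorem ow_lift (s t : E → V) (U : Finset V) (W : Finset (V × Bool)) (e : E)
    (he : e ∈ ins s t U) (hd : Dfc s t (ow_W U W true) (ow_W U W false) e) :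
    ∃ c : Bool, (e, c) ∈ cut (ow_s s) (ow_t t) W := by
  rw [mem_ins] at he
  simp only [Dfc, ow_mem, Bool.not_true, Bool.not_false, he.1, he.2, true_and] at hd
  by_contra hn
  push Not at hn
  have h1 := hn true
  have h2 := hn false
  simp only [mem_cut, ow_s, ow_t, Bool.not_true, Bool.not_false, not_not] at h1 h2
  tauto

theorem ow_prop {a b c d x y u w : Prop} (he : ¬ ((a ∨ c) ∧ ¬ x ↔ (b ∨ d) ∧ ¬ y))
    (h3 : u → w → ((a ∧ ¬ d) ∨ (b ∧ ¬ c) ∨ (c ∧ ¬ b) ∨ (d ∧ ¬ a)) → x ∧ y)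
    (h4 : a → u) (h5 : b → w) (h6 : c → u) (h7 : d → w) : ¬ (u ↔ w) ∨ x ∨ y := by
  tauto

theorem ow_cut (s t : E → V) (U P : Finset V) (γ k b : ℕ) (hc : Cubic s t)
    (hγ : (cut s t U).card ≤ γ) (hH : H2 s t U (γ + 6 * k) b) (hPU : P ⊆ U)
    (hP : b + 2 * k < P.card) (W : Finset (V × Bool)) (h1 : P ×ˢ ({true} : Finset Bool) ⊆ W)
    (h2 : Disjoint W (P ×ˢ ({false} : Finset Bool))) :
    k ≤ (cut (ow_s s) (ow_t t) W ∩ (ins s t U ×ˢ (univ : Finset Bool))).card := by
  classical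
  by_contra hk
  push Not at hk
  set Wp := ow_W U W true with hWp
  set Wm := ow_W U W false with hWm
  set Df := (ins s t U).filter fun e => Dfc s t Wp Wm e with hDf
  have hDfk : Df.card ≤ k := by
    have : Df ⊆ (cut (ow_s s) (ow_t t) W ∩ (ins s t U ×ˢ (univ : Finset Bool))).image
        Prod.fst := by
      intro e he
      rw [hDf, mem_filter] at he
      obtain ⟨c, hc⟩ := ow_lift s t U W e he.1 he.2
      exact mem_image.2 ⟨(e, c), mem_inter.2 ⟨hc, mem_product.2 ⟨he.1, mem_univ _⟩⟩, rfl⟩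
    exact ((card_le_card this).trans card_image_le).trans hk.le
  have hpU : ∀ v ∈ Wp, v ∈ U := fun v hv => (ow_mem.1 hv).1
  have hmU : ∀ v ∈ Wm, v ∈ U := fun v hv => (ow_mem.1 hv).1
  have hpm : ∀ v ∈ Wp, v ∉ Wm := fun v hv hm => (ow_mem.1 hv).2.2 (ow_mem.1 hm).2.1
  set B := (Wp ∪ Wm) \ endsOf s t Df with hB
  have hBm : ∀ v, v ∈ B ↔ (v ∈ Wp ∨ v ∈ Wm) ∧ v ∉ endsOf s t Df := by
    intro v; rw [hB, mem_sdiff, mem_union]
  have hBU : B ⊆ U := by
    intro v hv
    rcases ((hBm v).1 hv).1 with h | h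
    · exact hpU v h
    · exact hmU v h
  have hE : ∀ e, s e ∈ U → t e ∈ U → Dfc s t Wp Wm e →
      s e ∈ endsOf s t Df ∧ t e ∈ endsOf s t Df := by
    intro e ha hb hd
    have he : e ∈ Df := by
      rw [hDf, mem_filter]; exact ⟨mem_ins.2 ⟨ha, hb⟩, hd⟩
    exact ⟨mem_endsOf.2 ⟨e, he, Or.inl rfl⟩, mem_endsOf.2 ⟨e, he, Or.inr rfl⟩⟩
  have hbip : Bip s t B := by
    refine ⟨fun v => decide (v ∈ Wp), fun e he => ?_⟩
    rw [mem_ins] at he
    have ha := (hBm _).1 he.1
    have hb := (hBm _).1 he.2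
    have hn : ¬ Dfc s t Wp Wm e := fun hd => ha.2 (hE e (hBU he.1) (hBU he.2) hd).1
    have h3 := hpm (s e)
    have h4 := hpm (t e)
    simp only [Dfc] at hn
    simp only [ne_eq, decide_eq_decide]
    tauto
  have hcut : cut s t B ⊆ cut s t U ∪ meet s t (endsOf s t Df) := by
    intro e he
    rw [mem_cut, hBm, hBm] at he
    rw [mem_union, mem_cut, mem_meet]
    exact ow_prop he (hE e) (hpU (s e)) (hpU (t e)) (hmU (s e)) (hmU (t e))
  have hec := endsOf_card (s := s) (t := t) Df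
  have hcc : (cut s t B).card ≤ γ + 6 * k := by
    have h3 := (card_le_card hcut).trans (card_union_le _ _)
    have h4 := meet_card hc (endsOf s t Df)
    omega
  have hBb := hH B hBU hbip hcc
  have hPB : P ⊆ B ∪ endsOf s t Df := by
    intro v hv
    rw [mem_union, hBm]
    have hvp : v ∈ Wp := by
      refine ow_mem.2 ⟨hPU hv, h1 (mem_product.2 ⟨hv, mem_singleton_self _⟩), fun h => ?_⟩
      exact disjoint_left.1 h2 h (mem_product.2 ⟨hv, mem_singleton_self _⟩)
    tauto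
  have h3 := (card_le_card hPB).trans (card_union_le _ _)
  omega

theorem p_OW (hMGS : S_MGS) :
    S_OW := by
  intro V E _ _ _ _ s t U P γ k b hc hγ hH hPU hP
  have hne : (P ×ˢ ({true} : Finset Bool)).Nonempty :=
    Nonempty.product (card_pos.1 (by omega)) (singleton_nonempty _)
  have hdj : Disjoint (P ×ˢ ({true} : Finset Bool)) (P ×ˢ ({false} : Finset Bool)) := by
    rw [disjoint_left]
    rintro ⟨v, c⟩ h1 h2
    simp only [mem_product, mem_singleton] at h1 h2
    exact absurd (h1.2.symm.trans h2.2) (by decide)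
  obtain ⟨A, hA, hld⟩ := hMGS (V × Bool) (E × Bool) (ow_s s) (ow_t t) _ _
    (ins s t U ×ˢ (univ : Finset Bool)) k hne hdj (ow_cut s t U P γ k b hc hγ hH hPU hP)
  refine ⟨fun j => (A j).image Prod.fst, fun e => ?_, fun S T hS hST j => ?_⟩
  · have h := cnt_le_add (P := fun j => e ∈ (A j).image Prod.fst)
      (Q := fun j => (e, true) ∈ A j) (R := fun j => (e, false) ∈ A j) (by
        intro j hj
        obtain ⟨⟨e', c⟩, hx, rfl⟩ := mem_image.1 hj
        cases c
        · exact Or.inr hx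
        · exact Or.inl hx)
    have h1 := hld (e, true)
    have h2 := hld (e, false)
    exact h.trans (by omega)
  · obtain ⟨⟨e, c⟩, hx⟩ := hA j (S ×ˢ ({true} : Finset Bool) ∪ T ×ˢ ({false} : Finset Bool))
      ((product_subset_product_left hS).trans subset_union_left) (by
        rw [disjoint_left]
        rintro ⟨v, c⟩ h1 h2
        simp only [mem_union, mem_product, mem_singleton] at h1 h2
        rcases h1 with h1 | h1
        · exact absurd (h1.2.symm.trans h2.2) (by decide)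
        · exact disjoint_left.1 hST (hS h2.1) h1.1)
    rw [mem_inter, mem_inter, mem_cut, mem_product] at hx
    refine ⟨e, mem_image.2 ⟨(e, c), hx.1, rfl⟩, hx.2.2.1, ?_⟩
    have h := hx.2.1
    cases c
    · simp only [ow_s, ow_t, mem_union, mem_product, mem_singleton, Bool.not_false,
        Bool.false_eq_true, Bool.true_eq_false, and_false, and_true, false_or, or_false] at h
      simp only [Dfc]
      tauto
    · simp only [ow_s, ow_t, mem_union, mem_product, mem_singleton, Bool.not_true,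
        Bool.false_eq_true, Bool.true_eq_false, and_false, and_true, false_or, or_false] at h
      simp only [Dfc]
      tauto

end Pool.Agent.P.MP_40718a_co.Wb

end

section
/-! Step OWF. -/

set_option linter.unusedSectionVars false

namespace Pool.Agent.P.MP_40718a_co.Wb

open Finset ABF Bc

theorem p_OWF (hOW : S_OW) (hFAM : S_FAM) :
    S_OWF := by
  intro n n2 z
  obtain ⟨N, hN⟩ := hFAM (4 * (3 * n + n2)) (2 ^ z)
  refine ⟨N, fun V E _ _ _ _ s t U Zn J γ b hc hz hγ h2 => ?_⟩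
  classical
  have k : ∀ P : Finset V, ∃ A : Fin (4 * (3 * n + n2)) → Finset E,
      (∀ e, cnt (fun j => e ∈ A j) ≤ 4) ∧ (P ⊆ U → b + 8 * (3 * n + n2) < P.card →
        ∀ S T : Finset V, P ⊆ S → Disjoint S T →
          ∀ j, ∃ e ∈ A j, e ∈ ins s t U ∧ Dfc s t S T e) := fun P => by
    by_cases h : P ⊆ U ∧ b + 8 * (3 * n + n2) < P.card
    · obtain ⟨A, a1, a2⟩ := hOW V E s t U P γ (4 * (3 * n + n2)) b hc hγ
        (h2.mono (Subset.refl _) (by omega) le_rfl) h.1 (by omega)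
      exact ⟨A, a1, fun _ _ => a2⟩
    · exact ⟨fun _ => ∅, fun e => (cnt_eq_zero fun _ => notMem_empty e).trans_le (Nat.zero_le _),
        fun a a' => (h ⟨a, a'⟩).elim⟩
  choose A a1 a2 using k
  obtain ⟨pat, hp⟩ := hN V E s t Zn.powerset 4 n n2 (fun P => A P) J hc
    (by rw [Fintype.card_coe, card_powerset]; exact Nat.pow_le_pow_right two_pos hz)
    four_pos le_rfl fun P => a1 P
  refine ⟨pat, fun D c0 h0 hD S hS T hd hb => ?_⟩
  refine (hp D c0 h0 hD ⟨S ∩ Zn, mem_powerset.2 inter_subset_right⟩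
    (univ.filter fun e => e ∈ ins s t U ∧ Dfc s t S T e) fun j => ?_).trans ?_
  · obtain ⟨e, b1, b2⟩ := a2 (S ∩ Zn) (inter_subset_left.trans hS) hb S T inter_subset_left hd j
    exact ⟨e, mem_inter.2 ⟨b1, mem_filter.2 ⟨mem_univ _, b2⟩⟩⟩
  · rw [cnt_eq]
    refine card_le_card fun e he => ?_
    obtain ⟨b1, b2⟩ := mem_sdiff.1 he
    obtain ⟨-, b3, b4⟩ := mem_filter.1 b1
    exact mem_filter.2 ⟨mem_univ _, b3, b2, b4⟩

end Pool.Agent.P.MP_40718a_co.Wb

end

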