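import Pool.Agent.P.MP_40718a_co.Wb.Base

/-! Covers by a bounded number of perfect matchings: the statements of the parts. -/

namespace Pool.Agent.P.MP_40718a_co.Wb

open Finset ABF Bc

/-! ### Matchings of poles -/

-- deps:
def S_MINO : Prop :=
  ∀ (V E : Type) [Fintype V] [Fintype E] [DecidableEq V] [DecidableEq E] (s t : E → V)
    (O : Finset (Finset V)), Dj O → (∀ X ∈ O, Odd X.card) →
    ∃ O' : Finset (Finset V), Dj O' ∧ O'.card = O.card ∧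
      ∀ K ∈ O', Odd K.card ∧ Cn s t K ∧ ∃ X ∈ O, K ⊆ X ∧ cut s t K ⊆ cut s t X

-- deps: MINO
def S_TUT3 : Prop :=
  ∀ (V E : Type) [Fintype V] [Fintype E] [DecidableEq V] [DecidableEq E] (s t : E → V)
    (U : Finset V) (F : Finset E), Even U.card → F ⊆ ins s t U →
    (∃ L ⊆ F, PMon s t U L) ∨ ∃ (S : Finset V) (O : Finset (Finset V)), S ⊆ U ∧ Dj O ∧
      S.card + 2 ≤ O.card ∧ ∀ X ∈ O, X ⊆ U \ S ∧ Odd X.card ∧ Cn s t X ∧
        ∀ e ∈ cut s t X ∩ F, s e ∈ S ∨ t e ∈ S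

-- deps:
def S_BM : Prop :=
  ∀ (V E : Type) [Fintype V] [Fintype E] [DecidableEq V] [DecidableEq E] (s t : E → V)
    (U S : Finset V) (O : Finset (Finset V)) (M : Finset E), PMon s t U M → Bar s t U S O →
    (∀ X ∈ O, M ∩ cut s t X ⊆ ins s t U) →
    O.card ≤ S.card ∧ (S.card ≤ O.card → ∀ e ∈ M ∩ meet s t S, ∃ X ∈ O, e ∈ cut s t X)

-- deps:
def S_WT : Prop :=
  ∀ (V E : Type) [Fintype V] [Fintype E] [DecidableEq V] [DecidableEq E] (s t : E → V)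
    (S : Finset V) (O : Finset (Finset V)) (E1 : Finset E), Dj O → (∀ X ∈ O, Disjoint X S) →
    E1 ⊆ meet s t S → (∀ X ∈ O, Disjoint E1 (cut s t X)) →
    (∀ (y : E → ℤ) (Q : ℤ), (∀ e, 0 ≤ y e) → (∀ v ∈ S, vs s t y v = Q) →
      ∑ X ∈ O, ∑ e ∈ cut s t X ∩ meet s t S, y e + ∑ e ∈ E1, y e + ∑ e ∈ ins s t S, y e ≤
        S.card * Q) ∧
    (Cubic s t → ∑ X ∈ O, (cut s t X ∩ meet s t S).card + E1.card + (ins s t S).card ≤
      3 * S.card) ∧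
    ∀ U : Finset V, (∀ X ∈ O, X ⊆ U) →
      ∑ X ∈ O, (cut s t X ∩ cut s t U).card ≤ (cut s t (O.biUnion id) ∩ cut s t U).card

-- deps:
def S_COVL : Prop :=
  ∀ (V E : Type) [Fintype V] [Fintype E] [DecidableEq V] [DecidableEq E] (s t : E → V)
    (Y : Finset V) (σ : Finset E), St s t Y σ →
    (∀ (C : Type) [Fintype C] (cls : E → C) (K : ℕ) (Rq : E → Prop), Fintype.card C ≤ K →
      (∀ κ, (∃ e0, ∀ e ∈ ins s t Y, Rq e → cls e = κ → e = e0) ∨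
        ∃ M, PMs s t Y σ M ∧ ∀ e ∈ ins s t Y, Rq e → cls e = κ → e ∈ M) →
      CovR s t Y σ K Rq) ∧
    (∀ (K K' : ℕ) (Rq Rq' : E → Prop), CovR s t Y σ K Rq → K ≤ K' →
      (∀ e ∈ ins s t Y, Al s t Y σ e → Rq' e → Rq e) → CovR s t Y σ K' Rq') ∧
    (∀ (K K' : ℕ) (Rq Rq' : E → Prop), CovR s t Y σ K Rq → CovR s t Y σ K' Rq' →
      CovR s t Y σ (K + K') fun e => Rq e ∨ Rq' e) ∧
    ∀ (F : Finset E) (K : ℕ), F.card ≤ K → CovR s t Y σ K fun e => e ∈ F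

-- deps:
def S_STU : Prop :=
  ∀ (V E : Type) [Fintype V] [Fintype E] [DecidableEq V] [DecidableEq E] (s t : E → V)
    (Y : Finset V) (σ : Finset E), Cubic s t → St s t Y σ →
    (cut s t (Y \ endsOf s t σ)).card ≤ (cut s t Y).card + σ.card ∧
    (∀ N, PMs s t Y σ N → PMs s t (Y \ endsOf s t σ) ∅ N) ∧
    (∀ L, PMs s t (Y \ endsOf s t σ) ∅ L →
      PMs s t Y σ (σ ∪ L ∩ ins s t (Y \ endsOf s t σ))) ∧
    (∀ e ∈ ins s t Y, Al s t Y σ e → e ∈ ins s t (Y \ endsOf s t σ)) ∧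
    ∀ K, Cv s t (Y \ endsOf s t σ) K → CovR s t Y σ K fun _ => True

-- deps:
def S_SPL : Prop :=
  ∀ (V E : Type) [Fintype V] [Fintype E] [DecidableEq V] [DecidableEq E] (s t : E → V)
    (U X : Finset V) (Φ : Finset (Finset E)) (K : ℕ), X ⊆ U → 1 ≤ K → St s t U ∅ →
    (∀ M, PMs s t U ∅ M → M ∩ cut s t X ∈ Φ) →
    (∀ φ ∈ Φ, St s t X φ → St s t (U \ X) φ →
      (CovR s t X φ K fun _ => True) ∧ CovR s t (U \ X) φ K fun _ => True) →
    Cv s t U (Φ.card * K)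

-- deps: WT
def S_TUB : Prop :=
  ∀ (V E : Type) [Fintype V] [Fintype E] [DecidableEq V] [DecidableEq E] (s t : E → V)
    (U S : Finset V) (O : Finset (Finset V)) (γ b : ℕ), Cubic s t → Small s t 3 1 → U ≠ univ →
    Bar s t U S O → S.card ≤ O.card → (cut s t U).card ≤ γ → H2 s t U (8 * γ) b →
    S.card ≤ b + γ

/-! ### Bipartite poles -/

-- deps:
def S_HALL : Prop :=
  ∀ (V E : Type) [Fintype V] [Fintype E] [DecidableEq V] [DecidableEq E] (s t : E → V)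
    (U : Finset V) (F : Finset E) (col : V → Bool), F ⊆ ins s t U →
    (∀ e ∈ F, col (s e) ≠ col (t e)) →
    (U.filter fun v => col v = true).card = (U.filter fun v => col v = false).card →
    (∃ L ⊆ F, PMon s t U L) ∨ ∃ A B : Finset V, A ⊆ U.filter (fun v => col v = true) ∧
      B ⊆ U.filter (fun v => col v = false) ∧ B.card < A.card ∧
      ∀ e ∈ F, (s e ∈ A → t e ∈ B) ∧ (t e ∈ A → s e ∈ B)

-- deps: HALL
def S_HW : Prop :=
  ∀ (V E : Type) [Fintype V] [Fintype E] [DecidableEq V] [DecidableEq E] (s t : E → V)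
    (U : Finset V) (col : V → Bool), (∀ e ∈ ins s t U, col (s e) ≠ col (t e)) →
    (∀ M, PMs s t U ∅ M →
      (U.filter fun v => col v = true).card = (U.filter fun v => col v = false).card) ∧
    ∀ (ν : E → ℤ) (r γ : ℤ),
      (U.filter fun v => col v = true).card = (U.filter fun v => col v = false).card →
      (∀ e, 0 ≤ ν e) → (∀ e ∉ ins s t U, ν e = 0) → (∀ v ∈ U, r ≤ vs s t ν v) →
      (∀ B ⊆ U, ∑ v ∈ B, vs s t ν v ≤ r * B.card + γ) → 0 ≤ γ → γ < r →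
      ∃ L, PMs s t U ∅ L ∧ ∀ e ∈ L, 1 ≤ ν e

-- deps: HW
def S_KON : Prop :=
  ∀ (V E : Type) [Fintype V] [Fintype E] [DecidableEq V] [DecidableEq E] (s t : E → V)
    (U : Finset V) (col : V → Bool) (r : ℕ) (μ : E → ℤ),
    (∀ e ∈ ins s t U, col (s e) ≠ col (t e)) →
    (U.filter fun v => col v = true).card = (U.filter fun v => col v = false).card →
    (∀ e, 0 ≤ μ e) → (∀ e ∉ ins s t U, μ e = 0) → (∀ v ∈ U, vs s t μ v = r) →
    ∃ M : Fin r → Finset E, (∀ i, PMs s t U ∅ (M i)) ∧ ∀ e, 1 ≤ μ e → ∃ i, e ∈ M i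

-- deps: HW KON COVL
def S_MINR : Prop :=
  ∀ (V E : Type) [Fintype V] [Fintype E] [DecidableEq V] [DecidableEq E] (s t : E → V)
    (U : Finset V), Cubic s t → Bip s t U → St s t U ∅ → (∀ e ∈ ins s t U, Al s t U ∅ e) →
    Cv s t U (3 + (cut s t U).card)

-- deps: HALL HW
def S_TD1 : Prop :=
  ∀ (V E : Type) [Fintype V] [Fintype E] [DecidableEq V] [DecidableEq E] (s t : E → V)
    (U : Finset V) (col : V → Bool) (e : E), (∀ e ∈ ins s t U, col (s e) ≠ col (t e)) →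
    St s t U ∅ → e ∈ ins s t U → ¬ Al s t U ∅ e →
    ∃ A B : Finset V, A ⊆ U.filter (fun v => col v = true) ∧
      B ⊆ U.filter (fun v => col v = false) ∧ A.card = B.card ∧ B.Nonempty ∧ A ∪ B ≠ U ∧
      (∀ f ∈ ins s t U, (s f ∈ A → t f ∈ B) ∧ (t f ∈ A → s f ∈ B)) ∧
      ∀ M, PMs s t U ∅ M → M ∩ cut s t (A ∪ B) = ∅

-- deps:
def S_TD2 : Prop :=
  ∀ (V E : Type) [Fintype V] [Fintype E] [DecidableEq V] [DecidableEq E] (s t : E → V)
    (U A B : Finset V) (col : V → Bool), Cubic s t →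
    (∀ e ∈ ins s t U, col (s e) ≠ col (t e)) →
    (U.filter fun v => col v = true).card = (U.filter fun v => col v = false).card →
    A ⊆ U.filter (fun v => col v = true) → B ⊆ U.filter (fun v => col v = false) →
    A.card = B.card → (∀ f ∈ ins s t U, (s f ∈ A → t f ∈ B) ∧ (t f ∈ A → s f ∈ B)) →
    (cut s t (A ∪ B)).card ≤ (cut s t U).card ∧
      (cut s t (U \ (A ∪ B))).card ≤ (cut s t U).card

-- deps: MINR TD1 TD2 HW SPL COVL STU
def S_TB : Prop :=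
  ∀ (V E : Type) [Fintype V] [Fintype E] [DecidableEq V] [DecidableEq E] (s t : E → V),
    Cubic s t →
    (∀ (γ : ℕ) (U : Finset V), Bip s t U → St s t U ∅ → (cut s t U).card ≤ γ →
      Cv s t U (3 + γ)) ∧
    ∀ B : Finset V, Bip s t B → FTame s t B (3 + 2 * (cut s t B).card)

/-! ### Weak tameness -/

-- deps:
def S_CHN : Prop :=
  ∀ (V E : Type) [Fintype V] [Fintype E] [DecidableEq V] [DecidableEq E] (s t : E → V)
    (U X X' : Finset V) (a : Finset E), Cubic s t → EC 3 s t → Gn s t U a X → Gn s t U a X' →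
    (X ⊆ X' ∨ X' ⊆ X) ∧ (X ⊆ X' → X ≠ X' →
      (cut s t (X' \ X)).card = 4 ∧ Even (X' \ X).card ∧
      cut s t (X' \ X) = (cut s t X ∪ cut s t X') ∩ ins s t U ∧
      (cut s t X ∩ ins s t U).card = 2 ∧ (cut s t X' ∩ ins s t U).card = 2 ∧
      Disjoint (cut s t X ∩ ins s t U) (cut s t X'))

-- deps: TUT3 WT
def S_P4 : Prop :=
  ∀ (V E : Type) [Fintype V] [Fintype E] [DecidableEq V] [DecidableEq E] (s t : E → V)
    (W : Finset V), Cubic s t → EC 3 s t → Even W.card → (cut s t W).card ≤ 4 → St s t W ∅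

-- deps: CHN
def S_SEG : Prop :=
  ∀ (V E : Type) [Fintype V] [Fintype E] [DecidableEq V] [DecidableEq E] (s t : E → V)
    (U S X' X'' : Finset V) (O : Finset (Finset V)) (a : Finset E), Cubic s t → EC 3 s t →
    Bar s t U S O → (∀ Z ∈ O, Cn s t Z) → Gn s t U a X' → Gn s t U a X'' → X' ⊆ X'' →
    X' ≠ X'' → Disjoint S (X'' \ X') →
    (O.filter fun Z => ¬ Z ⊆ X' ∧ ¬ Disjoint Z X'').card ≤ 1

-- deps: CHN BM WT
def S_CORE1 : Prop :=
  ∀ (V E : Type) [Fintype V] [Fintype E] [DecidableEq V] [DecidableEq E] (s t : E → V)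
    (U S X X' X'' : Finset V) (O : Finset (Finset V)) (a M0 : Finset E) (e : E), Cubic s t →
    Small s t 3 1 → PMon s t U M0 → GP s t U M0 S O → e ∈ ins s t S → X ∈ O → Gn s t U a X →
    Gn s t U a X' → Gn s t U a X'' → X ⊆ X' → X' ⊆ X'' → X' ≠ X'' → Disjoint S (X'' \ X') →
    (O.filter fun Z => ¬ Z ⊆ X' ∧ ¬ Disjoint Z X'').card ≤ 1 →
    (∃ S' O', GP s t U M0 S' O' ∧ e ∈ ins s t S' ∧ S'.card < S.card) ∨
    (Bar s t U (S ∩ X') (O.filter fun Z => Z ⊆ X') ∧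
      (S ∩ X').card = (O.filter fun Z => Z ⊆ X').card + 1 ∧ ins s t (S ∩ X') = {e} ∧
      (∀ Z ∈ O, Z ⊆ X' → Z ≠ X → Z.card = 1) ∧
      (cut s t ((S ∩ X') ∪ (O.filter fun Z => Z ⊆ X').biUnion id) ∩ ins s t U).card ≤ 2)

-- deps:
def S_CORE2 : Prop :=
  ∀ (V E : Type) [Fintype V] [Fintype E] [DecidableEq V] [DecidableEq E] (s t : E → V)
    (U S X X' : Finset V) (O : Finset (Finset V)) (a : Finset E) (e : E) (b : ℕ), Cubic s t →
    Bar s t U S O → X ∈ O → Gn s t U a X → Gn s t U a X' → S ⊆ X' → (∀ Z ∈ O, Z ⊆ X') →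
    S.card = O.card + 1 → ins s t S = {e} → (∀ Z ∈ O, Z ≠ X → Z.card = 1) →
    (cut s t (S ∪ O.biUnion id) ∩ ins s t U).card ≤ 2 → S.card ≤ b + 1 →
    Cor s t U b e a X (S ∪ O.biUnion id)

-- deps: MINO WT CHN SEG CORE1 CORE2
def S_DEEP : Prop :=
  ∀ (V E : Type) [Fintype V] [Fintype E] [DecidableEq V] [DecidableEq E] (s t : E → V)
    (U S : Finset V) (O : Finset (Finset V)) (M0 : Finset E) (e : E) (b : ℕ), Cubic s t →
    Small s t 3 1 → PMon s t U M0 → GP s t U M0 S O → e ∈ ins s t S → S.card ≤ b + 1 →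
    (∃ S' O', GP s t U M0 S' O' ∧ e ∈ ins s t S' ∧ S'.card ≤ b) ∨
    (∃ a X X1, Cor s t U b e a X X1) ∨
    ∃ a X O', GP s t U M0 S O' ∧ X ∈ O' ∧ Gn s t U a X ∧
      cnt (fun X' : Finset V => Gn s t U a X' ∧ X ⊆ X' ∧ X ≠ X') ≤ b + 2

-- deps:
def S_PEEL : Prop :=
  ∀ (V E : Type) [Fintype V] [Fintype E] [DecidableEq V] [DecidableEq E] (s t : E → V)
    (U X : Finset V), Cubic s t → X ⊆ U → (cut s t X ∩ ins s t U).card ≤ 2 →
    ∃ K : Finset V, K.card ≤ 2 ∧ (cut s t (U \ (X ∪ K))).card ≤ (cut s t U).card + 6 ∧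
      ∀ (M0 : Finset E) (S : Finset V) (O : Finset (Finset V)) (e : E), PMon s t U M0 →
        GP s t U M0 S O → X ∈ O → e ∈ ins s t S → e ∉ meet s t K →
        ∃ S' O', GP s t (U \ (X ∪ K)) M0 S' O' ∧ e ∈ ins s t S' ∧ S'.card < S.card

-- deps:
def S_MRG : Prop :=
  ∀ (V E : Type) [Fintype V] [Fintype E] [DecidableEq V] [DecidableEq E] (s t : E → V)
    (U : Finset V) (Pm : Finset E → Prop), (∀ N, Pm N → PMon s t U N) →
    (∀ (D D1 D2 : Finset E) (l1 l2 : ℕ), D ⊆ D1 ∪ D2 → Cl s t U Pm D1 l1 → Cl s t U Pm D2 l2 →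
      Cl s t U Pm D (l1 + l2)) ∧
    (∀ (α : Type) [DecidableEq α] (f : E → α) (A : Finset α) (D : Finset E) (l n : ℕ),
      (∀ e ∈ D, f e ∈ A) → A.card ≤ n →
      (∀ x ∈ A, Cl s t U Pm (D.filter fun e => f e = x) l) → Cl s t U Pm D (n * l)) ∧
    (∀ (D : Finset E) (n : ℕ), D.card ≤ n → (∀ e ∈ D, ∃ N, Pm N ∧ e ∈ N) → Cl s t U Pm D n) ∧
    (∀ (U' : Finset V) (D : Finset E) (l : ℕ), U' ⊆ U → Cl s t U' Pm D l → Cl s t U Pm D l) ∧
    ∀ D : Finset E, Mrg s t U Pm D → Cl s t U Pm D 1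

-- deps: CHN P4
def S_GLC : Prop :=
  ∀ (V E : Type) [Fintype V] [Fintype E] [DecidableEq V] [DecidableEq E] (s t : E → V)
    (U : Finset V) (Pm : Finset E → Prop) (D a tr : Finset E) (b : ℕ) (X X1 : E → Finset V)
    (M : E → Finset E), Cubic s t → EC 3 s t → (∀ N, Pm N → PMon s t U N) →
    (∀ e ∈ D, Cor s t U b e a (X e) (X1 e) ∧ Pm (M e) ∧ e ∈ M e ∧ M e ∩ cut s t U = tr) →
    (∀ e ∈ D, ∀ e' ∈ D, e ≠ e' → X1 e ⊆ X e' ∨ X1 e' ⊆ X e) → Mrg s t U Pm D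

-- deps: CHN GLC MRG
def S_TUD : Prop :=
  ∀ b γ : ℕ, ∃ l : ℕ,
    ∀ (V E : Type) [Fintype V] [Fintype E] [DecidableEq V] [DecidableEq E] (s t : E → V)
      (U : Finset V) (Pm : Finset E → Prop) (D : Finset E), Cubic s t → EC 3 s t →
      (cut s t U).card ≤ γ → (∀ N, Pm N → PMon s t U N) →
      (∀ e ∈ D, (∃ N, Pm N ∧ e ∈ N) ∧ ∃ a X X1, Cor s t U b e a X X1) → Cl s t U Pm D l

-- deps: CHN PEEL MRG
def S_TUTP : Prop :=
  ∀ b γ l : ℕ, TUs b (γ + 6) l → ∃ l' : ℕ,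
    ∀ (V E : Type) [Fintype V] [Fintype E] [DecidableEq V] [DecidableEq E] (s t : E → V)
      (U : Finset V) (M0 : Finset E) (Pm : Finset E → Prop) (D : Finset E), Cubic s t →
      Small s t 3 1 → U ≠ univ → (cut s t U).card ≤ γ → PMon s t U M0 →
      (∀ N, Pm N → PMon s t U N) →
      (∀ e ∈ D, (∃ N, Pm N ∧ e ∈ N) ∧ ∃ S a X O, GP s t U M0 S O ∧ e ∈ ins s t S ∧
        S.card ≤ b + 1 ∧ X ∈ O ∧ Gn s t U a X ∧
        cnt (fun X' : Finset V => Gn s t U a X' ∧ X ⊆ X' ∧ X ≠ X') ≤ b + 2) →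
      Cl s t U Pm D l'

-- deps: DEEP TUD TUTP MRG
def S_TU : Prop :=
  ∀ b γ : ℕ, ∃ l : ℕ, TUs b γ l

-- deps: TU TUT3 TUB STU COVL
def S_TAMEU : Prop :=
  ∀ j bb : ℕ, ∃ l : ℕ, 1 ≤ l ∧
    ∀ (V E : Type) [Fintype V] [Fintype E] [DecidableEq V] [DecidableEq E] (s t : E → V)
      (Y : Finset V), Cubic s t → Small s t 3 1 → Y ≠ univ → (cut s t Y).card ≤ j →
      H2 s t Y (16 * j) bb → WTame s t Y l

/-! ### Types and replacement -/

-- deps: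
def S_LAB : Prop :=
  ∀ (V E : Type) [Fintype V] [Fintype E] [DecidableEq V] [DecidableEq E] (s t : E → V)
    (Y : Finset V) (j l : ℕ) (lab : Fin j → E), Lab s t Y lab →
    (WTame s t Y l → Tm false s t Y lab l) ∧ (FTame s t Y l → Tm true s t Y lab l)

-- deps:
def S_ISO : Prop :=
  ∀ (V E : Type) [Fintype V] [Fintype E] [DecidableEq V] [DecidableEq E] (s t : E → V)
    (V' E' : Type) [Fintype V'] [Fintype E'] [DecidableEq V'] [DecidableEq E'] (s' t' : E' → V')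
    (A : Finset V) (A' : Finset V') (f : V → V') (g : E → E'), (∀ e, s e ≠ t e) →
    (∀ e, s' e ≠ t' e) → Iso s t A s' t' A' f g →
    (∀ X ⊆ A, ∀ e ∈ meet s t A, (e ∈ cut s t X ↔ g e ∈ cut s' t' (X.image f)) ∧
      (e ∈ ins s t X ↔ g e ∈ ins s' t' (X.image f))) ∧
    (∀ (N : Finset E) (N' : Finset E'), (∀ e ∈ meet s t A, e ∈ N ↔ g e ∈ N') →
      ∀ v ∈ A, deg s t N v = deg s' t' N' (f v)) ∧
    (Nonempty V → Nonempty E → ∃ (f' : V' → V) (g' : E' → E), Iso s' t' A' s t A f' g' ∧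
      (∀ v ∈ A, f' (f v) = v) ∧ (∀ v ∈ A', f (f' v) = v) ∧
      (∀ e ∈ meet s t A, g' (g e) = e) ∧ ∀ e ∈ meet s' t' A', g (g' e) = e)

-- deps: ISO
def S_ISO1 : Prop :=
  ∀ (V E : Type) [Fintype V] [Fintype E] [DecidableEq V] [DecidableEq E] (s t : E → V)
    (V' E' : Type) [Fintype V'] [Fintype E'] [DecidableEq V'] [DecidableEq E'] (s' t' : E' → V')
    (W : Finset V) (W' : Finset V') (f : V → V') (g : E → E') (j : ℕ) (lab : Fin j → E)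
    (lab' : Fin j → E'), (∀ e, s e ≠ t e) → (∀ e, s' e ≠ t' e) → Iso s t W s' t' W' f g →
    Lab s t W lab → (∀ i, lab' i = g (lab i)) →
    Lab s' t' W' lab' ∧
    (∀ a N, PMl s t W lab a N → ∃ N', PMl s' t' W' lab' a N' ∧
      ∀ e ∈ meet s t W, e ∈ N ↔ g e ∈ N') ∧
    ∀ π c f1 f2, Con s t W lab π c f1 f2 → Con s' t' W' lab' π c f1 f2

-- deps: ISO ISO1
def S_ISO2 : Prop :=
  ∀ (V E : Type) [Fintype V] [Fintype E] [DecidableEq V] [DecidableEq E] (s t : E → V)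
    (V' E' : Type) [Fintype V'] [Fintype E'] [DecidableEq V'] [DecidableEq E'] (s' t' : E' → V')
    (W : Finset V) (W' : Finset V') (f : V → V') (g : E → E') (j l : ℕ) (lab : Fin j → E)
    (lab' : Fin j → E'), Cubic s t → Cubic s' t' → W.Nonempty → Iso s t W s' t' W' f g →
    Lab s t W lab → (∀ i, lab' i = g (lab i)) →
    Lab s' t' W' lab' ∧ SameT l s t W lab s' t' W' lab' ∧
      ∀ full, Tm full s t W lab l → Tm full s' t' W' lab' l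

-- deps: ISO
def S_REP : Prop :=
  ∀ (V E : Type) [Fintype V] [Fintype E] [DecidableEq V] [DecidableEq E] (s t : E → V)
    (Y1 : Finset V) (j : ℕ) (lab : Fin j → E) (L : GadLP j), Cubic s t → Lab s t Y1 lab →
    ∃ (P : Pole) (f : V → P.V) (g : E → P.E) (f2 : L.Q.V → P.V) (g2 : L.Q.E → P.E),
      Iso s t Y1ᶜ P.s P.t P.Wᶜ f g ∧ Iso L.Q.s L.Q.t L.Q.W P.s P.t P.W f2 g2 ∧
      ∀ i, g (lab i) = g2 (L.lab i)

-- deps: ISO
def S_REPS : Prop :=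
  ∀ (V E : Type) [Fintype V] [Fintype E] [DecidableEq V] [DecidableEq E] (s t : E → V)
    (V' E' : Type) [Fintype V'] [Fintype E'] [DecidableEq V'] [DecidableEq E'] (s' t' : E' → V')
    (Y1 : Finset V) (Z1 : Finset V') (f : V → V') (g : E → E') (j : ℕ) (lab : Fin j → E)
    (lab' : Fin j → E'), Cubic s t → Cubic s' t' → Small s t 3 1 →
    Iso s t Y1ᶜ s' t' Z1ᶜ f g → Lab s t Y1 lab → Lab s' t' Z1 lab' → (∀ i, lab' i = g (lab i)) →
    (∀ π, ∀ c ≤ 3, ∀ f1 f2, Con s' t' Z1 lab' π c f1 f2 → Con s t Y1 lab π c f1 f2) →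
    Small s' t' 3 1

-- deps: ISO
def S_OUT : Prop :=
  ∀ (V E : Type) [Fintype V] [Fintype E] [DecidableEq V] [DecidableEq E] (s t : E → V)
    (V' E' : Type) [Fintype V'] [Fintype E'] [DecidableEq V'] [DecidableEq E'] (s' t' : E' → V')
    (Y Y1 : Finset V) (Z1 : Finset V') (f : V → V') (g : E → E'), Cubic s t → Cubic s' t' →
    Y1.Nonempty → Y1 ⊆ Y → Iso s t Y1ᶜ s' t' Z1ᶜ f g →
    ∃ (Z : Finset V') (g' : E' → E), Out s t Y Y1 s' t' Z Z1 g g' ∧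
      Z.card + Y1.card = Y.card + Z1.card ∧ (Y ≠ univ → Z ≠ univ) ∧
      (cut s' t' Z).card = (cut s t Y).card

-- deps:
def S_GAD2 : Prop :=
  ∀ (j l : ℕ) (Good : GadLP j → Prop), ∃ B : ℕ, ∀ L : GadLP j, Good L →
    ∃ L' : GadLP j, Good L' ∧ L'.Q.W.card ≤ B ∧
      SameT l L.Q.s L.Q.t L.Q.W L.lab L'.Q.s L'.Q.t L'.Q.W L'.lab

-- deps: GAD2 REP ISO2 REPS OUT
def S_GR : Prop :=
  ∀ (j l : ℕ) (full : Bool), ∃ B : ℕ,
    ∀ (V E : Type) [Fintype V] [Fintype E] [DecidableEq V] [DecidableEq E] (s t : E → V)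
      (Y Y1 : Finset V) (lab : Fin j → E), Cubic s t → Small s t 3 1 → Y ≠ univ → Y1 ⊆ Y →
      Lab s t Y1 lab → Tm full s t Y1 lab l → B < Y1.card →
      ∃ (P : Pole) (Z : Finset P.V) (g : E → P.E) (g' : P.E → E), Small P.s P.t 3 1 ∧
        Z ≠ univ ∧ Z.card < Y.card ∧ (cut P.s P.t Z).card = (cut s t Y).card ∧
        Out s t Y Y1 P.s P.t Z P.W g g' ∧ Lab P.s P.t P.W (fun i => g (lab i)) ∧
        SameT l s t Y1 lab P.s P.t P.W (fun i => g (lab i)) ∧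
        Tm full P.s P.t P.W (fun i => g (lab i)) l

-- deps:
def S_TY : Prop :=
  ∀ (V E : Type) [Fintype V] [Fintype E] [DecidableEq V] [DecidableEq E] (s t : E → V)
    (V' E' : Type) [Fintype V'] [Fintype E'] [DecidableEq V'] [DecidableEq E'] (s' t' : E' → V')
    (W : Finset V) (W' : Finset V') (j l : ℕ) (lab : Fin j → E) (lab' : Fin j → E')
    (Fm : Set (Finset (Fin j)) → Prop) (I : Type) [Fintype I] (z : I → Finset (Fin j)),
    SameT l s t W lab s' t' W' lab' → 1 ≤ l → TameF s t W lab l Fm →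
    CovZ s t W lab Fm z → CovZ s' t' W' lab' Fm z

-- deps: TY
def S_TRF : Prop :=
  ∀ (V E : Type) [Fintype V] [Fintype E] [DecidableEq V] [DecidableEq E] (s t : E → V)
    (V' E' : Type) [Fintype V'] [Fintype E'] [DecidableEq V'] [DecidableEq E'] (s' t' : E' → V')
    (Y Y1 : Finset V) (Z Z1 : Finset V') (g : E → E') (g' : E' → E) (j l : ℕ)
    (lab : Fin j → E) (lab' : Fin j → E') (Fm : Set (Finset (Fin j)) → Prop) (I : Type)
    [Fintype I] (N : I → Finset E), Out s t Y Y1 s' t' Z Z1 g g' → Lab s t Y1 lab →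
    Lab s' t' Z1 lab' → (∀ i, lab' i = g (lab i)) → SameT l s t Y1 lab s' t' Z1 lab' → 1 ≤ l →
    TameF s t Y1 lab l Fm → (∀ i, PMon s t Y (N i)) →
    (∀ e ∈ ins s t Y1, Fm (sig s t Y1 lab e) → ∃ i, e ∈ N i) →
    ∃ N' : I → Finset E', (∀ i, PMon s' t' Z (N' i) ∧
        ∀ e ∉ ins s t Y1, e ∈ N i ↔ g e ∈ N' i) ∧
      ∀ e ∈ ins s' t' Z1, Fm (sig s' t' Z1 lab' e) → ∃ i, e ∈ N' i

-- deps:
def S_ALT : Prop :=
  ∀ (V E : Type) [Fintype V] [Fintype E] [DecidableEq V] [DecidableEq E] (s t : E → V)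
    (Y Y1 : Finset V) (j : ℕ) (lab : Fin j → E) (σ : Finset E) (e : E), Y1 ⊆ Y →
    Lab s t Y1 lab → e ∈ ins s t Y1 →
    (Al s t Y σ e ↔ ∃ a ∈ sig s t Y1 lab e, ∃ N0, PMs s t Y σ N0 ∧ gadLabels lab N0 = a)

-- deps: TRF
def S_AL2 : Prop :=
  ∀ (V E : Type) [Fintype V] [Fintype E] [DecidableEq V] [DecidableEq E] (s t : E → V)
    (V' E' : Type) [Fintype V'] [Fintype E'] [DecidableEq V'] [DecidableEq E'] (s' t' : E' → V')
    (Y Y1 : Finset V) (Z Z1 : Finset V') (g : E → E') (g' : E' → E) (j l : ℕ)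
    (lab : Fin j → E) (lab' : Fin j → E') (σ : Finset E), Out s t Y Y1 s' t' Z Z1 g g' →
    Lab s t Y1 lab → Lab s' t' Z1 lab' → (∀ i, lab' i = g (lab i)) →
    SameT l s t Y1 lab s' t' Z1 lab' → 1 ≤ l → σ ⊆ cut s t Y →
    (∀ e ∉ ins s t Y1, Al s t Y σ e ↔ Al s' t' Z (σ.image g) (g e)) ∧
    ∀ a, (∃ N0, PMs s t Y σ N0 ∧ gadLabels lab N0 = a) ↔
      ∃ N0, PMs s' t' Z (σ.image g) N0 ∧ gadLabels lab' N0 = a

-- deps: TRF ALT AL2
def S_RS0 : Prop :=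
  ∀ (V E : Type) [Fintype V] [Fintype E] [DecidableEq V] [DecidableEq E] (s t : E → V)
    (V' E' : Type) [Fintype V'] [Fintype E'] [DecidableEq V'] [DecidableEq E'] (s' t' : E' → V')
    (Y Y1 : Finset V) (Z Z1 : Finset V') (g : E → E') (g' : E' → E) (j l K θ : ℕ)
    (lab : Fin j → E) (lab' : Fin j → E')
    (Sg : Finset E → Prop) (N : Fin K → Finset E) (τ : Finset E),
    Out s t Y Y1 s' t' Z Z1 g g' → Lab s t Y1 lab → Lab s' t' Z1 lab' →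
    (∀ i, lab' i = g (lab i)) → SameT l s t Y1 lab s' t' Z1 lab' → 1 ≤ l → 1 ≤ θ →
    Tm false s t Y1 lab l → RR s' t' Z K θ →
    (∀ i, PMon s t Y (N i)) → θ ≤ cnt (fun i => N i ∩ cut s t Y = τ) →
    (∀ e ∈ ins s t Y, (∃ σ, Sg σ ∧ Al s t Y σ e) → ¬ Al s t Y τ e → ∃ i, e ∈ N i) →
    ∃ N' : Fin K → Finset E', (∀ i, PMon s' t' Z (N' i) ∧
        ∀ e ∈ cut s t Y, e ∈ N i ↔ g e ∈ N' i) ∧
      (∀ e ∈ ins s t Y, e ∉ ins s t Y1 → (∃ σ, Sg σ ∧ Al s t Y σ e) → ∃ i, g e ∈ N' i) ∧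
      ∀ e ∈ ins s' t' Z1, (∃ a ∈ sig s' t' Z1 lab' e,
        ∃ σ N0, Sg σ ∧ PMs s t Y σ N0 ∧ gadLabels lab N0 = a) → ∃ i, e ∈ N' i

-- deps: RS0 TRF
def S_RS1 : Prop :=
  ∀ (V E : Type) [Fintype V] [Fintype E] [DecidableEq V] [DecidableEq E] (s t : E → V)
    (V' E' : Type) [Fintype V'] [Fintype E'] [DecidableEq V'] [DecidableEq E'] (s' t' : E' → V')
    (Y Y1 : Finset V) (Z Z1 : Finset V') (g : E → E') (g' : E' → E) (j l K θ : ℕ)
    (lab : Fin j → E) (lab' : Fin j → E')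
    (Sg : Finset E → Prop) (N : Fin K → Finset E) (τ : Finset E),
    Out s t Y Y1 s' t' Z Z1 g g' → Lab s t Y1 lab → Lab s' t' Z1 lab' →
    (∀ i, lab' i = g (lab i)) → SameT l s t Y1 lab s' t' Z1 lab' → 1 ≤ l → 1 ≤ θ →
    Tm false s t Y1 lab l → RR s' t' Z K θ →
    (∀ i, PMon s t Y (N i)) → θ ≤ cnt (fun i => N i ∩ cut s t Y = τ) →
    (∀ e ∈ ins s t Y, (∃ σ, Sg σ ∧ Al s t Y σ e) → ¬ Al s t Y τ e → ∃ i, e ∈ N i) →
    ∃ z : Fin K → Finset (Fin j), (∀ i, ∃ N', PMl s' t' Z1 lab' (z i) N') ∧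
      ∀ Fm : Set (Finset (Fin j)) → Prop, TameF s' t' Z1 lab' l Fm →
        (∀ sg, Fm sg → ∃ a ∈ sg, ∃ σ N0, Sg σ ∧ PMs s t Y σ N0 ∧ gadLabels lab N0 = a) →
        ∃ N2 : Fin K → Finset E,
          (∀ i, PMs s t Y (N i ∩ cut s t Y) (N2 i) ∧ gadLabels lab (N2 i) = z i) ∧
          (∀ e ∈ ins s t Y, e ∉ ins s t Y1 → (∃ σ, Sg σ ∧ Al s t Y σ e) → ∃ i, e ∈ N2 i) ∧
          ∀ e ∈ ins s t Y1, Fm (sig s t Y1 lab e) → ∃ i, e ∈ N2 i

-- deps: RS1 ALT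
def S_RSB : Prop :=
  ∀ (V E : Type) [Fintype V] [Fintype E] [DecidableEq V] [DecidableEq E] (s t : E → V)
    (V' E' : Type) [Fintype V'] [Fintype E'] [DecidableEq V'] [DecidableEq E'] (s' t' : E' → V')
    (Y Y1 : Finset V) (Z Z1 : Finset V') (g : E → E') (g' : E' → E) (j l K θ : ℕ)
    (lab : Fin j → E) (lab' : Fin j → E'),
    Out s t Y Y1 s' t' Z Z1 g g' → Lab s t Y1 lab → Lab s' t' Z1 lab' →
    (∀ i, lab' i = g (lab i)) → SameT l s t Y1 lab s' t' Z1 lab' → 1 ≤ l → 1 ≤ θ →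
    Tm true s t Y1 lab l → Tm true s' t' Z1 lab' l → RR s' t' Z K θ → RR s t Y K θ

-- deps: RS1 ALT
def S_RSU : Prop :=
  ∀ (V E : Type) [Fintype V] [Fintype E] [DecidableEq V] [DecidableEq E] (s t : E → V)
    (V' E' : Type) [Fintype V'] [Fintype E'] [DecidableEq V'] [DecidableEq E'] (s' t' : E' → V')
    (Y Y1 : Finset V) (Z Z1 : Finset V') (g : E → E') (g' : E' → E) (j l K θ : ℕ)
    (lab : Fin j → E) (lab' : Fin j → E'),
    Out s t Y Y1 s' t' Z Z1 g g' → Lab s t Y1 lab → Lab s' t' Z1 lab' →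
    (∀ i, lab' i = g (lab i)) → SameT l s t Y1 lab s' t' Z1 lab' → 1 ≤ l → 1 ≤ θ →
    Tm false s t Y1 lab l → Tm false s' t' Z1 lab' l → RR s' t' Z K θ → RR s t Y1 K θ →
    2 ^ j * θ ≤ K → RR s t Y K θ

-- deps:
def S_RBASE : Prop :=
  ∀ (V E : Type) [Fintype V] [Fintype E] [DecidableEq V] [DecidableEq E] (s t : E → V)
    (Y : Finset V) (K θ : ℕ), 1 ≤ θ →
    (∀ τ, St s t Y τ → CovR s t Y τ θ fun _ => True) → RR s t Y K θ

end Pool.Agent.P.MP_40718a_co.Wb
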