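import Pool.Agent.P.MP_40718a_co.Wb.IfaceB
import Pool.Agent.P.MP_40718a_co.Wb.Iface

section
/-! Step WIF. -/

set_option linter.unusedSectionVars false

namespace Pool.Agent.P.MP_40718a_co.Wb

open Finset ABF Bc

theorem wif_fam (hMGS : S_MGS) {V E : Type} [Fintype V] [Fintype E] [DecidableEq V]
    [DecidableEq E] (s t : E → V) (U P T : Finset V) (F : Finset E) (k : ℕ) :
    ∃ A : Fin k → Finset E, (∀ e, cnt (fun j => e ∈ A j) ≤ 2) ∧ (P.Nonempty →
      (∀ W ⊆ U, P ⊆ W → Disjoint W T → k ≤ (cut s t W \ F).card) →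
      ∀ X ⊆ U, P ⊆ X → Disjoint X T → ∀ j, (A j ∩ (cut s t X \ F)).Nonempty) := by
  have e1 : ∀ W : Finset V, Disjoint W (T ∪ Uᶜ) ↔ Disjoint W T ∧ W ⊆ U := fun W => by
    rw [disjoint_union_right, disjoint_compl_right_iff]
  have e2 : ∀ G : Finset E, G ∩ Fᶜ = G \ F := fun G => by ext; simp
  by_cases h : P.Nonempty ∧ (∀ W ⊆ U, P ⊆ W → Disjoint W T → k ≤ (cut s t W \ F).card) ∧
      Disjoint P T ∧ P ⊆ U
  · obtain ⟨A, h1, h2⟩ := hMGS V E s t P (T ∪ Uᶜ) Fᶜ k h.1 ((e1 P).2 h.2.2) fun W a b => by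
      rw [e2]
      exact h.2.1 W ((e1 W).1 b).2 a ((e1 W).1 b).1
    refine ⟨A, h2, fun _ _ X a b c j => ?_⟩
    rw [← e2]
    exact h1 j X b ((e1 X).2 ⟨c, a⟩)
  · exact ⟨fun _ => ∅, fun e => by rw [cnt_eq_zero (by simp)]; omega,
      fun a b X c d e => (h ⟨a, b, e.mono_left d, d.trans c⟩).elim⟩

theorem p_WIF (hMGS : S_MGS) (hFAM : S_FAM) :
    S_WIF := by
  intro n z
  obtain ⟨N, hN⟩ := hFAM (2 * (3 * n + 4)) (2 ^ z * (2 ^ z * 2 ^ (3 * z)))
  refine ⟨N, fun V E _ _ _ _ s t U Zn J hc hz => ?_⟩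
  choose A h1 h2 using fun (P T : Finset V) (F : Finset E) =>
    wif_fam hMGS s t U P T F (2 * (3 * n + 4))
  obtain ⟨pat, hp⟩ := hN V E s t
    (Zn.powerset ×ˢ Zn.powerset ×ˢ (meet s t Zn).powerset : Finset _) 2 n 4
    (fun π => A π.1.1 π.1.2.1 π.1.2.2) J hc (by
      rw [Fintype.card_coe, card_product, card_product, card_powerset, card_powerset]
      have a : 2 ^ Zn.card ≤ 2 ^ z := Nat.pow_le_pow_right (by omega) hz
      have b : 2 ^ (meet s t Zn).card ≤ 2 ^ (3 * z) :=
        Nat.pow_le_pow_right (by omega) ((meet_card hc Zn).trans (by omega))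
      exact Nat.mul_le_mul a (Nat.mul_le_mul a b)) (by omega) le_rfl (fun π e => h1 _ _ _ e)
  refine ⟨pat, fun D c0 h0 hD P hP T hT F hF hne hW X a b c => ?_⟩
  exact hp D c0 h0 hD ⟨(P, T, F), by simp [hP, hT, hF]⟩ _ (h2 P T F hne hW X a b c)

end Pool.Agent.P.MP_40718a_co.Wb

end

section
/-! Step ENV. -/

set_option linter.unusedSectionVars false

namespace Pool.Agent.P.MP_40718a_co.Wb

open Finset ABF Bc

section Env

variable {V E : Type} [Fintype V] [Fintype E] [DecidableEq V] [DecidableEq E] {s t : E → V}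

theorem env_cut_meet {U Zn : Finset V} (h : term s t U ⊆ Zn) : cut s t U ⊆ meet s t Zn := by
  intro e he
  rw [mem_meet]
  by_cases hs : s e ∈ U
  · exact Or.inl (h (mem_term.2 ⟨hs, e, he, Or.inl rfl⟩))
  · have ht : t e ∈ U := by rw [mem_cut] at he; tauto
    exact Or.inr (h (mem_term.2 ⟨ht, e, he, Or.inr rfl⟩))

theorem env_big {U W : Finset V} {g : ℕ → ℕ} {κ : ℕ} (h : H1 s t U g κ) (hW : W ⊆ U)
    (hne : W ≠ U) (hL : (range κ).sup g < W.card) : κ ≤ (cut s t W).card := by
  by_contra hc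
  have h1 : (cut s t W).card < κ := not_le.1 hc
  have h2 := h W hW hne h1
  have h3 : g (cut s t W).card ≤ (range κ).sup g := le_sup (f := g) (mem_range.2 h1)
  omega

theorem env_inner {U W : Finset V} : cut s t W ∩ ins s t U ⊆ cut s t W \ cut s t U := by
  intro e he
  rw [mem_inter] at he
  exact mem_sdiff.2 ⟨he.1, disjoint_left.1 (disjoint_ins_cut U) he.2⟩

end Env

theorem p_ENV (hOWF : S_OWF) (hWIF : S_WIF) :
    S_ENV := by
  intro n m κ z
  obtain ⟨N1, h1⟩ := hOWF n (20 * (2 * κ + m) + 1) z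
  obtain ⟨N2, h2⟩ := hWIF n z
  refine ⟨N1 * N2, ?_⟩
  intro V E _ _ _ _ s t U Zn J g H b hc hz hterm hcut hH hκ hH1 hUn hH2 hRed
  obtain ⟨p1, hp1⟩ := h1 V E s t U Zn J (2 * κ) b hc hz hcut hH2
  obtain ⟨p2, hp2⟩ := h2 V E s t U Zn J hc hz
  refine ⟨fun e => finProdFinEquiv (p1 e, p2 e), ?_⟩
  intro D c0 hc0 hD
  have hD1 : ∀ c ∈ D, p1 c = p1 c0 ∧ (J c).card ≤ n := fun c hcD =>
    ⟨congrArg Prod.fst (finProdFinEquiv.injective (hD c hcD).1), (hD c hcD).2⟩
  have hD2 : ∀ c ∈ D, p2 c = p2 c0 ∧ (J c).card ≤ n := fun c hcD =>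
    ⟨congrArg Prod.snd (finProdFinEquiv.injective (hD c hcD).1), (hD c hcD).2⟩
  have q1 := hp1 D c0 hc0 hD1
  have q2 := hp2 D c0 hc0 hD2
  refine ⟨?_, ?_, ?_, ?_⟩
  · intro S hS T _ hST hL
    exact q1 S hS T hST hL
  · intro X hX hL v hv hvX F hF hF3
    rw [mem_inter] at hv
    refine q2 (X ∩ Zn) inter_subset_right {v} (singleton_subset_iff.2 hv.2) F hF
      (card_pos.1 (by omega)) ?_ X hX inter_subset_left (disjoint_singleton_right.2 hvX)
    intro W hW hPW hd
    have hne : W ≠ U := by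
      rintro rfl
      exact disjoint_singleton_right.1 hd hv.1
    have a := env_big hH1 hW hne (hL.trans_le (card_le_card hPW))
    have b := le_card_sdiff F (cut s t W)
    omega
  · intro X hX X' hX' hd hL hL'
    refine q2 (X ∩ Zn) inter_subset_right (X' ∩ Zn) inter_subset_right (cut s t U)
      (env_cut_meet hterm) (card_pos.1 (by omega)) ?_ X hX inter_subset_left
      (hd.mono_right inter_subset_left)
    intro W hW hPW hWT
    have a : (X ∩ Zn).card ≤ W.card := card_le_card hPW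
    have b : (X' ∩ Zn).card ≤ (U \ W).card := card_le_card fun x hx =>
      mem_sdiff.2 ⟨hX' (mem_inter.1 hx).1, disjoint_right.1 hWT hx⟩
    have c : (cut s t W ∩ ins s t U).card ≤ (cut s t W \ cut s t U).card :=
      card_le_card env_inner
    have d := hUn W hW
    omega
  · intro S O hB hO
    exact hRed S O hB fun X hX => (hO X hX).trans hz

end Pool.Agent.P.MP_40718a_co.Wb

end

section
/-! Step FA. -/

set_option linter.unusedSectionVars false

namespace Pool.Agent.P.MP_40718a_co.Wb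

open Finset ABF Bc

theorem p_FA (hTUT3 : S_TUT3) :
    S_FA := by
  intro V E _ _ _ _ s t U D y Q hl hU hDU hQ h0 hv hD
  have mem1 : ∀ e v, (s e = v ∨ t e = v) → e ∈ cut s t {v} := by
    intro e v h
    have := hl e
    rw [mem_cut, mem_singleton, mem_singleton]
    rcases h with rfl | rfl
    · simp [this.symm]
    · simp [this]
  have A : ∀ c ∈ D, ∀ e v, (s c = v ∨ t c = v) → (s e = v ∨ t e = v) → e ≠ c → y e = 0 := by
    intro c hc e v h1 h2 hne
    have h3 : ({e, c} : Finset E) ⊆ cut s t {v} :=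
      insert_subset (mem1 _ _ h2) (singleton_subset_iff.2 (mem1 _ _ h1))
    have h4 := sum_le_sum_of_subset_of_nonneg (f := y) h3 fun e _ _ => h0 e
    rw [sum_pair hne, ← vs_eq_cut hl, hv, hD c hc] at h4
    have := h0 e
    omega
  have B : IsMatch s t D := by
    refine isMatch_iff.2 ⟨fun e _ => hl e, fun e he f hf v h1 h2 => ?_⟩
    by_contra hne
    have := A f hf e v h2 h1 hne
    rw [hD e he] at this
    omega
  have C : PMon s t (endsOf s t D) D := fun v h => by
    obtain ⟨c, hc, h⟩ := mem_endsOf.1 h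
    have h1 := B v
    have h2 : deg s t D v ≠ 0 := fun h2 => by
      have := deg_eq_zero.1 h2 c hc
      tauto
    omega
  have I : D ⊆ ins s t (endsOf s t D) := fun c hc =>
    mem_ins.2 ⟨mem_endsOf.2 ⟨c, hc, Or.inl rfl⟩, mem_endsOf.2 ⟨c, hc, Or.inr rfl⟩⟩
  have W : endsOf s t D ⊆ U := fun v h => by
    obtain ⟨c, hc, h⟩ := mem_endsOf.1 h
    have := mem_ins.1 (hDU hc)
    rcases h with rfl | rfl
    exacts [this.1, this.2]
  have ev := even_of_pms ⟨C, disjoint_iff_inter_eq_empty.1 ((disjoint_ins_cut _).mono_left I)⟩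
  refine (hTUT3 V E s t (U \ endsOf s t D) _ (by
    rw [card_sdiff_of_subset W, Nat.even_sub (card_le_card W)]
    exact iff_of_true hU ev) Subset.rfl).imp ?_ ?_
  · rintro ⟨L, h1, h2⟩
    refine ⟨L ∪ D, ⟨fun v a => ?_, disjoint_iff_inter_eq_empty.1 ((disjoint_ins_cut _).mono_left
      (union_subset (h1.trans (ins_mono sdiff_subset)) hDU))⟩, subset_union_right⟩
    by_cases b : v ∈ endsOf s t D
    · rw [← C v b]
      refine deg_congr fun e he => mem_union.trans (or_iff_right fun c => ?_)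
      have := mem_ins.1 (h1 c)
      rcases he with rfl | rfl
      exacts [(mem_sdiff.1 this.1).2 b, (mem_sdiff.1 this.2).2 b]
    · rw [← h2 v (mem_sdiff.2 ⟨a, b⟩)]
      exact deg_congr fun e he => mem_union.trans
        (or_iff_left fun c => b (mem_endsOf.2 ⟨e, c, he⟩))
  · rintro ⟨S, O, h1, h2, h3, h4⟩
    refine ⟨S, O, h1.trans sdiff_subset, h2, h3, fun X hX => ?_⟩
    obtain ⟨a, b, c, d⟩ := h4 X hX
    refine ⟨a.trans (sdiff_subset_sdiff sdiff_subset Subset.rfl), b, c, fun e he => ?_⟩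
    obtain ⟨e1, e2⟩ := mem_inter.1 he
    by_cases e3 : e ∈ ins s t (U \ endsOf s t D)
    · exact Or.inl (d e (mem_inter.2 ⟨e1, e3⟩))
    have e4 : e ∉ D := fun h => by
      have a1 := mem_ins.1 (I h)
      have a2 : ∀ v ∈ X, v ∉ endsOf s t D := fun v h => (mem_sdiff.1 (mem_sdiff.1 (a h)).1).2
      have a3 := mem_cut.1 e1
      exact a3 (iff_of_false (a2 _ · a1.1) (a2 _ · a1.2))
    obtain ⟨v, a1, a2⟩ : ∃ v, (s e = v ∨ t e = v) ∧ v ∈ endsOf s t D := by
      simp only [mem_ins, mem_sdiff] at e2 e3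
      by_cases a1 : s e ∈ endsOf s t D
      · exact ⟨_, Or.inl rfl, a1⟩
      · exact ⟨_, Or.inr rfl, not_not.1 fun a2 => e3 ⟨⟨e2.1, a1⟩, e2.2, a2⟩⟩
    obtain ⟨c, hc, a3⟩ := mem_endsOf.1 a2
    exact Or.inr (A c hc e v a3 a1 fun h => e4 (h ▸ hc))

end Pool.Agent.P.MP_40718a_co.Wb

end

section
/-! Step FB. -/

set_option linter.unusedSectionVars false

namespace Pool.Agent.P.MP_40718a_co.Wb

open Finset ABF Bc

theorem fb_low {E : Type} {y : E → ℤ} {Q : ℤ} {F G : Finset E} (hy : ∀ e, 0 ≤ y e) (h : F ⊆ G)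
    (h' : ∀ e ∈ F, 3 * Q ≤ 10 * y e) : 3 * Q * F.card ≤ 10 * ∑ e ∈ G, y e := by
  have h1 := card_nsmul_le_sum F (fun e => 10 * y e) (3 * Q) h'
  have h2 : ∑ e ∈ F, y e ≤ ∑ e ∈ G, y e := sum_le_sum_of_subset_of_nonneg h fun e _ _ => hy e
  rw [← mul_sum, nsmul_eq_mul] at h1
  linarith

theorem p_FB (hWT : S_WT) :
    S_FB := by
  classical
  intro V E _ _ _ _ s t U S O y Q Co Ex m Z hc hU hW hB
  obtain ⟨hQ, hy, hvs, hCo, hlow, hZ, hcl⟩ := hW
  obtain ⟨hSU, hDj, hcard, hO⟩ := hB
  have hXS : ∀ X ∈ O, ∀ v ∈ X, v ∈ U ∧ v ∉ S := fun X hX v hv => mem_sdiff.1 ((hO X hX).1 hv)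
  set T := (O.filter fun X => X.card = 1).biUnion id with hT
  have mT : ∀ v, v ∈ T ↔ ∃ X ∈ O, X.card = 1 ∧ v ∈ X := fun v => by simp [hT, and_assoc]
  set OL := O.filter fun X => (cut s t X ∩ cut s t U).Nonempty ∨ ∃ i, Z i ⊆ X with hOL
  set E1 := (meet s t S \ O.biUnion (cut s t)) \ Ex with hE1
  obtain ⟨w1, -, w3⟩ := hWT V E s t S O E1 hDj
    (fun X hX => disjoint_left.2 fun v hv => (hXS X hX v hv).2)
    (sdiff_subset.trans sdiff_subset) fun X hX => disjoint_left.2 fun e he h =>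
      (mem_sdiff.1 (mem_sdiff.1 he).1).2 (mem_biUnion.2 ⟨X, hX, h⟩)
  have nOL : OL.card ≤ (cut s t U).card + m := by
    have a1 : (O.filter fun X => (cut s t X ∩ cut s t U).Nonempty).card ≤ (cut s t U).card := by
      refine le_trans ?_ ((w3 U fun X hX v hv => (hXS X hX v hv).1).trans
        (card_le_card inter_subset_right))
      rw [card_filter]
      refine sum_le_sum fun X _ => ?_
      split_ifs with h
      · exact card_pos.2 h
      · exact Nat.zero_le _
    have a2 : (O.filter fun X => ∃ i, Z i ⊆ X).card ≤ m := by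
      have : (O.filter fun X => ∃ i, Z i ⊆ X) ⊆
          univ.biUnion fun i => O.filter fun X => Z i ⊆ X := by
        intro X hX
        obtain ⟨h1, i, h2⟩ := mem_filter.1 hX
        exact mem_biUnion.2 ⟨i, mem_univ _, mem_filter.2 ⟨h1, h2⟩⟩
      refine (card_le_card this).trans ((card_biUnion_le_card_mul _ _ 1 fun i _ => ?_).trans ?_)
      · refine card_le_one.2 fun A hA B hB => ?_
        by_contra hne
        obtain ⟨z, hz⟩ := hZ i
        rw [mem_filter] at hA hB
        exact disjoint_left.1 (hDj A hA.1 B hB.1 hne) (hA.2 hz) (hB.2 hz)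
      · simp
    rw [hOL, filter_or]
    exact (card_union_le _ _).trans (add_le_add a1 a2)
  have hpos : ∀ e ∉ Co, y e ≠ 0 := fun e he h => by
    have := hlow e he
    rw [h] at this
    omega
  set d : Finset V → ℕ := fun X =>
    if X.card = 1 then 0 else ((cut s t X ∩ ins s t U) \ Ex).card with hd
  have key : ∀ X ∈ O, 20 * Q + Q * d X ≤
      20 * ∑ e ∈ cut s t X ∩ meet s t S, y e + if X ∈ OL then 20 * Q else 0 := by
    intro X hX
    obtain ⟨-, hodd, hcn, hed⟩ := hO X hX
    have hsub : (cut s t X ∩ ins s t U) \ Co ⊆ cut s t X ∩ meet s t S := by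
      intro e he
      obtain ⟨h1, h2⟩ := mem_sdiff.1 he
      exact mem_inter.2 ⟨(mem_inter.1 h1).1, mem_meet.2 ((hed e h1).resolve_right (hpos e h2))⟩
    have a1 := fb_low hy hsub fun e he => hlow e (mem_sdiff.1 he).2
    have a2 : d X ≤ ((cut s t X ∩ ins s t U) \ Co).card := by
      refine le_trans ?_ (card_le_card (sdiff_subset_sdiff (Subset.refl _) hCo))
      simp only [hd]
      split_ifs
      · exact Nat.zero_le _
      · exact le_rfl
    have a2' : Q * d X ≤ Q * ((cut s t X ∩ ins s t U) \ Co).card :=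
      mul_le_mul_of_nonneg_left (by exact_mod_cast a2) hQ.le
    have a0 : 0 ≤ Q * ((cut s t X ∩ ins s t U) \ Co).card := by positivity
    split_ifs with hL
    · linarith
    · have hL' : ¬ ((cut s t X ∩ cut s t U).Nonempty ∨ ∃ i, Z i ⊆ X) :=
        fun h => hL (mem_filter.2 ⟨hX, h⟩)
      have hin : cut s t X ∩ ins s t U = cut s t X := by
        refine eq_of_subset_of_card_le inter_subset_left ?_
        have := cut_split (s := s) (t := t) (fun v hv => (hXS X hX v hv).1 : X ⊆ U)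
        rw [not_nonempty_iff_eq_empty.1 fun h => hL' (Or.inl h), card_empty] at this
        omega
      have hw : ∑ e ∈ cut s t X ∩ meet s t S, y e = ∑ e ∈ cut s t X, y e := by
        refine sum_subset inter_subset_left fun e he h => ?_
        refine (hed e (by rw [hin]; exact he)).resolve_left fun h' => h ?_
        exact mem_inter.2 ⟨he, mem_meet.2 h'⟩
      rw [hin] at a1 a2' a0
      by_cases h4 : (cut s t X \ Co).card ≤ 3
      · have hc2 : 2 ≤ Xᶜ.card := by
          obtain ⟨u, hu⟩ : ∃ u, u ∉ U := by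
            by_contra h
            push Not at h
            exact hU (eq_univ_of_forall h)
          obtain ⟨X', hX', hne⟩ := exists_mem_ne (by omega : 1 < O.card) X
          obtain ⟨v, hv⟩ : X'.Nonempty := card_pos.1 (hO X' hX').2.1.pos
          refine one_lt_card.2 ⟨u, mem_compl.2 fun h => hu (hXS X hX u h).1, v,
            mem_compl.2 fun h => disjoint_left.1 (hDj X' hX' X hX hne) hv h, ?_⟩
          rintro rfl
          exact hu (hXS X' hX' u hv).1
        rcases hcl X (fun v hv => (hXS X hX v hv).1) hodd hcn hc2 h4 with h | ⟨h, h'⟩ | h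
        · have a3 : d X = 0 := by simp [hd, h]
          obtain ⟨v, rfl⟩ := card_eq_one.1 h
          rw [hw, ← vs_eq_cut hc.1, hvs, a3]
          simp
        · have a3 : d X = 0 := by
            simp only [hd, hin, sdiff_eq_empty_iff_subset.2 h, card_empty, ite_self]
          rw [hw, a3]
          push_cast
          linarith
        · exact absurd (Or.inr h) hL'
      · have a3 : Q * 4 ≤ Q * (cut s t X \ Co).card :=
          mul_le_mul_of_nonneg_left (by exact_mod_cast (by omega)) hQ.le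
        linarith
  have tot := sum_le_sum key
  rw [sum_add_distrib, sum_add_distrib, ← mul_sum, ← mul_sum, ← mul_sum, sum_ite_mem,
    inter_eq_right.2 (filter_subset _ _), sum_const, sum_const, nsmul_eq_mul, nsmul_eq_mul] at tot
  have w := w1 y Q hy fun v _ => hvs v
  have b1 := fb_low hy (Subset.refl E1) fun e he => hlow e fun h => (mem_sdiff.1 he).2 (hCo h)
  have b2 : 0 ≤ ∑ e ∈ ins s t S, y e := sum_nonneg fun e _ => hy e
  have b3 : (S.card : ℤ) * Q ≤ O.card * Q :=
    mul_le_mul_of_nonneg_right (by exact_mod_cast (by omega)) hQ.le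
  have b4 : 0 ≤ Q * E1.card := by positivity
  have b5 : Q * (E1.card + ∑ X ∈ O, (d X : ℤ)) ≤ Q * (20 * OL.card) := by linarith
  have b6 : E1.card + ∑ X ∈ O, d X ≤ 20 * OL.card := by
    exact_mod_cast le_of_mul_le_mul_left b5 hQ
  refine ⟨T, fun v hv => ?_, disjoint_left.2 fun v hv h => ?_, ?_⟩
  · obtain ⟨X, hX, -, h⟩ := (mT v).1 hv
    exact (hXS X hX v h).1
  · obtain ⟨X, hX, -, h⟩ := (mT v).1 h
    exact (hXS X hX v h).2 hv
  rw [cnt_eq]
  have hsub : (univ.filter fun e => e ∈ ins s t U ∧ e ∉ Ex ∧ Dfc s t S T e) ⊆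
      E1 ∪ O.biUnion fun X => if X.card = 1 then ∅ else (cut s t X ∩ ins s t U) \ Ex := by
    intro e he
    obtain ⟨h1, h2, h3⟩ := (mem_filter.1 he).2
    have hT1 : ∀ v, s e = v ∨ t e = v → v ∈ T → s e ∈ S ∨ t e ∈ S := by
      intro v hv h
      obtain ⟨X, hX, h4, h5⟩ := (mT v).1 h
      obtain ⟨x, rfl⟩ := card_eq_one.1 h4
      have h6 : e ∈ cut s t {x} := by
        have := hc.1 e
        rw [mem_singleton] at h5
        simp only [mem_cut, mem_singleton]
        grind
      exact ((hO _ hX).2.2.2 e (mem_inter.2 ⟨h6, h1⟩)).resolve_right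
        (hpos e fun h => h2 (hCo h))
    have hT2 : ∀ v ∈ T, v ∉ S := fun v h => by
      obtain ⟨X, hX, -, h⟩ := (mT v).1 h
      exact (hXS X hX v h).2
    have h4 : (s e ∈ S ∧ t e ∉ T) ∨ (t e ∈ S ∧ s e ∉ T) := by
      have a1 := hT1 (s e) (Or.inl rfl)
      have a2 := hT1 (t e) (Or.inr rfl)
      have a3 := hT2 (s e)
      have a4 := hT2 (t e)
      unfold Dfc at h3
      clear * - a1 a2 a3 a4 h3
      tauto
    by_cases h5 : e ∈ O.biUnion (cut s t)
    · obtain ⟨X, hX, h6⟩ := mem_biUnion.1 h5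
      refine mem_union_right _ (mem_biUnion.2 ⟨X, hX, ?_⟩)
      have h7 : X.card ≠ 1 := fun h => by
        have a1 : s e ∈ X → s e ∈ T ∧ s e ∉ S := fun h' =>
          ⟨(mT _).2 ⟨X, hX, h, h'⟩, (hXS X hX _ h').2⟩
        have a2 : t e ∈ X → t e ∈ T ∧ t e ∉ S := fun h' =>
          ⟨(mT _).2 ⟨X, hX, h, h'⟩, (hXS X hX _ h').2⟩
        rw [mem_cut] at h6
        clear * - a1 a2 h4 h6
        tauto
      rw [if_neg h7]
      exact mem_sdiff.2 ⟨mem_inter.2 ⟨h6, h1⟩, h2⟩
    · exact mem_union_left _ (mem_sdiff.2 ⟨mem_sdiff.2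
        ⟨mem_meet.2 (h4.imp And.left And.left), h5⟩, h2⟩)
  have c1 := (card_le_card hsub).trans (card_union_le _ _)
  have c2 : (O.biUnion fun X => if X.card = 1 then ∅ else (cut s t X ∩ ins s t U) \ Ex).card ≤
      ∑ X ∈ O, d X := by
    refine card_biUnion_le.trans (sum_le_sum fun X _ => ?_)
    simp only [hd]
    split_ifs <;> simp
  omega

end Pool.Agent.P.MP_40718a_co.Wb

end

section
/-! Step SHELL. -/

set_option linter.unusedSectionVars false

namespace Pool.Agent.P.MP_40718a_co.Wb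

open Finset ABF Bc

theorem p_SHELL :
    S_SHELL := by
  refine fun V E _ _ _ _ s t B => ⟨fun S r1 w L h => ?_, fun X r L hX h0 h => ?_⟩
  · by_contra hc
    push Not at hc
    have key : ∀ i ≤ L + 1, i ≤ (S ∩ ball s t B (r1 + i * w)).card := by
      intro i
      induction i with
      | zero => exact fun _ => Nat.zero_le _
      | succ i ih =>
        intro hi
        have h1 := Nat.mul_le_mul_right w hi
        rw [add_mul i, one_mul] at h1
        rw [add_mul, one_mul, ← add_assoc]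
        exact (ih (by omega)).trans_lt (card_lt_card
          ⟨inter_subset_inter_left (ball_mono_r (Nat.le_add_right _ _)),
            fun e => hc _ (Nat.le_add_right _ _) (by omega) (e.trans inter_subset_right)⟩)
    have := key _ le_rfl
    omega
  · induction L with
    | zero => exact h0.card_pos
    | succ L ih =>
      have m : ball s t B (r + L) ⊆ ball s t B (r + L + 1) := ball_mono_r (Nat.le_succ _)
      have h1 : ¬ X ⊆ ball s t B (r + L) := fun e => h (e.trans m)
      refine (Nat.succ_le_of_lt (ih h1)).trans_lt (card_lt_card ⟨inter_subset_inter_left m,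
        fun e => h1 (inter_eq_left.1 (hX _ inter_subset_left (h0.mono (inter_subset_inter_left
          (ball_mono_r (Nat.le_add_right _ _)))) (cut_inter_ball (e.trans inter_subset_right))))⟩)

end Pool.Agent.P.MP_40718a_co.Wb

end

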