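import Pool.Agent.P.MP_40718a_co.Wb.IfaceB
import Pool.Agent.P.MP_40718a_co.Wb.Iface

section
/-! Step BASE0. -/

set_option linter.unusedSectionVars false

namespace Pool.Agent.P.MP_40718a_co.Wb

open Finset ABF Bc

theorem p_BASE0 (hFAR : S_FAR) (hENV : S_ENV) (hCLF : S_CLF) (hGEO2 : S_GEO2) (hCOVL : S_COVL) :
    S_BASE0 := by
  classical
  intro g
  obtain ⟨q, a0, b, n, H0, k1, hq, hH0, hF⟩ := hFAR g
  obtain ⟨H, hH⟩ : ∃ H, H = H0 + 2 * (3 * n + 4) := ⟨_, rfl⟩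
  obtain ⟨κ, hκ⟩ : ∃ κ, κ = 7 * H + k1 + 20 := ⟨_, rfl⟩
  obtain ⟨ρ, r1, N1, n0, hF⟩ := hF ((range κ).sup g)
  refine ⟨κ, H, 16 * κ + (2 * κ + 24 * (3 * n + (20 * (2 * κ + 600 * H0) + 1))), by omega,
    by omega, by omega, fun bb => ?_⟩
  obtain ⟨r0, hr0⟩ : ∃ r0, r0 = r1 + (bb + 8 * (3 * n + (20 * (2 * κ + 600 * H0) + 1)) + 1) *
    ((range κ).sup g + 2) := ⟨_, rfl⟩
  obtain ⟨N2, hE⟩ := hENV n (600 * H0) κ (2 * κ * 4 ^ r0)
  obtain ⟨K1, hC⟩ := hCLF q (600 * H0)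
  obtain ⟨R, hR⟩ : ∃ R, R = a0 + (3 * n + 4) * (2 * ρ + 2) := ⟨_, rfl⟩
  refine ⟨2 * κ * 4 ^ r0, N1 * N2 * (K1 + 1) + 3 * (2 * κ * 4 ^ (r0 + R)) + 2 * n0 + 1, by omega,
    fun V E _ _ _ _ s t U hc h3 hU hcut hst h1 h2 hr hu => ?_⟩
  obtain ⟨c1, c2, c3, c4⟩ := hCOVL V E s t U ∅ hst
  by_cases hV : Fintype.card V ≤ n0
  · refine c2 _ _ _ _ (c4 univ _ le_rfl) ?_ fun e _ _ _ => mem_univ e
    have := ins_cut_card hc univ
    simp only [ins_univ, cut_univ, card_empty, card_univ] at this ⊢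
    omega
  obtain ⟨I, J, φ, p1, hp1⟩ := hF V E s t U κ r0 hc (ec3_of_small hc h3) hU h1 (by omega)
    (fun X a b => hu X a (by omega)) (by omega) (by omega)
  obtain ⟨p2, hp2⟩ := hE V E s t U (ball s t (term s t U) r0) J g H bb hc
    ((ball_card hc _ _).trans (Nat.mul_le_mul_right _ ((card_term_le U).trans hcut)))
    (subset_ball _) hcut (by omega) (by omega) h1 hu (h2.mono (Subset.refl _) (by omega) le_rfl) hr
  rw [← hR] at hp1
  let far : E → Prop := fun c => Disjoint (ball s t (ends s t c) R) (ball s t (term s t U) r0)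
  have key : ∀ x : Fin N1 × Fin N2, ∃ cls : E → Option (Fin K1), ∀ y,
      (∃ e0, ∀ e ∈ ins s t U, far e → (p1 e, p2 e) = x → cls e = y → e = e0) ∨
      ∃ M, PMs s t U ∅ M ∧ ∀ e ∈ ins s t U, far e → (p1 e, p2 e) = x → cls e = y → e ∈ M := by
    intro x
    obtain ⟨M0, hM0⟩ := hst
    obtain ⟨D, hD⟩ : ∃ D : Finset E, ∀ e, e ∈ D ↔ e ∈ ins s t U ∧ far e ∧ (p1 e, p2 e) = x :=
      ⟨(ins s t U).filter _, fun e => mem_filter⟩
    rcases D.eq_empty_or_nonempty with rfl | ⟨c0, h0⟩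
    · exact ⟨fun _ => none, fun y => .inr ⟨M0, hM0, fun e a b c _ =>
        absurd ((hD e).2 ⟨a, b, c⟩) (notMem_empty e)⟩⟩
    have hx : ∀ c ∈ D, (p1 c, p2 c) = (p1 c0, p2 c0) := fun c h =>
      ((hD c).1 h).2.2.trans ((hD c0).1 h0).2.2.symm
    obtain ⟨f1, f2, A, Z, f3, f4⟩ := hp1 D c0 h0 fun c h =>
      ⟨congrArg Prod.fst (hx c h), ((hD c).1 h).1, ((hD c).1 h).2.1⟩
    have f5 := hp2 D c0 h0 fun c h => ⟨congrArg Prod.snd (hx c h), (f1 c h).1.2.2.2.2.2.1⟩
    obtain ⟨cls, h⟩ := hC V E s t (5 * H0) a0 (3 * n + 4) ρ b n κ r1 ((range κ).sup g) _ D I J φ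
      A Z U hc h3 hU (even_of_pms hM0) hcut hq (by omega) (by omega) (by omega) (by omega)
      (hR ▸ f1) (hR ▸ f2)
      (fun i => ⟨(f3 i).1, (f3 i).2.1.mono inter_subset_left, hR ▸ (f3 i).2.2⟩) f4
      (fun c h => ⟨((hD c).1 h).1, hR ▸ hr0 ▸ ((hD c).1 h).2.1⟩) (fun i => (f3 i).2.1) (hr0 ▸ f5)
    refine ⟨fun e => some (cls e), fun y => ?_⟩
    rcases y with _ | y
    · exact .inr ⟨M0, hM0, fun e _ _ _ d => by cases d⟩
    rcases h y with h | ⟨M, hM, h⟩
    · have : Nonempty E := ⟨c0⟩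
      obtain ⟨e0, h⟩ := card_le_one_iff_subset_singleton.1 h
      exact .inl ⟨e0, fun e a b c d => mem_singleton.1
        (h (mem_filter.2 ⟨(hD e).2 ⟨a, b, c⟩, Option.some.inj d⟩))⟩
    · exact .inr ⟨M, hM, fun e a b c d => h e ((hD e).2 ⟨a, b, c⟩) (Option.some.inj d)⟩
  choose cls hcls using key
  have g1 := c1 ((Fin N1 × Fin N2) × Option (Fin K1)) (fun e => ((p1 e, p2 e), cls (p1 e, p2 e) e))
    (N1 * N2 * (K1 + 1)) far (by simp) fun y => (hcls y.1 y.2).imp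
      (.imp fun _ h e a b c => h e a b (congrArg Prod.fst c) (by rw [← c]))
      (.imp fun _ h => ⟨h.1, fun e a b c => h.2 e a b (congrArg Prod.fst c) (by rw [← c])⟩)
  have g2 := c4 (univ.filter fun e => ¬ far e) (3 * (2 * κ * 4 ^ (r0 + R))) (by
    rw [← cnt_eq]
    exact ((hGEO2 V E s t U).2.2.2.2 R r0 hc).trans
      (Nat.mul_le_mul_left _ (Nat.mul_le_mul_right _ hcut)))
  exact c2 _ _ _ _ (c3 _ _ _ _ g1 g2) (by omega) fun e _ _ _ =>
    (em (far e)).imp_right fun h => mem_filter.2 ⟨mem_univ e, h⟩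

end Pool.Agent.P.MP_40718a_co.Wb

end

section
/-! Step PUSH1. -/

set_option linter.unusedSectionVars false

namespace Pool.Agent.P.MP_40718a_co.Wb

open Finset ABF Bc

section Aux

variable {V E : Type} [Fintype V] [Fintype E] [DecidableEq V] [DecidableEq E] {s t : E → V}
  {U S : Finset V} {O : Finset (Finset V)}

theorem push1_ins {M : Finset E} (h : PMs s t U ∅ M) {X : Finset V} (hX : X ⊆ U) :
    M ∩ cut s t X ⊆ ins s t U := by
  intro e he
  have h1 : e ∉ M ∩ cut s t U := by rw [h.2]; exact notMem_empty e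
  have h2 := @hX (s e)
  have h3 := @hX (t e)
  simp only [mem_inter, mem_cut, mem_ins] at he h1 ⊢
  tauto

theorem push1_mem {v : V} :
    v ∈ U \ (S ∪ O.biUnion id) ↔ v ∈ U ∧ v ∉ S ∧ ∀ X ∈ O, v ∉ X := by
  simp only [mem_sdiff, mem_union, mem_biUnion, id, not_or, not_exists, not_and]

theorem push1_end (hB : Bar s t U S O) {e : E} (h1 : e ∈ cut s t (U \ (S ∪ O.biUnion id)))
    (h2 : e ∈ ins s t U) : s e ∈ S ∨ t e ∈ S := by
  by_contra hc
  push Not at hc
  rw [mem_cut, push1_mem, push1_mem] at h1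
  have h3 := mem_ins.1 h2
  have key : ∀ X ∈ O, (s e ∈ X ↔ t e ∈ X) := by
    intro X hX
    by_contra h4
    have := (hB.2.2 X hX).2.2 e (mem_inter.2 ⟨mem_cut.2 h4, h2⟩)
    tauto
  refine h1 ⟨fun a => ⟨h3.2, hc.2, fun X hX b => a.2.2 X hX ((key X hX).2 b)⟩,
    fun a => ⟨h3.1, hc.1, fun X hX b => a.2.2 X hX ((key X hX).1 b)⟩⟩

theorem push1_not (hB : Bar s t U S O) {e : E} (h1 : e ∈ cut s t (U \ (S ∪ O.biUnion id)))
    (h2 : s e ∈ S ∨ t e ∈ S) {X : Finset V} (hX : X ∈ O) : e ∉ cut s t X := by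
  rw [mem_cut, push1_mem, push1_mem] at h1
  have h3 : ∀ v ∈ X, v ∉ S := fun v hv => (mem_sdiff.1 ((hB.2.2 X hX).1 hv)).2
  have h4 := h3 (s e)
  have h5 := h3 (t e)
  rw [mem_cut]
  by_cases a : s e ∈ U ∧ s e ∉ S ∧ ∀ X ∈ O, s e ∉ X
  · have := a.2.2 X hX
    tauto
  · have b : t e ∈ U ∧ t e ∉ S ∧ ∀ X ∈ O, t e ∉ X := by
      by_contra b
      exact h1 ⟨fun c => absurd c a, fun c => absurd c b⟩
    have := b.2.2 X hX
    tauto

theorem push1_cut (hWT : S_WT) (hc : Cubic s t) (h3 : EC 3 s t) (hB : Bar s t U S O)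
    (hcard : S.card = O.card) :
    (cut s t (U \ (S ∪ O.biUnion id))).card ≤ (cut s t U).card := by
  set U' := U \ (S ∪ O.biUnion id) with hU'
  have hsub : ∀ X ∈ O, X ⊆ U := fun X hX => (hB.2.2 X hX).1.trans sdiff_subset
  obtain ⟨-, w2, w3⟩ := hWT V E s t S O (cut s t U' ∩ meet s t S) hB.2.1
    (fun X hX => disjoint_left.2 fun v hv => (mem_sdiff.1 ((hB.2.2 X hX).1 hv)).2)
    inter_subset_right
    (fun X hX => disjoint_left.2 fun e he =>
      push1_not hB (mem_inter.1 he).1 (mem_meet.1 (mem_inter.1 he).2) hX)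
  have w2 := w2 hc
  have w3 := w3 U hsub
  have h4 : ∀ X ∈ O, 3 ≤ (cut s t X ∩ meet s t S).card + (cut s t X ∩ cut s t U).card := by
    intro X hX
    obtain ⟨-, ho, he⟩ := hB.2.2 X hX
    have a := h3 X (card_pos.1 ho.pos) (by
      rintro rfl
      exact Nat.not_even_iff_odd.2 ho (by simpa using even_card hc))
    rw [cut_split (hsub X hX)] at a
    have b : (cut s t X ∩ ins s t U).card ≤ (cut s t X ∩ meet s t S).card :=
      card_le_card fun e h => mem_inter.2 ⟨(mem_inter.1 h).1, mem_meet.2 (he e h)⟩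
    omega
  have h5 := card_nsmul_le_sum O _ 3 h4
  rw [sum_add_distrib, smul_eq_mul] at h5
  have h6 : cut s t U' ⊆ (cut s t U' ∩ meet s t S) ∪ (cut s t U ∩ cut s t U') := by
    intro e he
    by_cases a : e ∈ ins s t U
    · exact mem_union_left _ (mem_inter.2 ⟨he, mem_meet.2 (push1_end hB he a)⟩)
    · refine mem_union_right _ (mem_inter.2 ⟨?_, he⟩)
      have b : s e ∈ U' → s e ∈ U := fun h => (mem_sdiff.1 h).1
      have c : t e ∈ U' → t e ∈ U := fun h => (mem_sdiff.1 h).1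
      rw [mem_cut] at he ⊢
      rw [mem_ins] at a
      tauto
  have h7 := (card_le_card h6).trans (card_union_le _ _)
  have hW : O.biUnion id ⊆ U := biUnion_subset.2 hsub
  have h8 : Disjoint (cut s t (O.biUnion id) ∩ cut s t U) (cut s t U ∩ cut s t U') := by
    refine disjoint_left.2 fun e a b => ?_
    have c1 := @hW (s e)
    have c2 := @hW (t e)
    simp only [hU', mem_inter, mem_cut, mem_sdiff, mem_union] at a b
    tauto
  have h9 : (cut s t (O.biUnion id) ∩ cut s t U) ∪ (cut s t U ∩ cut s t U') ⊆ cut s t U :=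
    union_subset inter_subset_right inter_subset_left
  have h10 := card_le_card h9
  rw [card_union_of_disjoint h8] at h10
  omega

theorem push1_union (hB : Bar s t U S O) {S' : Finset V} {O' : Finset (Finset V)}
    (hB' : Bar s t (U \ (S ∪ O.biUnion id)) S' O') :
    Bar s t U (S ∪ S') (O ∪ O') ∧ Disjoint S S' ∧ Disjoint O O' := by
  have m1 : ∀ v ∈ S', v ∈ U ∧ v ∉ S ∧ ∀ X ∈ O, v ∉ X := fun v hv => push1_mem.1 (hB'.1 hv)
  have m2 : ∀ Y ∈ O', ∀ v ∈ Y, (v ∈ U ∧ v ∉ S ∧ ∀ X ∈ O, v ∉ X) ∧ v ∉ S' := fun Y hY v hv =>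
    let h := mem_sdiff.1 ((hB'.2.2 Y hY).1 hv)
    ⟨push1_mem.1 h.1, h.2⟩
  have m3 : ∀ X ∈ O, ∀ Y ∈ O', Disjoint X Y := fun X hX Y hY =>
    disjoint_right.2 fun v hv => (m2 Y hY v hv).1.2.2 X hX
  refine ⟨⟨union_subset hB.1 fun v hv => (m1 v hv).1, ?_, ?_⟩,
    disjoint_right.2 fun v hv => (m1 v hv).2.1, disjoint_left.2 fun X hX hX' => ?_⟩
  · intro X hX Y hY hne
    rcases mem_union.1 hX with hX | hX <;> rcases mem_union.1 hY with hY | hY
    · exact hB.2.1 X hX Y hY hne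
    · exact m3 X hX Y hY
    · exact (m3 Y hY X hX).symm
    · exact hB'.2.1 X hX Y hY hne
  · intro X hX
    rcases mem_union.1 hX with hX | hX
    · obtain ⟨a, b, c⟩ := hB.2.2 X hX
      refine ⟨fun v hv => ?_, b, fun e he => (c e he).imp (mem_union_left _) (mem_union_left _)⟩
      have := mem_sdiff.1 (a hv)
      exact mem_sdiff.2 ⟨this.1, fun h => (mem_union.1 h).elim this.2
        fun h => (m1 v h).2.2 X hX hv⟩
    · obtain ⟨a, b, c⟩ := hB'.2.2 X hX
      refine ⟨fun v hv => ?_, b, fun e he => ?_⟩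
      · have := m2 X hX v hv
        exact mem_sdiff.2 ⟨this.1.1, fun h => (mem_union.1 h).elim this.1.2.1 this.2⟩
      · by_cases d : e ∈ ins s t (U \ (S ∪ O.biUnion id))
        · exact (c e (mem_inter.2 ⟨(mem_inter.1 he).1, d⟩)).imp (mem_union_right _)
            (mem_union_right _)
        · refine (push1_end hB ?_ (mem_inter.1 he).2).imp (mem_union_left _) (mem_union_left _)
          have d1 := fun h => (mem_sdiff.1 (@a (s e) h)).1
          have d2 := fun h => (mem_sdiff.1 (@a (t e) h)).1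
          have d3 := mem_cut.1 (mem_inter.1 he).1
          rw [mem_ins] at d
          rw [mem_cut]
          tauto
  · obtain ⟨v, hv⟩ := card_pos.1 (hB.2.2 X hX).2.1.pos
    exact (m2 X hX' v hv).1.2.2 X hX hv

end Aux

theorem p_PUSH1 (hBM : S_BM) (hWT : S_WT) :
    S_PUSH1 := by
  classical
  intro V E _ _ _ _ s t U z hc h3 ⟨M0, hM0⟩
  obtain ⟨⟨S, O⟩, hp, hmax⟩ := exists_max_image
    ((univ : Finset (Finset V × Finset (Finset V))).filter fun p =>
      Bar s t U p.1 p.2 ∧ (∀ X ∈ p.2, X.card ≤ z) ∧ p.1.card ≤ p.2.card) (fun p => p.1.card)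
    ⟨(∅, ∅), by simp [Bar, Dj]⟩
  obtain ⟨hB, hz, hle⟩ := (mem_filter.1 hp).2
  have hsub : ∀ X ∈ O, X ⊆ U := fun X hX => (hB.2.2 X hX).1.trans sdiff_subset
  have hbm := fun M (hM : PMs s t U ∅ M) =>
    hBM V E s t U S O M hM.1 hB fun X hX => push1_ins hM (hsub X hX)
  have hcard : S.card = O.card := le_antisymm hle (hbm M0 hM0).1
  have hno : ∀ M, PMs s t U ∅ M → M ∩ cut s t (U \ (S ∪ O.biUnion id)) = ∅ := by
    intro M hM
    refine eq_empty_of_forall_notMem fun e he => ?_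
    have a := push1_end hB (mem_inter.1 he).2 (push1_ins hM sdiff_subset he)
    obtain ⟨X, hX, b⟩ := (hbm M hM).2 hle e (mem_inter.2 ⟨(mem_inter.1 he).1, mem_meet.2 a⟩)
    exact push1_not hB (mem_inter.1 he).2 a hX b
  refine ⟨S, O, hB, hcard, hz, hno, push1_cut hWT hc h3 hB hcard, fun S' O' hB' hz' => ?_⟩
  by_contra hcon
  push Not at hcon
  have hM' : PMs s t (U \ (S ∪ O.biUnion id)) ∅ M0 := ⟨hM0.1.mono sdiff_subset, hno M0 hM0⟩
  have a := (hBM V E s t _ S' O' M0 hM'.1 hB' fun X hX =>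
    push1_ins hM' ((hB'.2.2 X hX).1.trans sdiff_subset)).1
  obtain ⟨b1, b2, b3⟩ := push1_union hB hB'
  have b4 := card_pos.2 hcon.1
  have := hmax (S ∪ S', O ∪ O') (mem_filter.2 ⟨mem_univ _, b1,
    fun X hX => (mem_union.1 hX).elim (hz X) (hz' X), by
      rw [card_union_of_disjoint b2, card_union_of_disjoint b3]
      have := hcon.2
      omega⟩)
  rw [card_union_of_disjoint b2] at this
  omega

end Pool.Agent.P.MP_40718a_co.Wb

end

section
/-! Step PUSH. -/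

set_option linter.unusedSectionVars false

namespace Pool.Agent.P.MP_40718a_co.Wb

open Finset ABF Bc

theorem p_PUSH (hPUSH1 : S_PUSH1) (hTUB : S_TUB) (hSPL : S_SPL) (hCOVL : S_COVL) :
    S_PUSH := by
  intro z bb γ
  refine ⟨3 * ((bb + γ) * (1 + z)) + 1, by omega, ?_⟩
  intro V E _ _ _ _ s t U hc h3 hU hγ hst h2
  obtain ⟨S, O, bar, e1, hz, hM, hcut, red⟩ := hPUSH1 V E s t U z hc (ec3_of_small hc h3) hst
  have b1 := hTUB V E s t U S O γ bb hc h3 hU bar e1.le hγ h2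
  have b2 : (U \ (U \ (S ∪ O.biUnion id))).card ≤ (bb + γ) * (1 + z) := by
    refine (card_le_card (fun v hv => ?_ : _ ⊆ S ∪ O.biUnion id)).trans
      ((card_union_le _ _).trans ?_)
    · by_contra h
      exact (mem_sdiff.1 hv).2 (mem_sdiff.2 ⟨(mem_sdiff.1 hv).1, h⟩)
    · rw [mul_add, mul_one]
      exact add_le_add b1 ((card_biUnion_le_card_mul O id z hz).trans
        (Nat.mul_le_mul_right z (e1 ▸ b1)))
  obtain ⟨M, m⟩ := id hst
  refine ⟨_, sdiff_subset, hcut, ⟨M, m.1.mono sdiff_subset, hM M m⟩, red, fun K hK => ?_⟩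
  have := hSPL V E s t U _ {∅} (K + (3 * ((bb + γ) * (1 + z)) + 1)) sdiff_subset (by omega) hst
    (fun M m => mem_singleton.2 (hM M m)) fun φ hφ s1 s2 => ?_
  · rwa [card_singleton, one_mul] at this
  rw [mem_singleton.1 hφ] at s1 s2 ⊢
  have b3 := ins_cut_card hc (U \ (U \ (S ∪ O.biUnion id)))
  exact ⟨(hCOVL V E s t _ _ s1).2.1 _ _ _ _ hK (by omega) fun _ _ _ h => h,
    (hCOVL V E s t _ _ s2).2.1 _ _ _ _ ((hCOVL V E s t _ _ s2).2.2.2 (ins s t _) _ le_rfl)
      (by omega) fun _ h _ _ => h⟩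

end Pool.Agent.P.MP_40718a_co.Wb

end

section
/-! Step BASE. -/

set_option linter.unusedSectionVars false

namespace Pool.Agent.P.MP_40718a_co.Wb

open Finset ABF Bc

theorem base_cut {V E : Type} [Fintype V] [Fintype E] [DecidableEq V] [DecidableEq E]
    {s t : E → V} {U : Finset V} {g : ℕ → ℕ} {κ H : ℕ} (h1 : H1 s t U g κ)
    (h : ¬ Unsp s t U H ((range κ).sup g)) :
    ∃ X ⊆ U, (cut s t X ∩ ins s t U).card ≤ H ∧ κ ≤ (cut s t X).card ∧
      κ ≤ (cut s t (U \ X)).card ∧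
      (cut s t X).card + (cut s t (U \ X)).card ≤ (cut s t U).card + 2 * H := by
  unfold Unsp at h
  push Not at h
  obtain ⟨X, hX, a1, a2, a3⟩ := h
  have key : ∀ Y ⊆ U, Y ≠ U → (range κ).sup g < Y.card → κ ≤ (cut s t Y).card := by
    intro Y hY hne hl
    by_contra hc
    have b1 := h1 Y hY hne (by omega)
    have b2 : g (cut s t Y).card ≤ (range κ).sup g := le_sup (mem_range.2 (by omega))
    omega
  have hc := card_sdiff_add_card_eq_card hX
  refine ⟨X, hX, a1, key X hX (by rintro rfl; simp at a3) a2,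
    key _ sdiff_subset (fun h => by rw [h] at hc; omega) a3, ?_⟩
  have b1 := cut_split (s := s) (t := t) hX
  have b2 := cut_split (s := s) (t := t) (sdiff_subset : U \ X ⊆ U)
  have b3 : cut s t (U \ X) ∩ ins s t U = cut s t X ∩ ins s t U := by
    ext e; simp only [mem_inter, mem_cut, mem_ins, mem_sdiff]; tauto
  have b4 : Disjoint (cut s t X ∩ cut s t U) (cut s t (U \ X) ∩ cut s t U) := by
    rw [disjoint_left]
    intro e c1 c2
    have d1 := @hX (s e)
    have d2 := @hX (t e)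
    simp only [mem_inter, mem_cut, mem_sdiff] at c1 c2
    tauto
  have b5 := card_le_card (union_subset (inter_subset_right (s₁ := cut s t X) (s₂ := cut s t U))
    (inter_subset_right (s₁ := cut s t (U \ X))))
  rw [card_union_of_disjoint b4] at b5
  rw [b3] at b2
  omega

theorem p_BASE (hBASE0 : S_BASE0) (hPUSH : S_PUSH) (hSPL : S_SPL) (hSTU : S_STU) (hCOVL : S_COVL) :
    S_BASE := by
  intro g
  obtain ⟨κ, H, a, h7, h4, h16, h0⟩ := hBASE0 g
  refine ⟨κ, a, h4, h16, fun bb => ?_⟩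
  obtain ⟨z, K1, hK, h0⟩ := h0 bb
  obtain ⟨n, hn, hP⟩ := hPUSH z bb (2 * κ)
  refine ⟨2 ^ H * (K1 + n) + n, by omega, ?_⟩
  intro V E _ _ _ _ s t U hC hS hU hc hst h1 h2
  have ne : ∀ Y ⊆ U, Y ≠ univ := fun Y hY h => hU (univ_subset_iff.1 (h ▸ hY))
  have B : ∀ Y ⊆ U, (cut s t Y).card ≤ κ + 3 * H → St s t Y ∅ → Cv s t Y (K1 + n) := by
    intro Y hY c1 c2
    obtain ⟨Y1, a1, a2, a3, a4, a5⟩ := hP V E s t Y hC hS (ne Y hY) (by omega) c2
      (h2.mono hY (by omega) le_rfl)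
    have b := a1.trans hY
    refine a5 _ (h0 V E s t Y1 hC hS (ne _ b) (by omega) a3 (h1.mono b)
      (h2.mono b le_rfl le_rfl) a4 ?_)
    by_contra h
    obtain ⟨X, -, -, d1, d2, d3⟩ := base_cut (h1.mono b) h
    omega
  have B' : ∀ Y ⊆ U, ∀ φ, (cut s t Y).card ≤ κ + 2 * H → φ.card ≤ H → St s t Y φ →
      CovR s t Y φ (K1 + n) fun _ => True := by
    intro Y hY φ c1 c2 c3
    obtain ⟨a1, a2, -, -, a5⟩ := hSTU V E s t Y φ hC c3
    obtain ⟨N, hN⟩ := c3
    exact a5 _ (B _ (sdiff_subset.trans hY) (by omega) (a2 N hN).st)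
  obtain ⟨U1, a1, a2, a3, a4, a5⟩ := hP V E s t U hC hS hU hc hst
    (h2.mono (Subset.refl _) (by omega) le_rfl)
  refine a5 _ ?_
  have up := (hCOVL V E s t U1 ∅ a3).2.1
  by_cases h : Unsp s t U1 H ((range κ).sup g)
  · refine up K1 _ _ _ (h0 V E s t U1 hC hS (ne _ a1) (by omega) a3 (h1.mono a1)
      (h2.mono a1 le_rfl le_rfl) a4 h) ?_ fun _ _ _ _ => trivial
    exact (Nat.le_add_right _ n).trans (Nat.le_mul_of_pos_left _ (by positivity))
  · obtain ⟨X, hX, d0, d1, d2, d3⟩ := base_cut (h1.mono a1) h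
    refine up _ _ _ _ (hSPL V E s t U1 X (cut s t X ∩ ins s t U1).powerset (K1 + n) hX (by omega)
      a3 (fun M hM => ?_) fun φ hφ c1 c2 => ?_) ?_ fun _ _ _ _ => trivial
    · rw [mem_powerset]
      intro e he
      have b1 : e ∉ M ∩ cut s t U1 := by rw [hM.2]; exact notMem_empty e
      have b2 := @hX (s e)
      have b3 := @hX (t e)
      simp only [mem_inter, mem_cut, mem_ins] at he b1 ⊢
      tauto
    · have b := (card_le_card (mem_powerset.1 hφ)).trans d0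
      exact ⟨B' X (hX.trans a1) φ (by omega) b c1,
        B' _ (sdiff_subset.trans a1) φ (by omega) b c2⟩
    · rw [card_powerset]
      exact Nat.mul_le_mul_right _ (Nat.pow_le_pow_right (by omega) d0)

end Pool.Agent.P.MP_40718a_co.Wb

end

section
/-! Step RMAIN. -/

set_option linter.unusedSectionVars false

namespace Pool.Agent.P.MP_40718a_co.Wb

open Finset ABF Bc

theorem p_RMAIN (hGR : S_GR) (hTB : S_TB) (hTAMEU : S_TAMEU) (hLAB : S_LAB) (hRSB : S_RSB) (hRSU : S_RSU) (hRBASE : S_RBASE) (hBASE : S_BASE) (hSTU : S_STU) :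
    S_RMAIN := by
  classical
  choose gb hgb using fun j => hGR j (3 + 2 * j) true
  choose lu hlu1 hlu using fun j => hTAMEU j ((range (16 * j + 1)).sup gb)
  choose g hg using fun j => hGR j (lu j) false
  obtain ⟨κ, a, hκ, ha, hB⟩ := hBASE g
  obtain ⟨θ, hθ, hB⟩ := hB ((range (a + 1)).sup gb)
  refine ⟨κ, 2 ^ κ * θ, θ, hκ, hθ, Nat.le_mul_of_pos_left _ (by positivity), ?_⟩
  suffices H : ∀ (n : ℕ) (V E : Type) [Fintype V] [Fintype E] [DecidableEq V] [DecidableEq E]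
      (s t : E → V) (Y : Finset V), Y.card < n → Cubic s t → Small s t 3 1 → Y ≠ univ →
      (cut s t Y).card < κ → RR s t Y (2 ^ κ * θ) θ from
    fun V E _ _ _ _ s t Y => H _ V E s t Y (Nat.lt_succ_self _)
  intro n
  induction n with
  | zero => intro V E _ _ _ _ s t Y h; omega
  | succ n ih =>
    intro V E _ _ _ _ s t Y hn hc hs hY hk
    have hne : ∀ X ⊆ Y, X ≠ univ := fun X hX e => hY (eq_univ_of_forall fun v =>
      hX (e ▸ mem_univ v))
    by_cases hb : ∃ B ⊆ Y, Bip s t B ∧ (cut s t B).card ≤ a ∧ gb (cut s t B).card < B.card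
    · obtain ⟨B, h1, h2, -, h4⟩ := hb
      obtain ⟨lab, hl⟩ := exists_lab (s := s) (t := t) B
      have hT := (hLAB V E s t B _ _ lab hl).2 ((hTB V E s t hc).2 B h2)
      obtain ⟨P, Z, f, f', a1, a2, a3, a4, a5, a6, a7, a8⟩ :=
        hgb _ V E s t Y B lab hc hs hY h1 hl hT h4
      exact hRSB V E s t P.V P.E P.s P.t Y B Z P.W f f' _ _ _ θ lab _ a5 hl a6 (fun _ => rfl) a7
        (by omega) hθ hT a8 (ih P.V P.E P.s P.t Z (by omega) P.cub a1 a2 (by omega))
    have h2 : ∀ a' ≤ a, H2 s t Y a' ((range (a' + 1)).sup gb) := fun a' ha' B h1 h2 h3 =>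
      (not_lt.1 fun h4 => hb ⟨B, h1, h2, h3.trans ha', h4⟩).trans
        (le_sup (f := gb) (mem_range.2 (by omega)))
    by_cases hu : ∃ X ⊆ Y, X ≠ Y ∧ (cut s t X).card < κ ∧ g (cut s t X).card < X.card
    · obtain ⟨X, h1, h3, h4, h5⟩ := hu
      obtain ⟨lab, hl⟩ := exists_lab (s := s) (t := t) X
      have hT := (hLAB V E s t X _ _ lab hl).1 (hlu _ V E s t X hc hs (hne X h1) le_rfl
        ((h2 _ (by omega)).mono h1 le_rfl le_rfl))
      obtain ⟨P, Z, f, f', a1, a2, a3, a4, a5, a6, a7, a8⟩ :=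
        hg _ V E s t Y X lab hc hs hY h1 hl hT h5
      have hlt := card_lt_card (h1.ssubset_of_ne h3)
      exact hRSU V E s t P.V P.E P.s P.t Y X Z P.W f f' _ _ _ θ lab _ a5 hl a6 (fun _ => rfl) a7
        (hlu1 _) hθ hT a8 (ih P.V P.E P.s P.t Z (by omega) P.cub a1 a2 (by omega))
        (ih V E s t X (by omega) hc hs (hne X h1) h4)
        (Nat.mul_le_mul_right _ (Nat.pow_le_pow_right (by norm_num) h4.le))
    have h1 : H1 s t Y g κ := fun X a1 a2 a3 => not_lt.1 fun a4 => hu ⟨X, a1, a2, a3, a4⟩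
    refine hRBASE V E s t Y _ θ hθ fun τ hτ => ?_
    obtain ⟨b1, b2, -, -, b5⟩ := hSTU V E s t Y τ hc hτ
    obtain ⟨N, hN⟩ := hτ
    have := card_le_card hN.sub
    exact b5 θ (hB V E s t _ hc hs (hne _ sdiff_subset) (by omega) (b2 N hN).st
      (h1.mono sdiff_subset) ((h2 a le_rfl).mono sdiff_subset le_rfl le_rfl))

end Pool.Agent.P.MP_40718a_co.Wb

end

section
/-! Step C23. -/

set_option linter.unusedSectionVars false

namespace Pool.Agent.P.MP_40718a_co.Wb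

open Finset ABF Bc

theorem c23_a {V E : Type} [Fintype V] [Fintype E] [DecidableEq V] [DecidableEq E] {s t : E → V}
    (h : Cubic s t) (h2 : EC 2 s t) (h3 : No3 s t) {X : Finset V} (hX : (cut s t X).card = 2)
    (hc : 2 ≤ Xᶜ.card) : X.card ≤ 2 := by
  obtain ⟨e, he⟩ := card_pos.1 (show 0 < (cut s t X).card by omega)
  obtain ⟨w, hw, hw'⟩ : ∃ w ∈ X, e ∈ cut s t {w} := by
    have := h.1 e
    by_cases a : s e ∈ X
    · exact ⟨_, a, by simpa using this.symm⟩
    · exact ⟨t e, by simpa [a] using he, by simpa using this⟩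
  have h4 := card_symmDiff_add (cut s t X) (cut s t {w})
  have h5 := card_pos.2 ⟨e, mem_inter.2 ⟨he, hw'⟩⟩
  have e1 : symmDiff X {w} = X.erase w := by
    ext v
    simp only [mem_symmDiff, mem_singleton, mem_erase]
    grind
  rw [← cut_symmDiff, h.card_cut_singleton, e1] at h4
  have h6 := card_erase_add_one hw
  rcases (X.erase w).eq_empty_or_nonempty with a | a
  · rw [a, card_empty] at h6
    omega
  have h7 := h2 _ a fun b => notMem_erase w X (b ▸ mem_univ w)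
  have h8 := card_le_card (compl_subset_compl.2 (erase_subset w X))
  have := h3 (X.erase w) (by omega)
  omega

theorem p_C23 :
    S_C23 := by
  intro V E _ _ _ _ s t h h2 h3
  refine or_iff_not_imp_left.2 fun a => ?_
  obtain ⟨X, a⟩ := not_forall.1 a
  have b := card_add_card_compl X
  have c := h2 X (card_pos.1 (by omega)) (by rintro rfl; simp at a)
  have d := h3 X
  have e := c23_a h h2 h3 (X := X) (by omega) (by omega)
  have f := c23_a h h2 h3 (X := Xᶜ) (by rw [cut_compl]; omega) (by rw [compl_compl]; omega)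
  omega

end Pool.Agent.P.MP_40718a_co.Wb

end

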