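import Pool.Agent.P.MP_40718a_co.Wb.IfaceB
import Pool.Agent.P.MP_40718a_co.Wb.Iface

section
/-! Step RWT. -/

set_option linter.unusedSectionVars false

namespace Pool.Agent.P.MP_40718a_co.Wb

open Finset ABF Bc

theorem rwt_pad {ι α : Type} [Fintype ι] {K : ℕ} (Q : α → Prop) (M : ι → α) (hM : ∀ i, Q (M i))
    {N0 : α} (h0 : Q N0) (hK : Fintype.card ι ≤ K) :
    ∃ M' : Fin K → α, (∀ k, Q (M' k)) ∧ ∀ i, ∃ k, M' k = M i := by
  classical
  obtain ⟨g⟩ : Nonempty (ι ↪ Fin K) := Function.Embedding.nonempty_of_card_le (by simpa using hK)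
  refine ⟨Function.extend g M fun _ => N0, fun k => ?_, fun i => ⟨g i, g.injective.extend_apply ..⟩⟩
  by_cases h : ∃ i, g i = k
  · obtain ⟨i, rfl⟩ := h
    rw [g.injective.extend_apply]
    exact hM i
  · rw [Function.extend_apply' _ _ _ h]
    exact h0

theorem rwt_iff {V E : Type} [Fintype V] [Fintype E] [DecidableEq V] [DecidableEq E]
    {s t : E → V} (h : Cubic s t) (e : E) (N : Finset E) :
    PMs s t {s e}ᶜ {e} N ↔ PM s t N ∧ e ∈ N := by
  have he : e ∈ cut s t {s e} := by simpa using (h.1 e).symm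
  unfold PMs
  rw [cut_compl]
  constructor
  · rintro ⟨h1, h2⟩
    refine ⟨fun v => ?_, (mem_inter.1 (h2 ▸ mem_singleton_self e)).1⟩
    by_cases hv : v = s e
    · rw [hv, deg_loopless h.1, h2, card_singleton]
    · exact h1 v (by simpa using hv)
  · rintro ⟨h1, h2⟩
    refine ⟨fun v _ => h1 v, ?_⟩
    have := h1 (s e)
    rw [deg_loopless h.1] at this
    exact (eq_of_subset_of_card_le (singleton_subset_iff.2 (mem_inter.2 ⟨h2, he⟩))
      (by simp [this])).symm

theorem p_RWT (hRMAIN : S_RMAIN) (hC23 : S_C23) :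
    S_RWT := by
  classical
  obtain ⟨κ, K, θ, hκ, hθ, hθK, hR⟩ := hRMAIN
  refine ⟨K + 6, by omega, fun V E _ _ _ _ s t hc h2 h3 e => ?_⟩
  obtain ⟨N0, hN0, he0⟩ := (all_ONE V E s t hc h2).1 {e} (by simp)
  have h0 : PM s t N0 ∧ e ∈ N0 := ⟨hN0, singleton_subset_iff.1 he0⟩
  rcases hC23 V E s t hc h2 h3 with hs | hs
  · have hY : ({s e}ᶜ : Finset V) ≠ univ := fun h => by
      have : s e ∈ ({s e}ᶜ : Finset V) := h ▸ mem_univ _
      simp at this
    have hst := ((rwt_iff hc e N0).2 h0)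
    obtain ⟨N', h4, h5⟩ := hR V E s t {s e}ᶜ hc hs hY
      (by rw [cut_compl, hc.card_cut_singleton]; omega) (fun σ => σ = {e}) (fun _ => N0) {e}
      (fun _ => hst.1) (by rw [cnt_congr (Q := fun _ => True) (by simp [hst.2]), cnt_true]; simpa)
      (by rintro f - ⟨σ, rfl, h⟩ h'; exact (h' h).elim)
    obtain ⟨M, h6, h7⟩ := rwt_pad (K := K + 6) (fun N => PM s t N ∧ e ∈ N) N'
      (fun i => (rwt_iff hc e _).1 (hst.2 ▸ h4 i)) h0 (by simp)
    refine ⟨M, h6, ?_⟩
    rintro f ⟨N, hN, heN, hfN⟩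
    by_cases hf : f ∈ ins s t {s e}ᶜ
    · obtain ⟨i, hi⟩ := h5 f hf ⟨{e}, rfl, N, (rwt_iff hc e N).2 ⟨hN, heN⟩, hfN⟩
      obtain ⟨k, hk⟩ := h7 i
      exact ⟨k, hk ▸ hi⟩
    · have : f = e := edge_unique (hN (s e)).le hfN heN (by
        simp only [mem_ins, mem_compl, mem_singleton] at hf
        tauto) (Or.inl rfl)
      exact ⟨⟨0, by omega⟩, this ▸ (h6 _).2⟩
  · have hE : Fintype.card E ≤ K + 6 := by
      have := ins_cut_card hc univ
      simp only [ins_univ, cut_univ, card_univ, card_empty] at this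
      omega
    have : ∀ f, ∃ N, (PM s t N ∧ e ∈ N) ∧ ((∃ N, PM s t N ∧ e ∈ N ∧ f ∈ N) → f ∈ N) := fun f => by
      by_cases h : ∃ N, PM s t N ∧ e ∈ N ∧ f ∈ N
      · obtain ⟨N, a, b, c⟩ := h
        exact ⟨N, ⟨a, b⟩, fun _ => c⟩
      · exact ⟨N0, h0, fun h' => (h h').elim⟩
    choose N' h4 h5 using this
    obtain ⟨M, h6, h7⟩ := rwt_pad (fun N => PM s t N ∧ e ∈ N) N' h4 h0 hE
    refine ⟨M, h6, fun f hf => ?_⟩
    obtain ⟨k, hk⟩ := h7 f
    exact ⟨k, hk ▸ h5 f hf⟩

end Pool.Agent.P.MP_40718a_co.Wb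

end

section
/-! Step EQV. -/

set_option linter.unusedSectionVars false

namespace Pool.Agent.P.MP_40718a_co.Wb

open Finset ABF Bc

section

variable {V E : Type} [Fintype V] [Fintype E] [DecidableEq V] [DecidableEq E] {s t : E → V}

theorem eqv_pm {e : E} (he : s e ≠ t e) {L : Finset E} (h1 : L ⊆ ins s t (ends s t e)ᶜ)
    (h2 : PMon s t (ends s t e)ᶜ L) : PM s t (insert e L) := by
  intro v
  have h0 : e ∉ L := fun h => by simpa [s_mem_ends] using h1 h
  rw [insert_eq, deg_union (disjoint_singleton_left.2 h0), deg_singleton]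
  by_cases hv : v ∈ ends s t e
  · rw [deg_eq_zero.2 fun f hf => ?_]
    · rcases mem_ends.1 hv with rfl | rfl <;> simp [he, he.symm]
    · have := mem_ins.1 (h1 hf)
      exact ⟨fun a => mem_compl.1 this.1 (a ▸ hv), fun a => mem_compl.1 this.2 (a ▸ hv)⟩
  · rw [h2 v (mem_compl.2 hv)]
    rw [mem_ends, not_or] at hv
    simp [Ne.symm hv.1, Ne.symm hv.2]

/-- an edge lies in at most two cuts of a disjoint family -/
theorem eqv_two {O : Finset (Finset V)} (hO : Dj O) (h : E) (b : Finset V → Finset E)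
    (hb : ∀ X ∈ O, b X ⊆ cut s t X ∧ b X ⊆ {h}) : ∑ X ∈ O, (b X).card ≤ 2 := by
  refine (sum_le_sum (g := fun X => (X ∩ ends s t h).card) fun X hX => ?_).trans ?_
  · rcases subset_singleton_iff.1 (hb X hX).2 with e | e
    · simp [e]
    · have := mem_cut.1 ((hb X hX).1 (e ▸ mem_singleton_self h))
      rw [e, card_singleton]
      refine card_pos.2 ?_
      by_cases a : s h ∈ X
      · exact ⟨_, mem_inter.2 ⟨a, s_mem_ends h⟩⟩
      · exact ⟨_, mem_inter.2 ⟨by tauto, t_mem_ends h⟩⟩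
  · rw [← card_biUnion fun X a Y b c => (hO X a Y b c).mono inter_subset_left inter_subset_left]
    exact (card_le_card (biUnion_subset.2 fun _ _ => inter_subset_right)).trans (ends_card h)

end

theorem p_EQV (hTUT3 : S_TUT3) (hWT : S_WT) :
    S_EQV := by
  intro V E _ _ _ _ s t e h hc h2 h3 H M hM hh
  by_contra he
  have c2 : (ends s t e).card = 2 := card_pair (hc.1 e)
  have ev : Even (ends s t e)ᶜ.card := by
    have h1 := even_card hc
    have h4 := card_add_card_compl (ends s t e)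
    rw [Nat.even_iff] at h1 ⊢
    omega
  rcases hTUT3 V E s t _ ((ins s t (ends s t e)ᶜ).erase h) ev (erase_subset _ _) with
    ⟨L, l1, l2⟩ | ⟨S, O, hS, hO, hle, hX⟩
  · rcases mem_insert.1 (H _ (eqv_pm (hc.1 e) (l1.trans (erase_subset _ _)) l2)
      (mem_insert_self _ _)) with a | a
    · exact he (a ▸ hh)
    · exact notMem_erase _ _ (l1 a)
  obtain ⟨T, hT⟩ : ∃ T, T = S ∪ ends s t e := ⟨_, rfl⟩
  have cT : T.card ≤ O.card := by
    have := card_union_le S (ends s t e)
    rw [hT]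
    omega
  have dj : ∀ X ∈ O, Disjoint X T := fun X a => disjoint_left.2 fun v b c => by
    have := (hX X a).1 b
    rw [hT] at c
    simp only [mem_sdiff, mem_compl, mem_union] at this c
    tauto
  have sub : ∀ X ∈ O, cut s t X \ meet s t T ⊆ {h} := fun X a f b => by
    rw [mem_sdiff, mem_meet, hT, mem_union, mem_union] at b
    by_contra c
    have := (hX X a).2.2.2 f (mem_inter.2 ⟨b.1, mem_erase.2 ⟨by simpa using c, by
      simp only [mem_ins, mem_compl]; tauto⟩⟩)
    tauto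
  have big : ∀ X ∈ O, 2 ≤ Xᶜ.card := fun X a => c2.ge.trans (card_le_card fun v b =>
    mem_compl.2 fun c => disjoint_left.1 (dj X a) c (hT ▸ mem_union_right _ b))
  have ge : ∀ X ∈ O, 3 ≤ (cut s t X).card := fun X a => by
    have h4 := (hX X a).2.1
    have h5 := h2 X (card_pos.1 h4.pos) fun b => by simpa [b] using big X a
    have h6 := hc.cut_parity X
    rw [Nat.odd_iff] at h4
    rw [Nat.even_iff] at h6
    omega
  have w := (hWT V E s t T O (meet s t T \ O.biUnion (cut s t)) hO dj sdiff_subset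
    fun X a => disjoint_left.2 fun f b c => (mem_sdiff.1 b).2 (mem_biUnion.2 ⟨X, a, c⟩)).2.1 hc
  have i1 : ins s t T ⊆ meet s t T \ O.biUnion (cut s t) := fun f b => by
    rw [mem_ins] at b
    refine mem_sdiff.2 ⟨mem_meet.2 (Or.inl b.1), fun c => ?_⟩
    obtain ⟨X, a, c⟩ := mem_biUnion.1 c
    exact mem_cut.1 c (iff_of_false (disjoint_right.1 (dj X a) b.1) (disjoint_right.1 (dj X a) b.2))
  have i2 : e ∈ ins s t T := by simp [hT, s_mem_ends, t_mem_ends]
  have i3 := card_le_card i1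
  have i4 := card_pos.2 ⟨e, i2⟩
  have two := eqv_two (s := s) (t := t) hO h _ fun X a => ⟨sdiff_subset, sub X a⟩
  have sp : ∑ X ∈ O, (cut s t X \ meet s t T).card + ∑ X ∈ O, (cut s t X ∩ meet s t T).card =
      ∑ X ∈ O, (cut s t X).card := by simp only [← sum_add_distrib, card_sdiff_add_card_inter]
  have s3 : ∑ _X ∈ O, 3 = 3 * O.card := by rw [sum_const, smul_eq_mul, mul_comm]
  have s4 := sum_le_sum ge
  have eq3 := (sum_eq_sum_iff_of_le ge).1 (by omega)
  have one : ∀ X ∈ O, (M ∩ cut s t X).card ≤ 1 := fun X a => by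
    obtain ⟨v, rfl⟩ := card_eq_one.1 (le_antisymm ((h3 X (eq3 X a).symm).resolve_right (by
      have := big X a
      omega)) (hX X a).2.1.pos)
    rw [← deg_loopless hc.1, hM v]
  obtain ⟨X1, a1, b1⟩ := exists_ne_zero_of_sum_ne_zero
    (show ∑ X ∈ O, (cut s t X \ meet s t T).card ≠ 0 by omega)
  obtain ⟨f, hf⟩ := card_ne_zero.1 b1
  obtain rfl := mem_singleton.1 (sub X1 a1 hf)
  have hs := handshake (s := s) (t := t) M T
  have z : (M ∩ ins s t T).card = 0 := card_eq_zero.2 (eq_empty_of_forall_notMem fun g b =>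
    he (card_le_one.1 (by omega) g (mem_inter.1 b).2 e i2 ▸ (mem_inter.1 b).1))
  simp only [hM _, sum_const, smul_eq_mul, mul_one] at hs
  have c1 : M ∩ cut s t T ⊆ O.biUnion fun X => M ∩ cut s t X ∩ meet s t T := fun g b => by
    obtain ⟨b, c⟩ := mem_inter.1 b
    have m : g ∈ meet s t T := meet_eq (s := s) (t := t) T ▸ mem_union_right _ c
    have : g ∈ O.biUnion (cut s t) := by_contra fun d => disjoint_left.1 (disjoint_ins_cut T)
      (eq_of_subset_of_card_le i1 (by omega) ▸ mem_sdiff.2 ⟨m, d⟩) c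
    obtain ⟨X, a, d⟩ := mem_biUnion.1 this
    exact mem_biUnion.2 ⟨X, a, mem_inter.2 ⟨mem_inter.2 ⟨b, d⟩, m⟩⟩
  have c3 := (card_le_card c1).trans card_biUnion_le
  have c4 : ∑ X ∈ O, (M ∩ cut s t X ∩ meet s t T).card < ∑ _X ∈ O, 1 :=
    sum_lt_sum (fun X a => (card_le_card inter_subset_left).trans (one X a)) ⟨X1, a1,
      (card_lt_card ⟨inter_subset_left, fun b => (mem_sdiff.1 hf).2
        (mem_inter.1 (b (mem_inter.2 ⟨hh, (mem_sdiff.1 hf).1⟩))).2⟩).trans_le (one X1 a1)⟩
  rw [sum_const, smul_eq_mul, mul_one] at c4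
  omega

end Pool.Agent.P.MP_40718a_co.Wb

end

section
/-! Step ASG. -/

set_option linter.unusedSectionVars false

namespace Pool.Agent.P.MP_40718a_co.Wb

open Finset ABF Bc

theorem p_ASG :
    S_ASG := by
  classical
  intro K S K0 I h1 hI
  obtain ⟨g, hg⟩ := Function.Embedding.exists_of_card_le_finset (α := Fin S × Fin K0) (s := I)
    (by simpa using hI)
  refine ⟨Function.extend g Prod.snd fun _ => ⟨0, h1⟩, fun k => ?_⟩
  unfold cnt
  have h := card_le_card_of_injOn (s := (univ : Finset (Fin S)))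
    (t := univ.filter fun i => i ∈ I ∧
      Function.extend g Prod.snd (fun _ => (⟨0, h1⟩ : Fin K0)) i = k)
    (fun a => g (a, k)) (by
      intro a _
      simp only [coe_filter, mem_univ, true_and, Set.mem_ofPred_eq]
      exact ⟨hg ⟨(a, k), rfl⟩, g.injective.extend_apply _ _ _⟩) (by
      intro a _ b _ hab
      exact (Prod.ext_iff.1 (g.injective hab)).1)
  simp only [card_univ, Fintype.card_fin] at h
  convert h

end Pool.Agent.P.MP_40718a_co.Wb

end

section
/-! Step HL. -/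

set_option linter.unusedSectionVars false

namespace Pool.Agent.P.MP_40718a_co.Wb

open Finset ABF Bc

theorem hl_pos {I : Type} [Fintype I] {P : I → Prop} : 1 ≤ cnt P ↔ ∃ i, P i := by
  classical
  simp [cnt_eq, Finset.Nonempty]

theorem p_HL (hEQV : S_EQV) (hASG : S_ASG) :
    S_HL := by
  intro V E _ _ _ _ s t K0 hc h2 h3 hK hR v r hr hb
  have inc {e} (h : e ∈ cut s t {v}) : s e = v ∨ t e = v := by
    simp only [mem_cut, mem_singleton] at h
    tauto
  have inc' {e} (h : s e = v ∨ t e = v) : e ∈ cut s t {v} := by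
    have := hc.1 e
    simp only [mem_cut, mem_singleton]
    grind
  have hb' (e) (h : e ∈ cut s t {v}) : 1 ≤ cnt (fun i => r i = e) ∧
      cnt (fun i => r i = e) + 2 * K0 ≤ 6 * K0 ^ 2 := by
    simpa only [Bal, mem_singleton, eq_comm] using hb e h
  have tot : ∑ e ∈ cut s t {v}, cnt (fun i => r i = e) = 6 * K0 ^ 2 := by
    rw [← cnt_mem, cnt_congr (Q := fun _ => True) (by simpa using hr), cnt_true, Fintype.card_fin]
  have c3 := hc.card_cut_singleton v
  obtain ⟨e1, m1, x1⟩ := (cut s t {v}).exists_max_image (fun e => cnt fun i => r i = e)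
    (card_pos.1 (by omega))
  have c2 := card_erase_of_mem m1
  obtain ⟨e2, m2, x2⟩ := ((cut s t {v}).erase e1).exists_max_image (fun e => cnt fun i => r i = e)
    (card_pos.1 (by omega))
  obtain ⟨e3, m3⟩ := card_eq_one.1 (show (((cut s t {v}).erase e1).erase e2).card = 1 by
    rw [card_erase_of_mem m2]; omega)
  have y1 := sum_le_card_nsmul _ _ _ x1
  have y2 := sum_le_card_nsmul _ _ _ x2
  have y3 := add_sum_erase _ (fun e => cnt fun i => r i = e) m1
  have y4 := (hb' e1 m1).2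
  rw [c2] at y2
  simp only [tot, c3, smul_eq_mul] at y1 y2 y3
  obtain ⟨C1, a1, b1⟩ := hR e1
  obtain ⟨C2, a2, b2⟩ := hR e2
  obtain ⟨ω1, w1⟩ := hASG _ (2 * K0) K0 (univ.filter fun i => r i = e1) hK (by
    rw [← cnt_eq]; nlinarith)
  obtain ⟨ω2, w2⟩ := hASG _ 1 K0 (univ.filter fun i => r i = e2) hK (by rw [← cnt_eq]; omega)
  have one (e : E) : ∃ M, PM s t M ∧ e ∈ M := by
    simpa using (all_ONE V E s t hc h2).1 {e} (by simp)
  choose N n1 n2 using one
  obtain ⟨M, hM⟩ : ∃ M : Fin (6 * K0 ^ 2) → Finset E, ∀ i,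
    M i = if r i = e1 then C1 (ω1 i) else if r i = e2 then C2 (ω2 i) else N (r i) :=
    ⟨_, fun _ => rfl⟩
  have pm (i) : PM s t (M i) ∧ r i ∈ M i := by
    rw [hM]
    split_ifs with a b
    exacts [a ▸ a1 _, b ▸ a2 _, ⟨n1 _, n2 _⟩]
  have big (f) (h : ∃ N, PM s t N ∧ e1 ∈ N ∧ f ∈ N) : 2 * K0 ≤ cnt fun i => f ∈ M i := by
    obtain ⟨k, hk⟩ := b1 f h
    refine (w1 k).trans (cnt_mono fun i hi => ?_)
    rwa [hM, if_pos (mem_filter.1 hi.1).2, hi.2]
  refine ⟨M, pm, fun f => ⟨?_, ?_⟩⟩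
  · by_cases g1 : ∃ N, PM s t N ∧ e1 ∈ N ∧ f ∈ N
    · exact le_trans (by omega) (big f g1)
    by_cases g2 : ∃ N, PM s t N ∧ e2 ∈ N ∧ f ∈ N
    · obtain ⟨k, hk⟩ := b2 f g2
      refine (w2 k).trans (cnt_mono fun i hi => ?_)
      have := (mem_filter.1 hi.1).2
      rwa [hM, if_neg (this ▸ ne_of_mem_erase m2), if_pos this, hi.2]
    obtain ⟨i, hi⟩ := hl_pos.1 (hb' e3 (mem_of_mem_erase (mem_of_mem_erase
      (m3 ▸ mem_singleton_self e3)))).1
    refine hl_pos.2 ⟨i, hEQV V E s t f e3 hc h2 h3 (fun N hN hf => ?_) _ (pm i).1 (hi ▸ (pm i).2)⟩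
    obtain ⟨e, he, hv⟩ := exists_edge (hN v)
    have : e ∈ ((cut s t {v}).erase e1).erase e2 := mem_erase.2 ⟨fun a => g2 ⟨N, hN, a ▸ he, hf⟩,
      mem_erase.2 ⟨fun a => g1 ⟨N, hN, a ▸ he, hf⟩, inc' hv⟩⟩
    rw [m3, mem_singleton] at this
    exact this ▸ he
  · by_cases g : ∃ f', f' ≠ f ∧ (s f' = s f ∨ t f' = s f) ∧ ∃ N, PM s t N ∧ e1 ∈ N ∧ f' ∈ N
    · obtain ⟨f', g1, g2, g3⟩ := g
      have a := cnt_add_not fun i => f ∈ M i
      have b := (big f' g3).trans (cnt_mono (Q := fun i => f ∉ M i) fun i hi hf =>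
        g1 (edge_unique ((pm i).1 (s f)).le hi hf g2 (.inl rfl)))
      rw [Fintype.card_fin] at a
      omega
    · refine le_trans (Nat.add_le_add_right (cnt_mono fun i hi => ?_) _) y4
      refine edge_unique ((pm i).1 v).le (pm i).2 (hEQV V E s t e1 f hc h2 h3
        (fun N hN h1 => ?_) _ (pm i).1 hi) (inc (hr i)) (inc m1)
      obtain ⟨e, he, hv⟩ := exists_edge (hN (s f))
      exact by_contra fun a => g ⟨e, fun b => a (b ▸ he), hv, N, hN, h1, he⟩

end Pool.Agent.P.MP_40718a_co.Wb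

end

section
/-! Step CON. -/

set_option linter.unusedSectionVars false

namespace Pool.Agent.P.MP_40718a_co.Wb

open Finset ABF Bc

section

variable {V E : Type} [Fintype V] [Fintype E] [DecidableEq V] [DecidableEq E] (s t : E → V)
  (A : Finset V)

/-- contraction of the complement of `A` -/
def con_f (v : V) : Option {v // v ∈ A} := if h : v ∈ A then some ⟨v, h⟩ else none

/-- the edges after the contraction -/
def con_g (d : {e // e ∈ meet s t A}) (e : E) : {e // e ∈ meet s t A} :=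
  if h : e ∈ meet s t A then ⟨e, h⟩ else d

variable {s t A}

theorem con_none {v : V} : con_f A v = none ↔ v ∉ A := by
  unfold con_f
  split_ifs with h <;> simp [h]

theorem con_eq {v w : V} (h : v ∈ A) : con_f A w = con_f A v ↔ w = v := by
  unfold con_f
  by_cases h' : w ∈ A
  · simp [h, h']
  · simpa [h, h'] using fun e : w = v => h' (e ▸ h)

theorem con_val (d : {e // e ∈ meet s t A}) {e : E} (h : e ∈ meet s t A) :
    (con_g s t A d e).1 = e := by simp only [con_g, dif_pos h]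

theorem con_inj (d : {e // e ∈ meet s t A}) : Set.InjOn (con_g s t A d) (meet s t A) :=
  fun a ha b hb h => by rw [← con_val d ha, h, con_val d hb]

theorem con_sub (X : Finset (Option {v // v ∈ A})) :
    cut s t (univ.filter fun v => con_f A v ∈ X) ⊆ meet s t A := by
  intro e he
  by_contra h
  rw [mem_meet, not_or, ← con_none, ← con_none] at h
  simp [h.1, h.2] at he

theorem con_cut (d : {e // e ∈ meet s t A}) (X : Finset (Option {v // v ∈ A})) :
    (cut s t (univ.filter fun v => con_f A v ∈ X)).image (con_g s t A d) =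
      cut (fun e : {e // e ∈ meet s t A} => con_f A (s e)) (fun e => con_f A (t e)) X := by
  ext e
  rw [mem_image]
  constructor
  · rintro ⟨a, ha, rfl⟩
    rw [mem_cut, con_val d (con_sub X ha)]
    simpa using ha
  · exact fun h => ⟨e, by simpa using h, Subtype.ext (con_val d e.2)⟩

theorem con_card (d : {e // e ∈ meet s t A}) (X : Finset (Option {v // v ∈ A})) :
    (cut (fun e : {e // e ∈ meet s t A} => con_f A (s e)) (fun e => con_f A (t e)) X).card =
      (cut s t (univ.filter fun v => con_f A v ∈ X)).card := by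
  rw [← con_cut d, card_image_of_injOn ((con_inj d).mono (coe_subset.2 (con_sub X)))]

theorem con_one {v : V} (h : v ∈ A) :
    (univ.filter fun w => con_f A w ∈ ({con_f A v} : Finset _)) = {v} := by
  ext w
  simp [con_eq h]

theorem con_out : (univ.filter fun w => con_f A w ∈ ({none} : Finset _)) = Aᶜ := by
  ext w
  simp [con_none]

end

theorem p_CON :
    S_CON := by
  intro V E _ _ _ _ s t A hc h2 h3
  obtain ⟨d, hd⟩ : (cut s t A).Nonempty := card_pos.1 (by omega)
  have hd' : d ∈ meet s t A := by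
    rw [meet_eq]
    exact mem_union_right _ hd
  have sur : Function.Surjective (con_f A) := by
    rintro (_ | ⟨v, hv⟩)
    · rw [mem_cut] at hd
      by_cases h : s d ∈ A
      · exact ⟨t d, con_none.2 fun h' => hd (iff_of_true h h')⟩
      · exact ⟨s d, con_none.2 h⟩
    · exact ⟨v, dif_pos hv⟩
  have hl : ∀ e : {e // e ∈ meet s t A}, con_f A (s e) ≠ con_f A (t e) := fun e h => by
    rcases mem_meet.1 e.2 with a | a
    · exact hc.1 e ((con_eq a).1 h.symm).symm
    · exact hc.1 e ((con_eq a).1 h)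
  refine ⟨⟨Option {v // v ∈ A}, {e // e ∈ meet s t A}, fun e => con_f A (s e),
    fun e => con_f A (t e), ∅, hl, fun x => ?_⟩, none, con_f A, con_g s t A ⟨d, hd'⟩,
    fun X a b => ?_, by simp, con_inj _, fun v hv => ?_, ?_⟩
  · rw [deg_loopless hl, univ_inter, con_card ⟨d, hd'⟩]
    obtain ⟨v, rfl⟩ := sur x
    by_cases hv : v ∈ A
    · rw [con_one hv, hc.card_cut_singleton]
    · rw [con_none.2 hv, con_out, cut_compl, h3]
  · refine (h2 _ ?_ fun h => b (eq_univ_of_forall fun x => ?_)).trans (con_card ⟨d, hd'⟩ X).ge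
    · obtain ⟨x, hx⟩ := a
      obtain ⟨v, rfl⟩ := sur x
      exact ⟨v, mem_filter.2 ⟨mem_univ _, hx⟩⟩
    · obtain ⟨v, rfl⟩ := sur x
      exact (mem_filter.1 (eq_univ_iff_forall.1 h v)).2
  · exact (congrArg (fun X => (cut s t X).image _) (con_one hv).symm).trans (con_cut _ _)
  · have := con_cut ⟨d, hd'⟩ {none}
    rwa [con_out, cut_compl] at this

end Pool.Agent.P.MP_40718a_co.Wb

end

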