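import Pool.Agent.P.MP_40718a_co.Wb.IfaceB

section
/-! Step GL3. -/

set_option linter.unusedSectionVars false

namespace Pool.Agent.P.MP_40718a_co.Wb

open Finset ABF Bc

section

variable {V E : Type} [Fintype V] [Fintype E] [DecidableEq V] [DecidableEq E] {s t : E → V}
  {K S : ℕ}

theorem gl3_bal {E' : Type} {M : Fin K → Finset E} {M' : Fin K → Finset E'} {e : E} {e' : E'}
    (h : ∀ i, e ∈ M i ↔ e' ∈ M' i) (hb : Bal K S M e) : Bal K S M' e' := by
  unfold Bal at hb ⊢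
  rwa [← cnt_congr h]

theorem gl3_sub {A : Finset V} {v : V} (hv : v ∈ A) : cut s t {v} ⊆ meet s t A := by
  intro e he
  simp only [mem_cut, mem_singleton] at he
  rw [mem_meet]
  by_cases h : s e = v
  · exact .inl (h ▸ hv)
  · exact .inr ((by tauto : t e = v) ▸ hv)

/-- matchings of the contracted graph pulled back to the side `A` -/
theorem gl3_side (hCON : S_CON) (hc : Cubic s t) (h2 : EC 2 s t) {A : Finset V}
    (h3 : (cut s t A).card = 3) (hA : 2 ≤ Aᶜ.card)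
    (ih : ∀ (V' E' : Type) [Fintype V'] [Fintype E'] [DecidableEq V'] [DecidableEq E']
      (s' t' : E' → V'), Cubic s' t' → EC 2 s' t' → Fintype.card V' < Fintype.card V →
      PP s' t' K S) (C : Finset E) (hC : C = cut s t A ∨ ∃ v ∈ A, C = cut s t {v})
    (r : Fin K → E) (hr : ∀ i, r i ∈ C) (hb : ∀ e ∈ C, Bal K S (fun i => {r i}) e) :
    ∃ N : Fin K → Finset E, (∀ i, PMon s t A (N i) ∧ (N i ∩ cut s t A).card = 1 ∧ r i ∈ N i) ∧
      ∀ e ∈ meet s t A, Bal K S N e := by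
  obtain ⟨P, x0, f, g, p2, pc, hg, hf, hx⟩ := hCON V E s t A hc h2 h3
  have hsub : cut s t A ⊆ meet s t A := by rw [meet_eq]; exact subset_union_right
  obtain ⟨w, hw, hCm⟩ : ∃ w, C.image g = cut P.s P.t {w} ∧ C ⊆ meet s t A := by
    rcases hC with rfl | ⟨v, hv, rfl⟩
    · exact ⟨x0, hx, hsub⟩
    · exact ⟨f v, hf v hv, gl3_sub hv⟩
  obtain ⟨M, hM, hB⟩ := ih P.V P.E P.s P.t P.cub p2
    (by have := card_add_card_compl A; omega) w (fun i => g (r i))
    (fun i => hw ▸ mem_image_of_mem g (hr i)) fun e' he' => by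
      obtain ⟨e, he, rfl⟩ := mem_image.1 (hw ▸ he' : e' ∈ C.image g)
      refine gl3_bal (fun i => ?_) (hb e he)
      rw [mem_singleton, mem_singleton]
      exact (hg.eq_iff (hCm he) (hCm (hr i))).symm
  have key : ∀ i (D : Finset E) (u : P.V), D ⊆ meet s t A → D.image g = cut P.s P.t {u} →
      (((meet s t A).filter fun e => g e ∈ M i) ∩ D).card = 1 := fun i D u hD hu => by
    rw [← (hM i).1 u, deg_loopless P.cub.1, ← hu,
      ← card_image_of_injOn (hg.mono fun e he => hD (mem_inter.1 he).2)]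
    congr 1
    ext e'
    simp only [mem_image, mem_inter, mem_filter]
    exact ⟨fun ⟨e, ⟨⟨_, a⟩, b⟩, h⟩ => ⟨h ▸ a, e, b, h⟩,
      fun ⟨a, e, b, h⟩ => ⟨e, ⟨⟨hD b, h ▸ a⟩, b⟩, h⟩⟩
  refine ⟨fun i => (meet s t A).filter fun e => g e ∈ M i, fun i => ⟨fun v hv => ?_,
    key i _ x0 hsub hx, mem_filter.2 ⟨hCm (hr i), (hM i).2⟩⟩,
    fun e he => gl3_bal (fun i => by simp only [mem_filter, he, true_and]) (hB (g e))⟩
  rw [deg_loopless hc.1]
  exact key i _ _ (gl3_sub hv) (hf v hv)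

theorem gl3_out (hCON : S_CON) (hc : Cubic s t) (h2 : EC 2 s t) {X : Finset V}
    (h3 : (cut s t X).card = 3) (hX : 2 ≤ X.card) (hX' : 2 ≤ Xᶜ.card)
    (ih : ∀ (V' E' : Type) [Fintype V'] [Fintype E'] [DecidableEq V'] [DecidableEq E']
      (s' t' : E' → V'), Cubic s' t' → EC 2 s' t' → Fintype.card V' < Fintype.card V →
      PP s' t' K S) (v : V) (hv : v ∉ X)
    (r : Fin K → E) (hr : ∀ i, r i ∈ cut s t {v})
    (hb : ∀ e ∈ cut s t {v}, Bal K S (fun i => {r i}) e) :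
    ∃ M : Fin K → Finset E, (∀ i, PM s t (M i) ∧ r i ∈ M i) ∧ ∀ e, Bal K S M e := by
  obtain ⟨N1, a1, b1⟩ := gl3_side hCON hc h2 (A := Xᶜ) (by rwa [cut_compl])
    (by rwa [compl_compl]) ih _ (.inr ⟨v, mem_compl.2 hv, rfl⟩) r hr hb
  simp only [cut_compl] at a1
  choose h hh using fun i => card_eq_one.1 (a1 i).2.1
  have m1 : ∀ i, ∀ e ∈ cut s t X, e ∈ N1 i ↔ e ∈ ({h i} : Finset E) := fun i e he => by
    rw [← hh i, mem_inter, and_iff_left he]
  have hc' : ∀ i, h i ∈ cut s t X := fun i =>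
    (mem_inter.1 (hh i ▸ mem_singleton_self (h i) : h i ∈ N1 i ∩ cut s t X)).2
  obtain ⟨N2, a2, b2⟩ := gl3_side hCON hc h2 h3 hX' ih _ (.inl rfl) h hc' fun e he =>
    gl3_bal (fun i => m1 i e he) (b1 e (by
      rw [meet_eq, cut_compl]; exact mem_union_right _ he))
  refine ⟨fun i => (N1 i \ ins s t X) ∪ (N2 i ∩ ins s t X), fun i => ⟨fun u => glue (Y := univ)
    (by rw [← compl_eq_univ_sdiff]; exact (a1 i).1) (a2 i).1 (fun e he => ?_) u (mem_univ u),
    (mem_glue_out ?_).2 (a1 i).2.2⟩, fun e => ?_⟩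
  · rw [m1 i e he, mem_singleton]
    exact ⟨fun h' => h' ▸ (a2 i).2.2, fun h' => card_le_one.1 (a2 i).2.1.le _
      (mem_inter.2 ⟨h', he⟩) _ (mem_inter.2 ⟨(a2 i).2.2, hc' i⟩)⟩
  · rw [← mem_compl, ← meet_compl]
    exact gl3_sub (mem_compl.2 hv) (hr i)
  · by_cases he : e ∈ ins s t X
    · exact gl3_bal (fun i => (mem_glue_in he).symm)
        (b2 e (by rw [meet_eq]; exact mem_union_left _ he))
    · exact gl3_bal (fun i => (mem_glue_out he).symm)
        (b1 e (by rw [meet_compl]; exact mem_compl.2 he))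

end

theorem p_GL3 (hCON : S_CON) :
    S_GL3 := by
  intro V E _ _ _ _ s t K S X hc h2 h3 hX hX' ih v r hr hb
  by_cases hv : v ∈ X
  · exact gl3_out hCON hc h2 (X := Xᶜ) (by rwa [cut_compl]) hX' (by rwa [compl_compl]) ih v
      (by simpa using hv) r hr hb
  · exact gl3_out hCON hc h2 h3 hX hX' ih v hv r hr hb

end Pool.Agent.P.MP_40718a_co.Wb

end

section
/-! Step W2. -/

set_option linter.unusedSectionVars false

namespace Pool.Agent.P.MP_40718a_co.Wb

open Finset ABF Bc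

theorem w2_pp (hHL : S_HL) (hGL3 : S_GL3) (K0 : ℕ) (h1 : 1 ≤ K0)
    (hK : ∀ (V E : Type) [Fintype V] [Fintype E] [DecidableEq V] [DecidableEq E] (s t : E → V),
      Cubic s t → EC 2 s t → No3 s t → RW s t K0) (n : ℕ) :
    ∀ (V E : Type) [Fintype V] [Fintype E] [DecidableEq V] [DecidableEq E] (s t : E → V),
      Fintype.card V = n → Cubic s t → EC 2 s t → PP s t (6 * K0 ^ 2) (2 * K0) := by
  induction n using Nat.strong_induction_on with
  | _ n ih =>
    intro V E _ _ _ _ s t hn hc he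
    by_cases h3 : No3 s t
    · exact hHL V E s t K0 hc he h3 h1 (hK V E s t hc he h3)
    · unfold No3 at h3
      push Not at h3
      obtain ⟨X, hX, a, b⟩ := h3
      exact hGL3 V E s t _ _ X hc he hX a b fun V' E' _ _ _ _ s' t' hc' he' hlt =>
        ih _ (hn ▸ hlt) V' E' s' t' rfl hc' he'

theorem p_W2 (hRWT : S_RWT) (hHL : S_HL) (hGL3 : S_GL3) (hASG : S_ASG) :
    S_W2 := by
  obtain ⟨K0, h1, hK⟩ := hRWT
  refine ⟨6 * K0 ^ 2, fun V E _ _ _ _ s t hc he => ?_⟩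
  have hP := w2_pp hHL hGL3 K0 h1 hK _ V E s t rfl hc he
  rcases isEmpty_or_nonempty V with hV | ⟨⟨v⟩⟩
  · exact ⟨fun _ => ∅, fun _ v => hV.elim v, fun e => hV.elim (s e)⟩
  have hl : ∃ lab : Fin 3 → E, Lab s t {v} lab := by
    have := exists_lab (s := s) (t := t) {v}
    rwa [hc.card_cut_singleton v] at this
  obtain ⟨lab, hl⟩ := hl
  obtain ⟨ω, hω⟩ := hASG (6 * K0 ^ 2) (2 * K0 ^ 2) 3 univ (by omega) (by simp; omega)
  simp only [mem_univ, true_and] at hω
  have hsq : K0 ≤ K0 ^ 2 := by nlinarith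
  obtain ⟨M, hM, hB⟩ := hP v (fun i => lab (ω i)) (fun i => (hl.2 _).2 ⟨_, rfl⟩) (by
    intro e h
    obtain ⟨k, rfl⟩ := (hl.2 e).1 h
    have e1 : cnt (fun i => lab k ∈ ({lab (ω i)} : Finset E)) = cnt fun i => ω i = k :=
      cnt_congr fun i => by rw [mem_singleton, hl.1.eq_iff, eq_comm]
    have e2 := cnt_add_not fun i => ω i = k
    obtain ⟨k', hk'⟩ := exists_ne k
    have e3 : cnt (fun i => ω i = k') ≤ cnt fun i => ¬ ω i = k :=
      cnt_mono fun i h => h ▸ hk'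
    have e4 := hω k
    have e5 := hω k'
    rw [Fintype.card_fin] at e2
    unfold Bal
    rw [e1]
    omega)
  refine ⟨M, fun i => (hM i).1, fun e => ?_⟩
  by_contra h
  have := (hB e).1
  rw [cnt_eq_zero fun i hi => h ⟨i, hi⟩] at this
  omega

end Pool.Agent.P.MP_40718a_co.Wb

end

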