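import Pool.Agent.P.MP_40718a_co.Wb.Iface

section
/-! Step TUB. -/

set_option linter.unusedSectionVars false

namespace Pool.Agent.P.MP_40718a_co.Wb

open Finset ABF Bc

theorem p_TUB (hWT : S_WT) :
    S_TUB := by
  intro V E _ _ _ _ s t U S O γ b hc h3 hU ⟨hS, hD, hO⟩ hSO hγ h2
  rcases S.eq_empty_or_nonempty with rfl | ⟨v0, hv0⟩
  · simp
  obtain ⟨w0, hw0⟩ : ∃ w, w ∉ U := by
    by_contra! h
    exact hU (eq_univ_of_forall h)
  have hXU : ∀ X ∈ O, X ⊆ U := fun X hX => (hO X hX).1.trans sdiff_subset
  have hXS : ∀ X ∈ O, Disjoint X S := fun X hX => sdiff_disjoint.mono_left (hO X hX).1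
  obtain ⟨-, w2, w3⟩ := hWT V E s t S O (meet s t S \ O.biUnion (cut s t)) hD hXS sdiff_subset
    fun X hX => sdiff_disjoint.mono_right (subset_biUnion_of_mem _ hX)
  have w2 := w2 hc
  have w3 := ((w3 U hXU).trans (card_le_card inter_subset_right)).trans hγ
  have c1 : ∑ X ∈ O, (cut s t X).card ≤
      ∑ X ∈ O, (cut s t X ∩ meet s t S).card + ∑ X ∈ O, (cut s t X ∩ cut s t U).card := by
    rw [← sum_add_distrib]
    refine sum_le_sum fun X hX => ?_
    rw [cut_split (hXU X hX)]
    exact Nat.add_le_add_right (card_le_card fun e he =>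
      mem_inter.2 ⟨(mem_inter.1 he).1, mem_meet.2 ((hO X hX).2.2 e he)⟩) _
  have c2 := sum_filter_add_sum_filter_not O (fun X => X.card = 1) fun X => (cut s t X).card
  have c3 := card_filter_add_card_filter_not (s := O) fun X => X.card = 1
  have c4 := card_nsmul_le_sum (O.filter fun X => X.card = 1) (fun X => (cut s t X).card) 3
    fun X hX => by
      obtain ⟨v, rfl⟩ := card_eq_one.1 (mem_filter.1 hX).2
      exact (hc.card_cut_singleton v).ge
  have c5 := card_nsmul_le_sum (O.filter fun X => ¬ X.card = 1) (fun X => (cut s t X).card) 5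
    fun X hX => by
      obtain ⟨h1, h1'⟩ := mem_filter.1 hX
      have a1 := Nat.even_iff.1 (hc.cut_parity X)
      have a2 := Nat.odd_iff.1 (hO X h1).2.1
      have a3 : 1 < Xᶜ.card := one_lt_card.2 ⟨v0, mem_compl.2 (disjoint_right.1 (hXS X h1) hv0),
        w0, mem_compl.2 fun a => hw0 (hXU X h1 a), fun a => hw0 (a ▸ hS hv0)⟩
      have a4 := h3 X
      omega
  have c6 : (ins s t S).card ≤ (meet s t S \ O.biUnion (cut s t)).card :=
    card_le_card fun e he => by
      rw [mem_ins] at he
      refine mem_sdiff.2 ⟨mem_meet.2 (.inl he.1), fun a => ?_⟩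
      obtain ⟨X, hX, a⟩ := mem_biUnion.1 a
      have := disjoint_right.1 (hXS X hX) he.1
      have := disjoint_right.1 (hXS X hX) he.2
      rw [mem_cut] at a
      tauto
  have c7 := endsOf_card (s := s) (t := t) (ins s t S)
  have c8 := meet_card hc (endsOf s t (ins s t S))
  have fD : ∀ e, s e ∈ S → t e ∈ S →
      s e ∈ endsOf s t (ins s t S) ∧ t e ∈ endsOf s t (ins s t S) := fun e a b =>
    ⟨mem_endsOf.2 ⟨e, mem_ins.2 ⟨a, b⟩, .inl rfl⟩, mem_endsOf.2 ⟨e, mem_ins.2 ⟨a, b⟩, .inr rfl⟩⟩
  generalize endsOf s t (ins s t S) = W at *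
  obtain ⟨T, hT⟩ : ∃ T : Finset V, ∀ v, v ∈ T ↔ {v} ∈ O := ⟨univ.filter fun v => {v} ∈ O, by simp⟩
  have fC : ∀ v ∈ T, v ∈ U ∧ v ∉ S := fun v hv =>
    mem_sdiff.1 ((hO _ ((hT v).1 hv)).1 (mem_singleton_self v))
  have fA : ∀ e, s e ∈ T ∨ t e ∈ T → s e ∈ U → t e ∈ U → s e ∈ S ∨ t e ∈ S := fun e h a b => by
    have := hc.1 e
    rcases h with h | h <;>
      exact (hO _ ((hT _).1 h)).2.2 e (mem_inter.2 ⟨by simp [this, this.symm], mem_ins.2 ⟨a, b⟩⟩)
  have fB : ∀ e ∈ O.biUnion (cut s t),
      e ∈ (O.filter fun X => ¬ X.card = 1).biUnion (cut s t) ∨ s e ∈ T ∨ t e ∈ T := fun e he => by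
    obtain ⟨X, hX, a⟩ := mem_biUnion.1 he
    by_cases h : X.card = 1
    · obtain ⟨v, rfl⟩ := card_eq_one.1 h
      rw [mem_cut, mem_singleton, mem_singleton] at a
      by_cases a1 : s e = v
      · exact .inr (.inl ((hT _).2 (a1 ▸ hX)))
      · exact .inr (.inr ((hT _).2 ((by tauto : t e = v) ▸ hX)))
    · exact .inl (mem_biUnion.2 ⟨X, mem_filter.2 ⟨hX, h⟩, a⟩)
  have c9 : (cut s t (S \ W ∪ T)).card ≤ ((meet s t S \ O.biUnion (cut s t)) ∪
      (O.filter fun X => ¬ X.card = 1).biUnion (cut s t) ∪ cut s t U ∪ meet s t W).card :=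
    card_le_card fun e he => by
      have a1 := fA e
      have a2 := fB e
      have a3 := fC (s e)
      have a4 := fC (t e)
      have a5 := @hS (s e)
      have a6 := @hS (t e)
      simp only [mem_union, mem_sdiff, mem_meet, mem_cut] at he ⊢
      grind
  have c10 := c9.trans ((card_union_le _ _).trans (Nat.add_le_add_right ((card_union_le _ _).trans
    (Nat.add_le_add_right ((card_union_le _ _).trans (Nat.add_le_add_left card_biUnion_le _)) _)) _))
  have c11 := h2 (S \ W ∪ T) (union_subset (sdiff_subset.trans hS) fun v hv => (fC v hv).1)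
    ⟨fun v => decide (v ∈ S), fun e he => by
      have a1 := fA e
      have a2 := fD e
      have a3 := fC (s e)
      have a4 := fC (t e)
      simp only [mem_union, mem_sdiff, mem_ins, ne_eq, decide_eq_decide] at he ⊢
      grind⟩ (by simp only [smul_eq_mul] at c4 c5; omega)
  have c12 := le_card_sdiff W S
  have c13 := card_le_card (subset_union_left : S \ W ⊆ S \ W ∪ T)
  simp only [smul_eq_mul] at c4 c5
  omega

end Pool.Agent.P.MP_40718a_co.Wb

end

section
/-! Step HALL. -/

set_option linter.unusedSectionVars false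

namespace Pool.Agent.P.MP_40718a_co.Wb

open Finset ABF Bc

theorem hall_deg {V E : Type} [Fintype V] [Fintype E] [DecidableEq V] [DecidableEq E]
    {s t : E → V} {L : Finset E} {v : V} {e : E} (he : e ∈ L) (h1 : s e = v ∨ t e = v)
    (h2 : s e ≠ t e) (h3 : ∀ f ∈ L, s f = v ∨ t f = v → f = e) : deg s t L v = 1 := by
  have : deg s t L v = deg s t {e} v := deg_congr fun f hf =>
    ⟨fun h => mem_singleton.2 (h3 f h hf), fun h => by rw [mem_singleton.1 h]; exact he⟩
  rw [this, deg_singleton]
  rcases h1 with h | h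
  · have : t e ≠ v := fun h' => h2 (h.trans h'.symm)
    simp [h, this]
  · have : s e ≠ v := fun h' => h2 (h'.trans h.symm)
    simp [h, this]

theorem p_HALL :
    S_HALL := by
  intro V E _ _ _ _ s t U F col hF hcol hcard
  classical
  set P := U.filter fun v => col v = true with hP
  set Q := U.filter fun v => col v = false with hQ
  let nb : P → Finset V := fun u =>
    univ.filter fun w => ∃ e ∈ F, (s e = u ∧ t e = w) ∨ (t e = u ∧ s e = w)
  have hnb : ∀ (u : P) w, w ∈ nb u ↔ ∃ e ∈ F, (s e = u ∧ t e = w) ∨ (t e = u ∧ s e = w) := by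
    intro u w
    simp only [nb, mem_filter, mem_univ, true_and]
  have hnQ : ∀ (u : P) w, w ∈ nb u → w ∈ Q := by
    intro u w hw
    obtain ⟨e, he, h⟩ := (hnb u w).1 hw
    have h1 := mem_ins.1 (hF he)
    have h2 := hcol e he
    have h3 := (mem_filter.1 u.2).2
    rcases h with ⟨a, rfl⟩ | ⟨a, rfl⟩
    · refine mem_filter.2 ⟨h1.2, ?_⟩
      rw [a, h3] at h2
      simpa using h2
    · refine mem_filter.2 ⟨h1.1, ?_⟩
      rw [a, h3] at h2
      simpa using h2
  by_cases hH : ∀ A : Finset P, A.card ≤ (A.biUnion nb).card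
  · left
    obtain ⟨f, hf, hfn⟩ := (Finset.all_card_le_biUnion_card_iff_exists_injective nb).1 hH
    choose ed hed hed' using fun u => (hnb u (f u)).1 (hfn u)
    have hPQ : ∀ v, v ∈ P → v ∈ Q → False := fun v a b => by
      have a' := (mem_filter.1 a).2
      have b' := (mem_filter.1 b).2
      rw [a'] at b'
      exact absurd b' (by simp)
    have hne : ∀ e ∈ F, s e ≠ t e := fun e he h => hcol e he (by rw [h])
    have himg : univ.image f = Q := by
      refine eq_of_subset_of_card_le (fun w hw => ?_) ?_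
      · obtain ⟨u, -, rfl⟩ := mem_image.1 hw
        exact hnQ u _ (hfn u)
      · rw [card_image_of_injective _ hf, card_univ, Fintype.card_coe, hcard]
    have hend : ∀ (u : P) v, s (ed u) = v ∨ t (ed u) = v → v = u ∨ v = f u := by
      intro u v h
      rcases hed' u with ⟨a, b⟩ | ⟨a, b⟩ <;> rcases h with rfl | rfl <;> simp [a, b]
    refine ⟨univ.image ed, fun e he => ?_, fun v hv => ?_⟩
    · obtain ⟨u, -, rfl⟩ := mem_image.1 he
      exact hed u
    · by_cases hc : col v = true
      · have hvP : v ∈ P := mem_filter.2 ⟨hv, hc⟩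
        refine hall_deg (e := ed ⟨v, hvP⟩) (mem_image_of_mem _ (mem_univ _)) ?_
          (hne _ (hed _)) ?_
        · rcases hed' ⟨v, hvP⟩ with ⟨a, -⟩ | ⟨a, -⟩
          · exact Or.inl a
          · exact Or.inr a
        · intro e he h
          obtain ⟨u, -, rfl⟩ := mem_image.1 he
          rcases hend u v h with h' | h'
          · congr 1
            exact Subtype.ext h'.symm
          · exact (hPQ v hvP (h' ▸ hnQ u _ (hfn u))).elim
      · have hvQ : v ∈ Q := mem_filter.2 ⟨hv, by simpa using hc⟩
        obtain ⟨u0, -, hu0⟩ := mem_image.1 (himg ▸ hvQ : v ∈ univ.image f)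
        refine hall_deg (e := ed u0) (mem_image_of_mem _ (mem_univ _)) ?_
          (hne _ (hed _)) ?_
        · rcases hed' u0 with ⟨-, a⟩ | ⟨-, a⟩
          · exact Or.inr (a.trans hu0)
          · exact Or.inl (a.trans hu0)
        · intro e he h
          obtain ⟨u, -, rfl⟩ := mem_image.1 he
          rcases hend u v h with h' | h'
          · exact (hPQ v (h' ▸ u.2) hvQ).elim
          · rw [hf (h'.symm.trans hu0.symm)]
  · right
    push Not at hH
    obtain ⟨A, hA⟩ := hH
    refine ⟨A.image Subtype.val, A.biUnion nb, fun v hv => ?_, fun w hw => ?_, ?_, ?_⟩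
    · obtain ⟨u, -, rfl⟩ := mem_image.1 hv
      exact u.2
    · obtain ⟨u, -, h⟩ := mem_biUnion.1 hw
      exact hnQ u w h
    · rwa [card_image_of_injective _ Subtype.val_injective]
    · intro e he
      constructor
      · intro h
        obtain ⟨u, hu, h'⟩ := mem_image.1 h
        exact mem_biUnion.2 ⟨u, hu, (hnb u _).2 ⟨e, he, Or.inl ⟨h'.symm, rfl⟩⟩⟩
      · intro h
        obtain ⟨u, hu, h'⟩ := mem_image.1 h
        exact mem_biUnion.2 ⟨u, hu, (hnb u _).2 ⟨e, he, Or.inr ⟨h'.symm, rfl⟩⟩⟩

end Pool.Agent.P.MP_40718a_co.Wb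

end

section
/-! Step HW. -/

set_option linter.unusedSectionVars false

namespace Pool.Agent.P.MP_40718a_co.Wb

open Finset ABF Bc

theorem hw_ins {V E : Type} [Fintype V] [Fintype E] [DecidableEq V] [DecidableEq E]
    {s t : E → V} {U A : Finset V} {col : V → Bool}
    (hcol : ∀ e ∈ ins s t U, col (s e) ≠ col (t e)) (b : Bool)
    (hA : A ⊆ U.filter fun v => col v = b) : ins s t A = ∅ := by
  refine eq_empty_of_forall_notMem fun e he => ?_
  obtain ⟨h1, h2⟩ := mem_ins.1 he
  have a1 := mem_filter.1 (hA h1)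
  have a2 := mem_filter.1 (hA h2)
  exact hcol e (mem_ins.2 ⟨a1.1, a2.1⟩) (a1.2.trans a2.2.symm)

theorem hw_card {V E : Type} [Fintype V] [Fintype E] [DecidableEq V] [DecidableEq E]
    {s t : E → V} {U : Finset V} {col : V → Bool} {M : Finset E}
    (hcol : ∀ e ∈ ins s t U, col (s e) ≠ col (t e)) (hM : PMs s t U ∅ M) (b : Bool) :
    (U.filter fun v => col v = b).card = (M ∩ ins s t U).card := by
  have h1 := handshake (s := s) (t := t) M (U.filter fun v => col v = b)
  rw [hw_ins hcol b (Subset.refl _), sum_congr rfl fun v hv => hM.1 v (mem_filter.1 hv).1] at h1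
  simp only [sum_const, smul_eq_mul, mul_one, inter_empty, card_empty, mul_zero, zero_add] at h1
  rw [h1]
  congr 1
  ext e
  simp only [mem_inter]
  refine and_congr_right fun he => ?_
  have h2 : e ∉ cut s t U := fun h => by
    have : e ∈ M ∩ cut s t U := mem_inter.2 ⟨he, h⟩
    rw [hM.2] at this
    exact notMem_empty _ this
  have h3 := hcol e
  simp only [mem_cut, mem_ins, mem_filter, not_not] at h2 h3 ⊢
  by_cases h4 : s e ∈ U
  · have h5 := h2.1 h4
    have h6 := h3 ⟨h4, h5⟩
    cases b <;> cases h7 : col (s e) <;> cases h8 : col (t e) <;> simp_all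
  · have h5 : t e ∉ U := fun h => h4 (h2.2 h)
    simp [h4, h5]

theorem p_HW (hHALL : S_HALL) :
    S_HW := by
  intro V E _ _ _ _ s t U col hcol
  refine ⟨fun M hM => (hw_card hcol hM true).trans (hw_card hcol hM false).symm, ?_⟩
  intro ν r γ hcard h0 hout hr hB hγ hγr
  rcases hHALL V E s t U ((ins s t U).filter fun e => 1 ≤ ν e) col (filter_subset _ _)
    (fun e he => hcol e (mem_filter.1 he).1) hcard with ⟨L, hL, hL'⟩ | ⟨A, B, hA, hB', hc, hAB⟩
  · refine ⟨L, ⟨hL', ?_⟩, fun e he => (mem_filter.1 (hL he)).2⟩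
    exact disjoint_iff_inter_eq_empty.1
      ((disjoint_ins_cut U).mono_left (hL.trans (filter_subset _ _)))
  · exfalso
    have a1 := sum_vs (s := s) (t := t) ν A
    have a2 := sum_vs (s := s) (t := t) ν B
    rw [hw_ins hcol true hA] at a1
    rw [hw_ins hcol false hB'] at a2
    simp only [sum_empty, mul_zero, zero_add] at a1 a2
    have a3 : r * A.card ≤ ∑ v ∈ A, vs s t ν v := by
      have := card_nsmul_le_sum A (vs s t ν) r fun v hv => hr v (mem_filter.1 (hA hv)).1
      rw [nsmul_eq_mul, mul_comm] at this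
      exact this
    have a4 := hB B (hB'.trans (filter_subset _ _))
    have hd : ∀ v, v ∈ A → v ∉ B := fun v a b => by
      have a' := (mem_filter.1 (hA a)).2
      have b' := (mem_filter.1 (hB' b)).2
      rw [a'] at b'
      exact absurd b' (by simp)
    have a5 : ∑ e ∈ cut s t A, ν e ≤ ∑ e ∈ cut s t B, ν e := by
      rw [← sum_filter_of_ne (s := cut s t A) (p := fun e => e ∈ cut s t B)]
      · exact sum_le_sum_of_subset_of_nonneg (fun e he => (mem_filter.1 he).2)
          fun e _ _ => h0 e
      · intro e he hne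
        have b1 : e ∈ ins s t U := by
          by_contra h
          exact hne (hout e h)
        have b2 : 1 ≤ ν e := by
          have := h0 e
          omega
        obtain ⟨c1, c2⟩ := hAB e (mem_filter.2 ⟨b1, b2⟩)
        have d1 := hd (s e)
        have d2 := hd (t e)
        rw [mem_cut] at he ⊢
        tauto
    have a6 : ((B.card : ℤ) + 1) ≤ A.card := by exact_mod_cast hc
    have a7 : r * (B.card + 1) ≤ r * A.card := mul_le_mul_of_nonneg_left a6 (by omega)
    nlinarith

end Pool.Agent.P.MP_40718a_co.Wb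

end

section
/-! Step KON. -/

set_option linter.unusedSectionVars false

namespace Pool.Agent.P.MP_40718a_co.Wb

open Finset ABF Bc

theorem p_KON (hHW : S_HW) :
    S_KON := by
  intro V E _ _ _ _ s t U col r μ hc hb
  induction r generalizing μ with
  | zero =>
    intro h0 h1 h2
    refine ⟨Fin.elim0, fun i => i.elim0, fun e he => ?_⟩
    exfalso
    have h3 : e ∈ ins s t U := by
      by_contra h
      rw [h1 e h] at he
      omega
    have h4 := h2 _ (mem_ins.1 h3).1
    have h5 := single_le_sum (s := univ)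
      (f := fun f => (if s f = s e then μ f else 0) + (if t f = s e then μ f else 0))
      (fun f _ => by have := h0 f; split_ifs <;> omega) (mem_univ e)
    unfold vs at h4
    rw [h4] at h5
    simp only [if_true] at h5
    split_ifs at h5 <;> omega
  | succ r ih =>
    intro h0 h1 h2
    obtain ⟨L, a1, a2⟩ := (hHW V E s t U col hc).2 μ ((r + 1 : ℕ) : ℤ) 0 hb h0 h1
      (fun v hv => (h2 v hv).ge) (fun B hB => by
        rw [sum_congr rfl fun v hv => h2 v (hB hv)]
        simp [mul_comm]) le_rfl (by positivity)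
    obtain ⟨M, b1, b2⟩ := ih (fun e => μ e - ind L e) (fun e => by
        have := h0 e
        have := a2 e
        unfold ind
        split_ifs <;> simp_all)
      (fun e he => by
        have h3 := h1 e he
        have h4 : e ∉ L := fun h => by have := a2 e h; omega
        simp [ind, h3, h4])
      (fun v hv => by rw [vs_sub, vs_ind, h2 v hv, a1.1 v hv]; push_cast; ring)
    refine ⟨Fin.cons L M, fun i => Fin.cases a1 b1 i, fun e he => ?_⟩
    by_cases h : e ∈ L
    · exact ⟨0, h⟩
    · obtain ⟨i, hi⟩ := b2 e (by simpa [ind, h] using he)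
      exact ⟨i.succ, hi⟩

end Pool.Agent.P.MP_40718a_co.Wb

end

section
/-! Step MINR. -/

set_option linter.unusedSectionVars false

namespace Pool.Agent.P.MP_40718a_co.Wb

open Finset ABF Bc

section Aux

variable {V E : Type} [Fintype V] [Fintype E] [DecidableEq V] [DecidableEq E] {s t : E → V}
  {U : Finset V}

theorem minr_deg {M : Finset E} (h : PMs s t U ∅ M) {v : V} (hv : v ∈ U) :
    deg s t (M ∩ ins s t U) v = 1 := by
  rw [← h.1 v hv]
  refine deg_congr fun e he => ?_
  have h1 : e ∉ M ∩ cut s t U := by rw [h.2]; exact notMem_empty e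
  simp only [mem_inter, mem_ins, mem_cut] at h1 ⊢
  rcases he with rfl | rfl <;> tauto

theorem minr_split (h : Cubic s t) {v : V} (hv : v ∈ U) :
    deg s t (ins s t U) v + deg s t (cut s t U) v = 3 := by
  rw [← deg_union (disjoint_ins_cut U), ← h.2 v]
  refine deg_congr fun e he => ?_
  simp only [mem_union, mem_ins, mem_cut, mem_univ, iff_true]
  rcases he with rfl | rfl <;> tauto

theorem minr_sum {B : Finset V} (hB : B ⊆ U) :
    ∑ v ∈ B, deg s t (cut s t U) v ≤ (cut s t U).card := by
  rw [handshake]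
  have h0 : cut s t U ∩ ins s t B = ∅ := by
    ext e
    simp only [mem_inter, notMem_empty, iff_false]
    exact fun h => not_ins_of_cut hB h.1 h.2
  rw [h0]
  simpa using card_le_card (inter_subset_left (s₁ := cut s t U) (s₂ := cut s t B))

end Aux

theorem p_MINR (hHW : S_HW) (hKON : S_KON) (hCOVL : S_COVL) :
    S_MINR := by
  intro V E _ _ _ _ s t U hc hb hst hal
  obtain ⟨col, hcol⟩ := hb
  obtain ⟨M0, hM0⟩ := hst
  obtain ⟨hw1, hw2⟩ := hHW V E s t U col hcol
  have hbal := hw1 M0 hM0
  have key : ∀ r : ℕ, (∃ μ : E → ℤ, (∀ e ∈ ins s t U, 1 ≤ μ e) ∧ (∀ e ∉ ins s t U, μ e = 0) ∧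
      ∀ v ∈ U, vs s t μ v = r) → Cv s t U (3 + (cut s t U).card) := by
    intro r
    induction r using Nat.strong_induction_on with
    | _ r ih =>
      rintro ⟨μ, h1, h2, h3⟩
      have h0 : ∀ e, 0 ≤ μ e := fun e => by
        by_cases he : e ∈ ins s t U
        · exact zero_le_one.trans (h1 e he)
        · exact (h2 e he).ge
      by_cases hr : r ≤ 3 + (cut s t U).card
      · obtain ⟨M, hM, hM'⟩ := hKON V E s t U col r μ hcol hbal h0 h2 h3
        exact (hCOVL V E s t U ∅ ⟨M0, hM0⟩).2.1 r _ (fun _ => True) _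
          ⟨M, hM, fun e he _ _ => hM' e (h1 e he)⟩ hr fun _ _ _ _ => trivial
      · have hv : ∀ v ∈ U, vs s t (fun e => μ e - ind (ins s t U) e) v =
            (r - 3 : ℤ) + deg s t (cut s t U) v := by
          intro v hv
          rw [vs_sub, vs_ind, h3 v hv]
          have := minr_split hc hv
          omega
        obtain ⟨L, hL, hL'⟩ := hw2 (fun e => μ e - ind (ins s t U) e) (r - 3) (cut s t U).card hbal
          (fun e => by
            by_cases he : e ∈ ins s t U
            · have := h1 e he
              simp only [ind, if_pos he]; omega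
            · simp only [ind, if_neg he, h2 e he]; omega)
          (fun e he => by simp only [ind, if_neg he, h2 e he]; omega)
          (fun v h => by rw [hv v h]; omega)
          (fun B hB => by
            rw [sum_congr rfl fun v h => hv v (hB h), sum_add_distrib, sum_const, nsmul_eq_mul,
              mul_comm]
            have := minr_sum (s := s) (t := t) hB
            have h5 : (∑ v ∈ B, (deg s t (cut s t U) v : ℤ)) ≤ (cut s t U).card := by
              exact_mod_cast this
            linarith)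
          (by positivity) (by omega)
        refine ih (r - 1) (by omega) ⟨fun e => μ e - ind (L ∩ ins s t U) e, ?_, ?_, ?_⟩
        · intro e he
          by_cases h : e ∈ L
          · have := hL' e h
            simp only [ind, if_pos he] at this
            simp only [ind, if_pos (mem_inter.2 ⟨h, he⟩)]; omega
          · have := h1 e he
            have h' : e ∉ L ∩ ins s t U := fun a => h (mem_inter.1 a).1
            simp only [ind, if_neg h']; omega
        · intro e he
          have h' : e ∉ L ∩ ins s t U := fun a => he (mem_inter.1 a).2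
          simp only [ind, if_neg h', h2 e he]; omega
        · intro v h
          rw [vs_sub, vs_ind, h3 v h, minr_deg hL h]
          omega
  have hch : ∀ e, ∃ N, PMs s t U ∅ N ∧ (e ∈ ins s t U → e ∈ N) := by
    intro e
    by_cases he : e ∈ ins s t U
    · obtain ⟨N, h1, h2⟩ := hal e he
      exact ⟨N, h1, fun _ => h2⟩
    · exact ⟨M0, hM0, fun h => (he h).elim⟩
  choose M hM hM' using hch
  refine key (ins s t U).card
    ⟨fun e => ∑ f ∈ ins s t U, ind (M f ∩ ins s t U) e, fun e he => ?_, fun e he => ?_,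
      fun v hv => ?_⟩
  · refine le_trans ?_ (single_le_sum (f := fun f => ind (M f ∩ ins s t U) e)
      (fun f _ => ind_nonneg _ _) he)
    simp only [ind, if_pos (mem_inter.2 ⟨hM' e he, he⟩), le_refl]
  · refine sum_eq_zero fun f _ => ?_
    have h' : e ∉ M f ∩ ins s t U := fun a => he (mem_inter.1 a).2
    simp only [ind, if_neg h']
  · rw [vs_sum, sum_congr rfl fun f _ => by rw [vs_ind, minr_deg (hM f) hv]]
    simp

end Pool.Agent.P.MP_40718a_co.Wb

end

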