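import Pool.Agent.P.MP_40718a_co.Wb.Iface

section
/-! Step TD1. -/

set_option linter.unusedSectionVars false

namespace Pool.Agent.P.MP_40718a_co.Wb

open Finset ABF Bc

section

variable {V E : Type} [Fintype V] [Fintype E] [DecidableEq V] [DecidableEq E] {s t : E → V}

theorem td1_card {U A : Finset V} {col : V → Bool} {b : Bool} {M : Finset E}
    (hc : ∀ e ∈ ins s t U, col (s e) ≠ col (t e)) (hA : A ⊆ U.filter fun v => col v = b)
    (hM : PMon s t U M) : (M ∩ cut s t A).card = A.card := by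
  have h1 := handshake (s := s) (t := t) M A
  have h2 : M ∩ ins s t A = ∅ := by
    refine eq_empty_of_forall_notMem fun f hf => ?_
    obtain ⟨a, b⟩ := mem_ins.1 (mem_inter.1 hf).2
    have a' := mem_filter.1 (hA a)
    have b' := mem_filter.1 (hA b)
    exact hc f (mem_ins.2 ⟨a'.1, b'.1⟩) (a'.2.trans b'.2.symm)
  rw [sum_congr rfl fun v hv => hM v (mem_filter.1 (hA hv)).1, h2] at h1
  simpa using h1.symm

theorem td1_sub {U A B : Finset V} {col : V → Bool} {M : Finset E}
    (hA : A ⊆ U.filter fun v => col v = true) (hB : B ⊆ U.filter fun v => col v = false)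
    (h : ∀ f ∈ ins s t U, (s f ∈ A → t f ∈ B) ∧ (t f ∈ A → s f ∈ B))
    (hM : PMs s t U ∅ M) : M ∩ cut s t A ⊆ M ∩ cut s t B := by
  intro f hf
  obtain ⟨h1, h2⟩ := mem_inter.1 hf
  have h3 : f ∉ cut s t U := fun a => notMem_empty f (hM.2 ▸ mem_inter.2 ⟨h1, a⟩)
  have h4 := h f
  have a1 := @hA (s f)
  have a2 := @hA (t f)
  have b1 := @hB (s f)
  have b2 := @hB (t f)
  refine mem_inter.2 ⟨h1, ?_⟩
  simp only [mem_cut, mem_ins, mem_filter] at h2 h3 h4 a1 a2 b1 b2 ⊢
  grind

theorem td1_al {U : Finset V} {L : Finset E} {e : E} {u v : V} (he : e ∈ ins s t U)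
    (huv : u ≠ v) (h : (s e = u ∧ t e = v) ∨ (s e = v ∧ t e = u))
    (hL : L ⊆ ins s t ((U.erase u).erase v)) (hP : PMon s t ((U.erase u).erase v) L) :
    Al s t U ∅ e := by
  have hL' : ∀ f ∈ L, (s f ≠ v ∧ s f ≠ u ∧ s f ∈ U) ∧ (t f ≠ v ∧ t f ≠ u ∧ t f ∈ U) := by
    intro f hf
    simpa only [mem_ins, mem_erase] using hL hf
  have heL : e ∉ L := fun a => by have := hL' e a; grind
  refine ⟨{e} ∪ L, ⟨fun w hw => ?_, ?_⟩, by simp⟩
  · rw [deg_union (by simpa using heL), deg_singleton]
    by_cases h1 : w = u ∨ w = v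
    · have : deg s t L w = 0 := deg_eq_zero.2 fun f hf => by have := hL' f hf; grind
      rw [this]; grind
    · rw [hP w (by simp only [mem_erase]; grind)]; grind
  · refine eq_empty_of_forall_notMem fun f hf => ?_
    obtain ⟨h1, h2⟩ := mem_inter.1 hf
    refine disjoint_left.1 (disjoint_ins_cut U) ?_ h2
    rcases mem_union.1 h1 with h1 | h1
    · rw [mem_singleton.1 h1]; exact he
    · exact mem_ins.2 ⟨(hL' f h1).1.2.2, (hL' f h1).2.2.2⟩

end

theorem p_TD1 (hHALL : S_HALL) (hHW : S_HW) :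
    S_TD1 := by
  intro V E _ _ _ _ s t U col e hc ⟨M0, hM0⟩ he hAl
  obtain ⟨u, v, hu, hv, huU, hvU, huv⟩ : ∃ u v, col u = true ∧ col v = false ∧ u ∈ U ∧ v ∈ U ∧
      ((s e = u ∧ t e = v) ∨ (s e = v ∧ t e = u)) := by
    have h1 := hc e he
    obtain ⟨a, b⟩ := mem_ins.1 he
    cases h : col (s e)
    · exact ⟨t e, s e, by simpa [h] using h1, h, b, a, Or.inr ⟨rfl, rfl⟩⟩
    · exact ⟨s e, t e, h, by simpa [h] using h1, a, b, Or.inl ⟨rfl, rfl⟩⟩
  have hne : u ≠ v := by rintro rfl; simp [hu] at hv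
  have hsub : (U.erase u).erase v ⊆ U := (erase_subset _ _).trans (erase_subset _ _)
  have hbal := (hHW V E s t U col hc).1 M0 hM0
  have e1 : ((U.erase u).erase v).filter (fun w => col w = true) =
      (U.filter fun w => col w = true).erase u := by
    ext w; simp only [mem_filter, mem_erase]; grind
  have e2 : ((U.erase u).erase v).filter (fun w => col w = false) =
      (U.filter fun w => col w = false).erase v := by
    ext w; simp only [mem_filter, mem_erase]; grind
  rcases hHALL V E s t ((U.erase u).erase v) _ col (Subset.refl _)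
    (fun f hf => hc f (ins_mono hsub hf))
    (by rw [e1, e2, card_erase_of_mem (by simp [huU, hu]), card_erase_of_mem (by simp [hvU, hv]),
      hbal]) with ⟨L, hL, hP⟩ | ⟨A, B, hA, hB, hlt, hAB⟩
  · exact absurd (td1_al he hne huv hL hP) hAl
  rw [e1] at hA
  rw [e2] at hB
  have hA' := hA.trans (erase_subset _ _)
  have hB' : insert v B ⊆ U.filter fun w => col w = false :=
    insert_subset (by simp [hvU, hv]) (hB.trans (erase_subset _ _))
  have hE : ∀ f ∈ ins s t U, (s f ∈ A → t f ∈ insert v B) ∧ (t f ∈ A → s f ∈ insert v B) := by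
    intro f hf
    have h1 := hAB f
    have h2 := hc f hf
    have a1 := @hA (s f)
    have a2 := @hA (t f)
    simp only [mem_ins, mem_erase, mem_filter, mem_insert] at hf h1 a1 a2 ⊢
    clear * - hf h1 h2 a1 a2 hu hv
    grind
  have hcard : A.card = (insert v B).card := by
    have h1 := card_le_card (td1_sub hA' hB' hE hM0)
    rw [td1_card hc hA' hM0.1, td1_card hc hB' hM0.1] at h1
    have h2 := card_insert_le v B
    omega
  refine ⟨A, insert v B, hA', hB', hcard, insert_nonempty _ _, fun h => ?_, hE, fun M hM => ?_⟩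
  · rcases mem_union.1 (h ▸ huU : u ∈ A ∪ insert v B) with h1 | h1
    · simpa using hA h1
    · simpa [hu] using hB' h1
  · have h1 := eq_of_subset_of_card_le (td1_sub hA' hB' hE hM)
      (by rw [td1_card hc hA' hM.1, td1_card hc hB' hM.1, hcard])
    refine eq_empty_of_forall_notMem fun f hf => ?_
    have h2 := Finset.ext_iff.1 h1 f
    have a1 := @hA' (s f)
    have a2 := @hA' (t f)
    have b1 := @hB' (s f)
    have b2 := @hB' (t f)
    generalize insert v B = C at hf h2 b1 b2
    simp only [mem_inter, mem_cut, mem_union, mem_filter] at hf h2 a1 a2 b1 b2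
    clear * - hf h2 a1 a2 b1 b2
    grind

end Pool.Agent.P.MP_40718a_co.Wb

end

section
/-! Step TD2. -/

set_option linter.unusedSectionVars false

namespace Pool.Agent.P.MP_40718a_co.Wb

open Finset ABF Bc

theorem td2_a {V E : Type} [Fintype V] [Fintype E] [DecidableEq V] [DecidableEq E] {s t : E → V}
    {U A B : Finset V} {col : V → Bool} (h : Cubic s t)
    (hc : ∀ e ∈ ins s t U, col (s e) ≠ col (t e)) (hA : A ⊆ U.filter fun v => col v = true)
    (hB : B ⊆ U.filter fun v => col v = false) (e : A.card = B.card) :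
    (cut s t (A ∪ B)).card = 2 * (cut s t A \ cut s t B).card ∧
      (cut s t (A ∪ B)).card = 2 * (cut s t B \ cut s t A).card := by
  have h0 : ∀ (X : Finset V) (b : Bool), X ⊆ U.filter (fun v => col v = b) →
      (cut s t X).card = 3 * X.card := fun X b hX => by
    have h1 := ins_cut_card h X
    rw [eq_empty_of_forall_notMem (s := ins s t X) fun f hf => by
      have a1 := mem_filter.1 (hX (mem_ins.1 hf).1)
      have a2 := mem_filter.1 (hX (mem_ins.1 hf).2)
      exact hc f (mem_ins.2 ⟨a1.1, a2.1⟩) (a1.2.trans a2.2.symm)] at h1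
    simpa using h1
  have h1 := card_symmDiff_add (cut s t A) (cut s t B)
  have hd : Disjoint A B := disjoint_left.2 fun v a b => by
    simpa [(mem_filter.1 (hA a)).2] using (mem_filter.1 (hB b)).2
  rw [← cut_symmDiff, hd.symmDiff_eq_sup, sup_eq_union] at h1
  have h2 := card_sdiff_add_card_inter (cut s t A) (cut s t B)
  have h3 := card_sdiff_add_card_inter (cut s t B) (cut s t A)
  rw [inter_comm] at h3
  have := h0 A _ hA
  have := h0 B _ hB
  omega

theorem p_TD2 :
    S_TD2 := by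
  intro V E _ _ _ _ s t U A B col h hc hPQ hA hB hAB hf
  have h1 := td2_a h hc (Subset.refl _) (Subset.refl _) hPQ
  have h2 := td2_a h hc hA hB hAB
  have h3 := td2_a h hc (sdiff_subset (t := A)) (sdiff_subset (t := B))
    (by rw [card_sdiff_of_subset hA, card_sdiff_of_subset hB, hPQ, hAB])
  have a : ∀ v, v ∈ A → v ∈ U ∧ col v = true := fun v hv => mem_filter.1 (hA hv)
  have b : ∀ v, v ∈ B → v ∈ U ∧ col v = false := fun v hv => mem_filter.1 (hB hv)
  have e1 : (U.filter fun v => col v = true) ∪ (U.filter fun v => col v = false) = U := by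
    ext v
    simp only [mem_union, mem_filter]
    grind
  have e2 : (U.filter fun v => col v = true) \ A ∪ (U.filter fun v => col v = false) \ B =
      U \ (A ∪ B) := by
    ext v
    have := a v
    have := b v
    simp only [mem_union, mem_filter, mem_sdiff]
    grind
  rw [e1] at h1
  rw [e2] at h3
  constructor
  · rw [h2.1, h1.1]
    refine Nat.mul_le_mul_left _ (card_le_card fun e he => ?_)
    have := a (s e)
    have := a (t e)
    have := b (s e)
    have := b (t e)
    have c := hf e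
    simp only [mem_sdiff, mem_cut, mem_filter, mem_ins] at he c ⊢
    grind
  · rw [h3.2, h1.2]
    refine Nat.mul_le_mul_left _ (card_le_card fun e he => ?_)
    have c := hf e
    have d := hc e
    simp only [mem_sdiff, mem_cut, mem_filter, mem_ins] at he c d ⊢
    grind

end Pool.Agent.P.MP_40718a_co.Wb

end

section
/-! Step TB. -/

set_option linter.unusedSectionVars false

namespace Pool.Agent.P.MP_40718a_co.Wb

open Finset ABF Bc

theorem p_TB (hMINR : S_MINR) (hTD1 : S_TD1) (hTD2 : S_TD2) (hHW : S_HW) (hSPL : S_SPL) (hCOVL : S_COVL) (hSTU : S_STU) :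
    S_TB := by
  intro V E _ _ _ _ s t hc
  have key : ∀ (γ : ℕ) (U : Finset V), Bip s t U → St s t U ∅ → (cut s t U).card ≤ γ →
      Cv s t U (3 + γ) := by
    intro γ U
    induction U using Finset.strongInduction with
    | H U ih =>
      intro hb hs hγ
      by_cases h : ∀ e ∈ ins s t U, Al s t U ∅ e
      · exact (hCOVL V E s t U ∅ hs).2.1 _ _ _ _ (hMINR V E s t U hc hb hs h) (by omega)
          fun _ _ _ h => h
      push Not at h
      obtain ⟨e, he, hn⟩ := h
      obtain ⟨col, hcol⟩ := id hb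
      obtain ⟨A, B, hA, hB, hAB, ⟨b, hb'⟩, hne, hf, hM⟩ := hTD1 V E s t U col e hcol hs he hn
      obtain ⟨M, hM0⟩ := id hs
      obtain ⟨c1, c2⟩ := hTD2 V E s t U A B col hc hcol ((hHW V E s t U col hcol).1 M hM0) hA hB
        hAB hf
      have sub : A ∪ B ⊆ U := union_subset (hA.trans (filter_subset _ _))
        (hB.trans (filter_subset _ _))
      have := hSPL V E s t U (A ∪ B) {∅} (3 + γ) sub (by omega) hs
        (fun M h => mem_singleton.2 (hM M h)) fun φ hφ s1 s2 => by
          obtain rfl := mem_singleton.1 hφ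
          exact ⟨ih _ (sub.ssubset_of_ne hne) (hb.mono sub) s1 (c1.trans hγ),
            ih _ (sdiff_ssubset sub ⟨b, mem_union_right _ hb'⟩) (hb.mono sdiff_subset) s2
              (c2.trans hγ)⟩
      rwa [card_singleton, one_mul] at this
  refine ⟨key, fun B hb σ hs => ?_⟩
  obtain ⟨a1, a2, -, -, a5⟩ := hSTU V E s t B σ hc hs
  obtain ⟨N, hN⟩ := hs
  have := card_le_card hN.sub
  exact a5 _ (key _ _ (hb.mono sdiff_subset) ⟨N, a2 N hN⟩ (by omega))

end Pool.Agent.P.MP_40718a_co.Wb

end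

section
/-! Step CHN. -/

set_option linter.unusedSectionVars false

namespace Pool.Agent.P.MP_40718a_co.Wb

open Finset ABF Bc

open scoped symmDiff

section

variable {V E : Type} [Fintype V] [Fintype E] [DecidableEq V] [DecidableEq E] {s t : E → V}
  {U X X' : Finset V} {a : Finset E}

theorem chn_leg (h : Gn s t U a X) (h' : Gn s t U a X') (e : E) :
    (e ∈ cut s t U → (e ∈ cut s t X ↔ e ∈ cut s t X')) := fun he => by
  have := congrArg (e ∈ ·) (h.2.2.2.trans h'.2.2.2.symm)
  simpa only [mem_inter, he, and_true, eq_iff_iff] using this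

theorem chn_in (h : Gn s t U a X) (h' : Gn s t U a X') :
    cut s t (X \ X') ∩ ins s t U = cut s t (X \ X') := by
  refine inter_eq_left.2 fun e he => ?_
  have a1 := chn_leg h h' e
  have a2 := @h.1 (s e)
  have a3 := @h.1 (t e)
  have a4 := @h'.1 (s e)
  have a5 := @h'.1 (t e)
  simp only [mem_cut, mem_ins, mem_sdiff] at *
  tauto

theorem chn_three (hE : EC 3 s t) (h : ¬ X ⊆ X') (h' : Odd X'.card) :
    3 ≤ (cut s t (X \ X')).card := by
  refine hE _ (sdiff_nonempty.2 h) fun e => ?_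
  obtain ⟨v, hv⟩ := card_pos.1 h'.pos
  exact (mem_sdiff.1 (e ▸ mem_univ v : v ∈ X \ X')).2 hv

end

theorem p_CHN :
    S_CHN := by
  intro V E _ _ _ _ s t U X X' a hc hE h h'
  have b1 := h.2.2.1
  have b2 := h'.2.2.1
  refine ⟨?_, fun hs hne => ?_⟩
  · by_contra hn
    rw [not_or] at hn
    have a1 := posimod (s := s) (t := t) (ins s t U) X X'
    have a2 := chn_three hE hn.1 h'.2.1
    have a3 := chn_three hE hn.2 h.2.1
    rw [chn_in h h', chn_in h' h] at a1
    omega
  have a1 := chn_three hE (fun e => hne (Subset.antisymm hs e)) h.2.1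
  have a2 : Even (X' \ X).card := by
    rw [card_sdiff_of_subset hs]
    exact Nat.Odd.sub_odd h'.2.1 h.2.1
  have a3 := hc.cut_parity (X' \ X)
  have a4 : cut s t (X' \ X) = (cut s t X ∩ ins s t U) ∆ (cut s t X' ∩ ins s t U) := by
    rw [← chn_in h' h]
    ext e
    have c1 := @hs (s e)
    have c2 := @hs (t e)
    simp only [mem_cut, mem_inter, mem_sdiff, mem_symmDiff]
    tauto
  have a5 := card_symmDiff_add (cut s t X ∩ ins s t U) (cut s t X' ∩ ins s t U)
  rw [← a4] at a5
  rw [Nat.even_iff] at a2 a3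
  have a6 : Disjoint (cut s t X ∩ ins s t U) (cut s t X' ∩ ins s t U) :=
    disjoint_iff_inter_eq_empty.2 (card_eq_zero.1 (by omega))
  refine ⟨by omega, Nat.even_iff.2 a2, ?_, by omega, by omega, disjoint_left.2 fun e h1 h2 =>
    disjoint_left.1 a6 h1 (mem_inter.2 ⟨h2, (mem_inter.1 h1).2⟩)⟩
  rw [a4, union_inter_distrib_right]
  exact a6.symmDiff_eq_sup

end Pool.Agent.P.MP_40718a_co.Wb

end

section
/-! Step P4. -/

set_option linter.unusedSectionVars false

namespace Pool.Agent.P.MP_40718a_co.Wb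

open Finset ABF Bc

theorem p_P4 (hTUT3 : S_TUT3) (hWT : S_WT) :
    S_P4 := by
  intro V E _ _ _ _ s t W hc h3 hev h4
  rcases hTUT3 V E s t W (ins s t W) hev (Subset.refl _) with ⟨L, hL, hM⟩ | ⟨S, O, -, hD, hc2, hO⟩
  · exact ⟨L, hM, disjoint_iff_inter_eq_empty.1 ((disjoint_ins_cut W).mono_left hL)⟩
  exfalso
  have hsub : ∀ X ∈ O, X ⊆ W := fun X hX => (hO X hX).1.trans sdiff_subset
  obtain ⟨-, w2, w3⟩ := hWT V E s t S O ∅ hD
    (fun X hX => disjoint_left.2 fun v hv => (mem_sdiff.1 ((hO X hX).1 hv)).2)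
    (empty_subset _) (fun X _ => disjoint_empty_left _)
  have w2 := w2 hc
  have w3 := (w3 W hsub).trans (card_le_card inter_subset_right)
  have h5 : ∀ X ∈ O, 3 ≤ (cut s t X ∩ meet s t S).card + (cut s t X ∩ cut s t W).card := by
    intro X hX
    obtain ⟨-, ho, -, he⟩ := hO X hX
    have a := h3 X (card_pos.1 ho.pos) (by
      rintro rfl
      exact Nat.not_even_iff_odd.2 ho (by simpa using even_card hc))
    rw [cut_split (hsub X hX)] at a
    have b : (cut s t X ∩ ins s t W).card ≤ (cut s t X ∩ meet s t S).card :=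
      card_le_card fun e h => mem_inter.2 ⟨(mem_inter.1 h).1, mem_meet.2 (he e h)⟩
    omega
  have h6 := card_nsmul_le_sum O _ 3 h5
  rw [sum_add_distrib, smul_eq_mul] at h6
  omega

end Pool.Agent.P.MP_40718a_co.Wb

end

section
/-! Step SEG. -/

set_option linter.unusedSectionVars false

namespace Pool.Agent.P.MP_40718a_co.Wb

open Finset ABF Bc

theorem p_SEG (hCHN : S_CHN) :
    S_SEG := by
  intro V E _ _ _ _ s t U S X' X'' O a hc h3 hB hC g1 g2 hs hn hd
  obtain ⟨c4, -, ce, -⟩ := (hCHN V E s t U X' X'' a hc h3 g1 g2).2 hs hn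
  have hU : X'' \ X' ⊆ U := sdiff_subset.trans g2.1
  have key : ∀ Z ∈ O, ¬ Z ⊆ X' → ¬ Disjoint Z X'' → X'' \ X' ⊆ Z := by
    intro Z hZ n1 n2
    obtain ⟨hz, -, hb⟩ := hB.2.2 Z hZ
    replace hz : Z ⊆ U := hz.trans sdiff_subset
    obtain ⟨v, hv⟩ : (Z ∩ (X'' \ X')).Nonempty := by
      rw [nonempty_iff_ne_empty]
      intro h0
      have h1 : ∀ v ∈ Z, v ∉ X'' \ X' := fun v a b => (eq_empty_iff_forall_notMem.1 h0 v)
        (mem_inter.2 ⟨a, b⟩)
      obtain ⟨v, a, b⟩ := not_disjoint_iff.1 n2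
      refine n1 (inter_eq_left.1 (hC Z hZ _ inter_subset_left ⟨v, mem_inter.2 ⟨a, by_contra fun c =>
        h1 v a (mem_sdiff.2 ⟨b, c⟩)⟩⟩ fun e he => by_contra fun h => ?_))
      have h2 : s e ∈ Z ∧ t e ∈ Z ∧ e ∈ cut s t X' := by
        simp only [mem_cut, mem_inter] at he h ⊢
        tauto
      have h4 : e ∈ cut s t (X'' \ X') :=
        ce ▸ mem_inter.2 ⟨mem_union_left _ h2.2.2, mem_ins.2 ⟨hz h2.1, hz h2.2.1⟩⟩
      exact mem_cut.1 h4 (iff_of_false (h1 _ h2.1) (h1 _ h2.2.1))
    generalize X'' \ X' = G at *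
    intro w hw
    by_contra h
    have h1 : ∀ e, s e ∈ G → t e ∈ G → (s e ∈ Z ↔ t e ∈ Z) := fun e a b => by_contra fun c =>
      (hb e (mem_inter.2 ⟨mem_cut.2 c, mem_ins.2 ⟨hU a, hU b⟩⟩)).elim
        (disjoint_right.1 hd a) (disjoint_right.1 hd b)
    have a1 := h3 _ ⟨v, hv⟩ fun e => h (mem_inter.1 (e ▸ mem_univ w)).1
    have a2 := h3 (G \ Z) ⟨w, mem_sdiff.2 ⟨hw, h⟩⟩ fun e =>
      (mem_sdiff.1 (e ▸ mem_univ v)).2 (mem_inter.1 hv).1
    have a3 : cut s t (Z ∩ G) ∪ cut s t (G \ Z) ⊆ cut s t G := fun e => by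
      have := h1 e
      simp only [mem_cut, mem_inter, mem_union, mem_sdiff]
      tauto
    have a4 : Disjoint (cut s t (Z ∩ G)) (cut s t (G \ Z)) := disjoint_left.2 fun e => by
      have := h1 e
      simp only [mem_cut, mem_inter, mem_sdiff]
      tauto
    have := card_le_card a3
    rw [card_union_of_disjoint a4] at this
    omega
  obtain ⟨v, hv⟩ := sdiff_nonempty.2 fun h => hn (hs.antisymm h)
  refine card_le_one.2 fun Z hZ Z' hZ' => by_contra fun h => ?_
  obtain ⟨a, b, c⟩ := mem_filter.1 hZ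
  obtain ⟨a', b', c'⟩ := mem_filter.1 hZ'
  exact disjoint_left.1 (hB.2.1 Z a Z' a' h) (key Z a b c hv) (key Z' a' b' c' hv)

end Pool.Agent.P.MP_40718a_co.Wb

end

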