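import Pool.Agent.P.MP_40718a_co.Wb.Iface

section
/-! Step CORE1. -/

set_option linter.unusedSectionVars false

namespace Pool.Agent.P.MP_40718a_co.Wb

open Finset ABF Bc

theorem core1_sum {α : Type} [DecidableEq α] (O : Finset α) (f : α → ℕ) (x : α) (hx : x ∈ O)
    (h2 : f x = 2) (h3 : ∀ z ∈ O, z ≠ x → 3 ≤ f z) :
    3 * O.card ≤ ∑ z ∈ O, f z + 1 ∧
      (∑ z ∈ O, f z + 1 ≤ 3 * O.card → ∀ z ∈ O, z ≠ x → f z = 3) := by
  have h1 := add_sum_erase O f hx
  have h4 := card_erase_add_one hx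
  have h5 : ∀ T ⊆ O.erase x, 3 * T.card ≤ ∑ z ∈ T, f z := fun T hT => by
    have := card_nsmul_le_sum T f 3 fun z hz =>
      h3 z (mem_of_mem_erase (hT hz)) (ne_of_mem_erase (hT hz))
    simpa [mul_comm] using this
  refine ⟨by have := h5 _ (Subset.refl _); omega, fun h z hz hzx => ?_⟩
  have hz' : z ∈ O.erase x := mem_erase.2 ⟨hzx, hz⟩
  have h6 := add_sum_erase (O.erase x) f hz'
  have h7 := card_erase_add_one hz'
  have h8 := h5 _ (erase_subset z (O.erase x))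
  have h9 := h3 z hz hzx
  omega

theorem p_CORE1 (hCHN : S_CHN) (hBM : S_BM) (hWT : S_WT) :
    S_CORE1 := by
  intro V E _ _ _ _ s t U S X X' X'' O a M0 e hc hs hM hGP he hXO hX hX' hX'' h1 h2 hne hdis hO3
  have hec := ec3_of_small hc hs
  obtain ⟨⟨hSU, hDj, hO⟩, hSO, hM0⟩ := hGP
  obtain ⟨-, hev, -, -, d2, hdd⟩ := (hCHN V E s t U X' X'' a hc hec hX' hX'').2 h2 hne
  have hneX : X ≠ X'' := by rintro rfl; exact hne (Subset.antisymm h2 h1)
  obtain ⟨-, -, -, dX, -, -⟩ :=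
    (hCHN V E s t U X X'' a hc hec hX hX'').2 (h1.trans h2) hneX
  have hno : ∀ f ∈ ins s t U, (s f ∈ X' → t f ∈ X'') ∧ (t f ∈ X' → s f ∈ X'') := by
    intro f hf
    have a1 := @disjoint_left.1 hdd f
    have a2 := @h2 (s f)
    have a3 := @h2 (t f)
    simp only [mem_inter, mem_cut, hf, and_true] at a1
    grind
  have hSX : ∀ v ∈ S, v ∈ X'' → v ∈ X' := fun v hv h => by
    by_contra h'
    exact disjoint_left.1 hdis hv (mem_sdiff.2 ⟨h, h'⟩)
  have hleg : ∀ f ∈ cut s t U, (s f ∈ X'' → s f ∈ X) ∧ (t f ∈ X'' → t f ∈ X) := by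
    intro f hf
    have a1 : f ∈ cut s t X'' ∩ cut s t U ↔ f ∈ cut s t X ∩ cut s t U := by
      rw [hX''.2.2.2, hX.2.2.2]
    have a2 := @hX''.1 (s f)
    have a3 := @hX''.1 (t f)
    have a4 := @hX.1 (s f)
    have a5 := @hX.1 (t f)
    simp only [mem_inter, hf, and_true, mem_cut] at a1
    rw [mem_cut] at hf
    grind
  set S1 := S ∩ X' with hS1
  set O1 := O.filter fun Z => Z ⊆ X' with hO1
  set O2 := O.filter fun Z => Disjoint Z X'' with hO2
  have mO1 : ∀ Z, Z ∈ O1 ↔ Z ∈ O ∧ Z ⊆ X' := fun Z => mem_filter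
  have mO2 : ∀ Z, Z ∈ O2 ↔ Z ∈ O ∧ Disjoint Z X'' := fun Z => mem_filter
  have hZS : ∀ Z ∈ O, ∀ v ∈ Z, v ∈ U ∧ v ∉ S := fun Z hZ v hv => mem_sdiff.1 ((hO Z hZ).1 hv)
  have B1 : Bar s t U S1 O1 := by
    refine ⟨inter_subset_left.trans hSU, fun A hA B hB => hDj A ((mO1 A).1 hA).1 B ((mO1 B).1 hB).1,
      fun Z hZ => ?_⟩
    obtain ⟨hZ, hZ'⟩ := (mO1 Z).1 hZ
    refine ⟨(hO Z hZ).1.trans (sdiff_subset_sdiff (Subset.refl _) inter_subset_left),
      (hO Z hZ).2.1, fun f hf => ?_⟩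
    have a1 := (hO Z hZ).2.2 f hf
    obtain ⟨a2, a3⟩ := mem_inter.1 hf
    have a4 := hno f a3
    have a5 := hZS Z hZ (s f)
    have a6 := hZS Z hZ (t f)
    have a7 := @hZ' (s f)
    have a8 := @hZ' (t f)
    have a9 := hSX (s f)
    have a10 := hSX (t f)
    rw [mem_cut] at a2
    simp only [hS1, mem_inter]
    grind
  have B2 : Bar s t U (S \ X') O2 := by
    refine ⟨sdiff_subset.trans hSU, fun A hA B hB => hDj A ((mO2 A).1 hA).1 B ((mO2 B).1 hB).1,
      fun Z hZ => ?_⟩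
    obtain ⟨hZ, hZ'⟩ := (mO2 Z).1 hZ
    refine ⟨(hO Z hZ).1.trans (sdiff_subset_sdiff (Subset.refl _) sdiff_subset),
      (hO Z hZ).2.1, fun f hf => ?_⟩
    have a1 := (hO Z hZ).2.2 f hf
    obtain ⟨a2, a3⟩ := mem_inter.1 hf
    have a4 := hno f a3
    have a5 := hZS Z hZ (s f)
    have a6 := hZS Z hZ (t f)
    have a7 := @disjoint_left.1 hZ' (s f)
    have a8 := @disjoint_left.1 hZ' (t f)
    rw [mem_cut] at a2
    simp only [mem_sdiff]
    grind
  have n2 := (hBM V E s t U _ O2 M0 hM B2 fun Z hZ => hM0 Z ((mO2 Z).1 hZ).1).1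
  have nS : S1.card + (S \ X').card = S.card := card_inter_add_card_sdiff S X'
  have nO : O.card ≤ O1.card + O2.card + 1 := by
    have : O ⊆ O1 ∪ O2 ∪ O.filter fun Z => ¬ Z ⊆ X' ∧ ¬ Disjoint Z X'' := by
      intro Z hZ
      simp only [mem_union, mO1, mO2, mem_filter]
      grind
    have a1 := (card_le_card this).trans (card_union_le _ _)
    have a2 := card_union_le O1 O2
    omega
  set P := S1 ∪ O1.biUnion id with hP
  have mP : ∀ v, v ∈ P ↔ v ∈ S1 ∨ ∃ Z ∈ O1, v ∈ Z := fun v => by simp [hP]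
  have hPX : P ⊆ X' := fun v hv => by
    rcases (mP v).1 hv with h | ⟨Z, hZ, h⟩
    · exact (mem_inter.1 h).2
    · exact ((mO1 Z).1 hZ).2 h
  have hXO1 : X ∈ O1 := (mO1 X).2 ⟨hXO, h1⟩
  have hXP : X ⊆ P := fun v hv => (mP v).2 (Or.inr ⟨X, hXO1, hv⟩)
  have hS1P : S1 ⊆ P := subset_union_left
  -- an inner edge that leaves `P` starts in `S1`
  have hout : ∀ f ∈ ins s t U, (s f ∈ P → t f ∉ P → s f ∈ S1) ∧
      (t f ∈ P → s f ∉ P → t f ∈ S1) := by
    intro f hf
    constructor <;> intro b1 b2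
    · rcases (mP _).1 b1 with h | ⟨Z, hZ, h⟩
      · exact h
      · have b3 : t f ∉ Z := fun b => b2 ((mP _).2 (Or.inr ⟨Z, hZ, b⟩))
        exact ((B1.2.2 Z hZ).2.2 f (mem_inter.2 ⟨mem_cut.2 (by tauto), hf⟩)).resolve_right
          fun b => b2 (hS1P b)
    · rcases (mP _).1 b1 with h | ⟨Z, hZ, h⟩
      · exact h
      · have b3 : s f ∉ Z := fun b => b2 ((mP _).2 (Or.inr ⟨Z, hZ, b⟩))
        exact ((B1.2.2 Z hZ).2.2 f (mem_inter.2 ⟨mem_cut.2 (by tauto), hf⟩)).resolve_left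
          fun b => b2 (hS1P b)
  set E1 := cut s t P ∩ ins s t U with hE1
  have hE1m : E1 ⊆ meet s t S1 := by
    intro f hf
    obtain ⟨b1, b2⟩ := mem_inter.1 hf
    have := hout f b2
    rw [mem_cut] at b1
    rw [mem_meet]
    grind
  have hC : cut s t (X'' \ P) ⊆ (cut s t X'' ∩ ins s t U) ∪ E1 := by
    intro f hf
    have a1 := hleg f
    have a2 := @hX''.1 (s f)
    have a3 := @hX''.1 (t f)
    have a4 := @hXP (s f)
    have a5 := @hXP (t f)
    simp only [hE1, mem_union, mem_inter, mem_cut, mem_ins, mem_sdiff] at hf a1 ⊢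
    grind
  have hS1ne : S1.Nonempty := by
    obtain ⟨f, hf⟩ : (cut s t X ∩ ins s t U).Nonempty := card_pos.1 (by omega)
    rcases (B1.2.2 X hXO1).2.2 f hf with h | h
    · exact ⟨_, h⟩
    · exact ⟨_, h⟩
  have hC4 : 4 ≤ (cut s t (X'' \ P)).card := by
    by_contra hlt
    have b1 : 2 ≤ (X'' \ X').card := by
      have : (X'' \ X').Nonempty := sdiff_nonempty.2 fun h => hne (Subset.antisymm h2 h)
      have := card_pos.2 this
      obtain ⟨k, hk⟩ := hev
      omega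
    have b2 := card_le_card (sdiff_subset_sdiff (Subset.refl X'') hPX)
    obtain ⟨v, hv⟩ := hS1ne
    obtain ⟨w, hw⟩ : X.Nonempty := card_pos.1 hX.2.1.pos
    have b3 : 1 < (X'' \ P)ᶜ.card := by
      refine one_lt_card.2 ⟨v, ?_, w, ?_, ?_⟩
      · simp [hS1P hv]
      · simp [hXP hw]
      · rintro rfl
        exact (hZS X hXO v hw).2 (mem_inter.1 hv).1
    rcases hs (X'' \ P) (by omega) with h | h <;> omega
  have hE2 : 2 ≤ E1.card := by
    have := (card_le_card hC).trans (card_union_le _ _)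
    omega
  have hW := (hWT V E s t S1 O1 (E1 ∪ ins s t S1) B1.2.1
    (fun Z hZ => disjoint_left.2 fun v hv => (mem_sdiff.1 ((B1.2.2 Z hZ).1 hv)).2)
    (union_subset hE1m (by rw [meet_eq]; exact subset_union_left)) (by
      intro Z hZ
      rw [disjoint_left]
      intro f hf b
      have a1 : ∀ v ∈ Z, v ∈ P ∧ v ∉ S1 := fun v hv =>
        ⟨(mP v).2 (Or.inr ⟨Z, hZ, hv⟩), (mem_sdiff.1 ((B1.2.2 Z hZ).1 hv)).2⟩
      have a2 := a1 (s f)
      have a3 := a1 (t f)
      rcases mem_union.1 hf with hf | hf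
      · obtain ⟨b1, b2⟩ := mem_inter.1 hf
        have := hout f b2
        rw [mem_cut] at b b1
        grind
      · rw [mem_cut] at b
        rw [mem_ins] at hf
        grind)).2.1 hc
  rw [card_union_of_disjoint (by
    rw [disjoint_left]
    intro f hf b
    have a2 := @hS1P (s f)
    have a3 := @hS1P (t f)
    have b1 := (mem_inter.1 hf).1
    rw [mem_cut] at b1
    rw [mem_ins] at b
    grind)] at hW
  have hfull : ∀ Z ∈ O1, Z ≠ X → cut s t Z ∩ meet s t S1 = cut s t Z := by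
    intro Z hZ hZX
    refine inter_eq_left.2 fun f hf => mem_meet.2 ((B1.2.2 Z hZ).2.2 f (mem_inter.2 ⟨hf, ?_⟩))
    obtain ⟨hZO, hZ'⟩ := (mO1 Z).1 hZ
    have a1 := hleg f
    have a2 := @disjoint_left.1 (hDj Z hZO X hXO hZX)
    have a3 := @a2 (s f)
    have a4 := @a2 (t f)
    have a5 := hZS Z hZO (s f)
    have a6 := hZS Z hZO (t f)
    have a7 : s f ∈ Z → s f ∈ X'' := fun h => h2 (hZ' h)
    have a8 : t f ∈ Z → t f ∈ X'' := fun h => h2 (hZ' h)
    simp only [mem_cut, mem_ins] at hf a1 ⊢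
    grind
  have hZ3 : ∀ Z ∈ O1, 3 ≤ (cut s t Z).card := fun Z hZ => by
    have ho := (B1.2.2 Z hZ).2.1
    refine hec Z (card_pos.1 ho.pos) ?_
    rintro rfl
    exact (Nat.not_even_iff_odd.2 ho) (even_card hc)
  have hX2 : (cut s t X ∩ meet s t S1).card = 2 := by
    rw [← dX]
    congr 1
    ext f
    have a1 := (B1.2.2 X hXO1).2.2 f
    have a2 := hZS X hXO (s f)
    have a3 := hZS X hXO (t f)
    have a4 := @B1.1 (s f)
    have a5 := @B1.1 (t f)
    have a6 : s f ∈ S1 → s f ∈ S := fun h => (mem_inter.1 h).1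
    have a7 : t f ∈ S1 → t f ∈ S := fun h => (mem_inter.1 h).1
    simp only [mem_inter, mem_cut, mem_ins, mem_meet] at a1 ⊢
    grind
  obtain ⟨k1, k2⟩ := core1_sum O1 (fun Z => (cut s t Z ∩ meet s t S1).card) X hXO1 hX2
    fun Z hZ h => by rw [hfull Z hZ h]; exact hZ3 Z hZ
  by_cases hin : e ∈ ins s t S1
  · have k3 := card_pos.2 ⟨e, hin⟩
    refine Or.inr ⟨B1, by omega, ?_, fun Z hZ hZ' hZX => ?_, by omega⟩
    · exact eq_singleton_iff_unique_mem.2 ⟨hin, fun f hf => card_le_one.1 (by omega) f hf e hin⟩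
    · have hZ1 := (mO1 Z).2 ⟨hZ, hZ'⟩
      have k4 := k2 (by omega) Z hZ1 hZX
      simp only [hfull Z hZ1 hZX] at k4
      have k5 := (hO Z hZ).2.1.pos
      rcases hs Z (by omega) with h | h
      · omega
      · obtain ⟨v, hv⟩ := hS1ne
        obtain ⟨w, hw⟩ : X.Nonempty := card_pos.1 hX.2.1.pos
        have b3 : 1 < Zᶜ.card := by
          refine one_lt_card.2 ⟨v, mem_compl.2 fun h => (hZS Z hZ v h).2 (mem_inter.1 hv).1, w,
            mem_compl.2 fun h => disjoint_left.1 (hDj Z hZ X hXO hZX) h hw, ?_⟩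
          rintro rfl
          exact (hZS X hXO v hw).2 (mem_inter.1 hv).1
        omega
  · refine Or.inl ⟨S \ X', O2, ⟨B2, by omega, fun Z hZ => hM0 Z ((mO2 Z).1 hZ).1⟩, ?_, ?_⟩
    · have a1 := hno e (ins_mono hSU he)
      have a2 := hSX (s e)
      have a3 := hSX (t e)
      simp only [hS1, mem_ins, mem_inter, mem_sdiff] at he hin ⊢
      grind
    · have := card_pos.2 hS1ne
      omega

end Pool.Agent.P.MP_40718a_co.Wb

end

section
/-! Step CORE2. -/

set_option linter.unusedSectionVars false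

namespace Pool.Agent.P.MP_40718a_co.Wb

open Finset ABF Bc

theorem p_CORE2 :
    S_CORE2 := by
  rintro V E _ _ _ _ s t U S X X' O a e b hc ⟨hS, hD, hO⟩ hX g1 g2 hS' hO' c1 he c2 c3 c4
  obtain ⟨T, hT⟩ : ∃ T, T = (O.erase X).biUnion id := ⟨_, rfl⟩
  have u : O.biUnion id = X ∪ T := by
    rw [hT]
    conv_lhs => rw [← insert_erase hX, biUnion_insert]
    rfl
  have mT : ∀ v ∈ T, {v} ∈ O ∧ v ∉ X := fun v hv => by
    obtain ⟨Z, h1, h2⟩ := mem_biUnion.1 (hT ▸ hv)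
    obtain ⟨h3, h4⟩ := mem_erase.1 h1
    obtain ⟨w, rfl⟩ := card_eq_one.1 (c2 Z h4 h3)
    obtain rfl := mem_singleton.1 h2
    exact ⟨h4, disjoint_singleton_left.1 (hD _ h4 _ hX h3)⟩
  have cT : T.card + 1 = O.card := by
    rw [hT, card_biUnion (t := id) fun Z h1 Z' h2 h =>
      hD Z (mem_of_mem_erase h1) Z' (mem_of_mem_erase h2) h,
      sum_congr (f := fun Z => #(id Z)) rfl fun Z h => c2 Z (mem_of_mem_erase h) (ne_of_mem_erase h)]
    simpa using card_erase_add_one hX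
  have t1 : ∀ v ∈ T, v ∈ X' ∧ v ∈ U ∧ v ∉ S := fun v hv =>
    ⟨hO' _ (mT v hv).1 (mem_singleton_self v),
      mem_sdiff.1 ((hO _ (mT v hv).1).1 (mem_singleton_self v))⟩
  have x1 : ∀ v ∈ X, v ∉ S := fun v hv => (mem_sdiff.1 ((hO X hX).1 hv)).2
  have leg : ∀ f ∈ cut s t U, f ∈ cut s t X ↔ f ∈ cut s t X' := fun f hf => by
    have := Finset.ext_iff.1 (g1.2.2.2.trans g2.2.2.2.symm) f
    simpa only [mem_inter, hf, and_true] using this
  have nb : ∀ f v, v ∈ T → s f = v ∨ t f = v → s f ∈ S ∨ t f ∈ S := fun f v hv h => by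
    refine (hO _ (mT v hv).1).2.2 f ?_
    have b1 := leg f
    have b2 := hc.1 f
    have b3 := t1 v hv
    have b4 := (mT v hv).2
    have b5 := @g1.1 (s f)
    have b6 := @g1.1 (t f)
    have b7 := @g2.1 (s f)
    have b8 := @g2.1 (t f)
    simp only [mem_inter, mem_cut, mem_ins, mem_singleton] at b1 ⊢
    clear * - b1 b2 b3 b4 b5 b6 b7 b8 h
    grind
  have d : (S ∪ O.biUnion id) \ X = S ∪ T := by
    ext v
    have b1 := x1 v
    have b2 := fun h => (mT v h).2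
    simp only [u, mem_sdiff, mem_union]
    clear * - b1 b2
    tauto
  have cd : (S ∪ T).card = 2 * O.card := by
    rw [card_union_of_disjoint (disjoint_right.2 fun v hv => (t1 v hv).2.2)]
    omega
  have sub : X ⊆ S ∪ O.biUnion id := u ▸ subset_union_left.trans subset_union_right
  have sub' : S ∪ O.biUnion id ⊆ X' := union_subset hS' (biUnion_subset.2 hO')
  have eS := mem_ins.1 (he ▸ mem_singleton_self e : e ∈ ins s t S)
  refine ⟨g1, ⟨sub'.trans g2.1, ?_, c3, ?_⟩, sub, by rw [d]; omega,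
    d ▸ mem_ins.2 ⟨mem_union_left _ eS.1, mem_union_left _ eS.2⟩, fun M hM hm => ?_⟩
  · rw [← card_sdiff_add_card_eq_card sub, d, cd]
    exact (even_two_mul _).add_odd g1.2.1
  · rw [← g1.2.2.2]
    ext f
    have b1 := leg f
    have b2 := @sub (s f)
    have b3 := @sub (t f)
    have b4 := @sub' (s f)
    have b5 := @sub' (t f)
    have b7 := @g2.1 (s f)
    have b8 := @g2.1 (t f)
    generalize S ∪ O.biUnion id = W at *
    simp only [mem_inter, mem_cut] at b1 ⊢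
    clear * - b1 b2 b3 b4 b5 b7 b8
    grind
  · have h1 := handshake (s := s) (t := t) M S
    have h2 := handshake (s := s) (t := t) M T
    rw [sum_congr rfl fun v hv => hM v (hS hv), he, inter_singleton_of_mem hm] at h1
    rw [sum_congr rfl fun v hv => hM v (t1 v hv).2.1,
      show M ∩ ins s t T = ∅ from eq_empty_of_forall_notMem fun f hf => by
        have b := mem_ins.1 (mem_inter.1 hf).2
        exact (nb f _ b.1 (.inl rfl)).elim (t1 _ b.1).2.2 (t1 _ b.2).2.2] at h2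
    simp only [sum_const, smul_eq_mul, mul_one, card_singleton, card_empty] at h1 h2
    have h3 : M ∩ cut s t T = M ∩ cut s t S := eq_of_subset_of_card_le (fun f hf => by
      have b1 := fun h => nb f _ h (.inl rfl)
      have b2 := fun h => nb f _ h (.inr rfl)
      have b3 := t1 (s f)
      have b4 := t1 (t f)
      simp only [mem_inter, mem_cut] at hf ⊢
      clear * - hf b1 b2 b3 b4
      grind) (by omega)
    rw [d]
    refine eq_empty_of_forall_notMem fun f hf => ?_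
    have b0 := Finset.ext_iff.1 h3 f
    have b1 := fun h => nb f _ h (.inl rfl)
    have b2 := fun h => nb f _ h (.inr rfl)
    have b3 := t1 (s f)
    have b4 := t1 (t f)
    simp only [mem_inter, mem_cut, mem_union] at hf b0
    clear * - hf b0 b1 b2 b3 b4
    grind

end Pool.Agent.P.MP_40718a_co.Wb

end

section
/-! Step DEEP. -/

set_option linter.unusedSectionVars false

namespace Pool.Agent.P.MP_40718a_co.Wb

open Finset ABF Bc

theorem p_DEEP (hMINO : S_MINO) (hWT : S_WT) (hCHN : S_CHN) (hSEG : S_SEG) (hCORE1 : S_CORE1) (hCORE2 : S_CORE2) :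
    S_DEEP := by
  classical
  intro V E _ _ _ _ s t U S O0 M0 e b hc h3 hM ⟨⟨g1, g2, g3⟩, g4, g5⟩ he hb
  have ec := ec3_of_small hc h3
  obtain ⟨O, o1, o2, o3⟩ := hMINO V E s t O0 g2 fun X hX => (g3 X hX).2.1
  have bar : Bar s t U S O := ⟨g1, o1, fun K hK =>
    let ⟨a, _, X, hX, c, d⟩ := o3 K hK
    ⟨c.trans (g3 X hX).1, a, fun f hf => (g3 X hX).2.2 f (inter_subset_inter_right d hf)⟩⟩
  have gp : GP s t U M0 S O := ⟨bar, o2 ▸ g4, fun K hK =>
    let ⟨_, _, X, hX, _, d⟩ := o3 K hK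
    (inter_subset_inter_left d).trans (g5 X hX)⟩
  have w := (hWT V E s t S O ∅ o1 (fun X hX => sdiff_disjoint.mono_left (bar.2.2 X hX).1)
    (empty_subset _) fun _ _ => disjoint_empty_left _).2.1 hc
  have := card_pos.2 ⟨e, he⟩
  obtain ⟨X, hX, h2⟩ := exists_lt_of_sum_lt (s := O) (g := fun _ => 3)
    (f := fun X => (cut s t X ∩ meet s t S).card) (by
      rw [sum_const, smul_eq_mul]; omega)
  have gn : Gn s t U (cut s t X ∩ cut s t U) X :=
    ⟨(bar.2.2 X hX).1.trans sdiff_subset, (bar.2.2 X hX).2.1,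
      (card_le_card fun f hf => mem_inter.2 ⟨(mem_inter.1 hf).1,
        mem_meet.2 ((bar.2.2 X hX).2.2 f hf)⟩).trans (Nat.lt_succ_iff.1 h2), rfl⟩
  generalize cut s t X ∩ cut s t U = a at gn
  by_cases hn : cnt (fun X' : Finset V => Gn s t U a X' ∧ X ⊆ X' ∧ X ≠ X') ≤ b + 2
  · exact .inr (.inr ⟨a, X, O, gp, hX, gn, hn⟩)
  have key : ∀ X' X'', Gn s t U a X' → Gn s t U a X'' → X ⊆ X' → X' ⊆ X'' → X' ≠ X'' →
      (S ∩ X'').card ≤ (S ∩ X').card →
      (∃ S' O', GP s t U M0 S' O' ∧ e ∈ ins s t S' ∧ S'.card ≤ b) ∨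
      ∃ a X X1, Cor s t U b e a X X1 := fun X' X'' n1 n2 l1 l2 ne hcard => by
    have e1 := eq_of_subset_of_card_le (inter_subset_inter_left l2) hcard
    have dj : Disjoint S (X'' \ X') := disjoint_left.2 fun v hv hv' =>
      (mem_sdiff.1 hv').2 (mem_inter.1 (e1.ge (mem_inter.2 ⟨hv, (mem_sdiff.1 hv').1⟩))).2
    rcases hCORE1 V E s t U S X X' X'' O a M0 e hc h3 hM gp he hX gn n1 n2 l1 l2 ne dj
      (hSEG V E s t U S X' X'' O a hc ec bar (fun Z hZ => (o3 Z hZ).2.1) n1 n2 l2 ne dj) with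
      ⟨S', O', c1, c2, c3⟩ | ⟨c1, c2, c3, c4, c5⟩
    · exact .inl ⟨S', O', c1, c2, by omega⟩
    · exact .inr ⟨a, X, _, hCORE2 V E s t U _ X X' _ a e b hc c1 (mem_filter.2 ⟨hX, l1⟩) gn n1
        inter_subset_right (fun Z hZ => (mem_filter.1 hZ).2) c2 c3
        (fun Z hZ => c4 Z (mem_filter.1 hZ).1 (mem_filter.1 hZ).2) c5
        ((card_le_card inter_subset_left).trans hb)⟩
  rw [cnt_eq] at hn
  obtain ⟨X', m1, X'', m2, ne, e1⟩ := exists_ne_map_eq_of_card_lt_of_maps_to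
    (t := range (b + 2)) (f := fun X' => (S ∩ X').card)
    (by rw [card_range]; exact not_le.1 hn) fun X' _ =>
      mem_coe.2 (mem_range.2 (Nat.lt_succ_of_le ((card_le_card inter_subset_left).trans hb)))
  obtain ⟨n1, l1, -⟩ := (mem_filter.1 m1).2
  obtain ⟨n2, l2, -⟩ := (mem_filter.1 m2).2
  refine or_assoc.1 (.inl ?_)
  rcases (hCHN V E s t U X' X'' a hc ec n1 n2).1 with l | l
  exacts [key X' X'' n1 n2 l1 l ne e1.ge, key X'' X' n2 n1 l2 l ne.symm e1.le]

end Pool.Agent.P.MP_40718a_co.Wb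

end

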