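import Pool.Agent.P.MP_40718a_co.Wb.Iface

section
/-! Step PEEL. -/

set_option linter.unusedSectionVars false

namespace Pool.Agent.P.MP_40718a_co.Wb

open Finset ABF Bc

theorem p_PEEL :
    S_PEEL := by
  intro V E _ _ _ _ s t U X hc hXU hcard
  obtain ⟨K, hK2, hK, hKU⟩ : ∃ K : Finset V, K.card ≤ 2 ∧
      (∀ f ∈ cut s t X ∩ ins s t U, (s f ∉ X → s f ∈ K) ∧ (t f ∉ X → t f ∈ K)) ∧
      ∀ v ∈ K, v ∉ X ∧ ∃ f ∈ cut s t X ∩ ins s t U, s f = v ∨ t f = v := by
    refine ⟨(cut s t X ∩ ins s t U).image fun e => if s e ∈ X then t e else s e,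
      card_image_le.trans hcard, fun f hf => ⟨fun h => ?_, fun h => ?_⟩, fun v hv => ?_⟩
    · exact mem_image.2 ⟨f, hf, by simp [h]⟩
    · have h1 := mem_cut.1 (mem_inter.1 hf).1
      have h2 : s f ∈ X := by tauto
      exact mem_image.2 ⟨f, hf, by simp [h2]⟩
    · obtain ⟨f, hf, rfl⟩ := mem_image.1 hv
      have h1 := mem_cut.1 (mem_inter.1 hf).1
      by_cases h2 : s f ∈ X
      · rw [if_pos h2]
        exact ⟨by tauto, f, hf, Or.inr rfl⟩
      · rw [if_neg h2]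
        exact ⟨h2, f, hf, Or.inl rfl⟩
  refine ⟨K, hK2, ?_, ?_⟩
  · have hsub : cut s t (U \ (X ∪ K)) ⊆ cut s t U ∪ meet s t K := by
      intro f hf
      have h1 := hK f
      have h2 := @hXU (s f)
      have h3 := @hXU (t f)
      simp only [mem_cut, mem_sdiff, mem_union, mem_inter, mem_ins, mem_meet] at hf h1 ⊢
      tauto
    have h1 := (card_le_card hsub).trans (card_union_le _ _)
    have h2 := meet_card hc K
    omega
  intro M0 S O e hM hGP hX heS heK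
  obtain ⟨⟨hSU, hDj, hO⟩, hle, hMO⟩ := hGP
  have hXS : ∀ Z ∈ O, ∀ v ∈ Z, v ∈ U ∧ v ∉ S := fun Z hZ v hv => mem_sdiff.1 ((hO Z hZ).1 hv)
  have hKS : K ⊆ S := by
    intro v hv
    obtain ⟨h1, f, hf, h2⟩ := hKU v hv
    have h3 := (hO X hX).2.2 f hf
    have h4 := mem_cut.1 (mem_inter.1 hf).1
    have h5 := hXS X hX (s f)
    have h6 := hXS X hX (t f)
    rcases h2 with rfl | rfl <;> tauto
  obtain ⟨f0, hf0⟩ : (M0 ∩ cut s t X).Nonempty :=
    card_pos.1 (odd_cut (hM.mono hXU) (hO X hX).2.1).pos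
  have hf0K : ∃ w ∈ K, s f0 = w ∨ t f0 = w := by
    have h1 := hK f0 (mem_inter.2 ⟨(mem_inter.1 hf0).2, hMO X hX hf0⟩)
    have h2 := mem_cut.1 (mem_inter.1 hf0).2
    by_cases h3 : s f0 ∈ X
    · exact ⟨t f0, h1.2 (by tauto), Or.inr rfl⟩
    · exact ⟨s f0, h1.1 h3, Or.inl rfl⟩
  have hZU : ∀ Z ∈ O, Z ≠ X → ∀ v ∈ Z, v ∈ U \ (X ∪ K) := by
    intro Z hZ hne v hv
    have h1 := hXS Z hZ v hv
    have h2 : v ∉ X := disjoint_left.1 (hDj Z hZ X hX hne) hv
    have h3 := @hKS v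
    simp only [mem_sdiff, mem_union]
    tauto
  set O' := O.filter fun Z => Z ≠ X ∧ M0 ∩ cut s t Z ⊆ ins s t (U \ (X ∪ K)) with hO'
  have hcnt : (O \ O').card ≤ K.card := by
    refine card_le_card_of_forall_subsingleton
      (fun Z w => ∃ f ∈ M0 ∩ cut s t Z, s f = w ∨ t f = w) (fun Z hZ => ?_) fun w hw => ?_
    · obtain ⟨hZ, hn⟩ := mem_sdiff.1 hZ
      by_cases hZX : Z = X
      · subst hZX
        obtain ⟨w, hw, h⟩ := hf0K
        exact ⟨w, hw, f0, hf0, h⟩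
      · have h1 : ¬ M0 ∩ cut s t Z ⊆ ins s t (U \ (X ∪ K)) :=
          fun h => hn (mem_filter.2 ⟨hZ, hZX, h⟩)
        obtain ⟨f, hf, h2⟩ := not_subset.1 h1
        have h3 := hMO Z hZ hf
        have h4 := (hO Z hZ).2.2 f (mem_inter.2 ⟨(mem_inter.1 hf).2, h3⟩)
        have h5 := mem_cut.1 (mem_inter.1 hf).2
        have key : ∀ w ∈ S, w ∉ U \ (X ∪ K) → w ∈ K := fun w hw h => by
          by_contra h6
          exact h (mem_sdiff.2 ⟨hSU hw, fun h7 =>
            (mem_union.1 h7).elim (fun h8 => (hXS X hX w h8).2 hw) h6⟩)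
        by_cases h12 : s f ∈ Z
        · exact ⟨t f, key _ (h4.resolve_left (hXS Z hZ _ h12).2)
            fun h => h2 (mem_ins.2 ⟨hZU Z hZ hZX _ h12, h⟩), f, hf, Or.inr rfl⟩
        · have h13 : t f ∈ Z := by_contra fun h => h5 (iff_of_false h12 h)
          exact ⟨s f, key _ (h4.resolve_right (hXS Z hZ _ h13).2)
            fun h => h2 (mem_ins.2 ⟨h, hZU Z hZ hZX _ h13⟩), f, hf, Or.inl rfl⟩
    · rintro Z ⟨hZ, f, hf, h1⟩ Z' ⟨hZ', f', hf', h2⟩
      have hZ := (mem_sdiff.1 hZ).1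
      have hZ' := (mem_sdiff.1 hZ').1
      obtain rfl : f = f' := edge_unique (hM w (hSU (hKS hw))).le (mem_inter.1 hf).1
        (mem_inter.1 hf').1 h1 h2
      by_contra hne
      have h3 := disjoint_left.1 (hDj Z hZ Z' hZ' hne)
      have h4 := mem_cut.1 (mem_inter.1 hf).2
      have h5 := mem_cut.1 (mem_inter.1 hf').2
      have h6 : w ∉ Z := fun h => (hXS Z hZ w h).2 (hKS hw)
      have h7 : w ∉ Z' := fun h => (hXS Z' hZ' w h).2 (hKS hw)
      rcases h1 with rfl | rfl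
      · exact h3 (by_contra fun h => h4 (iff_of_false h6 h))
          (by_contra fun h => h5 (iff_of_false h7 h))
      · exact h3 (by_contra fun h => h4 (iff_of_false h h6))
          (by_contra fun h => h5 (iff_of_false h h7))
  have hc1 := card_sdiff_add_card_eq_card hKS
  have hc2 : (O \ O').card + O'.card = O.card := card_sdiff_add_card_eq_card (filter_subset _ O)
  have hc3 : 0 < K.card := let ⟨w, hw, _⟩ := hf0K; card_pos.2 ⟨w, hw⟩
  refine ⟨S \ K, O', ⟨⟨fun v hv => ?_, fun Z hZ Z' hZ' => ?_, fun Z hZ => ?_⟩, by omega,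
    fun Z hZ => (mem_filter.1 hZ).2.2⟩, ?_, by omega⟩
  · have h1 := hXS X hX v
    have h2 := @hSU v
    simp only [mem_sdiff, mem_union] at hv ⊢
    tauto
  · exact hDj Z (mem_filter.1 hZ).1 Z' (mem_filter.1 hZ').1
  · obtain ⟨hZ, hne, -⟩ := mem_filter.1 hZ
    refine ⟨fun v hv => mem_sdiff.2 ⟨hZU Z hZ hne v hv, fun h => ?_⟩, (hO Z hZ).2.1,
      fun f hf => ?_⟩
    · exact (hXS Z hZ v hv).2 (mem_sdiff.1 h).1
    · obtain ⟨h1, h2⟩ := mem_inter.1 hf
      have h3 := (hO Z hZ).2.2 f (mem_inter.2 ⟨h1, ins_mono sdiff_subset h2⟩)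
      simp only [mem_ins, mem_sdiff, mem_union] at h2 ⊢
      tauto
  · simp only [mem_ins, mem_sdiff, mem_meet] at heS heK ⊢
    tauto

end Pool.Agent.P.MP_40718a_co.Wb

end

section
/-! Step MRG. -/

set_option linter.unusedSectionVars false

namespace Pool.Agent.P.MP_40718a_co.Wb

open Finset ABF Bc

theorem mrg_idx {α : Type} [DecidableEq α] (A : Finset α) :
    ∃ ι : α → ℕ, (∀ x ∈ A, ι x < A.card) ∧ ∀ x ∈ A, ∀ y ∈ A, ι x = ι y → x = y :=
  ⟨fun x => if h : x ∈ A then A.equivFin ⟨x, h⟩ else 0, fun x hx => by simp [hx],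
    fun x hx y hy h => by simpa [hx, hy, Fin.val_inj] using h⟩

section

variable {V E : Type} [Fintype V] [Fintype E] [DecidableEq V] [DecidableEq E] {s t : E → V}
  {U : Finset V} {Pm : Finset E → Prop} {D D' : Finset E}

theorem mrg_sub (h : Mrg s t U Pm D) (h' : D' ⊆ D) : Mrg s t U Pm D' :=
  h.imp (fun e : D = ∅ => subset_empty.1 (e ▸ h')) fun ⟨N0, N, a, b, c, d⟩ => ⟨N0, N, a, b, c, h'.trans d⟩

theorem mrg_of (h : ∀ e ∈ D, Mrg s t U Pm D) : Mrg s t U Pm D :=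
  D.eq_empty_or_nonempty.elim .inl fun ⟨e, he⟩ => h e he

end

theorem p_MRG :
    S_MRG := by
  intro V E _ _ _ _ s t U Pm hP
  refine ⟨fun D D1 D2 l1 l2 h ⟨c1, a1, a2⟩ ⟨c2, b1, b2⟩ => ?_, fun α _ f A D l n h hn H => ?_,
    fun D n hn h => ?_, fun U' D l h ⟨c, a1, a2⟩ => ⟨c, a1, fun κ => ?_⟩,
    fun D h => ⟨0, by simp, fun κ => mrg_sub h (filter_subset _ _)⟩⟩
  · have h2 : ∀ e ∈ D, e ∉ D1 → e ∈ D2 := fun e he => (mem_union.1 (h he)).resolve_left
    refine ⟨fun e => if e ∈ D1 then c1 e else l1 + c2 e, fun e he => ?_, fun κ => ?_⟩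
    · dsimp only
      split_ifs with c
      · exact (a1 e c).trans_le (Nat.le_add_right _ _)
      · exact Nat.add_lt_add_left (b1 e (h2 e he c)) _
    by_cases c : κ < l1
    · refine mrg_sub (a2 κ) fun e he => ?_
      obtain ⟨d1, d2⟩ := mem_filter.1 he
      dsimp only at d2
      split_ifs at d2 with c'
      · exact mem_filter.2 ⟨c', d2⟩
      · omega
    · refine mrg_sub (b2 (κ - l1)) fun e he => ?_
      obtain ⟨d1, d2⟩ := mem_filter.1 he
      dsimp only at d2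
      split_ifs at d2 with c'
      · have := a1 e c'
        omega
      · exact mem_filter.2 ⟨h2 e d1 c', by omega⟩
  · choose! c h1 h2 using H
    obtain ⟨ι, i1, i2⟩ := mrg_idx A
    have h3 : ∀ e ∈ D, c (f e) e < l := fun e he => h1 _ (h e he) e (mem_filter.2 ⟨he, rfl⟩)
    refine ⟨fun e => c (f e) e + l * ι (f e), fun e he => ?_, fun κ => mrg_of fun e0 h0 => ?_⟩
    · have := Nat.mul_le_mul_left l ((i1 _ (h e he)).trans_le hn)
      have := h3 e he
      rw [mul_comm n]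
      rw [Nat.mul_succ] at *
      dsimp only
      omega
    obtain ⟨d1, d2⟩ := mem_filter.1 h0
    refine mrg_sub (h2 _ (h e0 d1) (c (f e0) e0)) fun e he => ?_
    obtain ⟨d3, d4⟩ := mem_filter.1 he
    have l0 : 0 < l := (Nat.zero_le _).trans_lt (h3 e d3)
    have d5 := congrArg (· / l) (d4.trans d2.symm)
    simp only [Nat.add_mul_div_left _ _ l0, Nat.div_eq_of_lt (h3 e d3), Nat.div_eq_of_lt (h3 e0 d1),
      zero_add] at d5
    have d6 := i2 _ (h e d3) _ (h e0 d1) d5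
    dsimp only at d2 d4
    rw [d6] at d4
    exact mem_filter.2 ⟨mem_filter.2 ⟨d3, d6⟩, by omega⟩
  · obtain ⟨ι, i1, i2⟩ := mrg_idx D
    refine ⟨ι, fun e he => (i1 e he).trans_le hn, fun κ => mrg_of fun e0 h0 => ?_⟩
    obtain ⟨d1, d2⟩ := mem_filter.1 h0
    obtain ⟨N, n1, n2⟩ := h e0 d1
    refine .inr ⟨N, N, n1, hP N n1, fun _ _ => Iff.rfl, fun e he => ?_⟩
    obtain ⟨d3, d4⟩ := mem_filter.1 he
    exact i2 e0 d1 e d3 (d2.trans d4.symm) ▸ n2
  · refine (a2 κ).imp id fun ⟨N0, N, b1, b2, b3, b4⟩ => ⟨N0, N, b1, fun v hv => ?_,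
      fun e he => b3 e fun c => he (ins_mono h c), b4⟩
    by_cases c : v ∈ U'
    · exact b2 v c
    · rw [← hP N0 b1 v hv]
      refine deg_congr fun e he => b3 e fun c' => c ?_
      rcases he with rfl | rfl
      exacts [(mem_ins.1 c').1, (mem_ins.1 c').2]

end Pool.Agent.P.MP_40718a_co.Wb

end

section
/-! Step GLC. -/

set_option linter.unusedSectionVars false

namespace Pool.Agent.P.MP_40718a_co.Wb

open Finset ABF Bc

section glc

variable {V E : Type} [Fintype V] [Fintype E] [DecidableEq V] [DecidableEq E] {s t : E → V}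
  {U X X1 Y : Finset V} {a tr M N : Finset E} {b : ℕ} {e : E}

theorem glc_ne (h : Cor s t U b e a X X1) : X ≠ X1 := by
  rintro rfl
  simpa using h.2.2.2.2.1

/-- on the cuts of the two sides of a core the matching is given by its trace -/
theorem glc_tr (hCHN : S_CHN) (hc : Cubic s t) (h3 : EC 3 s t) (h : Cor s t U b e a X X1)
    (hM : PMon s t U M) (he : e ∈ M) (htr : M ∩ cut s t U = tr) :
    ∀ f ∈ cut s t X ∪ cut s t X1, f ∈ M ↔ f ∈ tr := by
  intro f hf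
  have h1 := ((hCHN V E s t U X X1 a hc h3 h.1 h.2.1).2 h.2.2.1 (glc_ne h)).2.2.1
  have h2 := h.2.2.2.2.2 M hM he
  rw [← htr, mem_inter]
  refine ⟨fun hf' => ⟨hf', by_contra fun hn => ?_⟩, And.left⟩
  have h4 : f ∈ ins s t U := by
    have a1 := @h.1.1 (s f)
    have a2 := @h.1.1 (t f)
    have a3 := @h.2.1.1 (s f)
    have a4 := @h.2.1.1 (t f)
    simp only [mem_union, mem_cut, mem_ins] at hf hn ⊢
    tauto
  exact notMem_empty f (h2 ▸ mem_inter.2 ⟨hf', h1 ▸ mem_inter.2 ⟨hf, h4⟩⟩)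

/-- extension of a matching of `Y` over the strip between `Y` and `X` -/
theorem glc_ext (hCHN : S_CHN) (hP4 : S_P4) (hc : Cubic s t) (h3 : EC 3 s t) (hY : Gn s t U a Y)
    (hX : Gn s t U a X) (h : Y ⊆ X) (hN : PMon s t Y N) (htr : tr ⊆ cut s t U)
    (h1 : ∀ f ∈ cut s t Y, f ∈ N ↔ f ∈ tr) :
    ∃ N1, PMon s t X N1 ∧ (∀ f ∈ cut s t X, f ∈ N1 ↔ f ∈ tr) ∧ N ∩ ins s t Y ⊆ N1 := by
  rcases eq_or_ne Y X with rfl | hne
  · exact ⟨N, hN, h1, inter_subset_left⟩
  obtain ⟨h4, h5, -⟩ := (hCHN V E s t U Y X a hc h3 hY hX).2 h hne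
  obtain ⟨L, hL, hL'⟩ := hP4 V E s t (X \ Y) hc h3 h5 h4.le
  have h6 : PMon s t (X \ (X \ Y)) (N ∩ meet s t Y) := by
    rw [Finset.sdiff_sdiff_eq_self h]
    exact hN.congr fun f hf => by simp only [mem_inter, hf, and_true]
  refine ⟨_, glue h6 hL fun f hf => iff_of_false (fun h7 => ?_) fun h7 => ?_, fun f hf => ?_,
    fun f hf => ?_⟩
  · have a1 := @h (s f)
    have a2 := @h (t f)
    have a3 := @hX.1 (s f)
    have a4 := @hX.1 (t f)
    have a5 := h1 f
    have a6 := @htr f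
    simp only [mem_inter, mem_cut, mem_meet, mem_sdiff] at hf h7 a5 a6
    tauto
  · exact notMem_empty f (hL' ▸ mem_inter.2 ⟨h7, hf⟩)
  · rw [mem_glue_out (not_ins_of_cut sdiff_subset hf), mem_inter]
    constructor
    · rintro ⟨h7, h8⟩
      refine (h1 f ?_).1 h7
      have a1 := @h (s f)
      have a2 := @h (t f)
      simp only [mem_cut, mem_meet] at hf h8 ⊢
      tauto
    · intro h7
      have h8 : f ∈ cut s t Y :=
        (mem_inter.1 ((hX.2.2.2.trans hY.2.2.2.symm) ▸ mem_inter.2 ⟨hf, htr h7⟩)).1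
      exact ⟨(h1 f h8).2 h7, meet_eq (s := s) (t := t) Y ▸ mem_union_right _ h8⟩
  · obtain ⟨h7, h8⟩ := mem_inter.1 hf
    rw [mem_glue_out]
    · exact mem_inter.2 ⟨h7, meet_eq (s := s) (t := t) Y ▸ mem_union_left _ h8⟩
    · simp only [mem_ins, mem_sdiff] at h8 ⊢
      tauto

end glc

theorem p_GLC (hCHN : S_CHN) (hP4 : S_P4) :
    S_GLC := by
  intro V E _ _ _ _ s t U Pm D a tr b X X1 M hc h3 hP h1 h2
  have key : D = ∅ ∨ ∃ e0 ∈ D, ∃ N, PMon s t U N ∧ (∀ f ∉ ins s t (X1 e0), f ∈ N ↔ f ∈ M e0) ∧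
      D ⊆ N ∩ ins s t (X1 e0) := by
    induction D using Finset.induction_on_max_value (fun e => (X e).card) with
    | empty => exact Or.inl rfl
    | insert e D he hmax ih =>
      obtain ⟨c1, c2, c3, c4⟩ := h1 e (mem_insert_self _ _)
      have c5 : e ∈ ins s t (X1 e) := ins_mono sdiff_subset c1.2.2.2.2.1
      refine Or.inr ⟨e, mem_insert_self _ _, ?_⟩
      rcases ih (fun f hf => h1 f (mem_insert_of_mem hf)) (fun f hf f' hf' =>
        h2 f (mem_insert_of_mem hf) f' (mem_insert_of_mem hf')) with rfl | ⟨e0, h0, N, n1, n2, n3⟩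
      · exact ⟨M e, hP _ c2, fun _ _ => Iff.rfl, by
          rw [insert_empty_eq, singleton_subset_iff]; exact mem_inter.2 ⟨c3, c5⟩⟩
      obtain ⟨d1, d2, d3, d4⟩ := h1 e0 (mem_insert_of_mem h0)
      have hsub : X1 e0 ⊆ X e := by
        refine (h2 e0 (mem_insert_of_mem h0) e (mem_insert_self _ _)
          (by rintro rfl; exact he h0)).resolve_right fun h => ?_
        have := card_lt_card (c1.2.2.1.ssubset_of_ne (glc_ne c1))
        have := card_le_card h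
        have := hmax e0 h0
        omega
      obtain ⟨N1, m1, m2, m3⟩ := glc_ext hCHN hP4 hc h3 d1.2.1 c1.1 hsub (n1.mono d1.2.1.1)
        (c4 ▸ inter_subset_right) fun f hf => (n2 f (not_ins_of_cut Subset.rfl hf)).trans
          (glc_tr hCHN hc h3 d1 (hP _ d2) d3 d4 f (mem_union_right _ hf))
      refine ⟨_, glue ((hP _ c2).mono sdiff_subset) m1 fun f hf =>
        (glc_tr hCHN hc h3 c1 (hP _ c2) c3 c4 f (mem_union_left _ hf)).trans (m2 f hf).symm,
        fun f hf => mem_glue_out fun h => hf (ins_mono c1.2.2.1 h), insert_subset ?_ fun f hf => ?_⟩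
      · refine mem_inter.2 ⟨(mem_glue_out fun h => ?_).2 c3, c5⟩
        exact (mem_sdiff.1 (mem_ins.1 c1.2.2.2.2.1).1).2 (mem_ins.1 h).1
      · have h4 := (mem_inter.1 (n3 hf)).2
        exact mem_inter.2 ⟨(mem_glue_in (ins_mono hsub h4)).2 (m3 (n3 hf)),
          ins_mono (hsub.trans c1.2.2.1) h4⟩
  refine key.imp_right ?_
  rintro ⟨e0, h0, N, n1, n2, n3⟩
  exact ⟨M e0, N, (h1 e0 h0).2.1, n1, fun f hf => n2 f fun h => hf (ins_mono (h1 e0 h0).1.2.1.1 h),
    n3.trans inter_subset_left⟩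

end Pool.Agent.P.MP_40718a_co.Wb

end

section
/-! Step TUD. -/

set_option linter.unusedSectionVars false

namespace Pool.Agent.P.MP_40718a_co.Wb

open Finset ABF Bc

theorem tud_nest {V : Type} [DecidableEq V] {X X1 Y Y1 : Finset V} {b : ℕ} (h : X ⊆ X1)
    (h' : Y ⊆ Y1) (hb : (X1 \ X).card ≤ 2 * b) (hc : (X1 \ X).card = (Y1 \ Y).card)
    (hm : X.card % (2 * b + 1) = Y.card % (2 * b + 1)) (a1 : X ⊆ Y) (a2 : X1 ⊆ Y ∨ Y ⊆ X1)
    (a3 : X1 ⊆ Y1 ∨ Y1 ⊆ X1) : X1 \ X = Y1 \ Y ∨ X1 ⊆ Y := by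
  have e1 := card_sdiff_add_card_eq_card h
  have e2 := card_sdiff_add_card_eq_card h'
  rcases (card_le_card a1).eq_or_lt with e | e
  · have : X1 = Y1 := a3.elim (fun a => eq_of_subset_of_card_le a (by omega))
      fun a => (eq_of_subset_of_card_le a (by omega)).symm
    exact .inl (by rw [this, eq_of_subset_of_card_le a1 e.ge])
  · refine .inr (a2.resolve_right fun a => ?_)
    have h1 := card_le_card a
    have h2 := Nat.le_of_dvd (Nat.sub_pos_of_lt e) ((Nat.modEq_iff_dvd' e.le).1 hm)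
    omega

theorem p_TUD (hCHN : S_CHN) (hGLC : S_GLC) (hMRG : S_MRG) :
    S_TUD := by
  intro b γ
  refine ⟨2 ^ γ * (2 ^ γ * ((2 * b + 1) * ((2 * b + 1) * (3 * b + 1)))) * 1, ?_⟩
  intro V E _ _ _ _ s t U Pm D hC hE hγ hP hD
  choose! M hM using fun e he => (hD e he).1
  choose! a X X1 hX using fun e he => (hD e he).2
  obtain ⟨-, m2, -, -, m5⟩ := hMRG V E s t U Pm hP
  have hp : (cut s t U).powerset.card ≤ 2 ^ γ := by
    rw [card_powerset]
    exact Nat.pow_le_pow_right two_pos hγ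
  have hi : ∀ e ∈ D, e ∈ (ins s t (X1 e \ X e)).toList := fun e he =>
    mem_toList.2 (hX e he).2.2.2.2.1
  refine m2 _ (fun e => (a e, M e ∩ cut s t U, (X e).card % (2 * b + 1), (X1 e \ X e).card,
      (ins s t (X1 e \ X e)).toList.idxOf e))
    ((cut s t U).powerset ×ˢ (cut s t U).powerset ×ˢ range (2 * b + 1) ×ˢ range (2 * b + 1) ×ˢ
      range (3 * b + 1)) D 1 _ (fun e he => ?_) ?_ fun x _ => m5 _ ?_
  · have h1 := (hX e he).2.2.2.1
    have h2 := ins_cut_card hC (X1 e \ X e)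
    have h3 := List.idxOf_lt_length_of_mem (hi e he)
    rw [length_toList] at h3
    simp only [mem_product, mem_powerset, mem_range]
    exact ⟨(hX e he).1.2.2.2 ▸ inter_subset_right, inter_subset_right,
      Nat.mod_lt _ (Nat.succ_pos _), by omega, by omega⟩
  · simp only [card_product, card_range]
    exact Nat.mul_le_mul hp (Nat.mul_le_mul_right _ hp)
  · refine hGLC V E s t U Pm _ x.1 x.2.1 b X X1 M hC hE hP (fun e he => ?_)
      fun e he e' he' hne => ?_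
    · obtain ⟨h0, rfl⟩ := mem_filter.1 he
      exact ⟨hX e h0, (hM e h0).1, (hM e h0).2, rfl⟩
    · obtain ⟨he, h1⟩ := mem_filter.1 he
      obtain ⟨he', h2⟩ := mem_filter.1 he'
      obtain ⟨c1, -, c3, c4, c5⟩ : a e = a e' ∧ _ ∧ _ ∧ _ ∧ _ := by
        simpa only [Prod.mk.injEq] using h1.trans h2.symm
      obtain ⟨g1, g2, g3, g4, -⟩ := hX e he
      obtain ⟨g1', g2', g3', g4', -⟩ := hX e' he'
      rw [← c1] at g1' g2'
      have hn : X1 e \ X e ≠ X1 e' \ X e' := fun h =>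
        hne ((List.idxOf_inj (hi e he)).1 (by rw [c5, h]))
      have ch := fun Y Y' => fun p q => (hCHN V E s t U Y Y' (a e) hC hE p q).1
      rcases ch _ _ g1 g1' with h | h
      · exact .inl ((tud_nest g3 g3' g4 c4 c3 h (ch _ _ g2 g1') (ch _ _ g2 g2')).resolve_left hn)
      · exact .inr ((tud_nest g3' g3 g4' c4.symm c3.symm h (ch _ _ g2' g1)
          (ch _ _ g2' g2)).resolve_left hn.symm)

end Pool.Agent.P.MP_40718a_co.Wb

end

section
/-! Step TUTP. -/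

set_option linter.unusedSectionVars false

namespace Pool.Agent.P.MP_40718a_co.Wb

open Finset ABF Bc

theorem tutp_lt {V : Type} [Fintype V] [DecidableEq V] {G : Finset V → Prop} {X Y : Finset V}
    (hY : G Y) (h : X ⊆ Y) (hne : X ≠ Y) :
    cnt (fun Z => G Z ∧ Y ⊆ Z ∧ Y ≠ Z) < cnt fun Z => G Z ∧ X ⊆ Z ∧ X ≠ Z := by
  classical
  rw [cnt_eq, cnt_eq]
  refine card_lt_card ⟨fun Z hZ => ?_, fun h1 => ?_⟩
  · simp only [mem_filter, mem_univ, true_and] at hZ ⊢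
    exact ⟨hZ.1, h.trans hZ.2.1, fun e => hne (Subset.antisymm h (e ▸ hZ.2.1))⟩
  · exact (mem_filter.1 (h1 (mem_filter.2 ⟨mem_univ Y, hY, h, hne⟩))).2.2.2 rfl

theorem p_TUTP (hCHN : S_CHN) (hPEEL : S_PEEL) (hMRG : S_MRG) :
    S_TUTP := by
  intro b γ l hT
  refine ⟨2 ^ γ * (b + 3) * (6 + l), ?_⟩
  intro V E _ _ _ _ s t U M0 Pm D hc hs hU hγ hM hP hD
  choose! S a X O h1 h2 h3 h4 h5 h6 using fun e he => (hD e he).2
  obtain ⟨m1, m2, m3, m4, -⟩ := hMRG V E s t U Pm hP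
  refine m2 _ (fun e => (a e, cnt fun Z : Finset V => Gn s t U (a e) Z ∧ X e ⊆ Z ∧ X e ≠ Z))
    ((cut s t U).powerset ×ˢ range (b + 3)) D _ _ (fun e he => ?_) ?_ fun x _ => ?_
  · exact mem_product.2 ⟨mem_powerset.2 ((h5 e he).2.2.2 ▸ inter_subset_right),
      mem_range.2 (Nat.lt_succ_of_le (h6 e he))⟩
  · rw [card_product, card_powerset, card_range]
    exact Nat.mul_le_mul_right _ (Nat.pow_le_pow_right two_pos hγ)
  generalize hD0 : (D.filter fun e => (a e, cnt fun Z : Finset V =>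
    Gn s t U (a e) Z ∧ X e ⊆ Z ∧ X e ≠ Z) = x) = D0
  have hs0 : ∀ e ∈ D0, e ∈ D := fun e he => (mem_filter.1 (hD0 ▸ he)).1
  have hX : ∀ e ∈ D0, ∀ e' ∈ D0, X e = X e' := fun e he e' he' => by
    obtain ⟨q1, q2⟩ := Prod.ext_iff.1
      ((mem_filter.1 (hD0 ▸ he)).2.trans (mem_filter.1 (hD0 ▸ he')).2.symm)
    have g1 := h5 e (hs0 e he)
    have g2 := h5 e' (hs0 e' he')
    dsimp only at q1 q2
    rw [q1] at q2 g1
    by_contra hne
    rcases (hCHN V E s t U _ _ _ hc (ec3_of_small hc hs) g1 g2).1 with h | h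
    · exact (tutp_lt g2 h hne).ne' q2
    · exact (tutp_lt g1 h (Ne.symm hne)).ne q2
  rcases D0.eq_empty_or_nonempty with rfl | ⟨e0, he0⟩
  · exact m3 _ _ (Nat.zero_le _) fun e he => absurd he (notMem_empty e)
  obtain ⟨K, k1, k2, k3⟩ := hPEEL V E s t U (X e0) hc (h5 e0 (hs0 e0 he0)).1
    (h5 e0 (hs0 e0 he0)).2.2.1
  refine m1 D0 (D0 ∩ meet s t K) (D0 \ meet s t K) _ _ (by rw [union_comm, sdiff_union_inter])
    (m3 _ _ ?_ fun e he => (hD e (hs0 e (mem_inter.1 he).1)).1)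
    (m4 (U \ (X e0 ∪ K)) _ _ sdiff_subset (hT V E s t _ M0 Pm _ hc hs
      (fun h => hU (univ_subset_iff.1 (h ▸ sdiff_subset))) (by omega) (hM.mono sdiff_subset)
      (fun N hN => (hP N hN).mono sdiff_subset) fun e he => ?_))
  · have := (card_le_card (inter_subset_right (s₁ := D0))).trans (meet_card hc K)
    omega
  · obtain ⟨r1, r2⟩ := mem_sdiff.1 he
    have r3 := hs0 e r1
    obtain ⟨S', O', u1, u2, u3⟩ := k3 M0 (S e) (O e) e hM (h1 e r3) (hX e r1 e0 he0 ▸ h4 e r3)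
      (h2 e r3) r2
    have := h3 e r3
    exact ⟨(hD e r3).1, S', O', u1, u2, by omega⟩

end Pool.Agent.P.MP_40718a_co.Wb

end

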