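import Pool.Agent.P.MP_40718a_co.Wb.Iface

section
/-! Step TU. -/

set_option linter.unusedSectionVars false

namespace Pool.Agent.P.MP_40718a_co.Wb

open Finset ABF Bc

theorem p_TU (hDEEP : S_DEEP) (hTUD : S_TUD) (hTUTP : S_TUTP) (hMRG : S_MRG) :
    S_TU := by
  classical
  intro b
  induction b with
  | zero =>
    refine fun γ => ⟨0, fun V E _ _ _ _ s t U M0 Pm D _ _ _ _ _ h6 h7 => ?_⟩
    refine (hMRG V E s t U Pm h6).2.2.1 D 0 (card_eq_zero.2 (eq_empty_of_forall_notMem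
      fun e he => ?_)).le fun e he => (h7 e he).1
    obtain ⟨-, S, O, -, h1, h2⟩ := h7 e he
    exact (card_pos.2 ⟨_, (mem_ins.1 h1).1⟩).not_ge h2
  | succ b ih =>
    intro γ
    obtain ⟨l1, a1⟩ := ih γ
    obtain ⟨l2, a2⟩ := hTUD b γ
    obtain ⟨l0, a0⟩ := ih (γ + 6)
    obtain ⟨l3, a3⟩ := hTUTP b γ l0 a0
    refine ⟨l1 + (l2 + l3), fun V E _ _ _ _ s t U M0 Pm D h1 h2 h3 h4 h5 h6 h7 => ?_⟩
    have m := (hMRG V E s t U Pm h6).1
    refine m D (D.filter fun e => ∃ S O, GP s t U M0 S O ∧ e ∈ ins s t S ∧ S.card ≤ b)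
      ((D.filter fun e => ∃ a X X1, Cor s t U b e a X X1) ∪
        D.filter fun e => ∃ S a X O, GP s t U M0 S O ∧ e ∈ ins s t S ∧
          S.card ≤ b + 1 ∧ X ∈ O ∧ Gn s t U a X ∧
          cnt (fun X' : Finset V => Gn s t U a X' ∧ X ⊆ X' ∧ X ≠ X') ≤ b + 2) _ _
      (fun e he => ?_) (a1 V E s t U M0 Pm _ h1 h2 h3 h4 h5 h6 fun e he => ?_)
      (m _ _ _ _ _ Subset.rfl
        (a2 V E s t U Pm _ h1 (ec3_of_small h1 h2) h4 h6 fun e he => ?_)
        (a3 V E s t U M0 Pm _ h1 h2 h3 h4 h5 h6 fun e he => ?_))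
    · obtain ⟨-, S, O, c1, c2, c3⟩ := h7 e he
      rcases hDEEP V E s t U S O M0 e b h1 h2 h5 c1 c2 c3 with c | c | ⟨a, X, O', d1, d2, d3, d4⟩
      · exact mem_union_left _ (mem_filter.2 ⟨he, c⟩)
      · exact mem_union_right _ (mem_union_left _ (mem_filter.2 ⟨he, c⟩))
      · exact mem_union_right _ (mem_union_right _
          (mem_filter.2 ⟨he, S, a, X, O', d1, c2, c3, d2, d3, d4⟩))
    all_goals exact ⟨(h7 e (mem_filter.1 he).1).1, (mem_filter.1 he).2⟩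

end Pool.Agent.P.MP_40718a_co.Wb

end

section
/-! Step TAMEU. -/

set_option linter.unusedSectionVars false

namespace Pool.Agent.P.MP_40718a_co.Wb

open Finset ABF Bc

theorem tameu_gp (hTUT3 : S_TUT3) {V E : Type} [Fintype V] [Fintype E] [DecidableEq V]
    [DecidableEq E] {s t : E → V} {U : Finset V} {M : Finset E} {e : E} (hc : Cubic s t)
    (hM : PMs s t U ∅ M) (he : e ∈ ins s t U) (hn : ¬ Al s t U ∅ e) :
    ∃ S O, GP s t U M S O ∧ e ∈ ins s t S := by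
  have h1 : ends s t e ⊆ U := fun v hv => by
    rcases mem_ends.1 hv with rfl | rfl
    · exact (mem_ins.1 he).1
    · exact (mem_ins.1 he).2
  have h2 : (ends s t e).card = 2 := card_pair (hc.1 e)
  have h3 : Even (U \ ends s t e).card := by
    have := even_of_pms hM
    have := card_sdiff_add_card_eq_card h1
    rw [Nat.even_iff] at *
    omega
  rcases hTUT3 V E s t _ _ h3 (Subset.refl _) with ⟨L, l1, l2⟩ | ⟨S, O, a1, a2, a3, a4⟩
  · refine (hn ⟨{e} ∪ L, ⟨fun v hv => ?_, ?_⟩, by simp⟩).elim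
    · have d : Disjoint {e} L := disjoint_singleton_left.2 fun h =>
        (mem_sdiff.1 (mem_ins.1 (l1 h)).1).2 (s_mem_ends e)
      rw [deg_union d, deg_singleton]
      by_cases h : v ∈ ends s t e
      · have z : deg s t L v = 0 := deg_eq_zero.2 fun f hf =>
          ⟨fun r => (mem_sdiff.1 (mem_ins.1 (l1 hf)).1).2 (r ▸ h),
            fun r => (mem_sdiff.1 (mem_ins.1 (l1 hf)).2).2 (r ▸ h)⟩
        rw [z]
        have := hc.1 e
        rcases mem_ends.1 h with rfl | rfl <;> simp [this, this.symm]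
      · rw [l2 v (mem_sdiff.2 ⟨hv, h⟩), if_neg fun r : s e = v => h (r ▸ s_mem_ends e),
          if_neg fun r : t e = v => h (r ▸ t_mem_ends e)]
    · exact disjoint_iff_inter_eq_empty.1 ((disjoint_ins_cut U).mono_left (union_subset
        (singleton_subset_iff.2 he) (l1.trans (ins_mono sdiff_subset))))
  · refine ⟨S ∪ ends s t e, O, ⟨⟨union_subset (a1.trans sdiff_subset) h1, a2, fun X hX => ?_⟩,
      (card_union_le _ _).trans (h2 ▸ a3), fun X hX f hf => ?_⟩,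
      mem_ins.2 ⟨mem_union_right _ (s_mem_ends e), mem_union_right _ (t_mem_ends e)⟩⟩
    · obtain ⟨b1, b2, -, b4⟩ := a4 X hX
      refine ⟨by rwa [union_comm, ← sup_eq_union, ← sdiff_sdiff_left], b2, fun f hf => ?_⟩
      have := b4 f
      simp only [mem_inter, mem_ins, mem_sdiff, mem_union] at this hf ⊢
      tauto
    · have b1 := ((a4 X hX).1.trans sdiff_subset).trans sdiff_subset
      have b2 : f ∉ cut s t U := fun h =>
        notMem_empty f (hM.2 ▸ mem_inter.2 ⟨(mem_inter.1 hf).1, h⟩)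
      have b3 := (mem_inter.1 hf).2
      have b4 := @b1 (s f)
      have b5 := @b1 (t f)
      simp only [mem_ins, mem_cut] at b2 b3 ⊢
      tauto

theorem p_TAMEU (hTU : S_TU) (hTUT3 : S_TUT3) (hTUB : S_TUB) (hSTU : S_STU) (hCOVL : S_COVL) :
    S_TAMEU := by
  classical
  intro j bb
  obtain ⟨l, hl⟩ := hTU (bb + 2 * j) (2 * j)
  refine ⟨l + 1 + 6 * j, by omega, fun V E _ _ _ _ s t Y hc hs hY hj h2 τ σ hτ hσ => ?_⟩
  obtain ⟨s1, s2, s3, -⟩ := hSTU V E s t Y τ hc hτ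
  obtain ⟨c1, c2, c3, c4⟩ := hCOVL V E s t Y σ hσ
  obtain ⟨M, hM⟩ := hτ
  have t1 := (card_le_card hM.sub).trans hj
  have t2 := endsOf_card (s := s) (t := t) τ
  have t3 := meet_card hc (endsOf s t τ)
  set U := Y \ endsOf s t τ with hU
  have u1 : U ⊆ Y := sdiff_subset
  have u2 : U ≠ univ := fun h => hY (univ_subset_iff.1 (h ▸ u1))
  have u3 : (cut s t U).card ≤ 2 * j := by omega
  obtain ⟨cls, k1, k2⟩ := hl V E s t U M (PMs s t Y σ)
    ((ins s t U).filter fun e => ¬ Al s t Y τ e ∧ Al s t Y σ e) hc hs u2 u3 (s2 M hM).1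
    (fun N hN => hN.1.mono u1) fun e he => by
      obtain ⟨e1, e2, e3⟩ := mem_filter.1 he
      obtain ⟨S, O, g1, g2⟩ := tameu_gp hTUT3 hc (s2 M hM) e1 fun ⟨L, a, b⟩ =>
        e2 ⟨_, s3 L a, mem_union_right _ (mem_inter.2 ⟨b, e1⟩)⟩
      exact ⟨e3, S, O, g1, g2, hTUB V E s t U S O _ _ hc hs u2 g1.1 g1.2.1 u3
        (h2.mono u1 (by omega) le_rfl)⟩
  refine c2 _ _ _ _ (c3 _ _ _ _ (c1 (Fin (l + 1)) (fun e => ⟨min (cls e) l, by omega⟩) (l + 1)
    (· ∈ (ins s t U).filter fun e => ¬ Al s t Y τ e ∧ Al s t Y σ e) (by simp) fun κ => .inr ?_)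
    (c4 (meet s t (endsOf s t τ)) (6 * j) (by omega))) le_rfl fun e he a b => ?_
  · have m : ∀ e ∈ (ins s t U).filter fun e => ¬ Al s t Y τ e ∧ Al s t Y σ e,
        (⟨min (cls e) l, by omega⟩ : Fin (l + 1)) = κ → cls e = κ := fun e he r => by
      rw [← r, Fin.val_mk, min_eq_left (k1 e he).le]
    rcases k2 κ with h | ⟨N0, N, n1, n2, n3, n4⟩
    · obtain ⟨N, hN⟩ := hσ
      exact ⟨N, hN, fun e _ he r => (notMem_empty e (h ▸ mem_filter.2 ⟨he, m e he r⟩)).elim⟩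
    · refine ⟨N, ⟨fun v hv => ?_, ?_⟩, fun e _ he r => n4 (mem_filter.2 ⟨he, m e he r⟩)⟩
      · by_cases h : v ∈ U
        · exact n2 v h
        · rw [← n1.1 v hv]
          refine deg_congr fun e he => n3 e fun r => h ?_
          rcases he with rfl | rfl
          · exact (mem_ins.1 r).1
          · exact (mem_ins.1 r).2
      · rw [← n1.2]
        ext e
        simp only [mem_inter]
        exact and_congr_left fun h => n3 e (not_ins_of_cut u1 h)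
  · by_cases h : e ∈ ins s t U
    · exact .inl (mem_filter.2 ⟨h, b, a⟩)
    · simp only [hU, mem_ins, mem_sdiff, mem_meet] at h he ⊢
      tauto

end Pool.Agent.P.MP_40718a_co.Wb

end

section
/-! Step LAB. -/

set_option linter.unusedSectionVars false

namespace Pool.Agent.P.MP_40718a_co.Wb

open Finset ABF Bc

theorem p_LAB :
    S_LAB := by
  intro V E _ _ _ _ s t Y j l lab hl
  have hs : ∀ a e, a ∈ sig s t Y lab e ↔ Al s t Y (a.image lab) e := fun a e =>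
    exists_congr fun N => and_congr_left fun _ => hl.pml
  constructor
  · rintro h τ ⟨N0, hτ⟩ a ⟨N1, ha⟩
    obtain ⟨M, h1, h2⟩ := h _ _ (hl.pml.1 hτ).st (hl.pml.1 ha).st
    refine ⟨M, fun i => hl.pml.2 (h1 i), fun e he h3 => h2 e he ?_ ((hs a e).1 h3.2)⟩
    rcases h3.1 with h4 | h4
    · exact absurd h4 (by decide)
    · exact fun h5 => h4 ((hs τ e).2 h5)
  · rintro h τ - a ⟨N1, ha⟩
    obtain ⟨M, h1, h2⟩ := h _ (hl.pml.1 ha).st
    exact ⟨M, fun i => hl.pml.2 (h1 i), fun e he h3 => h2 e he trivial ((hs a e).1 h3.2)⟩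

end Pool.Agent.P.MP_40718a_co.Wb

end

section
/-! Step ISO. -/

set_option linter.unusedSectionVars false

namespace Pool.Agent.P.MP_40718a_co.Wb

open Finset ABF Bc

section

variable {V E : Type} [Fintype V] [Fintype E] [DecidableEq V] [DecidableEq E] {s t : E → V}
  {V' E' : Type} [Fintype V'] [Fintype E'] [DecidableEq V'] [DecidableEq E'] {s' t' : E' → V'}
  {A X : Finset V} {A' : Finset V'} {f : V → V'} {g : E → E'} {e : E}

theorem iso_meet (h : Iso s t A s' t' A' f g) (hX : X ⊆ A) (he : e ∈ meet s t A) :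
    e ∈ meet s t X ↔ g e ∈ meet s' t' (X.image f) := by
  have k := h.2.2 e he
  simp only [mem_meet, mem_image]
  constructor
  · rintro (a | a)
    · exact ((k _ (hX a)).1 (.inl rfl)).imp (fun b => ⟨_, a, b.symm⟩) fun b => ⟨_, a, b.symm⟩
    · exact ((k _ (hX a)).1 (.inr rfl)).imp (fun b => ⟨_, a, b.symm⟩) fun b => ⟨_, a, b.symm⟩
  · rintro (⟨x, a, b⟩ | ⟨x, a, b⟩)
    · rcases (k x (hX a)).2 (.inl b.symm) with c | c <;> simp [c, a]
    · rcases (k x (hX a)).2 (.inr b.symm) with c | c <;> simp [c, a]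

theorem iso_ins (hl : s e ≠ t e) (hl' : s' (g e) ≠ t' (g e)) (h : Iso s t A s' t' A' f g)
    (hX : X ⊆ A) (he : e ∈ meet s t A) : e ∈ ins s t X ↔ g e ∈ ins s' t' (X.image f) := by
  have k := h.2.2 e he
  simp only [mem_ins, mem_image]
  constructor
  · rintro ⟨a, b⟩
    have c : f (s e) ≠ f (t e) := fun c => hl (h.1.injOn (hX a) (hX b) c)
    rcases (k _ (hX a)).1 (.inl rfl) with p | p <;> rcases (k _ (hX b)).1 (.inr rfl) with r | r
    · exact (c (p.symm.trans r)).elim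
    · exact ⟨⟨_, a, p.symm⟩, _, b, r.symm⟩
    · exact ⟨⟨_, b, r.symm⟩, _, a, p.symm⟩
    · exact (c (p.symm.trans r)).elim
  · rintro ⟨⟨x, a, p⟩, y, b, r⟩
    have c : x ≠ y := fun c => hl' (p.symm.trans (c ▸ r))
    rcases (k x (hX a)).2 (.inl p.symm) with u | u <;>
      rcases (k y (hX b)).2 (.inr r.symm) with w | w
    · exact (c (u.symm.trans w)).elim
    · exact ⟨u ▸ a, w ▸ b⟩
    · exact ⟨w ▸ b, u ▸ a⟩
    · exact (c (u.symm.trans w)).elim

theorem iso_cut (hl : s e ≠ t e) (hl' : s' (g e) ≠ t' (g e)) (h : Iso s t A s' t' A' f g)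
    (hX : X ⊆ A) (he : e ∈ meet s t A) : e ∈ cut s t X ↔ g e ∈ cut s' t' (X.image f) := by
  have a := iso_meet h hX he
  have b := iso_ins hl hl' h hX he
  simp only [mem_meet, mem_ins, mem_cut] at a b ⊢
  tauto

theorem iso_sub {v : V} (hv : v ∈ A) (he : e ∈ cut s t {v}) : e ∈ meet s t A := by
  simp only [mem_cut, mem_singleton, mem_meet] at he ⊢
  by_cases a : s e = v
  · exact .inl (a ▸ hv)
  · exact .inr ((show t e = v by tauto) ▸ hv)

end

theorem p_ISO :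
    S_ISO := by
  intro V E _ _ _ _ s t V' E' _ _ _ _ s' t' A A' f g hl hl' h
  refine ⟨fun X hX e he => ⟨iso_cut (hl e) (hl' _) h hX he, iso_ins (hl e) (hl' _) h hX he⟩,
    fun N N' hN v hv => ?_, fun _ _ => ?_⟩
  · have k : ∀ e ∈ meet s t A, e ∈ cut s t {v} ↔ g e ∈ cut s' t' {f v} := fun e he => by
      rw [iso_cut (hl e) (hl' _) h (singleton_subset_iff.2 hv) he, image_singleton]
    rw [deg_loopless hl, deg_loopless hl']
    refine card_bij (fun e _ => g e) (fun e he => ?_) (fun a ha b hb c => ?_) fun e he => ?_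
    · obtain ⟨a, b⟩ := mem_inter.1 he
      exact mem_inter.2 ⟨(hN e (iso_sub hv b)).1 a, (k e (iso_sub hv b)).1 b⟩
    · exact h.2.1.injOn (iso_sub hv (mem_inter.1 ha).2) (iso_sub hv (mem_inter.1 hb).2) c
    · obtain ⟨a, b⟩ := mem_inter.1 he
      obtain ⟨e, c, rfl⟩ := h.2.1.surjOn (iso_sub (h.1.mapsTo hv) b)
      exact ⟨e, mem_inter.2 ⟨(hN e c).2 a, (k e c).2 b⟩, rfl⟩
  · have a := h.1.invOn_invFunOn
    have b := h.2.1.invOn_invFunOn
    have a' := h.1.symm a.symm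
    have b' := h.2.1.symm b.symm
    refine ⟨_, _, ⟨a', b', fun e he v hv => ?_⟩, a.1, a.2, b.1, b.2⟩
    rw [h.2.2 _ (b'.mapsTo he) _ (a'.mapsTo hv), b.2 he, a.2 hv]

end Pool.Agent.P.MP_40718a_co.Wb

end

section
/-! Step ISO1. -/

set_option linter.unusedSectionVars false

namespace Pool.Agent.P.MP_40718a_co.Wb

open Finset ABF Bc

theorem p_ISO1 (hISO : S_ISO) :
    S_ISO1 := by
  intro V E _ _ _ _ s t V' E' _ _ _ _ s' t' W W' f g j lab lab' hl hl' hI hL hg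
  obtain ⟨h1, h2, -⟩ := hISO V E s t V' E' s' t' W W' f g hl hl' hI
  obtain ⟨hf, hgb, -⟩ := hI
  have hW : W.image f = W' := by
    apply coe_injective
    rw [coe_image]
    exact hf.image_eq
  have hcm : ∀ e ∈ cut s t W, e ∈ meet s t W := fun e he => by
    rw [meet_eq]; exact mem_union_right _ he
  have him : ∀ e ∈ ins s t W, e ∈ meet s t W := fun e he => by
    rw [meet_eq]; exact mem_union_left _ he
  have hlm : ∀ i, lab i ∈ meet s t W := fun i => hcm _ ((hL.2 _).2 ⟨i, rfl⟩)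
  have hsur : ∀ e' ∈ meet s' t' W', ∃ e ∈ meet s t W, g e = e' := fun e' he' => by
    obtain ⟨e, he, h⟩ := hgb.surjOn (mem_coe.2 he')
    exact ⟨e, mem_coe.1 he, h⟩
  have hinj : ∀ e ∈ meet s t W, ∀ e' ∈ meet s t W, g e = g e' → e = e' :=
    fun e he e' he' h => hgb.injOn (mem_coe.2 he) (mem_coe.2 he') h
  refine ⟨⟨fun i i' h => ?_, fun e' => ⟨fun he' => ?_, ?_⟩⟩, fun a N hN => ?_, ?_⟩
  · rw [hg, hg] at h
    exact hL.1 (hinj _ (hlm i) _ (hlm i') h)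
  · obtain ⟨e, he, rfl⟩ := hsur e' (by rw [meet_eq]; exact mem_union_right _ he')
    rw [← hW, ← (h1 W (Subset.refl _) e he).1] at he'
    obtain ⟨i, rfl⟩ := (hL.2 e).1 he'
    exact ⟨i, hg i⟩
  · rintro ⟨i, rfl⟩
    rw [hg, ← hW, ← (h1 W (Subset.refl _) _ (hlm i)).1]
    exact (hL.2 _).2 ⟨i, rfl⟩
  · have ha : ∀ e ∈ meet s t W, e ∈ N ↔ g e ∈ (N ∩ meet s t W).image g := fun e he => by
      refine ⟨fun h => mem_image_of_mem g (mem_inter.2 ⟨h, he⟩), fun h => ?_⟩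
      obtain ⟨e', he', h'⟩ := mem_image.1 h
      rw [← hinj _ (mem_inter.1 he').2 _ he h']
      exact (mem_inter.1 he').1
    refine ⟨_, ⟨fun v' hv' => ?_, ?_⟩, ha⟩
    · rw [← hW] at hv'
      obtain ⟨v, hv, rfl⟩ := mem_image.1 hv'
      rw [← h2 N _ ha v hv]
      exact hN.1 v hv
    · rw [← hN.2]
      ext i
      rw [mem_gadLabels, mem_gadLabels, hg]
      exact (ha _ (hlm i)).symm
  · rintro π c f1 f2 ⟨X, hX, rfl, rfl, rfl, rfl⟩
    have hi : ∀ Y ⊆ W, (Y.image f).card = Y.card := fun Y hY =>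
      card_image_of_injOn (hf.injOn.mono (coe_subset.2 hY))
    have hd : W' \ X.image f = (W \ X).image f := by
      rw [← hW]
      exact (image_sdiff_of_injOn hf.injOn hX).symm
    refine ⟨X.image f, hW ▸ image_subset_image hX, ?_, ?_, by rw [hi X hX],
      by rw [hd, hi _ sdiff_subset]⟩
    · ext i
      rw [mem_gadLabels, mem_gadLabels, hg]
      exact (h1 X hX _ (hlm i)).1.symm
    · symm
      refine card_bij (fun e _ => g e) (fun e he => ?_) (fun e he e' he' h => ?_) fun e' he' => ?_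
      · obtain ⟨a, b⟩ := mem_inter.1 he
        refine mem_inter.2 ⟨(h1 X hX e (him e b)).1.1 a, ?_⟩
        rw [← hW]
        exact (h1 W (Subset.refl _) e (him e b)).2.1 b
      · exact hinj _ (him _ (mem_inter.1 he).2) _ (him _ (mem_inter.1 he').2) h
      · obtain ⟨a, b⟩ := mem_inter.1 he'
        obtain ⟨e, he, rfl⟩ := hsur e' (by rw [meet_eq]; exact mem_union_left _ b)
        rw [← hW, ← (h1 W (Subset.refl _) e he).2] at b
        exact ⟨e, mem_inter.2 ⟨(h1 X hX e he).1.2 a, b⟩, rfl⟩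

end Pool.Agent.P.MP_40718a_co.Wb

end

section
/-! Step ISO2. -/

set_option linter.unusedSectionVars false

namespace Pool.Agent.P.MP_40718a_co.Wb

open Finset ABF Bc

section

variable {V E : Type} [Fintype V] [Fintype E] [DecidableEq V] [DecidableEq E]
  {V' E' : Type} [Fintype V'] [Fintype E'] [DecidableEq V'] [DecidableEq E'] {s t : E → V}
  {s' t' : E' → V'} {W : Finset V} {W' : Finset V'} {g : E → E'} {g' : E' → E} {j : ℕ}
  {lab : Fin j → E} {lab' : Fin j → E'}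

theorem iso2_meet {e : E} (h : e ∈ ins s t W) : e ∈ meet s t W :=
  mem_meet.2 (Or.inl (mem_ins.1 h).1)

theorem iso2_cov (F : ∀ a N, PMl s t W lab a N → ∃ N', PMl s' t' W' lab' a N' ∧
      ∀ e ∈ meet s t W, e ∈ N ↔ g e ∈ N')
    (B : ∀ a N', PMl s' t' W' lab' a N' → ∃ N, PMl s t W lab a N ∧
      ∀ e ∈ meet s' t' W', e ∈ N' ↔ g' e ∈ N)
    (h1 : ∀ e ∈ ins s' t' W', g' e ∈ ins s t W) (h2 : ∀ e ∈ meet s' t' W', g (g' e) = e)
    {I : Type} {Fm : Set (Finset (Fin j)) → Prop} {z : I → Finset (Fin j)}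
    (h : CovZ s t W lab Fm z) : CovZ s' t' W' lab' Fm z := by
  obtain ⟨N, a, b⟩ := h
  choose N' c d using fun i => F _ _ (a i)
  refine ⟨N', c, fun e he hF => ?_⟩
  have m := iso2_meet (h1 e he)
  have m' := iso2_meet he
  have q : sig s t W lab (g' e) = sig s' t' W' lab' e := by
    refine Set.ext fun x => ⟨fun ⟨M, p, r⟩ => ?_, fun ⟨M, p, r⟩ => ?_⟩
    · obtain ⟨M', p', r'⟩ := F _ _ p
      exact ⟨M', p', h2 e m' ▸ (r' _ m).1 r⟩
    · obtain ⟨M', p', r'⟩ := B _ _ p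
      exact ⟨M', p', (r' _ m').1 r⟩
  obtain ⟨i, hi⟩ := b _ (h1 e he) (q ▸ hF)
  exact ⟨i, h2 e m' ▸ (d i _ m).1 hi⟩

theorem iso2_ins (hISO : S_ISO) (hc : Cubic s t) (hc' : Cubic s' t') {f : V → V'}
    (h : Iso s t W s' t' W' f g) : ∀ e ∈ ins s t W, g e ∈ ins s' t' W' := fun e he =>
  ins_mono (image_subset_iff.2 fun _ hv => h.1.mapsTo hv)
    (((hISO V E s t V' E' s' t' W W' f g hc.1 hc'.1 h).1 W (Subset.refl _) e (iso2_meet he)).2.1 he)

end

theorem p_ISO2 (hISO : S_ISO) (hISO1 : S_ISO1) :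
    S_ISO2 := by
  intro V E _ _ _ _ s t V' E' _ _ _ _ s' t' W W' f g j l lab lab' hc hc' ⟨v, _⟩ h hl hg
  have nE : Nonempty E := by
    by_contra h0
    have := not_nonempty_iff.1 h0
    simpa [deg, univ_eq_empty] using hc.2 v
  obtain ⟨f', g', h', -, -, e1, e2⟩ :=
    (hISO V E s t V' E' s' t' W W' f g hc.1 hc'.1 h).2.2 ⟨v⟩ nE
  obtain ⟨hl', F, C⟩ := hISO1 V E s t V' E' s' t' W W' f g j lab lab' hc.1 hc'.1 h hl hg
  obtain ⟨-, B, C'⟩ := hISO1 V' E' s' t' V E s t W' W f' g' j lab' lab hc'.1 hc.1 h' hl' fun i => by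
    rw [hg, e1 _ (by rw [meet_eq]; exact mem_union_right _ ((hl.2 _).2 ⟨i, rfl⟩))]
  have i1 := iso2_ins hISO hc hc' h
  have i2 := iso2_ins hISO hc' hc h'
  refine ⟨hl', ⟨fun n _ z Fm => ⟨iso2_cov F B i2 e2, iso2_cov B F i1 e1⟩,
    fun π c _ f1 f2 => ⟨C π c f1 f2, C' π c f1 f2⟩⟩, fun full H τ ⟨N, hN⟩ a ⟨M, hM⟩ => ?_⟩
  obtain ⟨N', hN', -⟩ := B _ _ hN
  obtain ⟨M', hM', -⟩ := B _ _ hM
  exact iso2_cov F B i2 e2 (H τ ⟨N', hN'⟩ a ⟨M', hM'⟩)

end Pool.Agent.P.MP_40718a_co.Wb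

end

section
/-! Step REP. -/

set_option linter.unusedSectionVars false

namespace Pool.Agent.P.MP_40718a_co.Wb

open Finset ABF Bc

section

variable {V E : Type} [Fintype V] [Fintype E] [DecidableEq V] [DecidableEq E]
variable {V' E' : Type} [Fintype V'] [Fintype E'] [DecidableEq V'] [DecidableEq E']

theorem rep_bij {α β X : Type} [Nonempty β] {A : Finset α} {B : Finset β} {a : X → α} {b : X → β}
    (ha : a.Injective) (hb : b.Injective) (hA : ∀ v, v ∈ A ↔ ∃ x, a x = v)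
    (hB : ∀ v, v ∈ B ↔ ∃ x, b x = v) : ∃ f : α → β, Set.BijOn f A B ∧ ∀ x, f (a x) = b x := by
  have h := ha.extend_apply b fun _ => Classical.arbitrary β
  refine ⟨_, ⟨fun v hv => ?_, fun v hv w hw e => ?_, fun v hv => ?_⟩, h⟩
  · obtain ⟨x, rfl⟩ := (hA v).1 hv
    exact (hB _).2 ⟨x, (h x).symm⟩
  · obtain ⟨x, rfl⟩ := (hA v).1 hv
    obtain ⟨y, rfl⟩ := (hA w).1 hw
    rw [h, h] at e
    rw [hb e]
  · obtain ⟨x, rfl⟩ := (hB v).1 hv
    exact ⟨a x, (hA _).2 ⟨x, rfl⟩, h x⟩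

variable {s t : E → V} {s' t' : E' → V'} {A : Finset V} {A' : Finset V'} {j : ℕ} {lab : Fin j → E}

theorem rep_meet (h : Lab s t A lab) (e : E) :
    e ∈ meet s t A ↔ ∃ z : ins s t A ⊕ Fin j, Sum.elim Subtype.val lab z = e := by
  simp [meet_eq, h.2, -mem_ins, -mem_cut, -mem_meet]

theorem rep_iso [Nonempty V'] [Nonempty E'] (h : Lab s t A lab) {a : A → V'}
    {κ : ins s t A ⊕ Fin j → E'} (ha : a.Injective) (hκ : κ.Injective)
    (hA : ∀ v, v ∈ A' ↔ ∃ x, a x = v) (hm : ∀ e, e ∈ meet s' t' A' ↔ ∃ z, κ z = e)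
    (hz : ∀ z (x : A), (s (Sum.elim Subtype.val lab z) = x ∨ t (Sum.elim Subtype.val lab z) = x) ↔
      (s' (κ z) = a x ∨ t' (κ z) = a x)) :
    ∃ f g, Iso s t A s' t' A' f g ∧ ∀ i, g (lab i) = κ (.inr i) := by
  obtain ⟨f, f1, f2⟩ := rep_bij (A := A) Subtype.val_injective ha (by simp) hA
  obtain ⟨g, g1, g2⟩ := rep_bij (Subtype.val_injective.sumElim h.1 fun e i r =>
    disjoint_left.1 (disjoint_ins_cut A) e.2 ((h.2 _).2 ⟨i, r.symm⟩)) hκ (rep_meet h) hm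
  refine ⟨f, g, ⟨f1, g1, fun e he v hv => ?_⟩, fun i => g2 (.inr i)⟩
  obtain ⟨z, rfl⟩ := (rep_meet h e).1 he
  rw [g2, f2 ⟨v, hv⟩]
  exact hz z ⟨v, hv⟩

theorem rep_inn (h : Lab s t A lab) :
    ∃ n : Fin j → A, ∀ i (x : A), (s (lab i) = x ∨ t (lab i) = x) ↔ n i = x := by
  refine Classical.skolem (p := fun i (y : A) => ∀ x : A, (s (lab i) = x ∨ t (lab i) = x) ↔ y = x)
    |>.1 fun i => ?_
  have := mem_cut.1 ((h.2 _).2 ⟨i, rfl⟩)
  by_cases e : s (lab i) ∈ A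
  · exact ⟨⟨_, e⟩, fun x => (or_iff_left fun r => this (by simp [e, r])).trans
      (Subtype.ext_iff (a1 := ⟨_, e⟩)).symm⟩
  · have e' : t (lab i) ∈ A := by tauto
    exact ⟨⟨_, e'⟩, fun x => (or_iff_right fun r => e (by simp [r])).trans
      (Subtype.ext_iff (a1 := ⟨_, e'⟩)).symm⟩

end

theorem p_REP (hISO : S_ISO) :
    S_REP := by
  intro V E _ _ _ _ s t Y j lab ⟨Q, ⟨w, hw⟩, lb, inj, rng⟩ hc hl
  have l1 : Lab s t Yᶜ lab := ⟨hl.1, cut_compl (s := s) (t := t) Y ▸ hl.2⟩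
  have l2 : Lab Q.s Q.t Q.W lb := ⟨inj, rng⟩
  obtain ⟨n1, h1⟩ := rep_inn l1
  obtain ⟨n2, h2⟩ := rep_inn l2
  let s' : ins s t Yᶜ ⊕ Fin j ⊕ ins Q.s Q.t Q.W → ↥Yᶜ ⊕ Q.W :=
    Sum.elim (fun e => .inl ⟨s e, (mem_ins.1 e.2).1⟩)
      (Sum.elim (fun i => .inl (n1 i)) fun e => .inr ⟨Q.s e, (mem_ins.1 e.2).1⟩)
  let t' : ins s t Yᶜ ⊕ Fin j ⊕ ins Q.s Q.t Q.W → ↥Yᶜ ⊕ Q.W :=
    Sum.elim (fun e => .inl ⟨t e, (mem_ins.1 e.2).2⟩)
      (Sum.elim (fun i => .inr (n2 i)) fun e => .inr ⟨Q.t e, (mem_ins.1 e.2).2⟩)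
  have : Nonempty (↥Yᶜ ⊕ Q.W) := ⟨.inr ⟨w, hw⟩⟩
  have : Nonempty (ins s t Yᶜ ⊕ Fin j ⊕ ins Q.s Q.t Q.W) := by
    obtain ⟨e, he⟩ : ∃ e, ¬ (Q.s e ≠ w ∧ Q.t e ≠ w) := not_forall.1 fun h => by
      simpa [Q.cub.2] using deg_eq_zero.2 fun e (_ : e ∈ univ) => h e
    obtain ⟨z, -⟩ := (rep_meet l2 e).1 (mem_meet.2 (by grind))
    exact ⟨.inr z.swap⟩
  let W : Finset (↥Yᶜ ⊕ Q.W) := univ.filter (·.isRight)
  obtain ⟨f, g, i1, e1⟩ := rep_iso (s' := s') (t' := t') (A' := Wᶜ) l1 (κ := Sum.map id .inl)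
    Sum.inl_injective (Function.injective_id.sumMap Sum.inl_injective)
    (by rintro (v | v) <;> simp [W]) (by rintro (e | i | e) <;> simp [W, s', t'])
    (by rintro (e | i) ⟨x, hx⟩ <;> simp [s', t', h1 _ ⟨x, hx⟩])
  obtain ⟨f2, g2, i2, e2⟩ := rep_iso (s' := s') (t' := t') (A' := W) l2 (κ := .inr ∘ Sum.swap)
    Sum.inr_injective (Sum.inr_injective.comp Sum.swap_leftInverse.injective)
    (by rintro (v | v) <;> simp [W]) (by rintro (e | i | e) <;> simp [W, s', t'])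
    (by rintro (e | i) ⟨x, hx⟩ <;> simp [s', t', h2 _ ⟨x, hx⟩])
  have lo : ∀ e, s' e ≠ t' e := by rintro (e | i | e) <;> simp [s', t', hc.1, Q.cub.1]
  refine ⟨⟨_, _, s', t', W, lo, fun v => ?_⟩, f, g, f2, g2, i1, i2,
    fun i => (e1 i).trans (e2 i).symm⟩
  by_cases h : v ∈ W
  · obtain ⟨x, hx, rfl⟩ := i2.1.surjOn h
    rw [← (hISO _ _ _ _ _ _ _ _ _ _ _ _ Q.cub.1 lo i2).2.1 univ univ (by simp) x hx, Q.cub.2]
  · obtain ⟨x, hx, rfl⟩ := i1.1.surjOn (mem_compl.2 h)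
    rw [← (hISO _ _ _ _ _ _ _ _ _ _ _ _ hc.1 lo i1).2.1 univ univ (by simp) x hx, hc.2]

end Pool.Agent.P.MP_40718a_co.Wb

end

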