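import Pool.Agent.P.MP_40718a_co.Wb.Iface

section
/-! Step REPS. -/

set_option linter.unusedSectionVars false

namespace Pool.Agent.P.MP_40718a_co.Wb

open Finset ABF Bc

theorem p_REPS (hISO : S_ISO) :
    S_REPS := by
  intro V E _ _ _ _ s t V' E' _ _ _ _ s' t' Y1 Z1 f g j lab lab' hc hc' hs hI hl hl' hg hcon X' hX'
  have iso := (hISO V E s t V' E' s' t' Y1ᶜ Z1ᶜ f g hc.1 hc'.1 hI).1
  obtain ⟨hf, hb, -⟩ := hI
  have c1 : cut s' t' (X' ∩ Z1) ∩ ins s' t' Z1 = cut s' t' X' ∩ ins s' t' Z1 := by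
    ext e
    simp only [mem_inter, mem_cut, mem_ins]
    tauto
  obtain ⟨X1, h1, h2, h3, h4, h5⟩ := hcon _ _
    (c1 ▸ (card_le_card inter_subset_left).trans hX') _ _
    ⟨X' ∩ Z1, inter_subset_right, rfl, rfl, rfl, rfl⟩
  obtain ⟨Xo, ho⟩ : ∃ Xo : Finset V, ∀ v, v ∈ Xo ↔ v ∉ Y1 ∧ f v ∈ X' :=
    ⟨Y1ᶜ.filter fun v => f v ∈ X', fun v => by simp⟩
  have sj : ∀ w ∉ Z1, ∃ v ∉ Y1, f v = w := fun w hw => by
    obtain ⟨v, a, b⟩ := hf.surjOn (mem_coe.2 (mem_compl.2 hw))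
    exact ⟨v, mem_compl.1 (mem_coe.1 a), b⟩
  have mp : ∀ v ∉ Y1, f v ∉ Z1 := fun v hv =>
    mem_compl.1 (mem_coe.1 (hf.mapsTo (mem_coe.2 (mem_compl.2 hv))))
  have i1 : Xo.image f = X' \ Z1 := by
    ext w
    rw [mem_image, mem_sdiff]
    refine ⟨?_, fun ⟨a, b⟩ => ?_⟩
    · rintro ⟨v, a, rfl⟩
      exact ⟨((ho v).1 a).2, mp v ((ho v).1 a).1⟩
    · obtain ⟨v, c, rfl⟩ := sj w b
      exact ⟨v, (ho v).2 ⟨c, a⟩, rfl⟩
  have i2 : Y1ᶜ.image f = Z1ᶜ := by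
    ext w
    rw [mem_image, mem_compl]
    refine ⟨?_, fun b => ?_⟩
    · rintro ⟨v, a, rfl⟩
      exact mp v (mem_compl.1 a)
    · obtain ⟨v, c, d⟩ := sj w b
      exact ⟨v, mem_compl.2 c, d⟩
  have dj : Disjoint Xo X1 := disjoint_left.2 fun v a b => ((ho v).1 a).1 (h1 b)
  have k1 : ∀ e ∈ meet s t Y1ᶜ, e ∈ cut s t (Xo ∪ X1) → g e ∈ cut s' t' X' := by
    intro e he h
    have a1 := (iso Xo (fun v a => mem_compl.2 ((ho v).1 a).1) e he).1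
    have a2 : e ∈ cut s t X1 ↔ g e ∈ cut s' t' (X' ∩ Z1) := by
      by_cases b : e ∈ cut s t Y1
      · obtain ⟨i, rfl⟩ := (hl.2 e).1 b
        rw [← hg, ← mem_gadLabels, h2, mem_gadLabels]
      · have b1 := (iso _ (Subset.refl _) e he).2
        have b2 := @h1 (s e)
        have b3 := @h1 (t e)
        rw [i2] at b1
        simp only [mem_meet, mem_cut, mem_ins, mem_compl, mem_inter] at he b b1 ⊢
        clear * - he b b1 b2 b3
        tauto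
    have b2 := fun x : s e ∈ Xo => disjoint_left.1 dj x
    have b3 := fun x : t e ∈ Xo => disjoint_left.1 dj x
    rw [i1] at a1
    simp only [mem_cut, mem_inter, mem_sdiff, mem_union] at a1 a2 h ⊢
    clear * - a1 a2 h b2 b3
    grind
  have k2 : (cut s t (Xo ∪ X1) \ ins s t Y1).card ≤ (cut s' t' X' \ ins s' t' Z1).card := by
    have m : ∀ e ∈ cut s t (Xo ∪ X1) \ ins s t Y1, e ∈ meet s t Y1ᶜ := fun e he => by
      rw [meet_compl]
      exact mem_compl.2 (mem_sdiff.1 he).2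
    refine card_le_card_of_injOn g (fun e he => mem_coe.2 (mem_sdiff.2
      ⟨k1 e (m e he) (mem_sdiff.1 he).1, ?_⟩)) fun e a e' b => hb.injOn (m e a) (m e' b)
    have := mem_coe.1 (hb.mapsTo (mem_coe.2 (m e he)))
    rwa [meet_compl, mem_compl] at this
  have k3 : cut s t (Xo ∪ X1) ∩ ins s t Y1 = cut s t X1 ∩ ins s t Y1 := by
    ext e
    simp only [mem_inter, mem_cut, mem_ins, mem_union, ho]
    clear * -
    tauto
  have e1 := card_sdiff_add_card_inter (cut s t (Xo ∪ X1)) (ins s t Y1)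
  have e2 := card_sdiff_add_card_inter (cut s' t' X') (ins s' t' Z1)
  rw [k3, h3, c1] at e1
  rcases hs (Xo ∪ X1) (by omega) with h | h
  · have e3 := card_sdiff_add_card_inter X' Z1
    have e4 : (X' \ Z1).card ≤ Xo.card := i1 ▸ card_image_le
    rw [card_union_of_disjoint dj] at h
    left
    omega
  · have e3 := card_sdiff_add_card_inter X'ᶜ Z1
    have e4 : X'ᶜ ∩ Z1 = Z1 \ (X' ∩ Z1) := by
      ext w
      simp only [mem_inter, mem_compl, mem_sdiff]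
      clear * -
      tauto
    have e5 := card_sdiff_add_card_inter (Xo ∪ X1)ᶜ Y1
    have e6 : (Xo ∪ X1)ᶜ ∩ Y1 = Y1 \ X1 := by
      ext w
      simp only [mem_inter, mem_compl, mem_sdiff, mem_union, ho]
      clear * -
      tauto
    have e7 : (X'ᶜ \ Z1).card ≤ ((Xo ∪ X1)ᶜ \ Y1).card := by
      refine le_trans (card_le_card fun w hw => ?_) (card_image_le (f := f))
      rw [mem_sdiff, mem_compl] at hw
      obtain ⟨v, a, rfl⟩ := sj w hw.2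
      refine mem_image_of_mem f (mem_sdiff.2 ⟨mem_compl.2 fun b => ?_, a⟩)
      exact (mem_union.1 b).elim (fun b => hw.1 ((ho v).1 b).2) fun b => a (h1 b)
    rw [e4] at e3
    rw [e6] at e5
    right
    omega

end Pool.Agent.P.MP_40718a_co.Wb

end

section
/-! Step OUT. -/

set_option linter.unusedSectionVars false

namespace Pool.Agent.P.MP_40718a_co.Wb

open Finset ABF Bc

theorem out_ins {V E : Type} [Fintype V] [Fintype E] [DecidableEq V] [DecidableEq E]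
    {s t : E → V} {X : Finset V} {e : E} :
    e ∈ ins s t Xᶜ ↔ e ∉ ins s t X ∧ e ∉ cut s t X := by
  simp only [mem_ins, mem_cut, mem_compl]
  tauto

theorem p_OUT (hISO : S_ISO) :
    S_OUT := by
  intro V E _ _ _ _ s t V' E' _ _ _ _ s' t' Y Y1 Z1 f g hc hc' ⟨v0, _⟩ hY hI
  obtain ⟨i1, i2, i3⟩ := hISO V E s t V' E' s' t' _ _ f g hc.1 hc'.1 hI
  obtain ⟨e0, -⟩ : (cut s t {v0}).Nonempty := card_pos.1 (by rw [hc.card_cut_singleton]; omega)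
  obtain ⟨f', g', hI', -, -, a3, a4⟩ := i3 ⟨v0⟩ ⟨e0⟩
  have m : ∀ e, e ∈ meet s t Y1ᶜ ↔ e ∉ ins s t Y1 := fun e => by rw [meet_compl, mem_compl]
  have m' : ∀ e, e ∈ meet s' t' Z1ᶜ ↔ e ∉ ins s' t' Z1 := fun e => by rw [meet_compl, mem_compl]
  have hs : Yᶜ ⊆ Y1ᶜ := compl_subset_compl.2 hY
  have im : Y1ᶜ.image f = Z1ᶜ := coe_injective ((coe_image).trans hI.1.image_eq)
  have hZ1 : Z1 ⊆ (Yᶜ.image f)ᶜ := fun z hz => mem_compl.2 fun h =>
    mem_compl.1 (im ▸ image_subset_image hs h) hz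
  have hY1 : Y \ Y1 ⊆ Y1ᶜ := fun v hv => mem_compl.2 (mem_sdiff.1 hv).2
  have hZ : (Yᶜ.image f)ᶜ \ Z1 = (Y \ Y1).image f := by
    rw [← compl_sdiff_compl (x := Y1), image_sdiff_of_injOn hI.1.injOn hs, im, ← compl_sdiff_compl,
      compl_compl]
  have o : Out s t Y Y1 s' t' (Yᶜ.image f)ᶜ Z1 g g' := by
    refine ⟨hY, hZ1, fun e he => ?_, fun e he =>
      ⟨(m _).1 (hI'.2.1.mapsTo ((m' e).2 he)), a4 e ((m' e).2 he)⟩, fun N N' h => ?_⟩
    · replace he := (m e).2 he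
      obtain ⟨c1, c2⟩ := i1 _ hs e he
      have c3 := (i1 _ Subset.rfl e he).1
      rw [im, cut_compl, cut_compl] at c3
      refine ⟨(m' _).1 (hI.2.1.mapsTo he), a3 e he, ?_, c3, ?_⟩
      · rwa [cut_compl, ← cut_compl Y]
      · rw [out_ins, ← c1, ← c2, ← out_ins, compl_compl]
    · rw [hZ, PMon, PMon, forall_mem_image]
      exact forall₂_congr fun v hv => by rw [i2 N N' (fun e he => h e ((m e).1 he)) v (hY1 hv)]
  refine ⟨_, g', o, ?_, fun h e => h ?_, ?_⟩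
  · rw [← card_sdiff_add_card_eq_card hZ1, ← card_sdiff_add_card_eq_card hY, hZ,
      card_image_of_injOn (hI.1.injOn.mono hY1)]
    omega
  · simpa using e
  · have := o.cut_image (N := univ) (N' := univ) (by simp)
    rw [univ_inter, univ_inter] at this
    rw [this, card_image_of_injOn (Set.LeftInvOn.injOn fun e he =>
      (o.2.2.1 e (not_ins_of_cut hY he)).2.1)]

end Pool.Agent.P.MP_40718a_co.Wb

end

section
/-! Step GAD2. -/

set_option linter.unusedSectionVars false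

namespace Pool.Agent.P.MP_40718a_co.Wb

open Finset ABF Bc

theorem gad2_fin {α T : Type _} [Finite T] (ty : α → T) (c : α → ℕ) (Good : α → Prop) :
    ∃ B : ℕ, ∀ a, Good a → ∃ a', Good a' ∧ c a' ≤ B ∧ ty a = ty a' := by
  classical
  have := Fintype.ofFinite T
  refine ⟨univ.sup fun x => if h : ∃ a, Good a ∧ ty a = x then c h.choose else 0, fun a ha => ?_⟩
  have h : ∃ a', Good a' ∧ ty a' = ty a := ⟨a, ha, rfl⟩
  exact ⟨h.choose, h.choose_spec.1, le_sup_of_le (mem_univ (ty a)) (by rw [dif_pos h]),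
    h.choose_spec.2.symm⟩

theorem p_GAD2 :
    S_GAD2 := by
  intro j l Good
  obtain ⟨B, hB⟩ := gad2_fin (fun L : GadLP j =>
    (fun (n : Fin (2 ^ j * l + 1)) (z : Fin n → Finset (Fin j)) Fm =>
      CovZ L.Q.s L.Q.t L.Q.W L.lab Fm z,
    fun π (c : Fin 4) (f1 f2 : Fin 3) => Con L.Q.s L.Q.t L.Q.W L.lab π c f1 f2))
    (fun L => L.Q.W.card) Good
  refine ⟨B, fun L hL => (hB L hL).imp fun L' ⟨a, b, e⟩ => ⟨a, b, fun n hn z Fm =>
    (congrFun₃ (congrArg Prod.fst e) ⟨n, by omega⟩ z Fm).to_iff, fun π c hc f1 f2 => ?_⟩⟩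
  by_cases h : f1 < 3 ∧ f2 < 3
  · exact (congrFun (congrFun₃ (congrArg Prod.snd e) π ⟨c, by omega⟩ ⟨f1, h.1⟩) ⟨f2, h.2⟩).to_iff
  · exact iff_of_false (fun ⟨_, _, _, _, x, y⟩ => h (by omega)) fun ⟨_, _, _, _, x, y⟩ => h (by omega)

end Pool.Agent.P.MP_40718a_co.Wb

end

section
/-! Step GR. -/

set_option linter.unusedSectionVars false

namespace Pool.Agent.P.MP_40718a_co.Wb

open Finset ABF Bc

theorem p_GR (hGAD2 : S_GAD2) (hREP : S_REP) (hISO2 : S_ISO2) (hREPS : S_REPS) (hOUT : S_OUT) :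
    S_GR := by
  intro j l full
  obtain ⟨B, hB⟩ := hGAD2 j l fun L => Tm full L.Q.s L.Q.t L.Q.W L.lab l
  refine ⟨B, fun V E _ _ _ _ s t Y Y1 lab hc hs hY h1 hl ht hb => ?_⟩
  have ne : Y1.Nonempty := card_pos.1 (by omega)
  obtain ⟨L, g1, g2, g3⟩ := hB ⟨{ V := V, E := E, s := s, t := t, W := Y1, cub := hc }, ne, lab,
    hl.1, hl.2⟩ ht
  obtain ⟨P, f, g, f2, k2, i1, i2, e⟩ := hREP V E s t Y1 j lab L hc hl
  obtain ⟨a1, a2, a3⟩ := hISO2 _ _ _ _ _ _ _ _ _ _ f2 k2 j l L.lab (fun i => g (lab i)) L.Q.cub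
    P.cub L.ne i2 ⟨L.inj, L.rng⟩ e
  have st : SameT l s t Y1 lab P.s P.t P.W fun i => g (lab i) :=
    ⟨fun n hn z Fm => (g3.1 n hn z Fm).trans (a2.1 n hn z Fm),
      fun π c hc f1 f2 => (g3.2 π c hc f1 f2).trans (a2.2 π c hc f1 f2)⟩
  obtain ⟨Z, g', b1, b2, b3, b4⟩ := hOUT V E s t _ _ _ _ Y Y1 P.W f g hc P.cub ne h1 i1
  have := card_nbij f2 i2.1.1 i2.1.2.1 i2.1.2.2
  exact ⟨P, Z, g, g', hREPS V E s t _ _ _ _ Y1 P.W f g j lab _ hc P.cub hs i1 hl a1 (fun _ => rfl)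
    fun π c hc f1 f2 => (st.2 π c hc f1 f2).2, b3 hY, by omega, b4, b1, a1, st, a3 full g1⟩

end Pool.Agent.P.MP_40718a_co.Wb

end

section
/-! Step TY. -/

set_option linter.unusedSectionVars false

namespace Pool.Agent.P.MP_40718a_co.Wb

open Finset ABF Bc

section

variable {V E : Type} [Fintype V] [Fintype E] [DecidableEq V] [DecidableEq E]
  {s t : E → V} {W : Finset V} {j l : ℕ} {lab : Fin j → E} {Fm : Set (Finset (Fin j)) → Prop}

/-- change of the index set -/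
lemma ty_equiv {I J : Type} (q : I ≃ J) {z : J → Finset (Fin j)} (h : CovZ s t W lab Fm z) :
    CovZ s t W lab Fm (z ∘ q) := by
  obtain ⟨N, h1, h2⟩ := h
  refine ⟨N ∘ q, fun i => h1 _, fun e he hF => ?_⟩
  obtain ⟨i, hi⟩ := h2 e he hF
  exact ⟨q.symm i, by simpa using hi⟩

/-- one fibre -/
lemma ty_fibre {I : Type} [Fintype I] {z : I → Finset (Fin j)} {N : I → Finset E}
    (hT : TameF s t W lab l Fm) (h1 : ∀ i, PMl s t W lab (z i) (N i)) (a : Finset (Fin j)) :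
    ∃ (J : Finset I) (M : I → Finset E), J.card ≤ l ∧ (∀ i ∈ J, z i = a ∧ PMl s t W lab a (M i)) ∧
      ∀ e ∈ ins s t W, Fm (sig s t W lab e) → ∀ i, z i = a → e ∈ N i → ∃ i' ∈ J, e ∈ M i' := by
  classical
  by_cases h : (univ.filter fun i => z i = a).card ≤ l
  · refine ⟨_, N, h, fun i hi => ?_, fun e _ _ i hi he => ⟨i, by simpa using hi, he⟩⟩
    have := (mem_filter.1 hi).2
    exact ⟨this, this ▸ h1 i⟩
  · obtain ⟨J, hJ, hc⟩ := exists_subset_card_eq (not_le.1 h).le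
    obtain ⟨i0, hi0⟩ := card_pos.1 ((Nat.zero_le l).trans_lt (not_le.1 h))
    obtain ⟨T, t1, t2⟩ := hT a ⟨N i0, (mem_filter.1 hi0).2 ▸ h1 i0⟩
    let q := J.equivFinOfCardEq hc
    refine ⟨J, fun i => if hi : i ∈ J then T (q ⟨i, hi⟩) else ∅, hc.le, fun i hi =>
      ⟨(mem_filter.1 (hJ hi)).2, ?_⟩, fun e he hF i hi hN => ?_⟩
    · simp only [dif_pos hi]
      exact t1 _
    · obtain ⟨k, hk⟩ := t2 e he ⟨hF, N i, hi ▸ h1 i, hN⟩
      refine ⟨(q.symm k).1, (q.symm k).2, ?_⟩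
      simp only [dif_pos (q.symm k).2]
      simpa using hk

/-- a small subfamily is enough -/
lemma ty_small {I : Type} [Fintype I] {z : I → Finset (Fin j)} (hT : TameF s t W lab l Fm)
    (h : CovZ s t W lab Fm z) :
    ∃ J : Finset I, J.card ≤ 2 ^ j * l ∧ CovZ s t W lab Fm fun i : J => z i := by
  classical
  obtain ⟨N, h1, h2⟩ := h
  choose J M a1 a2 a3 using ty_fibre hT h1
  refine ⟨univ.biUnion J, ?_, fun i => M (z i) i, fun i => ?_, fun e he hF => ?_⟩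
  · simpa using card_biUnion_le_card_mul univ J l fun a _ => a1 a
  · obtain ⟨a, -, ha⟩ := mem_biUnion.1 i.2
    obtain ⟨b1, b2⟩ := a2 a i ha
    simpa only [b1] using b2
  · obtain ⟨i, hi⟩ := h2 e he hF
    obtain ⟨i', b1, b2⟩ := a3 (z i) e he hF i rfl hi
    refine ⟨⟨i', mem_biUnion.2 ⟨_, mem_univ _, b1⟩⟩, ?_⟩
    simpa only [(a2 _ _ b1).1] using b2

end

theorem p_TY :
    S_TY := by
  intro V E _ _ _ _ s t V' E' _ _ _ _ s' t' W W' j l lab lab' Fm I _ z hS hl hT h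
  classical
  obtain ⟨J, c1, c2⟩ := ty_small hT h
  have c3 := ty_equiv J.equivFin ((hS.1 _ c1 _ Fm).1 (ty_equiv J.equivFin.symm c2))
  obtain ⟨M, m1, m2⟩ := c3
  obtain ⟨N, h1, -⟩ := h
  have k : ∀ i, ∃ N', PMl s' t' W' lab' (z i) N' := fun i => by
    obtain ⟨N', n1, -⟩ := (hS.1 1 (Nat.mul_pos (Nat.two_pow_pos j) hl) (fun _ => z i)
      fun _ => False).1 ⟨fun _ => N i, fun _ => h1 i, fun _ _ f => f.elim⟩
    exact ⟨N' 0, n1 0⟩
  choose N' hN' using k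
  refine ⟨fun i => if hi : i ∈ J then M ⟨i, hi⟩ else N' i, fun i => ?_, fun e he hF => ?_⟩
  · by_cases hi : i ∈ J
    · simp only [dif_pos hi]
      simpa using m1 ⟨i, hi⟩
    · simp only [dif_neg hi]
      exact hN' i
  · obtain ⟨i, hi⟩ := m2 e he hF
    exact ⟨i, by simpa only [dif_pos i.2] using hi⟩

end Pool.Agent.P.MP_40718a_co.Wb

end

section
/-! Step TRF. -/

set_option linter.unusedSectionVars false

namespace Pool.Agent.P.MP_40718a_co.Wb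

open Finset ABF Bc

theorem p_TRF (hTY : S_TY) :
    S_TRF := by
  intro V E _ _ _ _ s t V' E' _ _ _ _ s' t' Y Y1 Z Z1 g g' j l lab lab' Fm I _ N ho hl hl' hg st
    l1 tm hN hc
  obtain ⟨M, m1, m2⟩ := hTY V E s t V' E' s' t' Y1 Z1 j l lab lab' Fm I
    (fun i => gadLabels lab (N i)) st l1 tm ⟨N, fun i => ⟨(hN i).mono ho.1, rfl⟩, hc⟩
  have a : ∀ i, ∀ e ∉ ins s t Y1, e ∈ N i ↔ g e ∈ univ.filter fun e => g' e ∈ N i :=
    fun i e he => by simp [(ho.2.2.1 e he).2.1]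
  refine ⟨fun i => ((univ.filter fun e => g' e ∈ N i) \ ins s' t' Z1) ∪ (M i ∩ ins s' t' Z1),
    fun i => ⟨glue ((ho.2.2.2.2 _ _ (a i)).1 ((hN i).mono sdiff_subset)) (m1 i).1
      (hl'.labels_eq.1 ((hl.labels_agree hg (a i)).trans (m1 i).2.symm)), fun e he => ?_⟩,
    fun e he h => (m2 e he h).imp fun i hi => (mem_glue_in he).2 hi⟩
  rw [mem_glue_out (ho.2.2.1 e he).1]
  exact a i e he

end Pool.Agent.P.MP_40718a_co.Wb

end

section
/-! Step ALT. -/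

set_option linter.unusedSectionVars false

namespace Pool.Agent.P.MP_40718a_co.Wb

open Finset ABF Bc

theorem p_ALT :
    S_ALT := by
  intro V E _ _ _ _ s t Y Y1 j lab σ e hY hl he
  refine ⟨fun ⟨N, h, h'⟩ => ⟨_, ⟨N, ⟨h.1.mono hY, rfl⟩, h'⟩, N, h, rfl⟩, ?_⟩
  rintro ⟨a, ⟨N1, ⟨h1, h2⟩, h3⟩, N0, ⟨h4, h5⟩, h6⟩
  refine ⟨_, ⟨glue (h4.mono sdiff_subset) h1 (hl.labels_eq.1 (h6.trans h2.symm)), ?_⟩,
    (mem_glue_in he).2 h3⟩
  ext c
  rw [← h5, mem_inter, mem_inter]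
  exact and_congr_left fun hc => mem_glue_out (not_ins_of_cut hY hc)

end Pool.Agent.P.MP_40718a_co.Wb

end

section
/-! Step AL2. -/

set_option linter.unusedSectionVars false

namespace Pool.Agent.P.MP_40718a_co.Wb

open Finset ABF Bc

theorem p_AL2 (hTRF : S_TRF) :
    S_AL2 := by
  intro V E _ _ _ _ s t V' E' _ _ _ _ s' t' Y Y1 Z Z1 g g' j l lab lab' σ ho hl hl' hg hs h1 hσ
  have key : ∀ N N', (∀ e ∉ ins s t Y1, e ∈ N ↔ g e ∈ N') →
      N' ∩ cut s' t' Z = (N ∩ cut s t Y).image g := fun N N' ha =>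
    ho.cut_image fun e he => ha e (not_ins_of_cut ho.1 he)
  have fw : ∀ N, PMs s t Y σ N → ∃ N', PMs s' t' Z (σ.image g) N' ∧
      ∀ e ∉ ins s t Y1, e ∈ N ↔ g e ∈ N' := fun N hN => by
    obtain ⟨N', a, -⟩ := hTRF V E s t V' E' s' t' Y Y1 Z Z1 g g' j l lab lab' (fun _ => False)
      Unit (fun _ => N) ho hl hl' hg hs h1 tameF_false (fun _ => hN.1) fun _ _ h => h.elim
    exact ⟨N' (), ⟨(a ()).1, by rw [key N _ (a ()).2, hN.2]⟩, (a ()).2⟩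
  have bw : ∀ N', PMs s' t' Z (σ.image g) N' → ∃ N, PMs s t Y σ N ∧
      ∀ e ∉ ins s t Y1, e ∈ N ↔ g e ∈ N' := fun N' hN => by
    obtain ⟨N, a, -⟩ := hTRF V' E' s' t' V E s t Z Z1 Y Y1 g' g j l lab' lab (fun _ => False)
      Unit (fun _ => N') ho.symm hl' hl (ho.lab_symm hl hg) hs.symm h1 tameF_false
      (fun _ => hN.1) fun _ _ h => h.elim
    have b := ho.symm.agree_symm (a ()).2
    exact ⟨N (), ⟨(a ()).1, ho.image_inj inter_subset_right hσ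
      (by rw [← key _ N' b, hN.2])⟩, b⟩
  refine ⟨fun e he => ⟨?_, ?_⟩, fun a => ⟨?_, ?_⟩⟩
  · rintro ⟨N, hN, h⟩
    obtain ⟨N', a, b⟩ := fw N hN
    exact ⟨N', a, (b e he).1 h⟩
  · rintro ⟨N', hN, h⟩
    obtain ⟨N, a, b⟩ := bw N' hN
    exact ⟨N, a, (b e he).2 h⟩
  · rintro ⟨N, hN, rfl⟩
    obtain ⟨N', a, b⟩ := fw N hN
    exact ⟨N', a, hl.labels_agree hg b⟩
  · rintro ⟨N', hN, rfl⟩
    obtain ⟨N, a, b⟩ := bw N' hN
    exact ⟨N, a, (hl.labels_agree hg b).symm⟩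

end Pool.Agent.P.MP_40718a_co.Wb

end

section
/-! Step RS0. -/

set_option linter.unusedSectionVars false

namespace Pool.Agent.P.MP_40718a_co.Wb

open Finset ABF Bc

theorem p_RS0 (hTRF : S_TRF) (hALT : S_ALT) (hAL2 : S_AL2) :
    S_RS0 := by
  intro V E _ _ _ _ s t V' E' _ _ _ _ s' t' Y Y1 Z Z1 g g' j l K θ lab lab' Sg N τ ho hl hl' hg hT
    l1 θ1 tm rr hN hθ hc
  obtain ⟨i0, h0⟩ : ∃ i, N i ∩ cut s t Y = τ := by
    by_contra h
    rw [cnt_eq_zero fun i hi => h ⟨i, hi⟩] at hθ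
    omega
  have τc : τ ⊆ cut s t Y := h0 ▸ inter_subset_right
  have alt := fun σ e => hALT V E s t Y Y1 j lab σ e ho.1 hl
  have alt' := fun σ e => hALT V' E' s' t' Z Z1 j lab' σ e ho.2.1 hl'
  have al2 := fun σ => hAL2 V E s t V' E' s' t' Y Y1 Z Z1 g g' j l lab lab' σ ho hl hl' hg hT l1
  obtain ⟨N1, n1, n2⟩ := hTRF V E s t V' E' s' t' Y Y1 Z Z1 g g' j l lab lab'
    (fun sg => (¬ ∃ a ∈ sg, ∃ N0, PMs s t Y τ N0 ∧ gadLabels lab N0 = a) ∧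
      ∃ a ∈ sg, ∃ σ N0, Sg σ ∧ PMs s t Y σ N0 ∧ gadLabels lab N0 = a) _ N ho hl hl' hg hT l1
    ((tm _ ⟨N i0, (hN i0).mono ho.1, rfl⟩).mono fun sg h =>
      Or.inr fun h1 => h.1 ⟨_, h1, N i0, ⟨hN i0, h0⟩, rfl⟩) hN
    fun e he ⟨h1, a, h2, σ, N0, h3, h4⟩ => hc e (ins_mono ho.1 he)
      ⟨σ, h3, (alt σ e he).2 ⟨a, h2, N0, h4⟩⟩ fun h => h1 ((alt τ e he).1 h)
  have ci : ∀ i, N1 i ∩ cut s' t' Z = (N i ∩ cut s t Y).image g := fun i =>
    ho.cut_image fun e he => (n1 i).2 e (not_ins_of_cut ho.1 he)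
  obtain ⟨N', m1, m2⟩ := rr (fun σ' => ∃ σ, Sg σ ∧ σ ⊆ cut s t Y ∧ σ' = σ.image g) N1 (τ.image g)
    (fun i => (n1 i).1) (hθ.trans (cnt_mono fun i hi => by rw [ci, hi])) (by
      rintro e he ⟨_, ⟨σ, h1, h2, rfl⟩, h3⟩ h4
      by_cases h : e ∈ ins s' t' Z1
      · obtain ⟨a, a1, a2⟩ := (alt' _ e h).1 h3
        obtain ⟨N0, a3⟩ := ((al2 σ h2).2 a).2 a2
        exact n2 e h ⟨fun ⟨b, b1, b2⟩ => h4 ((alt' _ e h).2 ⟨b, b1, ((al2 τ τc).2 b).1 b2⟩),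
          a, a1, σ, N0, h1, a3⟩
      · obtain ⟨a, b⟩ := ho.2.2.2.1 e h
        rw [← b] at he h3 h4
        obtain ⟨i, hi⟩ := hc _ ((ho.2.2.1 _ a).2.2.2.2.2 he) ⟨σ, h1, ((al2 σ h2).1 _ a).2 h3⟩
          fun c => h4 (((al2 τ τc).1 _ a).1 c)
        exact ⟨i, b ▸ ((n1 i).2 _ a).1 hi⟩)
  refine ⟨N', fun i => ⟨(m1 i).1, fun e he => ?_⟩, ?_, ?_⟩
  · have a := not_ins_of_cut ho.1 he
    have b := (ho.2.2.1 e a).2.2.1.1 he
    rw [(n1 i).2 e a]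
    exact ⟨fun h => (mem_inter.1 ((m1 i).2 ▸ mem_inter.2 ⟨h, b⟩)).1,
      fun h => (mem_inter.1 ((m1 i).2 ▸ mem_inter.2 ⟨h, b⟩)).1⟩
  · rintro e he h ⟨σ, h1, h2⟩
    obtain ⟨N0, h3⟩ := h2.st
    exact m2 _ ((ho.2.2.1 e h).2.2.2.2.1 he) ⟨_, ⟨σ, h1, h3.sub, rfl⟩, ((al2 σ h3.sub).1 e h).1 h2⟩
  · rintro e he ⟨a, h1, σ, N0, h2, h3⟩
    exact m2 e (ins_mono ho.2.1 he) ⟨_, ⟨σ, h2, h3.1.sub, rfl⟩,
      (alt' _ e he).2 ⟨a, h1, ((al2 σ h3.1.sub).2 a).1 ⟨N0, h3⟩⟩⟩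

end Pool.Agent.P.MP_40718a_co.Wb

end

section
/-! Step RS1. -/

set_option linter.unusedSectionVars false

namespace Pool.Agent.P.MP_40718a_co.Wb

open Finset ABF Bc

theorem p_RS1 (hRS0 : S_RS0) (hTRF : S_TRF) :
    S_RS1 := by
  intro V E _ _ _ _ s t V' E' _ _ _ _ s' t' Y Y1 Z Z1 g g' j l K θ lab lab' Sg N τ hO hl hl' hg hT
    h1 h2 h3 h4 h5 h6 h7
  obtain ⟨N', a1, a2, a3⟩ := hRS0 V E s t V' E' s' t' Y Y1 Z Z1 g g' j l K θ lab lab' Sg N τ hO hl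
    hl' hg hT h1 h2 h3 h4 h5 h6 h7
  refine ⟨fun i => gadLabels lab' (N' i), fun i => ⟨N' i, (a1 i).1.mono hO.2.1, rfl⟩,
    fun Fm f1 f2 => ?_⟩
  obtain ⟨N2, b1, b2⟩ := hTRF V' E' s' t' V E s t Z Z1 Y Y1 g' g j l lab' lab Fm (Fin K) N' hO.symm
    hl' hl (hO.lab_symm hl hg) hT.symm h1 f1 (fun i => (a1 i).1) fun e he h => a3 e he (f2 _ h)
  have c := fun i => hO.symm.agree_symm (b1 i).2
  refine ⟨N2, fun i => ⟨⟨(b1 i).1, ?_⟩, (hl.labels_agree hg (c i)).symm⟩, fun e he h h' => ?_, b2⟩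
  · ext e
    simp only [mem_inter]
    exact and_congr_left fun he => by rw [c i e (not_ins_of_cut hO.1 he), (a1 i).2 e he]
  · exact (a2 e he h h').imp fun i => (c i e h).2

end Pool.Agent.P.MP_40718a_co.Wb

end

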