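import Pool.Agent.P.MP_40718a_co.Wb.Base

/-! Covers by a bounded number of perfect matchings: the statements of the parts. -/

namespace Pool.Agent.P.MP_40718a_co.Wb

open Finset ABF Bc

/-! ### Local versions of the lemmas of the bounded cover theorem -/

-- deps:
def S_CNT2 : Prop :=
  ∀ (V E : Type) [Fintype V] [Fintype E] [DecidableEq V] [DecidableEq E] (s t : E → V)
    (k : ℕ) (c : E) (M : Finset E) (I J SA : Finset V) (b nA : ℕ) (S : Fin k → Finset V)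
    (O OA : Fin k → Finset (Finset V)), 0 < k →
    Cubic s t → EC 3 s t → PM s t M → (∀ e ∈ M, s e ∈ I ↔ t e ∈ I) →
    ball s t (ends s t c) b ⊆ I → I ⊆ J → SmallIn s t J (6 * k) b → J ≠ univ →
    (∀ j, S j ⊆ J ∧ S j \ I = SA ∧ Disjoint (S j) (ends s t c) ∧ (OA j).card = nA ∧
      Disjoint (O j) (OA j) ∧ Dj (O j ∪ OA j) ∧ (∀ X ∈ O j, X ⊆ I ∧ Odd X.card) ∧
      ∀ X ∈ O j ∪ OA j, X.Nonempty ∧ X ⊆ J ∧ Onto s t X (S j ∪ ends s t c)) →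
    ∑ j, (O j).card + nA ≤ ∑ j, (S j ∩ I).card + SA.card

-- deps: CNT2
def S_COPY2 : Prop :=
  ∀ (V E : Type) [Fintype V] [Fintype E] [DecidableEq V] [DecidableEq E] (s t : E → V)
    (k : ℕ) [NeZero k] (c : E) (M : Finset E) (I J : Finset V) (b : ℕ),
    Cubic s t → EC 3 s t → PM s t M → (∀ e ∈ M, s e ∈ I ↔ t e ∈ I) → I ⊆ J →
    ball s t (ends s t c) b ⊆ I → SmallIn s t J (6 * k) b → J ≠ univ →
    ∃ L : Finset (E × Fin k), (∀ j, (c, j) ∈ L) ∧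
      ∀ x ∈ J, ∀ j, deg (ls s I) (ls t I) L (lf I x j) = 1

-- deps: COPY2
def S_L02 : Prop :=
  ∀ (V E : Type) [Fintype V] [Fintype E] [DecidableEq V] [DecidableEq E] (s t : E → V)
    (k : ℕ) [NeZero k] (c : E) (M : Finset E) (I J : Finset V) (b : ℕ),
    Cubic s t → EC 3 s t → PM s t M → (∀ e ∈ M, s e ∈ I ↔ t e ∈ I) → ball s t I 1 ⊆ J →
    ball s t (ends s t c) b ⊆ I → SmallIn s t J (6 * k) b → J ≠ univ →
    ∃ φ : Fin k → E → ℤ, Loc0 s t k c J M φ ∧ ∀ Λ : Finset (Fin k),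
      ∃ N : Fin k → Finset E, Sheets s t I J N ∧ ∀ e, ∑ l ∈ Λ, φ l e =
        ∑ j, ind (N j) e - (if s e ∈ I then k else 1) * ind M e

-- deps: L02
def S_L12 : Prop :=
  ∀ (V E : Type) [Fintype V] [Fintype E] [DecidableEq V] [DecidableEq E] (s t : E → V)
    (k : ℕ) (c : E) (M : Finset E) (I J : Finset V) (b : ℕ), 4 ≤ k →
    Cubic s t → EC 3 s t → PM s t M → ball s t I 1 ⊆ J →
    ball s t (ends s t c) (b + 1) ⊆ I → SmallIn s t J (6 * k) b → J ≠ univ → Exp s t I J →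
    ∃ φ : Fin k → E → ℤ, Loc1 s t k c I J M φ

-- deps:
def S_MIN2 : Prop :=
  ∀ (V E : Type) [Fintype V] [Fintype E] [DecidableEq V] [DecidableEq E] (s t : E → V)
    (B Ω : Finset V) (a b : ℕ), Cubic s t → EC 1 s t → B ⊆ Ω → 3 * B.card ≤ a →
    SmallIn s t Ω a b → Ω ≠ univ →
    ∃ I, B ⊆ I ∧ I ⊆ Ω ∧ I.card ≤ b ∧ I ⊆ ball s t B b ∧ Exp s t I Ω

-- deps: MIN2 L12
def S_PRE2 : Prop :=
  ∀ (bs : ℕ → ℕ) (k : ℕ), 4 ≤ k → ∃ q a n κ : ℕ, 0 < q ∧ 5 < κ ∧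
    ∀ (V E : Type) [Fintype V] [Fintype E] [DecidableEq V] [DecidableEq E] (s t : E → V)
      (c : E) (Ω : Finset V), Cubic s t → EC 3 s t → (∀ j < κ, SmallIn s t Ω j (bs j)) →
      ball s t (ends s t c) a ⊆ Ω → Ω ≠ univ →
      ∃ I J φ, Pre s t q k a (bs 5) n c Ω I J φ

-- deps:
def S_DEN2 : Prop :=
  ∀ (V E : Type) [Fintype V] [Fintype E] [DecidableEq V] [DecidableEq E] (s t : E → V)
    (B Z K : Finset V) (ρ a p : ℕ), NearIn s t Z ρ (ball s t B (a + p * (2 * ρ + 2))) → Disjoint K Z →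
    (∃ r, a ≤ r ∧ r < a + p * (2 * ρ + 2) ∧ K ∩ ball s t B (r + 1) ⊆ ball s t B r) ∨
    p ≤ (cut s t K ∩ ins s t (ball s t B (a + p * (2 * ρ + 2)) \ ball s t B a)).card

-- deps: DEN2
def S_EXIT2 : Prop :=
  ∀ (V E : Type) [Fintype V] [Fintype E] [DecidableEq V] [DecidableEq E] (s t : E → V)
    (B J Z : Finset V) (ρ a p : ℕ), NearIn s t Z ρ (ball s t B (a + p * (2 * ρ + 2))) →
    J ⊆ ball s t B a → (cut s t J).card ≤ p → Exp s t J (ball s t B (a + p * (2 * ρ + 2))) →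
    ∃ (ψ : E → E → ℤ) (z : E → V) (ε : E → ℤ),
      (∀ f ∈ cut s t J, z f ∈ Z ∧ Sgn (ε f) ∧
        (∀ e ∉ ins s t (ball s t B (a + p * (2 * ρ + 2)) \ J), ψ f e = 0) ∧
        ∀ v, vs s t (ψ f) v = pt (if s f ∈ J then t f else s f) 1 v + pt (z f) (ε f) v) ∧
      ∀ e, ∑ f ∈ cut s t J, |ψ f e| ≤ 2

-- deps: EXIT2
def S_OBJ2 : Prop :=
  ∀ (V E : Type) [Fintype V] [Fintype E] [DecidableEq V] [DecidableEq E] (s t : E → V)
    (q k : ℕ) (c : E) (B I J Z : Finset V) (ρ a p : ℕ) (φ : Fin (3 * q) × Fin k → E → ℤ),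
    Loc s t q k c I J φ → s c ∈ J → NearIn s t Z ρ (ball s t B (a + p * (2 * ρ + 2))) →
    J ⊆ ball s t B a → (cut s t J).card ≤ p → Exp s t J (ball s t B (a + p * (2 * ρ + 2))) →
    ∃ ψ, Obj s t q (ball s t B (a + p * (2 * ρ + 2))) J Z φ ψ

-- deps:
def S_YB2 : Prop :=
  ∀ (V E : Type) [Fintype V] [Fintype E] [DecidableEq V] [DecidableEq E] (s t : E → V)
    (q k m ld : ℕ) (D : Finset E) (I J : E → Finset V) (φ : E → Fin (3 * q) × Fin k → E → ℤ)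
    (n : E → Fin (3 * q) × Fin k → ℤ) (y : E → ℤ), 240 ≤ k → 120 * ld ≤ m → 30 ≤ m →
    (∀ c ∈ D, Loc s t q k c (I c) (J c) (φ c) ∧ (∀ w, n c w ≤ m) ∧
      ((∀ w, 0 ≤ n c w) ∨ ∀ w, |n c w| ≤ 1)) →
    (∀ c ∈ D, ∀ e, s e ∈ J c ∨ t e ∈ J c → y e = q * k * m + ∑ w, n c w * φ c w e) →
    (∀ e, (∀ c ∈ D, s e ∉ J c ∧ t e ∉ J c) →
      (q * k * m - 12 * q * m - 6 * q * k * ld : ℤ) ≤ y e) →
    ∀ e, (∀ c ∈ D, (∀ w, 0 ≤ n c w) → e ∉ ins s t (I c)) →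
      3 * (3 * q * k * m : ℤ) ≤ 10 * y e

-- deps:
def S_PAT2 : Prop :=
  ∀ (V E : Type) [Fintype V] [Fintype E] [DecidableEq V] [DecidableEq E] (s t : E → V)
    (C H n : ℕ) (A : Fin H × Fin H → Finset E) (J : Finset V), Cubic s t → C + 15 * n ≤ H →
    J.card ≤ n → (∀ e, cnt (fun i => e ∈ A i) ≤ 5 * H) →
    ∃ τ : Fin (C * H) → Fin H × Fin H, Function.Injective τ ∧
      ∀ i, ∀ e ∈ A (τ i), s e ∉ J ∧ t e ∉ J

-- deps:
def S_BLOB2 : Prop :=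
  ∀ (V E : Type) [Fintype V] [Fintype E] [DecidableEq V] [DecidableEq E] (s t : E → V)
    (U : Finset V) (H L : ℕ), Cubic s t → EC 1 s t → 4 ^ (H * (L + 1)) < Fintype.card V →
    ∃ T : Fin H → Finset V, (∀ h h', h ≠ h' → Disjoint (T h) (T h')) ∧
      ∀ h, T h ⊆ U ∧ (∀ v, ball s t {v} (H * (L + 1)) ⊆ U →
          ∃ z ∈ T h, z ∈ ball s t {v} (4 * (H * (L + 1)))) ∧
        ∀ X : Finset V, (X ∩ T h).Nonempty → Disjoint (cut s t X) (ins s t (T h)) →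
          L < (X ∩ T h).card

-- deps: BLOB2
def S_SK2 : Prop :=
  ∀ (V E : Type) [Fintype V] [Fintype E] [DecidableEq V] [DecidableEq E] (s t : E → V)
    (U : Finset V) (H L : ℕ), Cubic s t → EC 1 s t → Unsp s t U H L →
    4 ^ (H * (L + 1)) < Fintype.card V →
    ∃ (A : Fin H × Fin H → Finset E) (Z : Fin H × Fin H → Finset V),
      (∀ i, Lk s t (A i) (Z i) ∧ ∀ v, ball s t {v} (H * (L + 1)) ⊆ U →
        ∃ z ∈ Z i, z ∈ ball s t {v} (4 * (H * (L + 1)))) ∧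
      ∀ e, cnt (fun i => e ∈ A i) ≤ 5 * H

-- deps: DEN2
def S_CUT2 : Prop :=
  ∀ (V E : Type) [Fintype V] [Fintype E] [DecidableEq V] [DecidableEq E] (s t : E → V)
    (D : Finset E) (I J : E → Finset V) (Z X : Finset V) (a p ρ b : ℕ),
    Cubic s t → Small s t 3 1 → 4 ≤ p →
    (∀ c ∈ D, I c ⊆ ball s t (ends s t c) a ∧ ball s t (I c) b ⊆ J c ∧
      Exp s t (I c) (ball s t (ends s t c) (a + p * (2 * ρ + 2))) ∧
      SmallIn s t (ball s t (ends s t c) (a + p * (2 * ρ + 2))) 5 b ∧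
      NearIn s t Z ρ (ball s t (ends s t c) (a + p * (2 * ρ + 2))) ∧
      ∀ c' ∈ D, c ≠ c' → Disjoint (ball s t (ends s t c) (a + p * (2 * ρ + 2))) (I c')) →
    Cn s t X → Disjoint X Z → 2 ≤ Xᶜ.card →
    (cut s t X \ D.biUnion fun c => ins s t (I c)).card ≤ 3 →
    X.card ≤ 1 ∨ ∃ c ∈ D, X ⊆ J c ∧ (cut s t X \ ins s t (I c)).card ≤ 3

-- deps: OBJ2 YB2
def S_CLS2 : Prop :=
  ∀ q m : ℕ, ∃ K : ℕ,
    ∀ (V E : Type) [Fintype V] [Fintype E] [DecidableEq V] [DecidableEq E] (s t : E → V)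
      (ld a p ρ b n : ℕ) (D : Finset E) (I J : E → Finset V)
      (φ : E → Fin (3 * q) × Fin 240 → E → ℤ) (A : Fin m → Finset E) (Z : Fin m → Finset V),
      Cubic s t → 0 < q → 120 * ld ≤ m → 30 ≤ m → 4 ≤ p → 3 * n ≤ p →
      (∀ c ∈ D, Pre s t q 240 a b n c (ball s t (ends s t c) (a + p * (2 * ρ + 2))) (I c) (J c)
        (φ c) ∧ SmallIn s t (ball s t (ends s t c) (a + p * (2 * ρ + 2))) 5 b) →
      (∀ c ∈ D, ∀ c' ∈ D, c ≠ c' → Disjoint (ball s t (ends s t c) (a + p * (2 * ρ + 2)))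
        (ball s t (ends s t c') (a + p * (2 * ρ + 2)))) →
      (∀ i, Lk s t (A i) (Z i) ∧ (Z i).Nonempty ∧ ∀ c ∈ D,
        NearIn s t (Z i) ρ (ball s t (ends s t c) (a + p * (2 * ρ + 2))) ∧
        ∀ e ∈ A i, s e ∉ J c ∧ t e ∉ J c) →
      (∀ e, cnt (fun i => e ∈ A i) ≤ ld) →
      ∃ cls : E → Fin K, ∀ κ, (D.filter fun c => cls c = κ).card ≤ 1 ∨
        ∃ (y : E → ℤ) (Q : ℤ) (D' : Finset E), D' ⊆ D ∧ 0 < Q ∧ (∀ e, 0 ≤ y e) ∧
          (∀ v, vs s t y v = Q) ∧ (∀ e, (∀ c ∈ D', e ∉ ins s t (I c)) → 3 * Q ≤ 10 * y e) ∧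
          (∀ c ∈ D', ∀ X ⊆ J c, Odd X.card → (cut s t X \ ins s t (I c)).card ≤ 3 →
            Q ≤ ∑ e ∈ cut s t X, y e) ∧ ∀ c ∈ D, cls c = κ → y c = Q

-- deps: CUT2
def S_HCL : Prop :=
  ∀ (V E : Type) [Fintype V] [Fintype E] [DecidableEq V] [DecidableEq E] (s t : E → V)
      (q m ld a p ρ b n : ℕ) (D : Finset E) (I J : E → Finset V)
      (φ : E → Fin (3 * q) × Fin 240 → E → ℤ) (A : Fin m → Finset E) (Z : Fin m → Finset V)
      (U : Finset V) (y : E → ℤ) (Q : ℤ) (D' : Finset E),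
      Cubic s t → Small s t 3 1 → 0 < q → 120 * ld ≤ m → 30 ≤ m → 4 ≤ p → 3 * n ≤ p →
      (∀ c ∈ D, Pre s t q 240 a b n c (ball s t (ends s t c) (a + p * (2 * ρ + 2))) (I c) (J c)
        (φ c) ∧ SmallIn s t (ball s t (ends s t c) (a + p * (2 * ρ + 2))) 5 b) →
      (∀ c ∈ D, ∀ c' ∈ D, c ≠ c' → Disjoint (ball s t (ends s t c) (a + p * (2 * ρ + 2)))
        (ball s t (ends s t c') (a + p * (2 * ρ + 2)))) →
      (∀ i, Lk s t (A i) (Z i) ∧ (Z i).Nonempty ∧ ∀ c ∈ D,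
        NearIn s t (Z i) ρ (ball s t (ends s t c) (a + p * (2 * ρ + 2))) ∧
        ∀ e ∈ A i, s e ∉ J c ∧ t e ∉ J c) →
      (∀ e, cnt (fun i => e ∈ A i) ≤ ld) →
      D' ⊆ D → 0 < Q → (∀ e, 0 ≤ y e) → (∀ v, vs s t y v = Q) →
      (∀ e, (∀ c ∈ D', e ∉ ins s t (I c)) → 3 * Q ≤ 10 * y e) →
      (∀ c ∈ D', ∀ X ⊆ J c, Odd X.card → (cut s t X \ ins s t (I c)).card ≤ 3 →
        Q ≤ ∑ e ∈ cut s t X, y e) →
      Wt s t U y Q (D'.biUnion fun c => ins s t (I c)) (exc s t J D) Z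

/-! ### Families of walks -/

-- deps:
def S_MGS : Prop :=
  ∀ (V E : Type) [Fintype V] [Fintype E] [DecidableEq V] [DecidableEq E] (s t : E → V)
    (P T : Finset V) (F : Finset E) (k : ℕ), P.Nonempty → Disjoint P T →
    (∀ W : Finset V, P ⊆ W → Disjoint W T → k ≤ (cut s t W ∩ F).card) →
    ∃ A : Fin k → Finset E, (∀ j, ∀ W : Finset V, P ⊆ W → Disjoint W T →
      (A j ∩ (cut s t W ∩ F)).Nonempty) ∧ ∀ e, cnt (fun j => e ∈ A j) ≤ 2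

-- deps:
def S_FAM : Prop :=
  ∀ k z : ℕ, ∃ N : ℕ,
    ∀ (V E : Type) [Fintype V] [Fintype E] [DecidableEq V] [DecidableEq E] (s t : E → V)
      (C : Type) [Fintype C] (ld n n2 : ℕ) (A : C → Fin k → Finset E) (J : E → Finset V),
      Cubic s t → Fintype.card C ≤ z → 0 < ld → ld * (3 * n + n2) ≤ k →
      (∀ π e, cnt (fun j => e ∈ A π j) ≤ ld) →
      ∃ pat : E → Fin N, ∀ (D : Finset E), ∀ c0 ∈ D,
        (∀ c ∈ D, pat c = pat c0 ∧ (J c).card ≤ n) →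
        ∀ (π : C) (G : Finset E), (∀ j, (A π j ∩ G).Nonempty) → n2 ≤ (G \ exc s t J D).card

-- deps: MGS
def S_OW : Prop :=
  ∀ (V E : Type) [Fintype V] [Fintype E] [DecidableEq V] [DecidableEq E] (s t : E → V)
    (U P : Finset V) (γ k b : ℕ), Cubic s t → (cut s t U).card ≤ γ → H2 s t U (γ + 6 * k) b →
    P ⊆ U → b + 2 * k < P.card →
    ∃ A : Fin k → Finset E, (∀ e, cnt (fun j => e ∈ A j) ≤ 4) ∧
      ∀ S T : Finset V, P ⊆ S → Disjoint S T →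
        ∀ j, ∃ e ∈ A j, e ∈ ins s t U ∧ Dfc s t S T e

-- deps: OW FAM
def S_OWF : Prop :=
  ∀ n n2 z : ℕ, ∃ N : ℕ,
    ∀ (V E : Type) [Fintype V] [Fintype E] [DecidableEq V] [DecidableEq E] (s t : E → V)
      (U Zn : Finset V) (J : E → Finset V) (γ b : ℕ), Cubic s t → Zn.card ≤ z →
      (cut s t U).card ≤ γ → H2 s t U (γ + 24 * (3 * n + n2)) b →
      ∃ pat : E → Fin N, ∀ (D : Finset E), ∀ c0 ∈ D,
        (∀ c ∈ D, pat c = pat c0 ∧ (J c).card ≤ n) →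
        ∀ S ⊆ U, ∀ T : Finset V, Disjoint S T → b + 8 * (3 * n + n2) < (S ∩ Zn).card →
          n2 ≤ cnt fun e => e ∈ ins s t U ∧ e ∉ exc s t J D ∧ Dfc s t S T e

-- deps: MGS FAM
def S_WIF : Prop :=
  ∀ n z : ℕ, ∃ N : ℕ,
    ∀ (V E : Type) [Fintype V] [Fintype E] [DecidableEq V] [DecidableEq E] (s t : E → V)
      (U Zn : Finset V) (J : E → Finset V), Cubic s t → Zn.card ≤ z →
      ∃ pat : E → Fin N, ∀ (D : Finset E), ∀ c0 ∈ D,
        (∀ c ∈ D, pat c = pat c0 ∧ (J c).card ≤ n) →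
        ∀ P ⊆ Zn, ∀ T ⊆ Zn, ∀ F ⊆ meet s t Zn, P.Nonempty →
          (∀ W ⊆ U, P ⊆ W → Disjoint W T → 2 * (3 * n + 4) ≤ (cut s t W \ F).card) →
          ∀ X ⊆ U, P ⊆ X → Disjoint X T → 4 ≤ ((cut s t X \ F) \ exc s t J D).card

-- deps: OWF WIF
def S_ENV : Prop :=
  ∀ n m κ z : ℕ, ∃ N : ℕ,
    ∀ (V E : Type) [Fintype V] [Fintype E] [DecidableEq V] [DecidableEq E] (s t : E → V)
      (U Zn : Finset V) (J : E → Finset V) (g : ℕ → ℕ) (H b : ℕ), Cubic s t → Zn.card ≤ z →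
      term s t U ⊆ Zn → (cut s t U).card ≤ 2 * κ → 2 * (3 * n + 4) ≤ H → 3 * H + 9 ≤ κ →
      H1 s t U g κ → Unsp s t U H ((range κ).sup g) →
      H2 s t U (2 * κ + 24 * (3 * n + (20 * (2 * κ + m) + 1))) b → Red s t U z →
      ∃ pat : E → Fin N, ∀ (D : Finset E), ∀ c0 ∈ D,
        (∀ c ∈ D, pat c = pat c0 ∧ (J c).card ≤ n) →
        Env s t U Zn (exc s t J D) κ m ((range κ).sup g)
          (b + 8 * (3 * n + (20 * (2 * κ + m) + 1)))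

/-! ### The barrier analysis -/

-- deps: TUT3
def S_FA : Prop :=
  ∀ (V E : Type) [Fintype V] [Fintype E] [DecidableEq V] [DecidableEq E] (s t : E → V)
    (U : Finset V) (D : Finset E) (y : E → ℤ) (Q : ℤ), (∀ e, s e ≠ t e) → Even U.card →
    D ⊆ ins s t U → 0 < Q → (∀ e, 0 ≤ y e) → (∀ v, vs s t y v = Q) → (∀ c ∈ D, y c = Q) →
    (∃ M, PMs s t U ∅ M ∧ D ⊆ M) ∨ ∃ S O, Brr s t U y S O

-- deps: WT
def S_FB : Prop :=
  ∀ (V E : Type) [Fintype V] [Fintype E] [DecidableEq V] [DecidableEq E] (s t : E → V)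
    (U S : Finset V) (O : Finset (Finset V)) (y : E → ℤ) (Q : ℤ) (Co Ex : Finset E) (m : ℕ)
    (Z : Fin m → Finset V), Cubic s t → U ≠ univ → Wt s t U y Q Co Ex Z → Brr s t U y S O →
    ∃ T ⊆ U, Disjoint S T ∧ (cnt fun e => e ∈ ins s t U ∧ e ∉ Ex ∧ Dfc s t S T e) ≤
      20 * ((cut s t U).card + m)

-- deps:
def S_SHELL : Prop :=
  ∀ (V E : Type) [Fintype V] [Fintype E] [DecidableEq V] [DecidableEq E] (s t : E → V)
    (B : Finset V),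
    (∀ (S : Finset V) (r1 w L2 : ℕ), (S ∩ ball s t B (r1 + (L2 + 1) * w)).card ≤ L2 →
      ∃ r, r1 ≤ r ∧ r + w ≤ r1 + (L2 + 1) * w ∧ S ∩ ball s t B (r + w) ⊆ ball s t B r) ∧
    ∀ (X : Finset V) (r L : ℕ), Cn s t X → (X ∩ ball s t B r).Nonempty →
      ¬ X ⊆ ball s t B (r + L) → L < (X ∩ ball s t B (r + L)).card

-- deps: WT SHELL
def S_FC1 : Prop :=
  ∀ (V E : Type) [Fintype V] [Fintype E] [DecidableEq V] [DecidableEq E] (s t : E → V)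
    (U S : Finset V) (O : Finset (Finset V)) (y : E → ℤ) (Q : ℤ) (Co Ex : Finset E)
    (m r r0 L : ℕ) (Z : Fin m → Finset V), Cubic s t → U ≠ univ → Wt s t U y Q Co Ex Z →
    Brr s t U y S O → Disjoint Ex (meet s t (ball s t (term s t U) r0)) →
    (∀ i, (Z i ∩ ball s t (term s t U) r).Nonempty) → r + (L + 2) ≤ r0 →
    S ∩ ball s t (term s t U) (r + (L + 2)) ⊆ ball s t (term s t U) r →
    ∃ (S1 : Finset V) (O1 O3 : Finset (Finset V)), S1 ⊆ ball s t (term s t U) r0 ∧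
      Bar s t U S1 O1 ∧ (∀ X ∈ O1, X ⊆ ball s t (term s t U) r0) ∧ Disjoint O1 O3 ∧ Dj (O1 ∪ O3) ∧
      S1.card + 2 ≤ O1.card + O3.card ∧
      ∀ X ∈ O3, X ⊆ U \ S1 ∧ L < (X ∩ ball s t (term s t U) r0).card ∧
        ((cut s t X \ (cut s t U ∪ meet s t S1)) \ Ex).card ≤ 3

-- deps: WT
def S_FC2 : Prop :=
  ∀ (V E : Type) [Fintype V] [Fintype E] [DecidableEq V] [DecidableEq E] (s t : E → V)
    (U Zn S1 : Finset V) (O1 O3 : Finset (Finset V)) (Ex : Finset E) (κ m L L2 : ℕ),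
    Cubic s t → EC 3 s t → (cut s t U).card ≤ 2 * κ → term s t U ⊆ Zn →
    Env s t U Zn Ex κ m L L2 → S1 ⊆ Zn → Bar s t U S1 O1 → (∀ X ∈ O1, X ⊆ Zn) →
    Disjoint O1 O3 → Dj (O1 ∪ O3) →
    (∀ X ∈ O3, X ⊆ U \ S1 ∧ L < (X ∩ Zn).card ∧
      ((cut s t X \ (cut s t U ∪ meet s t S1)) \ Ex).card ≤ 3) →
    O1.card + O3.card ≤ S1.card + 1

-- deps: FA FB SHELL FC1 FC2
def S_FINR : Prop :=
  ∀ (V E : Type) [Fintype V] [Fintype E] [DecidableEq V] [DecidableEq E] (s t : E → V)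
    (U : Finset V) (D : Finset E) (y : E → ℤ) (Q : ℤ) (Co Ex : Finset E)
    (κ m r1 L L2 : ℕ) (Z : Fin m → Finset V), Cubic s t → EC 3 s t → U ≠ univ → Even U.card →
    (cut s t U).card ≤ 2 * κ → D ⊆ ins s t U → (∀ c ∈ D, y c = Q) → Wt s t U y Q Co Ex Z →
    Env s t U (ball s t (term s t U) (r1 + (L2 + 1) * (L + 2))) Ex κ m L L2 →
    Disjoint Ex (meet s t (ball s t (term s t U) (r1 + (L2 + 1) * (L + 2)))) →
    (∀ i, (Z i ∩ ball s t (term s t U) r1).Nonempty) → ∃ M, PMs s t U ∅ M ∧ D ⊆ M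

-- deps: CLS2 HCL FINR
def S_CLF : Prop :=
  ∀ q m : ℕ, ∃ K : ℕ,
    ∀ (V E : Type) [Fintype V] [Fintype E] [DecidableEq V] [DecidableEq E] (s t : E → V)
      (ld a p ρ b n κ r1 L L2 : ℕ) (D : Finset E) (I J : E → Finset V)
      (φ : E → Fin (3 * q) × Fin 240 → E → ℤ) (A : Fin m → Finset E) (Z : Fin m → Finset V)
      (U : Finset V), Cubic s t → Small s t 3 1 → U ≠ univ → Even U.card →
      (cut s t U).card ≤ 2 * κ → 0 < q → 120 * ld ≤ m → 30 ≤ m → 4 ≤ p → 3 * n ≤ p →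
      (∀ c ∈ D, Pre s t q 240 a b n c (ball s t (ends s t c) (a + p * (2 * ρ + 2))) (I c) (J c)
        (φ c) ∧ SmallIn s t (ball s t (ends s t c) (a + p * (2 * ρ + 2))) 5 b) →
      (∀ c ∈ D, ∀ c' ∈ D, c ≠ c' → Disjoint (ball s t (ends s t c) (a + p * (2 * ρ + 2)))
        (ball s t (ends s t c') (a + p * (2 * ρ + 2)))) →
      (∀ i, Lk s t (A i) (Z i) ∧ (Z i).Nonempty ∧ ∀ c ∈ D,
        NearIn s t (Z i) ρ (ball s t (ends s t c) (a + p * (2 * ρ + 2))) ∧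
        ∀ e ∈ A i, s e ∉ J c ∧ t e ∉ J c) →
      (∀ e, cnt (fun i => e ∈ A i) ≤ ld) →
      (∀ c ∈ D, c ∈ ins s t U ∧ Disjoint (ball s t (ends s t c) (a + p * (2 * ρ + 2)))
        (ball s t (term s t U) (r1 + (L2 + 1) * (L + 2)))) →
      (∀ i, (Z i ∩ ball s t (term s t U) r1).Nonempty) →
      Env s t U (ball s t (term s t U) (r1 + (L2 + 1) * (L + 2))) (exc s t J D) κ m L L2 →
      ∃ cls : E → Fin K, ∀ x, (D.filter fun c => cls c = x).card ≤ 1 ∨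
        ∃ M, PMs s t U ∅ M ∧ ∀ c ∈ D, cls c = x → c ∈ M

/-! ### The base case -/

-- deps:
def S_GEO2 : Prop :=
  ∀ (V E : Type) [Fintype V] [Fintype E] [DecidableEq V] [DecidableEq E] (s t : E → V)
    (U : Finset V),
    (∀ (S : Finset V) (r : ℕ), S ⊆ U → Disjoint (ball s t S r) (term s t U) →
      ball s t S r ⊆ U) ∧
    (∀ (x : V) (R : ℕ), x ∈ U → x ∉ ball s t (term s t U) R → ball s t {x} R ⊆ U) ∧
    (∀ R : ℕ, EC 1 s t → U ≠ univ → ¬ U ⊆ ball s t (term s t U) R →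
      ∃ x ∈ U, x ∈ ball s t (term s t U) (R + 1) ∧ x ∉ ball s t (term s t U) R) ∧
    (EC 1 s t → U ≠ univ → U.Nonempty → (term s t U).Nonempty) ∧
    ∀ r r0 : ℕ, Cubic s t →
      (cnt fun c => ¬ Disjoint (ball s t (ends s t c) r) (ball s t (term s t U) r0)) ≤
        3 * ((cut s t U).card * 4 ^ (r0 + r))

-- deps: PRE2 SK2 PAT2 GEO2
def S_FAR : Prop :=
  ∀ g : ℕ → ℕ, ∃ q a b n H k1 : ℕ, 0 < q ∧ 1 ≤ H ∧ ∀ L : ℕ, ∃ ρ r1 N n0 : ℕ,
    ∀ (V E : Type) [Fintype V] [Fintype E] [DecidableEq V] [DecidableEq E] (s t : E → V)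
      (U : Finset V) (κ r0 : ℕ), Cubic s t → EC 3 s t → U ≠ univ → H1 s t U g κ → k1 ≤ κ →
      Unsp s t U H L → n0 < Fintype.card V → r1 ≤ r0 →
      ∃ (I J : E → Finset V) (φ : E → Fin (3 * q) × Fin 240 → E → ℤ) (pat : E → Fin N),
        ∀ (D : Finset E), ∀ c0 ∈ D, (∀ c ∈ D, pat c = pat c0 ∧ c ∈ ins s t U ∧
          Disjoint (ball s t (ends s t c) (a + (3 * n + 4) * (2 * ρ + 2))) (ball s t (term s t U) r0)) →
          (∀ c ∈ D, Pre s t q 240 a b n c (ball s t (ends s t c) (a + (3 * n + 4) * (2 * ρ + 2)))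
            (I c) (J c) (φ c) ∧
            SmallIn s t (ball s t (ends s t c) (a + (3 * n + 4) * (2 * ρ + 2))) 5 b) ∧
          (∀ c ∈ D, ∀ c' ∈ D, c ≠ c' →
            Disjoint (ball s t (ends s t c) (a + (3 * n + 4) * (2 * ρ + 2)))
              (ball s t (ends s t c') (a + (3 * n + 4) * (2 * ρ + 2)))) ∧
          ∃ (A : Fin (600 * H) → Finset E) (Z : Fin (600 * H) → Finset V),
            (∀ i, Lk s t (A i) (Z i) ∧ (Z i ∩ ball s t (term s t U) r1).Nonempty ∧ ∀ c ∈ D,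
              NearIn s t (Z i) ρ (ball s t (ends s t c) (a + (3 * n + 4) * (2 * ρ + 2))) ∧
              ∀ e ∈ A i, s e ∉ J c ∧ t e ∉ J c) ∧
            ∀ e, cnt (fun i => e ∈ A i) ≤ 5 * H

-- deps: FAR ENV CLF GEO2 COVL
def S_BASE0 : Prop :=
  ∀ g : ℕ → ℕ, ∃ κ H a : ℕ, 7 * H < κ ∧ 4 ≤ κ ∧ 16 * κ ≤ a ∧ ∀ bb : ℕ, ∃ z K : ℕ, 1 ≤ K ∧
    ∀ (V E : Type) [Fintype V] [Fintype E] [DecidableEq V] [DecidableEq E] (s t : E → V)
      (U : Finset V), Cubic s t → Small s t 3 1 → U ≠ univ → (cut s t U).card ≤ 2 * κ →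
      St s t U ∅ → H1 s t U g κ → H2 s t U a bb → Red s t U z →
      Unsp s t U H ((range κ).sup g) → Cv s t U K

-- deps: BM WT
def S_PUSH1 : Prop :=
  ∀ (V E : Type) [Fintype V] [Fintype E] [DecidableEq V] [DecidableEq E] (s t : E → V)
    (U : Finset V) (z : ℕ), Cubic s t → EC 3 s t → St s t U ∅ →
    ∃ S O, Bar s t U S O ∧ S.card = O.card ∧ (∀ X ∈ O, X.card ≤ z) ∧
      (∀ M, PMs s t U ∅ M → M ∩ cut s t (U \ (S ∪ O.biUnion id)) = ∅) ∧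
      (cut s t (U \ (S ∪ O.biUnion id))).card ≤ (cut s t U).card ∧
      Red s t (U \ (S ∪ O.biUnion id)) z

-- deps: PUSH1 TUB SPL COVL
def S_PUSH : Prop :=
  ∀ z bb γ : ℕ, ∃ n : ℕ, 1 ≤ n ∧
    ∀ (V E : Type) [Fintype V] [Fintype E] [DecidableEq V] [DecidableEq E] (s t : E → V)
      (U : Finset V), Cubic s t → Small s t 3 1 → U ≠ univ → (cut s t U).card ≤ γ →
      St s t U ∅ → H2 s t U (8 * γ) bb →
      ∃ U' ⊆ U, (cut s t U').card ≤ (cut s t U).card ∧ St s t U' ∅ ∧ Red s t U' z ∧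
        ∀ K, Cv s t U' K → Cv s t U (K + n)

-- deps: BASE0 PUSH SPL STU COVL
def S_BASE : Prop :=
  ∀ g : ℕ → ℕ, ∃ κ a : ℕ, 4 ≤ κ ∧ 16 * κ ≤ a ∧ ∀ bb : ℕ, ∃ K : ℕ, 1 ≤ K ∧
    ∀ (V E : Type) [Fintype V] [Fintype E] [DecidableEq V] [DecidableEq E] (s t : E → V)
      (U : Finset V), Cubic s t → Small s t 3 1 → U ≠ univ → (cut s t U).card ≤ 2 * κ →
      St s t U ∅ → H1 s t U g κ → H2 s t U a bb → Cv s t U K

/-! ### The recursion and the reduction over cuts with two or three edges -/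

-- deps: GR TB TAMEU LAB RSB RSU RBASE BASE STU
def S_RMAIN : Prop :=
  ∃ κ K θ : ℕ, 4 ≤ κ ∧ 1 ≤ θ ∧ θ ≤ K ∧
    ∀ (V E : Type) [Fintype V] [Fintype E] [DecidableEq V] [DecidableEq E] (s t : E → V)
      (Y : Finset V), Cubic s t → Small s t 3 1 → Y ≠ univ → (cut s t Y).card < κ →
      RR s t Y K θ

-- deps:
def S_C23 : Prop :=
  ∀ (V E : Type) [Fintype V] [Fintype E] [DecidableEq V] [DecidableEq E] (s t : E → V),
    Cubic s t → EC 2 s t → No3 s t → Small s t 3 1 ∨ Fintype.card V ≤ 4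

-- deps: RMAIN C23
def S_RWT : Prop :=
  ∃ K : ℕ, 1 ≤ K ∧
    ∀ (V E : Type) [Fintype V] [Fintype E] [DecidableEq V] [DecidableEq E] (s t : E → V),
      Cubic s t → EC 2 s t → No3 s t → RW s t K

-- deps: TUT3 WT
def S_EQV : Prop :=
  ∀ (V E : Type) [Fintype V] [Fintype E] [DecidableEq V] [DecidableEq E] (s t : E → V)
    (e h : E), Cubic s t → EC 2 s t → No3 s t → (∀ M, PM s t M → e ∈ M → h ∈ M) →
    ∀ M, PM s t M → h ∈ M → e ∈ M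

-- deps:
def S_ASG : Prop :=
  ∀ (K S K0 : ℕ) (I : Finset (Fin K)), 1 ≤ K0 → S * K0 ≤ I.card →
    ∃ ω : Fin K → Fin K0, ∀ k, S ≤ cnt fun i => i ∈ I ∧ ω i = k

-- deps: EQV ASG
def S_HL : Prop :=
  ∀ (V E : Type) [Fintype V] [Fintype E] [DecidableEq V] [DecidableEq E] (s t : E → V)
    (K0 : ℕ), Cubic s t → EC 2 s t → No3 s t → 1 ≤ K0 → RW s t K0 →
    PP s t (6 * K0 ^ 2) (2 * K0)

-- deps:
def S_CON : Prop :=
  ∀ (V E : Type) [Fintype V] [Fintype E] [DecidableEq V] [DecidableEq E] (s t : E → V)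
    (A : Finset V), Cubic s t → EC 2 s t → (cut s t A).card = 3 →
    ∃ (P : Pole) (x0 : P.V) (f : V → P.V) (g : E → P.E), EC 2 P.s P.t ∧
      Fintype.card P.V = A.card + 1 ∧ Set.InjOn g (meet s t A) ∧
      (∀ v ∈ A, (cut s t {v}).image g = cut P.s P.t {f v}) ∧
      (cut s t A).image g = cut P.s P.t {x0}

-- deps: CON
def S_GL3 : Prop :=
  ∀ (V E : Type) [Fintype V] [Fintype E] [DecidableEq V] [DecidableEq E] (s t : E → V)
    (K S : ℕ) (X : Finset V), Cubic s t → EC 2 s t → (cut s t X).card = 3 → 2 ≤ X.card →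
    2 ≤ Xᶜ.card →
    (∀ (V' E' : Type) [Fintype V'] [Fintype E'] [DecidableEq V'] [DecidableEq E'] (s' t' : E' → V'),
      Cubic s' t' → EC 2 s' t' → Fintype.card V' < Fintype.card V → PP s' t' K S) →
    PP s t K S

-- deps: RWT HL GL3 ASG
def S_W2 : Prop :=
  ∃ K : ℕ,
    ∀ (V E : Type) [Fintype V] [Fintype E] [DecidableEq V] [DecidableEq E] (s t : E → V),
      Cubic s t → EC 2 s t → Cov s t K

end Pool.Agent.P.MP_40718a_co.Wb
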