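import Pool.Agent.P.MP_40718a_co.Wb.Iface
import Pool.Agent.P.MP_40718a_co.Wb.IfaceB

section
/-! Step RSB. -/

set_option linter.unusedSectionVars false

namespace Pool.Agent.P.MP_40718a_co.Wb

open Finset ABF Bc

theorem p_RSB (hRS1 : S_RS1) (hALT : S_ALT) :
    S_RSB := by
  intro V E _ _ _ _ s t V' E' _ _ _ _ s' t' Y Y1 Z Z1 g g' j l K θ lab lab' ho hl hl' hg hs l1 θ1
    t1 t2 hR Sg N τ hN hθ hc
  obtain ⟨z, z1, z2⟩ := hRS1 V E s t V' E' s' t' Y Y1 Z Z1 g g' j l K θ lab lab' Sg N τ ho hl hl'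
    hg hs l1 θ1 (fun a ha => (t1 a ha).mono fun _ _ => .inl rfl) hR hN hθ hc
  have K0 : 0 < K := θ1.trans (hθ.trans ((cnt_le_card _).trans_eq (Fintype.card_fin K)))
  obtain ⟨N2, a1, a2, a3⟩ := z2 _ ((t2 _ (z1 ⟨0, K0⟩)).mono fun _ _ => .inl rfl) fun _ h => h
  refine ⟨N2, fun i => (a1 i).1, fun e he h => ?_⟩
  by_cases c : e ∈ ins s t Y1
  · obtain ⟨σ, b1, b2⟩ := h
    obtain ⟨a, b3, N0, b4⟩ := (hALT V E s t Y Y1 j lab σ e ho.1 hl c).1 b2
    exact a3 e c ⟨a, b3, σ, N0, b1, b4⟩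
  · exact a2 e he c h

end Pool.Agent.P.MP_40718a_co.Wb

end

section
/-! Step RSU. -/

set_option linter.unusedSectionVars false

namespace Pool.Agent.P.MP_40718a_co.Wb

open Finset ABF Bc

theorem p_RSU (hRS1 : S_RS1) (hALT : S_ALT) :
    S_RSU := by
  intro V E _ _ _ _ s t V' E' _ _ _ _ s' t' Y Y1 Z Z1 g g' j l K θ lab lab' hO hL hL' hg hT hl hθ
    hTm hTm' hZ hY1 hK Sg N τ hN hc hcov
  classical
  obtain ⟨z, hz1, hz2⟩ := hRS1 V E s t V' E' s' t' Y Y1 Z Z1 g g' j l K θ lab lab' Sg N τ hO hL hL'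
    hg hT hl hθ hTm hZ hN hc hcov
  obtain ⟨τ', -, hτ⟩ := exists_le_card_fiber_of_mul_le_card_of_maps_to (s := univ) (t := univ)
    (f := z) (n := θ) (fun _ _ => mem_univ _) univ_nonempty (by simpa using hK)
  obtain ⟨i0, hi0⟩ := card_pos.1 (hθ.trans hτ)
  obtain ⟨N2, h1, h2, h3⟩ := hz2 (fun sg => τ' ∉ sg ∧ ∃ a ∈ sg, ∃ σ N0, Sg σ ∧ PMs s t Y σ N0 ∧
    gadLabels lab N0 = a) ((hTm' τ' ((mem_filter.1 hi0).2 ▸ hz1 i0)).mono fun _ h => .inr h.1)
    fun _ h => h.2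
  have hs : ∀ e a, a ∈ sig s t Y1 lab e ↔ Al s t Y1 (a.image lab) e := fun e a =>
    exists_congr fun _ => and_congr_left' hL.pml
  obtain ⟨N3, h4, h5⟩ := hY1 (fun σ1 => ∃ a, (∃ σ N0, Sg σ ∧ PMs s t Y σ N0 ∧
    gadLabels lab N0 = a) ∧ σ1 = a.image lab) N2 (τ'.image lab) (fun i => (h1 i).1.1.mono hO.1)
    (hτ.trans ((cnt_eq _).ge.trans (cnt_mono fun i hi => by rw [hL.inter, (h1 i).2, hi])))
    (by
      rintro e he ⟨_, ⟨a, ha, rfl⟩, h6⟩ h7
      exact h3 e he ⟨fun h => h7 ((hs e _).1 h), a, (hs e a).2 h6, ha⟩)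
  refine ⟨fun i => (N2 i \ ins s t Y1) ∪ (N3 i ∩ ins s t Y1), fun i => ⟨glue
    ((h1 i).1.1.mono sdiff_subset) (h4 i).1 fun e he => ?_, ?_⟩, fun e he h6 => ?_⟩
  · have := Finset.ext_iff.1 (h4 i).2 e
    simpa only [mem_inter, he, and_true] using this.symm
  · rw [← (h1 i).1.2]
    ext e
    rw [mem_inter, mem_inter]
    exact and_congr_left fun he => mem_glue_out (not_ins_of_cut hO.1 he)
  · by_cases h7 : e ∈ ins s t Y1
    · obtain ⟨σ, a1, a2⟩ := h6
      obtain ⟨a, a3, N0, a4⟩ := (hALT V E s t Y Y1 j lab σ e hO.1 hL h7).1 a2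
      obtain ⟨i, hi⟩ := h5 e h7 ⟨_, ⟨a, ⟨σ, N0, a1, a4⟩, rfl⟩, (hs e a).1 a3⟩
      exact ⟨i, (mem_glue_in h7).2 hi⟩
    · obtain ⟨i, hi⟩ := h2 e he h7 h6
      exact ⟨i, (mem_glue_out h7).2 hi⟩

end Pool.Agent.P.MP_40718a_co.Wb

end

section
/-! Step RBASE. -/

set_option linter.unusedSectionVars false

namespace Pool.Agent.P.MP_40718a_co.Wb

open Finset ABF Bc

theorem p_RBASE :
    S_RBASE := by
  intro V E _ _ _ _ s t Y K θ hθ hC Sg N τ hN hc hcov
  rw [cnt_eq] at hc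
  obtain ⟨I, hI, hIc⟩ := exists_subset_card_eq hc
  have hst : ∀ i ∈ I, N i ∩ cut s t Y = τ := fun i hi => (mem_filter.1 (hI hi)).2
  obtain ⟨i0, hi0⟩ : I.Nonempty := card_pos.1 (by omega)
  subst hIc
  obtain ⟨M, hM, hMc⟩ := hC τ ⟨N i0, hN i0, hst i0 hi0⟩
  refine ⟨fun i => if h : i ∈ I then M (I.equivFin ⟨i, h⟩) else N i, fun i => ?_,
    fun e he hs => ?_⟩
  · by_cases h : i ∈ I
    · simp only [dif_pos h, hst i h]
      exact hM _
    · simp only [dif_neg h]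
      exact (hN i).pms
  · by_cases ha : Al s t Y τ e
    · obtain ⟨j, hj⟩ := hMc e he trivial ha
      refine ⟨(I.equivFin.symm j : Fin K), ?_⟩
      simp only [dif_pos (I.equivFin.symm j).2, Subtype.coe_eta, Equiv.apply_symm_apply]
      exact hj
    · obtain ⟨i, hi⟩ := hcov e he hs ha
      have h : i ∉ I := fun h => ha ⟨N i, ⟨hN i, hst i h⟩, hi⟩
      exact ⟨i, by simp only [dif_neg h]; exact hi⟩

end Pool.Agent.P.MP_40718a_co.Wb

end

section
/-! Step CNT2. -/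

set_option linter.unusedSectionVars false

namespace Pool.Agent.P.MP_40718a_co.Wb

open Finset ABF Bc

theorem p_CNT2 :
    S_CNT2 := by
  intro V E _ _ _ _ s t k c M I J SA b nA S O OA hk hcub hec hM hMI hball hIJ hsm hb H
  have heI : ends s t c ⊆ I := (subset_ball b).trans hball
  set R : Fin k → Finset V := fun j => S j ∪ ends s t c ∪ (O j ∪ OA j).biUnion id with hR
  have hRJ : ∀ j, R j ⊆ J := by
    intro j
    obtain ⟨h1, -, -, -, -, -, -, h8⟩ := H j
    refine union_subset (union_subset h1 (heI.trans hIJ)) ?_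
    intro x hx
    obtain ⟨X, hX, hx⟩ := mem_biUnion.1 hx
    exact (h8 X hX).2.1 hx
  have hRu : ∀ j, R j ≠ univ := fun j h => hb (univ_subset_iff.1 (h ▸ hRJ j))
  have hA : ∀ j, 3 * ((O j).card + nA) + (cut s t (R j)).card ≤
      3 * ((S j ∩ I).card + SA.card) + 4 := by
    intro j
    obtain ⟨-, h2, h3, h4, h5, h6, -, h8⟩ := H j
    have := all_CA V E s t c (S j) (O j ∪ OA j) hcub hec h3 h6
      fun X hX => ⟨(h8 X hX).1, (h8 X hX).2.2⟩
    rw [card_union_of_disjoint h5, h4, ← card_inter_add_card_sdiff (S j) I, h2] at this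
    exact this
  have h3 : ∀ j, 3 ≤ (cut s t (R j)).card := fun j =>
    hec _ ⟨s c, mem_union_left _ (mem_union_right _ (s_mem_ends c))⟩ (hRu j)
  have hDj : ∀ j, Dj (O j) := fun j X hX Y hY =>
    (H j).2.2.2.2.2.1 X (mem_union_left _ hX) Y (mem_union_left _ hY)
  by_cases hbig : ∃ j, 6 * k < (cut s t (R j)).card
  · obtain ⟨j0, hj0⟩ := hbig
    have hB : ∀ j, (O j).card ≤ (S j ∩ I).card + 2 := by
      intro j
      obtain ⟨-, -, -, -, -, -, h7, h8⟩ := H j
      have := all_CB V E s t M I (S j ∪ ends s t c) (O j) hM hMI (hDj j)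
        fun X hX => ⟨(h7 X hX).1, (h7 X hX).2, (h8 X (mem_union_left _ hX)).2.2⟩
      rw [union_inter_distrib_right] at this
      have h1 := card_union_le (S j ∩ I) (ends s t c ∩ I)
      have h2 : (ends s t c ∩ I).card ≤ 2 := (card_le_card inter_subset_left).trans (ends_card c)
      omega
    have := cnt_sum (fun j => (O j).card) (fun j => (S j ∩ I).card) j0 2 hB
    have := hA j0
    omega
  · push Not at hbig
    have hC : ∀ j, (O j).card ≤ (S j ∩ I).card + 0 := by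
      intro j
      obtain ⟨-, -, h3, -, -, -, h7, h8⟩ := H j
      have hle : (R j).card ≤ b := hsm _ (hRJ j) (hbig j)
      refine all_CC V E s t c M I (S j) (R j) (O j) b hcub hec hM hMI hball h3 (hDj j)
        (fun X hX => ⟨(h7 X hX).1, ?_, (h7 X hX).2, (h8 X (mem_union_left _ hX)).2.2⟩)
        subset_union_left hle (hRu j)
      intro x hx
      exact mem_union_right _ (mem_biUnion.2 ⟨X, mem_union_left _ hX, hx⟩)
    have := cnt_sum (fun j => (O j).card) (fun j => (S j ∩ I).card) ⟨0, hk⟩ 0 hC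
    have := hA ⟨0, hk⟩
    have := h3 ⟨0, hk⟩
    omega

end Pool.Agent.P.MP_40718a_co.Wb

end

section
/-! Step COPY2. -/

set_option linter.unusedSectionVars false

namespace Pool.Agent.P.MP_40718a_co.Wb

open Finset ABF Bc

theorem p_COPY2 (hCNT2 : S_CNT2) :
    S_COPY2 := by
  intro V E _ _ _ _ s t k _ c M I J b hc h3 hM hMI hIJ hb hS hJ
  have hI : ends s t c ⊆ I := (subset_ball b).trans hb
  have hW : ∀ (x : V) (j : Fin k), lf I x j ∈ ends s t c ×ˢ (univ : Finset (Fin k)) ↔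
      x ∈ ends s t c := fun x j => by simp [lf]
  refine (all_TUT2 _ _ (ls s I) (ls t I)
    (univ.filter fun v : V × Fin k => v.1 ∈ J ∧ (v.1 ∈ I ∨ v.2 = 0)) (ends s t c ×ˢ univ)
    ({c} ×ˢ univ) ?_ ?_ ?_).imp fun L h => ⟨fun j => h.1 (by simp), fun x hx j => h.2 _ (by
      by_cases h : x ∈ I <;> simp [lf, h, hx])⟩
  · rintro ⟨x, j⟩ hv
    have hx := mem_ends.1 (mem_product.1 hv).1
    have := hc.1 c
    rw [deg_eq_sum, sum_product, sum_singleton]
    simp only [ls, copy_in (hI (s_mem_ends c)), copy_in (hI (t_mem_ends c)), Prod.mk.injEq]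
    rcases hx with rfl | rfl <;> simp [this, this.symm]
  · intro v hv
    refine deg_eq_zero.2 ?_
    rintro ⟨e, j⟩ he
    obtain rfl : e = c := mem_singleton.1 (mem_product.1 he).1
    exact ⟨fun h => hv (h ▸ (hW _ j).2 (s_mem_ends e)), fun h => hv (h ▸ (hW _ j).2 (t_mem_ends e))⟩
  intro S O hSU hO hX
  choose jf hjf using copy_odd (k := k) I
  have hU : ∀ {X : Finset (V × Fin k)}, X ⊆ univ.filter (fun v : V × Fin k => v.1 ∈ J ∧
      (v.1 ∈ I ∨ v.2 = 0)) → (∀ j, copy_pr I j X ⊆ J) ∧ ∀ v ∈ X, v.1 ∈ I ∨ v.2 = 0 := fun h =>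
    ⟨fun j x hx => (mem_filter.1 (h (copy_mem.1 hx))).2.1, fun v hv => (mem_filter.1 (h hv)).2.2⟩
  have hne : ∀ j, ∀ X ∈ O, ((∀ v ∈ X, v.1 ∈ I) → jf X = j) → (copy_pr I j X).Nonempty := by
    intro j X hx h
    by_cases h0 : ∀ v ∈ X, v.1 ∈ I
    · exact card_pos.1 (h h0 ▸ ((hjf X h0).2 (hX X hx).2.1).pos)
    · push Not at h0
      obtain ⟨⟨x, i⟩, a1, a2⟩ := h0
      obtain rfl : i = 0 := ((hU (hX X hx).1).2 _ a1).resolve_left a2
      exact ⟨x, copy_mem.2 (by rwa [copy_out a2])⟩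
  have hinj : ∀ j, ∀ X ∈ O, ∀ Y ∈ O, ((∀ v ∈ X, v.1 ∈ I) → jf X = j) →
      copy_pr I j X = copy_pr I j Y → X = Y := by
    intro j X hx Y hy h e
    by_contra hn
    have := copy_dj I j (hO X hx Y hy hn)
    rw [← e, disjoint_self] at this
    exact (hne j X hx h).ne_empty this
  have hT : ∀ j, copy_pr I j (S ∪ ends s t c ×ˢ univ) = copy_pr I j S ∪ ends s t c := fun j => by
    ext x
    simp only [copy_mem, mem_union, hW]
  have key := hCNT2 V E s t k c M I J (univ.filter fun x => x ∉ I ∧ (x, (0 : Fin k)) ∈ S) b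
    (O.filter fun X => ¬ ∀ v ∈ X, v.1 ∈ I).card (fun j => copy_pr I j S)
    (fun j => ((O.filter fun X => ∀ v ∈ X, v.1 ∈ I).filter fun X => jf X = j).image (copy_pr I j))
    (fun j => (O.filter fun X => ¬ ∀ v ∈ X, v.1 ∈ I).image (copy_pr I j)) (NeZero.pos k)
    hc h3 hM hMI hb hIJ hS hJ fun j => ?_
  · rw [copy_card I S (hU (hSU.trans sdiff_subset)).2,
      ← card_filter_add_card_filter_not (s := O) (fun X => ∀ v ∈ X, v.1 ∈ I),
      card_eq_sum_card_fiberwise (f := jf) (t := univ) (by simp [Set.MapsTo])]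
    refine le_of_eq_of_le ?_ key
    congr 1
    refine sum_congr rfl fun j _ => (card_image_of_injOn fun X hx Y hy e => ?_).symm
    simp only [mem_coe, mem_filter] at hx hy
    exact hinj j X hx.1.1 Y hy.1.1 (fun _ => hx.2) e
  have hmem : ∀ Z ∈ ((O.filter fun X => ∀ v ∈ X, v.1 ∈ I).filter fun X => jf X = j).image
      (copy_pr I j) ∪ (O.filter fun X => ¬ ∀ v ∈ X, v.1 ∈ I).image (copy_pr I j),
      ∃ X ∈ O, ((∀ v ∈ X, v.1 ∈ I) → jf X = j) ∧ copy_pr I j X = Z := by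
    intro Z hZ
    simp only [mem_union, mem_image, mem_filter] at hZ
    rcases hZ with ⟨X, a1, a2⟩ | ⟨X, a1, a2⟩
    · exact ⟨X, a1.1.1, fun _ => a1.2, a2⟩
    · exact ⟨X, a1.1, fun h => absurd h a1.2, a2⟩
  refine ⟨(hU (hSU.trans sdiff_subset)).1 j, ?_, ?_, ?_, ?_, ?_, ?_, ?_⟩
  · ext x
    by_cases h : x ∈ I
    · simp [h]
    · simp [h, copy_mem, copy_out h]
  · exact disjoint_left.2 fun x a1 a2 =>
      (mem_sdiff.1 (hSU (copy_mem.1 a1))).2 ((hW x j).2 a2)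
  · refine card_image_of_injOn fun X hx Y hy e => ?_
    simp only [mem_coe, mem_filter] at hx hy
    exact hinj j X hx.1 Y hy.1 (fun h => absurd h hx.2) e
  · refine disjoint_left.2 fun Z a1 a2 => ?_
    simp only [mem_image, mem_filter] at a1 a2
    obtain ⟨X, a1, rfl⟩ := a1
    obtain ⟨Y, a2, e⟩ := a2
    obtain rfl := hinj j X a1.1.1 Y a2.1 (fun _ => a1.2) e.symm
    exact a2.2 a1.1.2
  · intro Z a1 Z' a2 hn
    obtain ⟨X, hx, -, rfl⟩ := hmem Z a1
    obtain ⟨Y, hy, -, rfl⟩ := hmem Z' a2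
    exact copy_dj I j (hO X hx Y hy fun e => hn (e ▸ rfl))
  · intro Z a1
    simp only [mem_image, mem_filter] at a1
    obtain ⟨X, ⟨⟨a1, a2⟩, rfl⟩, rfl⟩ := a1
    exact ⟨(hjf X a2).1 _, (hjf X a2).2 (hX X a1).2.1⟩
  · intro Z a1
    obtain ⟨X, hx, a2, rfl⟩ := hmem Z a1
    exact ⟨hne j X hx a2, (hU (hX X hx).1).1 j, hT j ▸ copy_onto I j (hX X hx).2.2⟩

end Pool.Agent.P.MP_40718a_co.Wb

end

section
/-! Step L02. -/

set_option linter.unusedSectionVars false

namespace Pool.Agent.P.MP_40718a_co.Wb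

open Finset ABF Bc

theorem p_L02 (hCOPY2 : S_COPY2) :
    S_L02 := by
  intro V E _ _ _ _ s t k _ c M I J b hC h3 hM hMI hJ hI hS hb
  have hIJ : I ⊆ J := (subset_ball 1).trans hJ
  have hcI : s c ∈ I := hI (subset_ball b (s_mem_ends c))
  obtain ⟨L, hcL, hL⟩ := hCOPY2 V E s t k c M I J b hC h3 hM hMI hIJ hI hS hb
  obtain ⟨T1, T2, T3⟩ := all_TD V E s t k I
  have hMt := T3 M hM hMI
  have hsum : ∀ e, ∑ j : Fin k, ind (univ.filter fun e : E × Fin k =>
      e.1 ∈ M ∧ (s e.1 ∈ I ∨ e.2 = 0)) (e, j) = (if s e ∈ I then (k : ℤ) else 1) * ind M e := by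
    intro e
    by_cases h1 : e ∈ M <;> by_cases h2 : s e ∈ I <;> simp [ind, h1, h2]
  generalize (univ.filter fun e : E × Fin k => e.1 ∈ M ∧ (s e.1 ∈ I ∨ e.2 = 0)) = Mt at hMt hsum
  obtain ⟨U, hU, hU'⟩ : ∃ U : Finset (V × Fin k), (∀ x j, lf I x j ∈ U ↔ x ∈ J) ∧
      ∀ v ∈ U, ∃ x ∈ J, ∃ j, v = lf I x j := by
    refine ⟨(J ×ˢ univ).image fun p => lf I p.1 p.2, fun x j => ⟨fun h => ?_, fun h =>
      mem_image.2 ⟨(x, j), by simpa using h, rfl⟩⟩, fun v h => ?_⟩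
    · obtain ⟨p, hp, e⟩ := mem_image.1 h
      exact (show p.1 = x from congrArg Prod.fst e) ▸ (mem_product.1 hp).1
    · obtain ⟨p, hp, e⟩ := mem_image.1 h
      exact ⟨p.1, (mem_product.1 hp).1, p.2, e.symm⟩
  obtain ⟨ph, P1, P2, P3, P4, P5⟩ := all_PC (V × Fin k) (E × Fin k) (ls s I) (ls t I) k U L Mt
    (fun l => lf I (s c) l)
    (fun v hv => by obtain ⟨x, hx, j, rfl⟩ := hU' v hv; exact hL x hx j)
    (fun v hv => by obtain ⟨x, -, j, rfl⟩ := hU' v hv; exact hMt x j)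
    (fun l => (hU _ _).2 (hIJ hcI))
  have hcut : cut (ls s I) (ls t I) U = cut s t J ×ˢ univ := by
    ext e
    simp only [mem_cut, mem_product, mem_univ, and_true, ls, hU]
  refine ⟨fun l e => ∑ j, ph l (e, j), ⟨fun l e h1 h2 => ?_, fun l v hv => ?_, fun l => ?_,
    fun f hf => ?_, fun e => ?_, ?_⟩, fun Λ => ?_⟩
  · exact sum_eq_zero fun j _ => P3 l _ (fun h => h1 ((hU _ _).1 h)) fun h => h2 ((hU _ _).1 h)
  · obtain ⟨N, hN, e⟩ := P1 {l}
    have e' : ph l = fun e => ind N e - ind Mt e := funext fun f => by simpa using e f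
    have h0 : ∀ j, vs (ls s I) (ls t I) (ph l) (lf I v j) = 0 := fun j => by
      rw [e', vs_sub, vs_ind, vs_ind, hN _ ((hU _ _).2 hv), hMt, sub_self]
    rw [T2]
    simp [h0]
  · have h1 := P5 l
    rw [hcut, sum_product] at h1
    have h2 : ∑ f ∈ cut s t J, |∑ j, ph l (f, j)| ≤ ∑ f ∈ cut s t J, ∑ j, |ph l (f, j)| :=
      sum_le_sum fun f _ => abs_sum_le_sum_abs _ _
    have h3 : 0 ≤ ∑ f ∈ cut s t J, |∑ j, ph l (f, j)| := sum_nonneg fun f _ => abs_nonneg _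
    have h4 : (2 : ℤ) ∣ ∑ f ∈ cut s t J, ∑ j, |ph l (f, j)| -
        ∑ f ∈ cut s t J, |∑ j, ph l (f, j)| := by
      rw [← sum_sub_distrib]
      refine dvd_sum fun f _ => ?_
      have h5 : (2 : ℤ) ∣ ∑ j, |ph l (f, j)| - ∑ j, ph l (f, j) := by
        rw [← sum_sub_distrib]
        exact dvd_sum fun j _ => l0_par _
      have h6 := l0_par (∑ j, ph l (f, j))
      omega
    dsimp only
    omega
  · obtain ⟨x, hx, hxI, hf⟩ : ∃ x ∈ J, x ∉ I ∧ (s f = x ∨ t f = x) := by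
      rw [mem_cut] at hf
      by_cases h : s f ∈ J
      · exact ⟨s f, h, fun h' => hf (iff_of_true h (hJ (ball_step_t (r := 0) h'))), Or.inl rfl⟩
      · exact ⟨t f, by tauto, fun h' => h (hJ (ball_step_s (r := 0) h')), Or.inr rfl⟩
    have h1 := l0_one hxI hf (hL x hx 0)
    have h2 := l0_one hxI hf (hMt x 0)
    have h3 : ∑ j, ∑ l, |ph l (f, j)| ≤ ∑ j, (ind L (f, j) + ind Mt (f, j)) :=
      sum_le_sum fun j _ => (P4 _).trans (by
        unfold ind
        simp only [mem_union]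
        split_ifs <;> first | omega | tauto)
    rw [sum_add_distrib] at h3
    have h4 := l0_abs ph f
    dsimp only
    omega
  · refine (l0_abs ph e).trans ?_
    simpa using sum_le_sum (s := univ) fun j _ => (P4 (e, j)).trans (ind_le_one _ _)
  · dsimp only
    rw [sum_comm, sum_congr rfl fun j _ => P2 (c, j) (hcL j) j rfl, sum_sub_distrib, hsum]
    simp [hcI]
  · obtain ⟨N, hN, e⟩ := P1 Λ
    refine ⟨sheet N, ⟨fun j x hx => ?_, fun x hx => ?_⟩, fun f => ?_⟩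
    · have := T1 N x j
      rw [hN _ ((hU _ _).2 (hIJ hx)), if_pos hx] at this
      exact this.symm
    · have := T1 N x 0
      rw [hN _ ((hU _ _).2 (mem_sdiff.1 hx).1), if_neg (mem_sdiff.1 hx).2] at this
      exact this.symm
    · dsimp only
      rw [sum_comm, sum_congr rfl fun j _ => e (f, j), sum_sub_distrib, hsum]
      simp only [ind, mem_sheet, Nat.cast_ite, Nat.cast_one]

end Pool.Agent.P.MP_40718a_co.Wb

end

section
/-! Step L12. -/

set_option linter.unusedSectionVars false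

namespace Pool.Agent.P.MP_40718a_co.Wb

open Finset ABF Bc

theorem p_L12 (hL02 : S_L02) :
    S_L12 := by
  intro V E _ _ _ _ s t k c M I J b hk hC hE hM hIJ hB hS hb hX
  classical
  have : NeZero k := ⟨by omega⟩
  obtain ⟨I', hI'⟩ : ∃ I' : Finset V,
      ∀ x, x ∈ I' ↔ ∃ e ∈ M ∩ ins s t I, s e = x ∨ t e = x :=
    ⟨univ.filter fun x => ∃ e ∈ M ∩ ins s t I, s e = x ∨ t e = x, fun x => by
      rw [mem_filter]; simp only [mem_univ, true_and]⟩
  have key : ∀ e ∈ M, ∀ x, s e = x ∨ t e = x → (x ∈ I' ↔ e ∈ ins s t I) := by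
    intro e he x hx
    rw [hI']
    constructor
    · rintro ⟨f, hf, hfx⟩
      rw [mem_inter] at hf
      rw [edge_unique (hM x).le he hf.1 hx hfx]
      exact hf.2
    · intro h
      exact ⟨e, mem_inter.2 ⟨he, h⟩, hx⟩
  have hcl : ∀ e ∈ M, s e ∈ I' ↔ t e ∈ I' := fun e he =>
    (key e he _ (Or.inl rfl)).trans (key e he _ (Or.inr rfl)).symm
  have hsub : I' ⊆ I := by
    intro x hx
    obtain ⟨e, he, hex⟩ := (hI' x).1 hx
    have := mem_ins.1 (mem_inter.1 he).2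
    rcases hex with rfl | rfl
    · exact this.1
    · exact this.2
  have hB' : ball s t (ends s t c) b ⊆ I' := by
    intro x hx
    obtain ⟨e, he, hex⟩ := exists_edge (hM x)
    refine (key e he x hex).2 (mem_ins.2 ?_)
    rcases hex with rfl | rfl
    · exact ⟨hB (ball_mono_r (Nat.le_succ b) hx), hB (ball_step_t hx)⟩
    · exact ⟨hB (ball_step_s hx), hB (ball_mono_r (Nat.le_succ b) hx)⟩
  obtain ⟨φ, h0, hΛ⟩ := hL02 V E s t k c M I' J b hC hE hM hcl
    ((ball_mono hsub 1).trans hIJ) hB' hS hb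
  refine ⟨φ, h0, fun Λ => ?_⟩
  obtain ⟨N, hN, hφ⟩ := hΛ Λ
  have hk' : (4 : ℤ) ≤ k := by exact_mod_cast hk
  have hid : ∀ e, k * ind M e + ∑ l ∈ Λ, φ l e =
      ∑ j, ind (N j) e + ((k : ℤ) - 1) * ind (M \ ins s t I) e := by
    intro e
    rw [hφ e]
    by_cases he : e ∈ M
    · have h1 := key e he _ (Or.inl rfl)
      by_cases h2 : e ∈ ins s t I
      · have h3 : e ∉ M \ ins s t I := fun h => (mem_sdiff.1 h).2 h2
        rw [if_pos (h1.2 h2), show ind (M \ ins s t I) e = 0 from if_neg h3]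
        ring
      · have h3 : e ∈ M \ ins s t I := mem_sdiff.2 ⟨he, h2⟩
        rw [if_neg (fun h => h2 (h1.1 h)), show ind (M \ ins s t I) e = 1 from if_pos h3,
          show ind M e = 1 from if_pos he]
        ring
    · have h3 : e ∉ M \ ins s t I := fun h => he (mem_sdiff.1 h).1
      rw [show ind (M \ ins s t I) e = 0 from if_neg h3, show ind M e = 0 from if_neg he]
      ring
  have hNn : ∀ e, 0 ≤ ∑ j, ind (N j) e := fun e => sum_nonneg fun j _ => ind_nonneg _ _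
  refine ⟨fun e => ?_, fun e he => ?_, fun X hXJ hXo => ?_⟩
  · rw [hid e]
    exact add_nonneg (hNn e) (mul_nonneg (by omega) (ind_nonneg _ _))
  · have h1 := hid e
    have h2 := hNn e
    by_cases h : e ∈ M
    · have h3 : e ∈ M \ ins s t I := mem_sdiff.2 ⟨h, he⟩
      rw [show ind (M \ ins s t I) e = 1 from if_pos h3,
          show ind M e = 1 from if_pos h] at h1
      rw [show ind M e = 1 from if_pos h]
      omega
    · have h3 : e ∉ M \ ins s t I := fun h' => h (mem_sdiff.1 h').1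
      rw [show ind (M \ ins s t I) e = 0 from if_neg h3, show ind M e = 0 from if_neg h] at h1
      rw [show ind M e = 0 from if_neg h]
      omega
  · have hsum : ∑ e ∈ cut s t X, (k * ind M e + ∑ l ∈ Λ, φ l e) =
        ((∑ j, (N j ∩ cut s t X).card : ℕ) : ℤ) +
          ((k : ℤ) - 1) * ((M ∩ (cut s t X \ ins s t I)).card : ℕ) := by
      rw [sum_congr rfl fun e _ => hid e, sum_add_distrib, sum_comm, ← mul_sum, sum_ind]
      have h1 : (M \ ins s t I) ∩ cut s t X = M ∩ (cut s t X \ ins s t I) := by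
        ext e
        simp only [mem_inter, mem_sdiff]
        tauto
      rw [h1]
      push_cast
      simp only [sum_ind]
    obtain ⟨h1, h2⟩ := Bc.all_INEQ V E s t k M I I' J X N hk hM hI' hX hN hXJ hXo
    rw [hsum]
    refine ⟨fun h => ?_, fun h => ?_⟩
    · have h3 := h1 h
      zify at h3
      push_cast
      linarith
    · have h3 := h2 h
      zify at h3
      push_cast
      linarith

end Pool.Agent.P.MP_40718a_co.Wb

end

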