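import Pool.Agent.P.MP_40718a_co.Wb.IfaceB

section
/-! Step MIN2. -/

set_option linter.unusedSectionVars false

namespace Pool.Agent.P.MP_40718a_co.Wb

open Finset ABF Bc

theorem p_MIN2 :
    S_MIN2 := by
  intro V E _ _ _ _ s t B Ω a b hc h1 hB ha hs hb
  obtain ⟨I, hBI, hIΩ, hmin, hmax⟩ := min_exists (fun X => (cut s t X).card) hB
  have hcard : I.card ≤ b := by
    have h2 := hmin B (Subset.refl _) hB
    have h3 := cut_card_le hc B
    exact hs I hIΩ (by omega)
  refine ⟨I, hBI, hIΩ, hcard, ?_, ?_⟩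
  · obtain ⟨r, hr, hsph⟩ := exists_sphere (s := s) (t := t) I B
    have hcut := cut_inter_ball hsph
    by_contra hn
    have hne : (I \ (I ∩ ball s t B r)).Nonempty := by
      by_contra h0
      rw [not_nonempty_iff_eq_empty, sdiff_eq_empty_iff_subset] at h0
      exact hn ((h0.trans inter_subset_right).trans (ball_mono_r (by omega)))
    have hnu : I \ (I ∩ ball s t B r) ≠ univ := by
      intro h0
      refine hb (eq_univ_of_forall fun x => ?_)
      have h3 : x ∈ I \ (I ∩ ball s t B r) := h0 ▸ mem_univ x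
      exact hIΩ (mem_sdiff.1 h3).1
    obtain ⟨e, he⟩ := card_pos.1 (h1 _ hne hnu)
    have he1 := cut_sdiff_subset inter_subset_left hcut he
    have he2 : e ∉ cut s t (I ∩ ball s t B r) := by
      simp only [mem_cut, mem_sdiff, mem_inter] at he he1 ⊢
      tauto
    have h4 := card_lt_card (⟨hcut, fun h => he2 (h he1)⟩ : cut s t (I ∩ ball s t B r) ⊂ cut s t I)
    have h5 := hmin (I ∩ ball s t B r) (subset_inter hBI (subset_ball r))
      (inter_subset_left.trans hIΩ)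
    omega
  · intro Y hY hne
    have hd : Disjoint I Y := by
      rw [disjoint_right]
      exact fun x hx => (mem_sdiff.1 (hY hx)).2
    have hsub : I ∪ Y ⊆ Ω := union_subset hIΩ (hY.trans sdiff_subset)
    have hB' : B ⊆ I ∪ Y := hBI.trans subset_union_left
    have h2 := hmin _ hB' hsub
    have h3 : (cut s t (I ∪ Y)).card ≠ (cut s t I).card := by
      intro h
      have h4 := hmax _ hB' hsub h
      rw [card_union_of_disjoint hd] at h4
      have := card_pos.2 hne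
      omega
    have h4 : cut s t (I ∪ Y) = symmDiff (cut s t Y) (cut s t I) := by
      rw [← cut_symmDiff, symmDiff_comm, hd.symmDiff_eq_sup, sup_eq_union]
    have h5 := card_symmDiff_add (cut s t Y) (cut s t I)
    have h6 := card_sdiff_add_card_inter (cut s t Y) (cut s t I)
    rw [← h4] at h5
    omega

end Pool.Agent.P.MP_40718a_co.Wb

end

section
/-! Step PRE2. -/

set_option linter.unusedSectionVars false

namespace Pool.Agent.P.MP_40718a_co.Wb

open Finset ABF Bc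

theorem p_PRE2 (hMIN2 : S_MIN2) (hL12 : S_L12) :
    S_PRE2 := by
  intro bs k hk
  obtain ⟨b2, hb2⟩ : ∃ b2, b2 = bs (6 * k) := ⟨_, rfl⟩
  obtain ⟨n1, hn1⟩ : ∃ n1, n1 = 2 * 4 ^ (b2 + 1) := ⟨_, rfl⟩
  obtain ⟨bI, hbI⟩ : ∃ bI, bI = bs (3 * n1) := ⟨_, rfl⟩
  obtain ⟨n2, hn2⟩ : ∃ n2, n2 = bI * 4 ^ (bs 5 + 1) := ⟨_, rfl⟩
  obtain ⟨bJ, hbJ⟩ : ∃ bJ, bJ = bs (3 * n2) := ⟨_, rfl⟩
  obtain ⟨q, hq, hq'⟩ := all_LAW (3 * (b2 + bI + bJ))
  refine ⟨q, b2 + 1 + bI + (bs 5 + 1) + bJ, b2 + bI + bJ, 6 * k + 3 * n1 + 3 * n2 + 1, hq,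
    by omega, ?_⟩
  intro V E _ _ _ _ s t c Ω hC hE hS hΩ hn
  have hE1 : EC 1 s t := fun X h1 h2 => le_trans (by norm_num) (hE X h1 h2)
  have hE2 : EC 2 s t := fun X h1 h2 => le_trans (by norm_num) (hE X h1 h2)
  have hS2 : SmallIn s t Ω (6 * k) b2 := hb2 ▸ hS _ (by omega)
  have hSI : SmallIn s t Ω (3 * n1) bI := hbI ▸ hS _ (by omega)
  have hSJ : SmallIn s t Ω (3 * n2) bJ := hbJ ▸ hS _ (by omega)
  have hB1 : (ball s t (ends s t c) (b2 + 1)).card ≤ n1 := by
    rw [hn1]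
    exact (ball_card hC _ _).trans (Nat.mul_le_mul_right _ (ends_card c))
  obtain ⟨I, hI1, -, hI3, hI4, hI5⟩ := hMIN2 V E s t (ball s t (ends s t c) (b2 + 1)) Ω (3 * n1) bI
    hC hE1 ((ball_mono_r (by omega)).trans hΩ) (by omega) hSI hn
  rw [Bc.ball_add] at hI4
  have hB2 : (ball s t I (bs 5 + 1)).card ≤ n2 := by
    rw [hn2]
    exact (ball_card hC _ _).trans (Nat.mul_le_mul_right _ hI3)
  have hB3 : ball s t I (bs 5 + 1) ⊆ ball s t (ends s t c) (b2 + 1 + bI + (bs 5 + 1)) := by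
    rw [← Bc.ball_add (b2 + 1 + bI)]
    exact ball_mono hI4 _
  obtain ⟨J, hJ1, hJ2, hJ3, hJ4, hJ5⟩ := hMIN2 V E s t (ball s t I (bs 5 + 1)) Ω (3 * n2) bJ
    hC hE1 (hB3.trans ((ball_mono_r (by omega)).trans hΩ)) (by omega) hSJ hn
  have hIJ : I ⊆ J := (subset_ball _).trans hJ1
  have hsc : s c ∈ J := hIJ (hI1 (subset_ball _ (s_mem_ends c)))
  have hJc : J ≠ univ := fun h => hn (univ_subset_iff.1 (h ▸ hJ2))
  obtain ⟨M, hM1, hM2⟩ := hq' V E s t (univ.filter fun e => s e ∈ J ∨ t e ∈ J) hC hE2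
    ((meet_card_le hC J).trans (by omega))
  have hφ := fun i => hL12 V E s t k c (M i) I J b2 hk hC hE (hM1 i)
    ((ball_mono_r (by omega)).trans hJ1) hI1 (hS2.mono hJ2 le_rfl le_rfl) hJc (hI5.mono hJ2)
  choose φ hφ using hφ
  refine ⟨I, J, fun w => φ w.1 w.2, all_LOC V E s t q k c I J M φ hsc
    (fun e he => hM2 e (by simpa using he)) hφ, hsc, hIJ,
    (ball_mono_r (by omega)).trans hJ1, hJ4.trans ?_, by omega, hI5, hJ5⟩
  rw [← Bc.ball_add (b2 + 1 + bI + (bs 5 + 1))]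
  exact ball_mono hB3 _

end Pool.Agent.P.MP_40718a_co.Wb

end

section
/-! Step DEN2. -/

set_option linter.unusedSectionVars false

namespace Pool.Agent.P.MP_40718a_co.Wb

open Finset ABF Bc

theorem p_DEN2 :
    S_DEN2 := by
  intro V E _ _ _ _ s t B Z K ρ a p hN hKZ
  induction p with
  | zero => exact Or.inr (Nat.zero_le _)
  | succ p ih =>
    have hmul : (p + 1) * (2 * ρ + 2) = p * (2 * ρ + 2) + (2 * ρ + 2) := by ring
    rcases ih (hN.mono (ball_mono_r (by omega))) with ⟨r, h1, h2, h3⟩ | ih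
    · exact Or.inl ⟨r, h1, by omega, h3⟩
    generalize hq : a + p * (2 * ρ + 2) = q at ih
    have hq' : a + (p + 1) * (2 * ρ + 2) = q + (2 * ρ + 2) := by omega
    have haq : a ≤ q := by omega
    rw [hq'] at hN ⊢
    by_cases hc : K ∩ ball s t B (q + ρ + 1) ⊆ ball s t B (q + ρ)
    · exact Or.inl ⟨q + ρ, by omega, by omega, hc⟩
    right
    obtain ⟨x, hx, hx'⟩ := not_subset.1 hc
    obtain ⟨hxK, hxb⟩ := mem_inter.1 hx
    obtain ⟨z, hzZ, hz⟩ := hN x (ball_mono_r (by omega) hxb)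
    have hzK : z ∉ K := fun h => disjoint_left.1 hKZ h hzZ
    obtain ⟨e, he, hs, ht⟩ := exists_exit (singleton_subset_iff.2 hxK) hz hzK
    have key : ∀ y ∈ ball s t {x} ρ,
        y ∈ ball s t B (q + (2 * ρ + 2)) ∧ y ∉ ball s t B q := by
      intro y hy
      refine ⟨ball_mono_r (by omega) (ball_trans hxb hy), fun h => hx' ?_⟩
      exact ball_trans h (ball_symm hy)
    have hsub : cut s t K ∩ ins s t (ball s t B q \ ball s t B a) ⊂
        cut s t K ∩ ins s t (ball s t B (q + (2 * ρ + 2)) \ ball s t B a) := by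
      refine ⟨fun f hf => ?_, fun h => ?_⟩
      · simp only [mem_inter, mem_ins, mem_sdiff] at hf ⊢
        exact ⟨hf.1, ⟨ball_mono_r (by omega) hf.2.1.1, hf.2.1.2⟩,
          ⟨ball_mono_r (by omega) hf.2.2.1, hf.2.2.2⟩⟩
      · have h5 : e ∈ cut s t K ∩ ins s t (ball s t B (q + (2 * ρ + 2)) \ ball s t B a) := by
          simp only [mem_inter, mem_ins, mem_sdiff]
          exact ⟨he, ⟨(key _ hs).1, fun h => (key _ hs).2 (ball_mono_r haq h)⟩,
            ⟨(key _ ht).1, fun h => (key _ ht).2 (ball_mono_r haq h)⟩⟩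
        have h6 := h h5
        simp only [mem_inter, mem_ins, mem_sdiff] at h6
        exact (key _ hs).2 h6.2.1.1
    have := card_lt_card hsub
    omega

end Pool.Agent.P.MP_40718a_co.Wb

end

section
/-! Step EXIT2. -/

set_option linter.unusedSectionVars false

namespace Pool.Agent.P.MP_40718a_co.Wb

open Finset ABF Bc

theorem exit2_cut (hDEN : S_DEN2) {V E : Type} [Fintype V] [Fintype E] [DecidableEq V]
    [DecidableEq E] {s t : E → V} {B J Z : Finset V} {ρ a p : ℕ}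
    (hZ : NearIn s t Z ρ (ball s t B (a + p * (2 * ρ + 2))))
    (hJ : J ⊆ ball s t B a) (hp : (cut s t J).card ≤ p)
    (hE : Exp s t J (ball s t B (a + p * (2 * ρ + 2)))) {Y : Finset V} (hY : Disjoint Y Z) :
    ((cut s t J).filter fun f => (if s f ∈ J then t f else s f) ∈ Y).card ≤
      (cut s t Y ∩ ins s t (ball s t B (a + p * (2 * ρ + 2)) \ J)).card := by
  generalize hO : ball s t B (a + p * (2 * ρ + 2)) = O at hE ⊢
  rcases hDEN V E s t B Z (Y ∩ (O \ J)) ρ a p hZ (hY.mono_left inter_subset_left) with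
    ⟨r, h1, h2, h3⟩ | h
  · have hO' : ball s t B (r + 1) ⊆ O := hO ▸ ball_mono_r h2
    have hr : ball s t B r ⊆ O := (ball_mono_r (Nat.le_succ r)).trans hO'
    have hJr : J ⊆ ball s t B r := hJ.trans (ball_mono_r h1)
    have key : ∀ x ∈ Y, x ∉ J → x ∈ ball s t B (r + 1) → x ∈ ball s t B r :=
      fun x a b c => h3 (mem_inter.2 ⟨mem_inter.2 ⟨a, mem_sdiff.2 ⟨hO' c, b⟩⟩, c⟩)
    have hs : ∀ e, t e ∈ ball s t B r → s e ∈ ball s t B (r + 1) := fun e => ball_step_s
    have ht : ∀ e, s e ∈ ball s t B r → t e ∈ ball s t B (r + 1) := fun e => ball_step_t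
    have a1 : ((cut s t J).filter fun f => (if s f ∈ J then t f else s f) ∈ Y) ⊆
        cut s t (Y ∩ (ball s t B r \ J)) ∩ cut s t J := by
      intro f hf
      obtain ⟨b1, b2⟩ := mem_filter.1 hf
      refine mem_inter.2 ⟨?_, b1⟩
      simp only [mem_cut, mem_inter, mem_sdiff] at b1 ⊢
      by_cases c : s f ∈ J
      · rw [if_pos c] at b2
        have c1 : t f ∉ J := by grind
        have := key _ b2 c1 (ht f (hJr c))
        grind
      · rw [if_neg c] at b2
        have c1 : t f ∈ J := by grind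
        have := key _ b2 c (hs f (hJr c1))
        grind
    refine (card_le_card a1).trans ?_
    rcases (Y ∩ (ball s t B r \ J)).eq_empty_or_nonempty with h0 | h0
    · simp [h0]
    refine (hE _ (inter_subset_right.trans (sdiff_subset_sdiff hr (Subset.refl _))) h0).le.trans
      (card_le_card fun e he => ?_)
    have b1 := key (s e)
    have b2 := key (t e)
    have b3 := hs e
    have b4 := ht e
    have b5 := @hO' (s e)
    have b6 := @hO' (t e)
    have b7 := @hr (s e)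
    have b8 := @hr (t e)
    simp only [mem_cut, mem_inter, mem_sdiff, mem_ins] at he ⊢
    grind
  · rw [hO] at h
    refine ((card_filter_le _ _).trans (hp.trans h)).trans (card_le_card fun e he => ?_)
    have b1 := @hJ (s e)
    have b2 := @hJ (t e)
    simp only [mem_cut, mem_inter, mem_sdiff, mem_ins] at he ⊢
    grind

theorem p_EXIT2 (hDEN2 : S_DEN2) :
    S_EXIT2 := by
  intro V E _ _ _ _ s t B J Z ρ a p hZ hJ hp hE
  obtain ⟨A, hA, hl⟩ := Bc.all_MG V E s t (cut s t J) (fun f => if s f ∈ J then t f else s f)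
    (ins s t (ball s t B (a + p * (2 * ρ + 2)) \ J)) Z fun Y hY => by
      refine le_trans (le_of_eq ?_) (exit2_cut hDEN2 hZ hJ hp hE hY)
      rw [cnt_eq, univ_eq_attach, filter_attach (fun f => (if s f ∈ J then t f else s f) ∈ Y),
        card_map, card_attach]
  choose ψ z ε h1 h2 h3 h4 using fun f : cut s t J => Bc.all_WALK V E s t (A f) Z _ (hA f).2
  refine ⟨fun f => if h : f ∈ cut s t J then ψ ⟨f, h⟩ else 0,
    fun f => if h : f ∈ cut s t J then z ⟨f, h⟩ else s f,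
    fun f => if h : f ∈ cut s t J then ε ⟨f, h⟩ else 0, fun f hf => ?_, fun e => ?_⟩
  · simp only [dif_pos hf]
    refine ⟨h1 _, h2 _, fun e he => ?_, h4 _⟩
    have := h3 ⟨f, hf⟩ e
    rw [ind, if_neg fun h => he ((hA _).1 h)] at this
    exact abs_nonpos_iff.1 this
  · rw [← sum_coe_sort]
    calc _ ≤ ∑ f : cut s t J, ind (A f) e := sum_le_sum fun f _ => by
          simpa only [dif_pos f.2] using h3 f e
      _ ≤ 2 := by rw [sum_ind_cnt]; exact_mod_cast hl e

end Pool.Agent.P.MP_40718a_co.Wb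

end

section
/-! Step OBJ2. -/

set_option linter.unusedSectionVars false

namespace Pool.Agent.P.MP_40718a_co.Wb

open Finset ABF Bc

theorem p_OBJ2 (hEXIT2 : S_EXIT2) :
    S_OBJ2 := by
  intro V E _ _ _ _ s t q k c B I J Z ρ a p φ hL hc hN hJ hp hE
  obtain ⟨ps, z, ε, h1, h2⟩ := hEXIT2 V E s t B J Z ρ a p hN hJ hp hE
  obtain ⟨l1, l2, l3, l4, -⟩ := hL
  refine ⟨fun w e => ∑ f ∈ cut s t J, -φ w f * ps f e, fun w e he => ?_, fun e => ?_, fun w => ?_⟩
  · exact sum_eq_zero fun f hf => by rw [(h1 f hf).2.2.1 e he, mul_zero]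
  · calc ∑ w, |∑ f ∈ cut s t J, -φ w f * ps f e|
        ≤ ∑ w, ∑ f ∈ cut s t J, |φ w f| * |ps f e| :=
          sum_le_sum fun w _ => (abs_sum_le_sum_abs _ _).trans
            (le_of_eq (sum_congr rfl fun f _ => by rw [abs_mul, abs_neg]))
      _ = ∑ f ∈ cut s t J, (∑ w, |φ w f|) * |ps f e| := by
          rw [sum_comm]; exact sum_congr rfl fun f _ => by rw [sum_mul]
      _ ≤ ∑ f ∈ cut s t J, (6 * q : ℤ) * |ps f e| :=
          sum_le_sum fun f hf => mul_le_mul_of_nonneg_right (l4 f hf) (abs_nonneg _)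
      _ ≤ 12 * q := by
          rw [← mul_sum]
          have := mul_le_mul_of_nonneg_left (h2 e) (show (0 : ℤ) ≤ 6 * q by positivity)
          linarith
  · have key : ∀ v, vs s t (fun e => φ w e + ∑ f ∈ cut s t J, -φ w f * ps f e) v =
        ∑ f ∈ cut s t J, φ w f * pt (z f) (-ε f) v := by
      intro v
      rw [vs_add, vs_sum, obj_vs s t J (φ w) (l1 w) (l2 w), ← sum_add_distrib]
      refine sum_congr rfl fun f hf => ?_
      rw [vs_mul, (h1 f hf).2.2.2 v]
      unfold pt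
      split_ifs <;> ring
    rcases l3 w with h0 | h0
    · obtain ⟨x, hx, -⟩ := hN (s c) (ball_mono_r (Nat.le_add_right _ _) (hJ hc))
      refine ⟨x, hx, x, hx, 1, -1, Or.inl rfl, Or.inr rfl, fun v => ?_⟩
      rw [key, sum_eq_zero fun f hf => by rw [obj_zero _ _ h0 f hf, zero_mul]]
      unfold pt
      split_ifs <;> simp
    · obtain ⟨f, hf, g, hg, x, y, hx, hy, h3⟩ := obj_two _ _ h0
      refine ⟨z f, (h1 f hf).1, z g, (h1 g hg).1, x * -ε f, y * -ε g, hx.mul (h1 f hf).2.1.neg,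
        hy.mul (h1 g hg).2.1.neg, fun v => ?_⟩
      rw [key, h3 fun f => pt (z f) (-ε f) v]
      unfold pt
      split_ifs <;> simp

end Pool.Agent.P.MP_40718a_co.Wb

end

section
/-! Step YB2. -/

set_option linter.unusedSectionVars false

namespace Pool.Agent.P.MP_40718a_co.Wb

open Finset ABF Bc

theorem p_YB2 :
    S_YB2 := by
  intro V E _ _ _ _ s t q k m ld D I J φ n y hk hl hm hD hy hfar e he
  have hq' : (0 : ℤ) ≤ q := Int.natCast_nonneg q
  have hk' : (240 : ℤ) ≤ k := by exact_mod_cast hk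
  have hm' : (30 : ℤ) ≤ m := by exact_mod_cast hm
  have hl' : 120 * (ld : ℤ) ≤ m := by exact_mod_cast hl
  have h1 : (0 : ℤ) ≤ q * m * (k - 240) := mul_nonneg (by positivity) (by linarith)
  have h2 : (0 : ℤ) ≤ q * k * (m - 30) := mul_nonneg (by positivity) (by linarith)
  have h3 : (0 : ℤ) ≤ q * k * (m - 120 * ld) := mul_nonneg (by positivity) (by linarith)
  have h4 : (0 : ℤ) ≤ q * m := by positivity
  by_cases h : ∃ c ∈ D, s e ∈ J c ∨ t e ∈ J c
  · obtain ⟨c, hc, h⟩ := h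
    rw [hy c hc e h]
    by_cases hg : ∀ w, 0 ≤ n c w
    · have := (all_CAKE V E s t q k m c (I c) (J c) (φ c) (n c) (hD c hc).1
        fun w => ⟨hg w, (hD c hc).2.1 w⟩).2.1 e (he c hc hg)
      linarith
    · have := yb_low (n c) (fun w => φ c w e) (3 * q * k) ((hD c hc).2.2.resolve_left hg)
        ((hD c hc).1.2.2.2.2.1 e)
      linarith
  · have := hfar e fun c hc => ⟨fun a => h ⟨c, hc, .inl a⟩, fun a => h ⟨c, hc, .inr a⟩⟩
    linarith

end Pool.Agent.P.MP_40718a_co.Wb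

end

section
/-! Step PAT2. -/

set_option linter.unusedSectionVars false

namespace Pool.Agent.P.MP_40718a_co.Wb

open Finset ABF Bc

theorem p_PAT2 :
    S_PAT2 := by
  intro V E _ _ _ _ s t C H n A J hc hH hJ hA
  classical
  have h1 := cnt_exists_le (univ.filter fun e => s e ∈ J ∨ t e ∈ J) fun e i => e ∈ A i
  have h2 := h1.trans (sum_le_card_nsmul _ _ _ fun e _ => hA e)
  have h3 := meet_card_le hc J
  have h4 := cnt_add_not fun i : Fin H × Fin H =>
    ∃ e ∈ univ.filter fun e => s e ∈ J ∨ t e ∈ J, e ∈ A i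
  rw [Fintype.card_prod, Fintype.card_fin, cnt_eq (fun i => ¬ _)] at h4
  rw [smul_eq_mul] at h2
  have h5 := Nat.mul_le_mul_right (5 * H) (h3.trans (Nat.mul_le_mul_left 3 hJ))
  have h6 := Nat.mul_le_mul_right H hH
  obtain ⟨S, hS, e⟩ := exists_subset_card_eq (n := C * H) (Nat.le_of_add_le_add_left
    (le_trans (Nat.add_le_add_right (h2.trans h5) _) (le_trans (by nlinarith) h4.ge)))
  refine ⟨fun i => (S.equivFinOfCardEq e).symm i,
    Subtype.val_injective.comp (Equiv.injective _), fun i f hf => ?_⟩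
  have := (mem_filter.1 (hS ((S.equivFinOfCardEq e).symm i).2)).2
  exact not_or.1 fun c => this ⟨f, mem_filter.2 ⟨mem_univ _, c⟩, hf⟩

end Pool.Agent.P.MP_40718a_co.Wb

end

section
/-! Step BLOB2. -/

set_option linter.unusedSectionVars false

namespace Pool.Agent.P.MP_40718a_co.Wb

open Finset ABF Bc

theorem blob2_net {V E : Type} [Fintype V] [Fintype E] [DecidableEq V] [DecidableEq E]
    (s t : E → V) (U : Finset V) (R : ℕ) : ∃ Z : Finset V, (∀ z ∈ Z, ball s t {z} R ⊆ U) ∧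
      (∀ z ∈ Z, ∀ z' ∈ Z, ∀ y, y ∈ ball s t {z} R → y ∈ ball s t {z'} R → z = z') ∧
      ∀ v, ball s t {v} R ⊆ U → ∃ z ∈ Z, z ∈ ball s t {v} (R + R) := by
  classical
  obtain ⟨Z, hZ, hm⟩ := exists_max_image (univ.filter fun Z : Finset V =>
    (∀ z ∈ Z, ball s t {z} R ⊆ U) ∧
      ∀ z ∈ Z, ∀ z' ∈ Z, ∀ y, y ∈ ball s t {z} R → y ∈ ball s t {z'} R → z = z') card
    ⟨∅, by simp⟩
  obtain ⟨hU, hZ⟩ := (mem_filter.1 hZ).2
  refine ⟨Z, hU, hZ, fun v hv => ?_⟩
  by_contra hc
  have h1 : ∀ z ∈ Z, ∀ y, y ∈ ball s t {v} R → y ∈ ball s t {z} R → False :=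
    fun z hz y a b => hc ⟨z, hz, ball_trans a (ball_symm b)⟩
  have h2 : v ∉ Z := fun h => hc ⟨v, h, subset_ball _ (mem_singleton_self v)⟩
  have h3 := hm (insert v Z) (mem_filter.2 ⟨mem_univ _, (forall_mem_insert _ _ _).2 ⟨hv, hU⟩,
    fun z hz z' hz' y a b => by
    rcases mem_insert.1 hz with e | m <;> rcases mem_insert.1 hz' with e' | m'
    · exact e.trans e'.symm
    · exact (h1 _ m' y (e ▸ a) b).elim
    · exact (h1 _ m y (e' ▸ b) a).elim
    · exact hZ z m z' m' y a b⟩)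
  rw [card_insert_of_notMem h2] at h3
  omega

theorem p_BLOB2 :
    S_BLOB2 := by
  intro V E _ _ _ _ s t U H L hc he hV
  choose x x1 x2 x3 using fun z => all_GEO V E s t (H * (L + 1)) z hc he hV
  obtain ⟨Z, Z0, Z1, Z2⟩ := blob2_net s t U (H * (L + 1))
  have hw : ∀ (h : Fin H) (i : ℕ), i < L + 1 → h * (L + 1) + i < H * (L + 1) := fun h i hi =>
    calc h * (L + 1) + i < h * (L + 1) + (L + 1) := by omega
      _ = (h + 1) * (L + 1) := by ring
      _ ≤ H * (L + 1) := Nat.mul_le_mul_right _ h.2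
  have hT : ∀ (h : Fin H) (y : V),
      y ∈ (Z ×ˢ range (L + 1)).image (fun p => x p.1 (h * (L + 1) + p.2)) ↔
        ∃ z ∈ Z, ∃ i < L + 1, x z (h * (L + 1) + i) = y := fun h y => by
    simp only [mem_image, mem_product, mem_range, Prod.exists]
    exact ⟨fun ⟨z, i, ⟨a, b⟩, c⟩ => ⟨z, a, i, b, c⟩, fun ⟨z, a, i, b, c⟩ => ⟨z, i, ⟨a, b⟩, c⟩⟩
  refine ⟨fun h => (Z ×ˢ range (L + 1)).image fun p => x p.1 (h * (L + 1) + p.2),
    fun h h' hne => disjoint_left.2 fun y a b => hne ?_,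
    fun h => ⟨fun y hy => ?_, fun v hv => ?_, fun X hX hd => ?_⟩⟩
  · obtain ⟨z, hz, i, hi, a⟩ := (hT h y).1 a
    obtain ⟨z', hz', i', hi', b⟩ := (hT h' y).1 b
    obtain rfl := Z1 z hz z' hz' y (a ▸ x1 z _ (hw h i hi).le) (b ▸ x1 z' _ (hw h' i' hi').le)
    have e := x2 z _ (hw h i hi).le _ (hw h' i' hi').le (a.trans b.symm)
    have e1 := congrArg (· / (L + 1)) e
    simp only [mul_comm _ (L + 1), Nat.mul_add_div (Nat.succ_pos L), Nat.div_eq_of_lt hi,
      Nat.div_eq_of_lt hi', add_zero] at e1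
    exact Fin.ext e1
  · obtain ⟨z, hz, i, hi, rfl⟩ := (hT h y).1 hy
    exact Z0 z hz (x1 z _ (hw h i hi).le)
  · obtain ⟨z, hz, a⟩ := Z2 v hv
    exact ⟨_, (hT h _).2 ⟨z, hz, 0, Nat.succ_pos L, rfl⟩,
      ball_mono_r (by omega) (ball_trans a (x1 z _ (hw h 0 (Nat.succ_pos L)).le))⟩
  · obtain ⟨y, hy⟩ := hX
    obtain ⟨z, hz, i, hi, rfl⟩ := (hT h y).1 (mem_inter.1 hy).2
    have key := blob_win (P := fun j => x z j ∈ X) (a := h * (L + 1)) (n := L + 1) fun j a b => by
      obtain ⟨k, rfl⟩ := Nat.exists_eq_add_of_le a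
      obtain ⟨e, he⟩ := x3 z _ (hw h k (by omega))
      have m1 := (hT h _).2 ⟨z, hz, k, by omega, rfl⟩
      have m2 := (hT h _).2 ⟨z, hz, k + 1, by omega, rfl⟩
      rw [← add_assoc] at m2
      have m3 : e ∉ cut s t X := fun m => disjoint_left.1 hd m (mem_ins.2 (by
        rcases he with ⟨a, b⟩ | ⟨a, b⟩ <;> rw [a, b] <;> exact ⟨by assumption, by assumption⟩))
      rw [mem_cut] at m3
      rcases he with ⟨a, b⟩ | ⟨a, b⟩ <;> rw [a, b] at m3 <;> tauto
    have h0 := (key i hi).1 (mem_inter.1 hy).1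
    have := card_le_card_of_injOn (s := range (L + 1))
      (t := X ∩ (Z ×ˢ range (L + 1)).image fun p => x p.1 (h * (L + 1) + p.2))
      (fun j => x z (h * (L + 1) + j))
      (fun j hj => mem_inter.2 ⟨(key j (mem_range.1 hj)).2 h0,
        (hT h _).2 ⟨z, hz, j, mem_range.1 hj, rfl⟩⟩) fun j hj j' hj' e => by
        have := x2 z _ (hw h j (mem_range.1 hj)).le _ (hw h j' (mem_range.1 hj')).le e
        omega
    rwa [card_range] at this

end Pool.Agent.P.MP_40718a_co.Wb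

end

section
/-! Step SK2. -/

set_option linter.unusedSectionVars false

namespace Pool.Agent.P.MP_40718a_co.Wb

open Finset ABF Bc

theorem p_SK2 (hBLOB2 : S_BLOB2) :
    S_SK2 := by
  intro V E _ _ _ _ s t U H L hc h1 hs hV
  obtain ⟨T, hd, hT⟩ := hBLOB2 V E s t U H L hc h1 hV
  choose B hB hB' using fun h => all_ST V E s t (T h) (ins s t (T h)) H fun X a b => by
    by_contra hn
    rw [not_or, not_le, ← not_disjoint_iff_nonempty_inter, not_not] at hn
    have a1 := ((hT h).2.2 X a hn.2).trans_le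
      (card_le_card (inter_subset_inter_left (hT h).1))
    have a2 := ((hT h).2.2 Xᶜ (by rwa [inter_comm, ← sdiff_eq_inter_compl])
      (by rw [cut_compl]; exact hn.2)).trans_le (card_le_card (t := U \ (X ∩ U)) fun v hv => by
        obtain ⟨b1, b2⟩ := mem_inter.1 hv
        exact mem_sdiff.2 ⟨(hT h).1 b2, fun b3 => mem_compl.1 b1 (mem_inter.1 b3).1⟩)
    have := hs (X ∩ U) inter_subset_right (le_trans (card_le_card fun e he => by
      simp only [mem_inter, mem_cut, mem_ins] at he ⊢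
      tauto) hn.1.le)
    omega
  refine ⟨fun i => B i.1 i.2, fun i => T i.1, fun i => ⟨hB _ _, (hT _).2.1⟩, fun e => ?_⟩
  have a : cnt (fun i : Fin H × Fin H => e ∈ B i.1 i.2) = ∑ h, cnt fun j => e ∈ B h j := by
    simp only [cnt_eq, card_filter, Fintype.sum_prod_type]
  have b : ∀ h, cnt (fun j => e ∈ B h j) ≤ 4 + if e ∈ ins s t (T h) then H else 0 := fun h => by
    have := cnt_le_card fun j => e ∈ B h j
    rw [Fintype.card_fin] at this
    split_ifs with c
    · omega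
    · exact hB' h e c
  have c : (univ.filter fun h => e ∈ ins s t (T h)).card ≤ 1 := card_le_one.2 fun h a h' b => by
    by_contra hn
    exact disjoint_left.1 (hd h h' hn) (mem_ins.1 (mem_filter.1 a).2).1
      (mem_ins.1 (mem_filter.1 b).2).1
  have d := sum_le_sum fun h (_ : h ∈ univ) => b h
  rw [sum_add_distrib, ← sum_filter, sum_const, sum_const, card_univ, Fintype.card_fin, smul_eq_mul,
    smul_eq_mul] at d
  have := Nat.mul_le_mul_right H c
  beta_reduce
  omega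

end Pool.Agent.P.MP_40718a_co.Wb

end

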