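import Pool.Agent.P.MP_40718a_co.Wb.W1
import Pool.Agent.P.MP_40718a_co.Wb.W2
import Pool.Agent.P.MP_40718a_co.Wb.W3
import Pool.Agent.P.MP_40718a_co.Wb.W4
import Pool.Agent.P.MP_40718a_co.Wb.W5
import Pool.Agent.P.MP_40718a_co.Wb.W6
import Pool.Agent.P.MP_40718a_co.Wb.W7
import Pool.Agent.P.MP_40718a_co.Wb.W8
import Pool.Agent.P.MP_40718a_co.Wb.W9
import Pool.Agent.P.MP_40718a_co.Wb.W10
import Pool.Agent.P.MP_40718a_co.Wb.W11
import Pool.Agent.P.MP_40718a_co.Wb.W12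
import Pool.Agent.P.MP_40718a_co.Wb.W13
import Pool.Agent.P.MP_40718a_co.Wb.W14
import Pool.Agent.P.MP_40718a_co.Wb.W15

/-! Assembly. -/

namespace Pool.Agent.P.MP_40718a_co.Wb

theorem all_GAD2 : S_GAD2 := p_GAD2
theorem all_ISO : S_ISO := p_ISO
theorem all_REP : S_REP := p_REP all_ISO
theorem all_ISO1 : S_ISO1 := p_ISO1 all_ISO
theorem all_ISO2 : S_ISO2 := p_ISO2 all_ISO all_ISO1
theorem all_REPS : S_REPS := p_REPS all_ISO
theorem all_OUT : S_OUT := p_OUT all_ISO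
theorem all_GR : S_GR := p_GR all_GAD2 all_REP all_ISO2 all_REPS all_OUT
theorem all_HALL : S_HALL := p_HALL
theorem all_HW : S_HW := p_HW all_HALL
theorem all_KON : S_KON := p_KON all_HW
theorem all_COVL : S_COVL := p_COVL
theorem all_MINR : S_MINR := p_MINR all_HW all_KON all_COVL
theorem all_TD1 : S_TD1 := p_TD1 all_HALL all_HW
theorem all_TD2 : S_TD2 := p_TD2
theorem all_SPL : S_SPL := p_SPL
theorem all_STU : S_STU := p_STU
theorem all_TB : S_TB := p_TB all_MINR all_TD1 all_TD2 all_HW all_SPL all_COVL all_STU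
theorem all_MINO : S_MINO := p_MINO
theorem all_WT : S_WT := p_WT
theorem all_CHN : S_CHN := p_CHN
theorem all_SEG : S_SEG := p_SEG all_CHN
theorem all_BM : S_BM := p_BM
theorem all_CORE1 : S_CORE1 := p_CORE1 all_CHN all_BM all_WT
theorem all_CORE2 : S_CORE2 := p_CORE2
theorem all_DEEP : S_DEEP := p_DEEP all_MINO all_WT all_CHN all_SEG all_CORE1 all_CORE2
theorem all_TUT3 : S_TUT3 := p_TUT3 all_MINO
theorem all_P4 : S_P4 := p_P4 all_TUT3 all_WT
theorem all_GLC : S_GLC := p_GLC all_CHN all_P4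
theorem all_MRG : S_MRG := p_MRG
theorem all_TUD : S_TUD := p_TUD all_CHN all_GLC all_MRG
theorem all_PEEL : S_PEEL := p_PEEL
theorem all_TUTP : S_TUTP := p_TUTP all_CHN all_PEEL all_MRG
theorem all_TU : S_TU := p_TU all_DEEP all_TUD all_TUTP all_MRG
theorem all_TUB : S_TUB := p_TUB all_WT
theorem all_TAMEU : S_TAMEU := p_TAMEU all_TU all_TUT3 all_TUB all_STU all_COVL
theorem all_LAB : S_LAB := p_LAB
theorem all_TY : S_TY := p_TY
theorem all_TRF : S_TRF := p_TRF all_TY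
theorem all_ALT : S_ALT := p_ALT
theorem all_AL2 : S_AL2 := p_AL2 all_TRF
theorem all_RS0 : S_RS0 := p_RS0 all_TRF all_ALT all_AL2
theorem all_RS1 : S_RS1 := p_RS1 all_RS0 all_TRF
theorem all_RSB : S_RSB := p_RSB all_RS1 all_ALT
theorem all_RSU : S_RSU := p_RSU all_RS1 all_ALT
theorem all_RBASE : S_RBASE := p_RBASE
theorem all_MIN2 : S_MIN2 := p_MIN2
theorem all_CNT2 : S_CNT2 := p_CNT2
theorem all_COPY2 : S_COPY2 := p_COPY2 all_CNT2
theorem all_L02 : S_L02 := p_L02 all_COPY2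
theorem all_L12 : S_L12 := p_L12 all_L02
theorem all_PRE2 : S_PRE2 := p_PRE2 all_MIN2 all_L12
theorem all_BLOB2 : S_BLOB2 := p_BLOB2
theorem all_SK2 : S_SK2 := p_SK2 all_BLOB2
theorem all_PAT2 : S_PAT2 := p_PAT2
theorem all_GEO2 : S_GEO2 := p_GEO2
theorem all_FAR : S_FAR := p_FAR all_PRE2 all_SK2 all_PAT2 all_GEO2
theorem all_MGS : S_MGS := p_MGS
theorem all_OW : S_OW := p_OW all_MGS
theorem all_FAM : S_FAM := p_FAM
theorem all_OWF : S_OWF := p_OWF all_OW all_FAM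
theorem all_WIF : S_WIF := p_WIF all_MGS all_FAM
theorem all_ENV : S_ENV := p_ENV all_OWF all_WIF
theorem all_DEN2 : S_DEN2 := p_DEN2
theorem all_EXIT2 : S_EXIT2 := p_EXIT2 all_DEN2
theorem all_OBJ2 : S_OBJ2 := p_OBJ2 all_EXIT2
theorem all_YB2 : S_YB2 := p_YB2
theorem all_CLS2 : S_CLS2 := p_CLS2 all_OBJ2 all_YB2
theorem all_CUT2 : S_CUT2 := p_CUT2 all_DEN2
theorem all_HCL : S_HCL := p_HCL all_CUT2
theorem all_FA : S_FA := p_FA all_TUT3
theorem all_FB : S_FB := p_FB all_WT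
theorem all_SHELL : S_SHELL := p_SHELL
theorem all_FC1 : S_FC1 := p_FC1 all_WT all_SHELL
theorem all_FC2 : S_FC2 := p_FC2 all_WT
theorem all_FINR : S_FINR := p_FINR all_FA all_FB all_SHELL all_FC1 all_FC2
theorem all_CLF : S_CLF := p_CLF all_CLS2 all_HCL all_FINR
theorem all_BASE0 : S_BASE0 := p_BASE0 all_FAR all_ENV all_CLF all_GEO2 all_COVL
theorem all_PUSH1 : S_PUSH1 := p_PUSH1 all_BM all_WT
theorem all_PUSH : S_PUSH := p_PUSH all_PUSH1 all_TUB all_SPL all_COVL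
theorem all_BASE : S_BASE := p_BASE all_BASE0 all_PUSH all_SPL all_STU all_COVL
theorem all_RMAIN : S_RMAIN := p_RMAIN all_GR all_TB all_TAMEU all_LAB all_RSB all_RSU all_RBASE all_BASE all_STU
theorem all_C23 : S_C23 := p_C23
theorem all_RWT : S_RWT := p_RWT all_RMAIN all_C23
theorem all_EQV : S_EQV := p_EQV all_TUT3 all_WT
theorem all_ASG : S_ASG := p_ASG
theorem all_HL : S_HL := p_HL all_EQV all_ASG
theorem all_CON : S_CON := p_CON
theorem all_GL3 : S_GL3 := p_GL3 all_CON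
theorem all_W2 : S_W2 := p_W2 all_RWT all_HL all_GL3 all_ASG

end Pool.Agent.P.MP_40718a_co.Wb
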