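import Pool.Agent.P.MP_40718a_co.Bc.All
import Pool.Agent.P.MP_40718a_co.ABF.Gad

/-! Covers by a bounded number of perfect matchings: definitions and basic facts. -/

set_option linter.unusedSectionVars false

namespace Pool.Agent.P.MP_40718a_co.Wb

open Finset ABF Bc

section Defs

variable {V E : Type} [Fintype V] [Fintype E] [DecidableEq V] [DecidableEq E]
variable {V' E' : Type} [Fintype V'] [Fintype E'] [DecidableEq V'] [DecidableEq E']

/-- the edges with an end in `A` -/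
def meet (s t : E → V) (A : Finset V) : Finset E := univ.filter fun e => s e ∈ A ∨ t e ∈ A

/-- the ends of the edges of `σ` -/
def endsOf (s t : E → V) (σ : Finset E) : Finset V :=
  univ.filter fun v => ∃ e ∈ σ, s e = v ∨ t e = v

/-- all vertices of `Y` have degree one in `N` -/
def PMon (s t : E → V) (Y : Finset V) (N : Finset E) : Prop := ∀ v ∈ Y, deg s t N v = 1

/-- a perfect matching of the pole `Y` with state `σ` -/
def PMs (s t : E → V) (Y : Finset V) (σ N : Finset E) : Prop :=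
  PMon s t Y N ∧ N ∩ cut s t Y = σ

/-- `σ` is a state of `Y` -/
def St (s t : E → V) (Y : Finset V) (σ : Finset E) : Prop := ∃ N, PMs s t Y σ N

/-- `e` is allowed in the state `σ` -/
def Al (s t : E → V) (Y : Finset V) (σ : Finset E) (e : E) : Prop :=
  ∃ N, PMs s t Y σ N ∧ e ∈ N

/-- `K` matchings with state `σ` cover the allowed inner edges with the property `Rq` -/
def CovR (s t : E → V) (Y : Finset V) (σ : Finset E) (K : ℕ) (Rq : E → Prop) : Prop :=
  ∃ M : Fin K → Finset E, (∀ i, PMs s t Y σ (M i)) ∧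
    ∀ e ∈ ins s t Y, Rq e → Al s t Y σ e → ∃ i, e ∈ M i

/-- `K` inner perfect matchings of `U` cover all edges that lie in an inner perfect matching -/
def Cv (s t : E → V) (U : Finset V) (K : ℕ) : Prop := CovR s t U ∅ K fun _ => True

/-- subsets of `Ω` with at most `a` leaving edges have at most `b` vertices -/
def SmallIn (s t : E → V) (Ω : Finset V) (a b : ℕ) : Prop :=
  ∀ X ⊆ Ω, (cut s t X).card ≤ a → X.card ≤ b

/-- every vertex of `Ω` is within distance `ρ` of `Z` -/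
def NearIn (s t : E → V) (Z : Finset V) (ρ : ℕ) (Ω : Finset V) : Prop :=
  ∀ v ∈ Ω, ∃ z ∈ Z, z ∈ ball s t {v} ρ

/-- `B` induces a bipartite graph -/
def Bip (s t : E → V) (B : Finset V) : Prop :=
  ∃ col : V → Bool, ∀ e ∈ ins s t B, col (s e) ≠ col (t e)

/-- `X` induces a connected graph -/
def Cn (s t : E → V) (X : Finset V) : Prop :=
  ∀ K ⊆ X, K.Nonempty → cut s t K ⊆ cut s t X → K = X

/-- odd sets in `U` whose edges inside `U` lead to `S` -/
def Bar (s t : E → V) (U S : Finset V) (O : Finset (Finset V)) : Prop :=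
  S ⊆ U ∧ Dj O ∧ ∀ X ∈ O, X ⊆ U \ S ∧ Odd X.card ∧
    ∀ e ∈ cut s t X ∩ ins s t U, s e ∈ S ∨ t e ∈ S

/-- a tight pair relative to the matching `M` -/
def GP (s t : E → V) (U : Finset V) (M : Finset E) (S : Finset V) (O : Finset (Finset V)) :
    Prop :=
  Bar s t U S O ∧ S.card ≤ O.card ∧ ∀ X ∈ O, M ∩ cut s t X ⊆ ins s t U

/-- proper subsets with small cut are small -/
def H1 (s t : E → V) (U : Finset V) (g : ℕ → ℕ) (κ : ℕ) : Prop :=
  ∀ X ⊆ U, X ≠ U → (cut s t X).card < κ → X.card ≤ g (cut s t X).card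

/-- bipartite subsets with small cut are small -/
def H2 (s t : E → V) (U : Finset V) (a b : ℕ) : Prop :=
  ∀ B ⊆ U, Bip s t B → (cut s t B).card ≤ a → B.card ≤ b

/-- no tight pair with small members -/
def Red (s t : E → V) (U : Finset V) (b : ℕ) : Prop :=
  ∀ S O, Bar s t U S O → (∀ X ∈ O, X.card ≤ b) → O = ∅ ∨ O.card < S.card

/-- no small inner cut between two large parts -/
def Unsp (s t : E → V) (U : Finset V) (H L : ℕ) : Prop :=
  ∀ X ⊆ U, (cut s t X ∩ ins s t U).card ≤ H → X.card ≤ L ∨ (U \ X).card ≤ L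

/-- an edge that meets `S ∪ T` and does not join `S` to `T` -/
def Dfc (s t : E → V) (S T : Finset V) (e : E) : Prop :=
  (s e ∈ S ∧ t e ∉ T) ∨ (t e ∈ S ∧ s e ∉ T) ∨ (s e ∈ T ∧ t e ∉ S) ∨ (t e ∈ T ∧ s e ∉ S)

/-- an odd set with at most two inner cut edges and with the legs `a` -/
def Gn (s t : E → V) (U : Finset V) (a : Finset E) (X : Finset V) : Prop :=
  X ⊆ U ∧ Odd X.card ∧ (cut s t X ∩ ins s t U).card ≤ 2 ∧ cut s t X ∩ cut s t U = a

/-- the class `D` lies in a set that differs from a member of `Pm` only inside `U` -/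
def Mrg (s t : E → V) (U : Finset V) (Pm : Finset E → Prop) (D : Finset E) : Prop :=
  D = ∅ ∨ ∃ N0 N, Pm N0 ∧ PMon s t U N ∧ (∀ e ∉ ins s t U, e ∈ N ↔ e ∈ N0) ∧ D ⊆ N

/-- `D` splits into `l` such classes -/
def Cl (s t : E → V) (U : Finset V) (Pm : Finset E → Prop) (D : Finset E) (l : ℕ) : Prop :=
  ∃ cls : E → ℕ, (∀ e ∈ D, cls e < l) ∧ ∀ κ, Mrg s t U Pm (D.filter fun e => cls e = κ)

/-- `e` lies in a core `X1 \ X` of a strip: if `e` is used, the cut of the core is not used -/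
def Cor (s t : E → V) (U : Finset V) (b : ℕ) (e : E) (a : Finset E) (X X1 : Finset V) : Prop :=
  Gn s t U a X ∧ Gn s t U a X1 ∧ X ⊆ X1 ∧ (X1 \ X).card ≤ 2 * b ∧ e ∈ ins s t (X1 \ X) ∧
    ∀ M, PMon s t U M → e ∈ M → M ∩ cut s t (X1 \ X) = ∅

/-- the statement of the induction on the size of tight pairs -/
def TUs (b γ l : ℕ) : Prop :=
  ∀ (V E : Type) [Fintype V] [Fintype E] [DecidableEq V] [DecidableEq E] (s t : E → V)
    (U : Finset V) (M0 : Finset E) (Pm : Finset E → Prop) (D : Finset E),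
    Cubic s t → Small s t 3 1 → U ≠ univ → (cut s t U).card ≤ γ → PMon s t U M0 →
    (∀ N, Pm N → PMon s t U N) →
    (∀ e ∈ D, (∃ N, Pm N ∧ e ∈ N) ∧ ∃ S O, GP s t U M0 S O ∧ e ∈ ins s t S ∧ S.card ≤ b) →
    Cl s t U Pm D l

/-- a barrier for the edge function `y` -/
def Brr (s t : E → V) (U : Finset V) (y : E → ℤ) (S : Finset V) (O : Finset (Finset V)) : Prop :=
  S ⊆ U ∧ Dj O ∧ S.card + 2 ≤ O.card ∧ ∀ X ∈ O, X ⊆ U \ S ∧ Odd X.card ∧ Cn s t X ∧
    ∀ e ∈ cut s t X ∩ ins s t U, (s e ∈ S ∨ t e ∈ S) ∨ y e = 0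

/-- the edge function and the classification of odd sets with few cut edges outside `Co` -/
def Wt (s t : E → V) (U : Finset V) (y : E → ℤ) (Q : ℤ) (Co Ex : Finset E) {m : ℕ}
    (Z : Fin m → Finset V) : Prop :=
  0 < Q ∧ (∀ e, 0 ≤ y e) ∧ (∀ v, vs s t y v = Q) ∧ Co ⊆ Ex ∧ (∀ e ∉ Co, 3 * Q ≤ 10 * y e) ∧
    (∀ i, (Z i).Nonempty) ∧
    ∀ X ⊆ U, Odd X.card → Cn s t X → 2 ≤ Xᶜ.card → (cut s t X \ Co).card ≤ 3 →
      X.card = 1 ∨ (cut s t X ⊆ Ex ∧ Q ≤ ∑ e ∈ cut s t X, y e) ∨ ∃ i, Z i ⊆ X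

/-- odd walks, wires and reducedness in the zone `Zn` -/
def Env (s t : E → V) (U Zn : Finset V) (Ex : Finset E) (κ m L L2 : ℕ) : Prop :=
  (∀ S ⊆ U, ∀ T ⊆ U, Disjoint S T → L2 < (S ∩ Zn).card →
    20 * (2 * κ + m) < cnt fun e => e ∈ ins s t U ∧ e ∉ Ex ∧ Dfc s t S T e) ∧
  (∀ X ⊆ U, L < (X ∩ Zn).card → ∀ v ∈ U ∩ Zn, v ∉ X → ∀ F ⊆ meet s t Zn,
    3 * F.card ≤ 2 * κ + 9 → 4 ≤ ((cut s t X \ F) \ Ex).card) ∧
  (∀ X ⊆ U, ∀ X' ⊆ U, Disjoint X X' → L < (X ∩ Zn).card → L < (X' ∩ Zn).card →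
    4 ≤ ((cut s t X \ cut s t U) \ Ex).card) ∧
  Red s t U Zn.card

/-- the edges that meet one of the sets `J c` -/
def exc (s t : E → V) (J : E → Finset V) (D : Finset E) : Finset E :=
  D.biUnion fun c => meet s t (J c)

/-- weak tameness -/
def WTame (s t : E → V) (Y : Finset V) (l : ℕ) : Prop :=
  ∀ τ σ, St s t Y τ → St s t Y σ → CovR s t Y σ l fun e => ¬ Al s t Y τ e

/-- full tameness -/
def FTame (s t : E → V) (Y : Finset V) (l : ℕ) : Prop :=
  ∀ σ, St s t Y σ → CovR s t Y σ l fun _ => True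

/-- the statement of the recursion -/
def RR (s t : E → V) (Y : Finset V) (K θ : ℕ) : Prop :=
  ∀ (Sg : Finset E → Prop) (N : Fin K → Finset E) (τ : Finset E), (∀ i, PMon s t Y (N i)) →
    θ ≤ cnt (fun i => N i ∩ cut s t Y = τ) →
    (∀ e ∈ ins s t Y, (∃ σ, Sg σ ∧ Al s t Y σ e) → ¬ Al s t Y τ e → ∃ i, e ∈ N i) →
    ∃ N' : Fin K → Finset E, (∀ i, PMs s t Y (N i ∩ cut s t Y) (N' i)) ∧
      ∀ e ∈ ins s t Y, (∃ σ, Sg σ ∧ Al s t Y σ e) → ∃ i, e ∈ N' i

/-- `lab` enumerates the cut of `W` -/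
def Lab (s t : E → V) (W : Finset V) {j : ℕ} (lab : Fin j → E) : Prop :=
  Function.Injective lab ∧ ∀ e, e ∈ cut s t W ↔ ∃ i, lab i = e

/-- a perfect matching of the pole `W` that uses the legs with labels in `a` -/
def PMl (s t : E → V) (W : Finset V) {j : ℕ} (lab : Fin j → E) (a : Finset (Fin j))
    (N : Finset E) : Prop := PMon s t W N ∧ gadLabels lab N = a

/-- the states in which `e` is allowed -/
def sig (s t : E → V) (W : Finset V) {j : ℕ} (lab : Fin j → E) (e : E) :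
    Set (Finset (Fin j)) := {a | ∃ N, PMl s t W lab a N ∧ e ∈ N}

/-- matchings with the states `z i` cover the inner edges with signature in `Fm` -/
def CovZ (s t : E → V) (W : Finset V) {j : ℕ} (lab : Fin j → E)
    (Fm : Set (Finset (Fin j)) → Prop) {I : Type} (z : I → Finset (Fin j)) : Prop :=
  ∃ N : I → Finset E, (∀ i, PMl s t W lab (z i) (N i)) ∧
    ∀ e ∈ ins s t W, Fm (sig s t W lab e) → ∃ i, e ∈ N i

/-- `l` matchings of each state are enough for the signatures in `Fm` -/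
def TameF (s t : E → V) (W : Finset V) {j : ℕ} (lab : Fin j → E) (l : ℕ)
    (Fm : Set (Finset (Fin j)) → Prop) : Prop :=
  ∀ a, (∃ N, PMl s t W lab a N) →
    CovZ s t W lab (fun sg => Fm sg ∧ a ∈ sg) fun _ : Fin l => a

/-- tameness with labels: full for `true`, weak for `false` -/
def Tm (full : Bool) (s t : E → V) (W : Finset V) {j : ℕ} (lab : Fin j → E) (l : ℕ) : Prop :=
  ∀ τ, (∃ N, PMl s t W lab τ N) → TameF s t W lab l fun sg => full = true ∨ τ ∉ sg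

/-- connectivity data -/
def Con (s t : E → V) (W : Finset V) {j : ℕ} (lab : Fin j → E) (π : Finset (Fin j))
    (c f1 f2 : ℕ) : Prop :=
  ∃ X ⊆ W, gadLabels lab (cut s t X) = π ∧ (cut s t X ∩ ins s t W).card = c ∧
    min X.card 2 = f1 ∧ min (W \ X).card 2 = f2

/-- two labelled poles have the same type -/
def SameT (l : ℕ) {j : ℕ} (s t : E → V) (W : Finset V) (lab : Fin j → E)
    (s' t' : E' → V') (W' : Finset V') (lab' : Fin j → E') : Prop :=
  (∀ n ≤ 2 ^ j * l, ∀ (z : Fin n → Finset (Fin j)) (Fm : Set (Finset (Fin j)) → Prop),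
    CovZ s t W lab Fm z ↔ CovZ s' t' W' lab' Fm z) ∧
  ∀ π, ∀ c ≤ 3, ∀ f1 f2, Con s t W lab π c f1 f2 ↔ Con s' t' W' lab' π c f1 f2

/-- isomorphism of the vertex sets `A`, `A'` with the edges that meet them -/
def Iso (s t : E → V) (A : Finset V) (s' t' : E' → V') (A' : Finset V') (f : V → V')
    (g : E → E') : Prop :=
  Set.BijOn f A A' ∧ Set.BijOn g (meet s t A) (meet s' t' A') ∧
    ∀ e ∈ meet s t A, ∀ v ∈ A, (s e = v ∨ t e = v) ↔ (s' (g e) = f v ∨ t' (g e) = f v)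

/-- the parts of `Y` outside `Y1` and of `Z` outside `Z1` correspond -/
def Out (s t : E → V) (Y Y1 : Finset V) (s' t' : E' → V') (Z Z1 : Finset V') (g : E → E')
    (g' : E' → E) : Prop :=
  Y1 ⊆ Y ∧ Z1 ⊆ Z ∧
  (∀ e ∉ ins s t Y1, g e ∉ ins s' t' Z1 ∧ g' (g e) = e ∧ (e ∈ cut s t Y ↔ g e ∈ cut s' t' Z) ∧
    (e ∈ cut s t Y1 ↔ g e ∈ cut s' t' Z1) ∧ (e ∈ ins s t Y ↔ g e ∈ ins s' t' Z)) ∧
  (∀ e ∉ ins s' t' Z1, g' e ∉ ins s t Y1 ∧ g (g' e) = e) ∧
  ∀ N N', (∀ e ∉ ins s t Y1, e ∈ N ↔ g e ∈ N') →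
    (PMon s t (Y \ Y1) N ↔ PMon s' t' (Z \ Z1) N')

/-- every edge lies in at least one and at most `K - S` of the matchings -/
def Bal (K S : ℕ) (M : Fin K → Finset E) (e : E) : Prop :=
  1 ≤ cnt (fun i => e ∈ M i) ∧ cnt (fun i => e ∈ M i) + S ≤ K

/-- the rooted invariant of the reduction over small cuts -/
def PP (s t : E → V) (K S : ℕ) : Prop :=
  ∀ (v : V) (r : Fin K → E), (∀ i, r i ∈ cut s t {v}) →
    (∀ e ∈ cut s t {v}, Bal K S (fun i => {r i}) e) →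
    ∃ M : Fin K → Finset E, (∀ i, PM s t (M i) ∧ r i ∈ M i) ∧ ∀ e, Bal K S M e

/-- rooted covers -/
def RW (s t : E → V) (K : ℕ) : Prop :=
  ∀ e, ∃ M : Fin K → Finset E, (∀ i, PM s t (M i) ∧ e ∈ M i) ∧
    ∀ f, (∃ N, PM s t N ∧ e ∈ N ∧ f ∈ N) → ∃ i, f ∈ M i

/-- every cut with three edges is trivial -/
def No3 (s t : E → V) : Prop :=
  ∀ X : Finset V, (cut s t X).card = 3 → X.card ≤ 1 ∨ Xᶜ.card ≤ 1

variable {s t : E → V} {s' t' : E' → V'} {U Y X A : Finset V} {N M σ : Finset E}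

@[simp] theorem mem_meet {e : E} : e ∈ meet s t A ↔ s e ∈ A ∨ t e ∈ A := by simp [meet]

theorem mem_endsOf {v : V} : v ∈ endsOf s t σ ↔ ∃ e ∈ σ, s e = v ∨ t e = v := by
  simp only [endsOf, mem_filter, mem_univ, true_and]

theorem meet_card (h : Cubic s t) (A : Finset V) : (meet s t A).card ≤ 3 * A.card :=
  meet_card_le h A

theorem meet_eq (A : Finset V) : meet s t A = ins s t A ∪ cut s t A := by
  ext e; simp only [mem_meet, mem_union, mem_ins, mem_cut]; tauto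

theorem meet_mono {B : Finset V} (h : A ⊆ B) : meet s t A ⊆ meet s t B := by
  intro e he; rw [mem_meet] at he ⊢; exact he.imp (@h _) (@h _)

theorem meet_compl (A : Finset V) : meet s t Aᶜ = (ins s t A)ᶜ := by
  ext e; simp only [mem_meet, mem_compl, mem_ins]; tauto

theorem endsOf_card (σ : Finset E) : (endsOf s t σ).card ≤ 2 * σ.card := by
  have : endsOf s t σ ⊆ σ.image s ∪ σ.image t := by
    intro v hv
    obtain ⟨e, he, h⟩ := mem_endsOf.1 hv
    rcases h with h | h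
    · exact mem_union_left _ (mem_image.2 ⟨e, he, h⟩)
    · exact mem_union_right _ (mem_image.2 ⟨e, he, h⟩)
  have h1 := (card_le_card this).trans (card_union_le _ _)
  have h2 : (σ.image s).card ≤ σ.card := card_image_le
  have h3 : (σ.image t).card ≤ σ.card := card_image_le
  omega

theorem PMon.mono (h : PMon s t Y N) (h' : X ⊆ Y) : PMon s t X N := fun v hv => h v (h' hv)

/-- only the edges that meet `Y` matter -/
theorem PMon.congr (h : PMon s t Y N) (h' : ∀ e ∈ meet s t Y, e ∈ N ↔ e ∈ M) : PMon s t Y M := by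
  intro v hv
  rw [← h v hv]
  refine deg_congr fun e he => (h' e ?_).symm
  rcases he with rfl | rfl <;> simp [hv]

theorem PMon.pms (h : PMon s t Y N) : PMs s t Y (N ∩ cut s t Y) N := ⟨h, rfl⟩

theorem PMs.sub (h : PMs s t Y σ N) : σ ⊆ cut s t Y := h.2 ▸ inter_subset_right

theorem PMs.st (h : PMs s t Y σ N) : St s t Y σ := ⟨N, h⟩

theorem Al.st {e : E} (h : Al s t Y σ e) : St s t Y σ := let ⟨N, h, _⟩ := h; ⟨N, h⟩

/-- gluing: `N` outside `X`, `M` inside `X` -/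
theorem glue (hN : PMon s t (Y \ X) N) (hM : PMon s t X M)
    (h : ∀ e ∈ cut s t X, e ∈ N ↔ e ∈ M) :
    PMon s t Y ((N \ ins s t X) ∪ (M ∩ ins s t X)) := by
  intro v hv
  by_cases hX : v ∈ X
  · rw [← hM v hX]
    refine deg_congr fun e he => ?_
    have := h e
    simp only [mem_union, mem_sdiff, mem_inter, mem_ins, mem_cut] at this ⊢
    rcases he with rfl | rfl <;> tauto
  · rw [← hN v (mem_sdiff.2 ⟨hv, hX⟩)]
    refine deg_congr fun e he => ?_
    simp only [mem_union, mem_sdiff, mem_inter, mem_ins]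
    rcases he with rfl | rfl <;> tauto

theorem mem_glue_out {e : E} (h : e ∉ ins s t X) :
    e ∈ (N \ ins s t X) ∪ (M ∩ ins s t X) ↔ e ∈ N := by
  simp only [mem_union, mem_sdiff, mem_inter]; tauto

theorem mem_glue_in {e : E} (h : e ∈ ins s t X) :
    e ∈ (N \ ins s t X) ∪ (M ∩ ins s t X) ↔ e ∈ M := by
  simp only [mem_union, mem_sdiff, mem_inter]; tauto

theorem not_ins_of_cut (h : X ⊆ Y) {e : E} (he : e ∈ cut s t Y) : e ∉ ins s t X := by
  intro h1; rw [mem_ins] at h1; rw [mem_cut] at he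
  exact he ⟨fun _ => h h1.2, fun _ => h h1.1⟩

/-- the cut of a subset of `U` consists of inner edges and of legs -/
theorem cut_split (h : X ⊆ U) :
    (cut s t X).card = (cut s t X ∩ ins s t U).card + (cut s t X ∩ cut s t U).card := by
  rw [← card_union_of_disjoint ((disjoint_ins_cut U).mono inter_subset_right inter_subset_right),
    ← inter_union_distrib_left, ← meet_eq]
  congr 1
  ext e
  have h1 := @h (s e)
  have h2 := @h (t e)
  simp only [mem_cut, mem_inter, mem_meet]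
  tauto

theorem even_of_pms (h : PMs s t U ∅ M) : Even U.card := by
  have := parity_of_odd (s := s) (t := t) (M := M) (X := U)
    fun v hv => by rw [h.1 v hv]; exact odd_one
  simpa [h.2] using this

theorem Bip.mono {B B' : Finset V} (h : Bip s t B) (h' : B' ⊆ B) : Bip s t B' :=
  let ⟨c, hc⟩ := h; ⟨c, fun e he => hc e (ins_mono h' he)⟩

theorem H1.mono {g : ℕ → ℕ} {κ : ℕ} (h : H1 s t U g κ) (h' : X ⊆ U) : H1 s t X g κ := by
  intro Z hZ hne
  refine h Z (hZ.trans h') ?_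
  rintro rfl
  exact hne (Subset.antisymm hZ h')

theorem H2.mono {a a' b b' : ℕ} (h : H2 s t U a b) (h' : X ⊆ U) (ha : a' ≤ a) (hb : b ≤ b') :
    H2 s t X a' b' := fun B hB h1 h2 => (h B (hB.trans h') h1 (h2.trans ha)).trans hb

theorem SmallIn.mono {Ω Ω' : Finset V} {a a' b b' : ℕ} (h : SmallIn s t Ω a b) (h' : Ω' ⊆ Ω)
    (ha : a' ≤ a) (hb : b ≤ b') : SmallIn s t Ω' a' b' :=
  fun X hX h1 => (h X (hX.trans h') (h1.trans ha)).trans hb

theorem NearIn.mono {Z Ω Ω' : Finset V} {ρ : ℕ} (h : NearIn s t Z ρ Ω) (h' : Ω' ⊆ Ω) :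
    NearIn s t Z ρ Ω' := fun v hv => h v (h' hv)

theorem mem_gadLabels {j : ℕ} {lab : Fin j → E} {i : Fin j} :
    i ∈ gadLabels lab N ↔ lab i ∈ N := by simp [gadLabels]

theorem Lab.inter {j : ℕ} {lab : Fin j → E} (h : Lab s t Y lab) (N : Finset E) :
    N ∩ cut s t Y = (gadLabels lab N).image lab := by
  ext e
  simp only [mem_inter, h.2, mem_image, mem_gadLabels]
  constructor
  · rintro ⟨h1, i, rfl⟩
    exact ⟨i, h1, rfl⟩
  · rintro ⟨i, h1, rfl⟩
    exact ⟨h1, i, rfl⟩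

theorem Lab.labels_eq {j : ℕ} {lab : Fin j → E} (h : Lab s t Y lab) :
    gadLabels lab N = gadLabels lab M ↔ ∀ e ∈ cut s t Y, e ∈ N ↔ e ∈ M := by
  constructor
  · intro h1 e he
    obtain ⟨i, rfl⟩ := (h.2 e).1 he
    rw [← mem_gadLabels, h1, mem_gadLabels]
  · intro h1
    ext i
    rw [mem_gadLabels, mem_gadLabels]
    exact h1 _ ((h.2 _).2 ⟨i, rfl⟩)

theorem Lab.pml {j : ℕ} {lab : Fin j → E} (h : Lab s t Y lab) {a : Finset (Fin j)} :
    PMl s t Y lab a N ↔ PMs s t Y (a.image lab) N := by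
  unfold PMl PMs
  rw [h.inter, (image_injective h.1).eq_iff]

theorem Lab.card {j : ℕ} {lab : Fin j → E} (h : Lab s t Y lab) : (cut s t Y).card = j := by
  have : cut s t Y = univ.image lab := by ext e; simp [h.2 e, -mem_cut]
  rw [this, card_image_of_injective _ h.1]; simp

theorem exists_lab (Y : Finset V) : ∃ lab : Fin (cut s t Y).card → E, Lab s t Y lab :=
  ⟨fun i => ((cut s t Y).equivFin.symm i : E),
    Subtype.val_injective.comp (cut s t Y).equivFin.symm.injective,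
    fun e => ⟨fun he => ⟨(cut s t Y).equivFin ⟨e, he⟩, by simp⟩, by
      rintro ⟨i, rfl⟩
      exact ((cut s t Y).equivFin.symm i).2⟩⟩

theorem TameF.mono {j l : ℕ} {lab : Fin j → E} {Fm Fm' : Set (Finset (Fin j)) → Prop}
    (h : TameF s t Y lab l Fm) (h' : ∀ sg, Fm' sg → Fm sg) : TameF s t Y lab l Fm' := by
  intro a ha
  obtain ⟨N, h1, h2⟩ := h a ha
  exact ⟨N, h1, fun e he h3 => h2 e he ⟨h' _ h3.1, h3.2⟩⟩

theorem tameF_false {j l : ℕ} {lab : Fin j → E} : TameF s t Y lab l fun _ => False := by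
  rintro a ⟨N, hN⟩
  exact ⟨fun _ => N, fun _ => hN, fun e _ h => h.1.elim⟩

theorem SameT.symm {l j : ℕ} {W : Finset V} {lab : Fin j → E} {W' : Finset V'}
    {lab' : Fin j → E'} (h : SameT l s t W lab s' t' W' lab') :
    SameT l s' t' W' lab' s t W lab :=
  ⟨fun n hn z Fm => (h.1 n hn z Fm).symm, fun π c hc f1 f2 => (h.2 π c hc f1 f2).symm⟩

theorem Out.symm {Y1 : Finset V} {Z Z1 : Finset V'} {g : E → E'} {g' : E' → E}
    (h : Out s t Y Y1 s' t' Z Z1 g g') : Out s' t' Z Z1 s t Y Y1 g' g := by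
  obtain ⟨h1, h2, h3, h4, h5⟩ := h
  refine ⟨h2, h1, fun e he => ?_, fun e he => ⟨(h3 e he).1, (h3 e he).2.1⟩, fun N N' h => ?_⟩
  · obtain ⟨a, b⟩ := h4 e he
    obtain ⟨-, -, c1, c2, c3⟩ := h3 _ a
    rw [b] at c1 c2 c3
    exact ⟨a, b, c1.symm, c2.symm, c3.symm⟩
  · refine (h5 N' N fun e he => ?_).symm
    rw [h _ (h3 e he).1, (h3 e he).2.1]

section Out

variable {Y1 : Finset V} {Z Z1 : Finset V'} {g : E → E'} {g' : E' → E} {N' : Finset E'}

theorem Out.agree_symm (h : Out s t Y Y1 s' t' Z Z1 g g')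
    (ha : ∀ e ∉ ins s t Y1, e ∈ N ↔ g e ∈ N') : ∀ e ∉ ins s' t' Z1, e ∈ N' ↔ g' e ∈ N := by
  intro e he
  obtain ⟨a, b⟩ := h.2.2.2.1 e he
  rw [ha _ a, b]

theorem Out.cut_image (h : Out s t Y Y1 s' t' Z Z1 g g')
    (ha : ∀ e ∈ cut s t Y, e ∈ N ↔ g e ∈ N') :
    N' ∩ cut s' t' Z = (N ∩ cut s t Y).image g := by
  ext e
  simp only [mem_inter, mem_image]
  constructor
  · rintro ⟨h1, h2⟩
    obtain ⟨a, b⟩ := h.2.2.2.1 e (not_ins_of_cut h.2.1 h2)
    have c : g' e ∈ cut s t Y := (h.2.2.1 _ a).2.2.1.2 (by rw [b]; exact h2)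
    exact ⟨g' e, ⟨(ha _ c).2 (by rw [b]; exact h1), c⟩, b⟩
  · rintro ⟨f, ⟨h1, h2⟩, rfl⟩
    exact ⟨(ha f h2).1 h1, (h.2.2.1 f (not_ins_of_cut h.1 h2)).2.2.1.1 h2⟩

theorem Out.mem_image (h : Out s t Y Y1 s' t' Z Z1 g g') (hσ : σ ⊆ cut s t Y) {e : E}
    (he : e ∉ ins s t Y1) : g e ∈ σ.image g ↔ e ∈ σ := by
  refine ⟨fun h1 => ?_, mem_image_of_mem g⟩
  obtain ⟨f, hf, h2⟩ := Finset.mem_image.1 h1
  have a := (h.2.2.1 f (not_ins_of_cut h.1 (hσ hf))).2.1
  rw [h2, (h.2.2.1 e he).2.1] at a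
  exact a ▸ hf

theorem Out.image_inj (h : Out s t Y Y1 s' t' Z Z1 g g') {τ : Finset E} (hσ : σ ⊆ cut s t Y)
    (hτ : τ ⊆ cut s t Y) (h1 : σ.image g = τ.image g) : σ = τ := by
  ext e
  by_cases he : e ∈ cut s t Y
  · have he' := not_ins_of_cut h.1 he
    rw [← h.mem_image hσ he', h1, h.mem_image hτ he']
  · exact ⟨fun a => (he (hσ a)).elim, fun a => (he (hτ a)).elim⟩

theorem Lab.labels_agree {j : ℕ} {lab : Fin j → E} {lab' : Fin j → E'} (hl : Lab s t Y1 lab)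
    (hg : ∀ i, lab' i = g (lab i)) (ha : ∀ e ∉ ins s t Y1, e ∈ N ↔ g e ∈ N') :
    gadLabels lab' N' = gadLabels lab N := by
  ext i
  rw [mem_gadLabels, mem_gadLabels, hg]
  exact (ha _ (not_ins_of_cut (Subset.refl _) ((hl.2 _).2 ⟨i, rfl⟩))).symm

theorem Out.lab_symm {j : ℕ} {lab : Fin j → E} {lab' : Fin j → E'}
    (h : Out s t Y Y1 s' t' Z Z1 g g') (hl : Lab s t Y1 lab) (hg : ∀ i, lab' i = g (lab i)) :
    ∀ i, lab i = g' (lab' i) := fun i => by
  rw [hg, (h.2.2.1 _ (not_ins_of_cut (Subset.refl _) ((hl.2 _).2 ⟨i, rfl⟩))).2.1]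

end Out

end Defs

end Pool.Agent.P.MP_40718a_co.Wb
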