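import Pool.Agent.P.MP_40718a_co.Wb.Iface

section
/-! Step MINO. -/

set_option linter.unusedSectionVars false

namespace Pool.Agent.P.MP_40718a_co.Wb

open Finset ABF Bc

theorem mino_one {V E : Type} [Fintype V] [Fintype E] [DecidableEq V] [DecidableEq E]
    (s t : E → V) (X : Finset V) : ∃ K : Finset V, Odd X.card →
      Odd K.card ∧ Cn s t K ∧ K ⊆ X ∧ cut s t K ⊆ cut s t X := by
  by_cases hX : Odd X.card
  swap
  · exact ⟨∅, fun h => absurd h hX⟩
  obtain ⟨K, hK, hmin⟩ := exists_min_image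
    (X.powerset.filter fun K => Odd K.card ∧ cut s t K ⊆ cut s t X) card ⟨X, by simp [hX]⟩
  simp only [mem_filter, mem_powerset] at hK hmin
  refine ⟨K, fun _ => ⟨hK.2.1, fun K' h1 h2 h3 => ?_, hK.1, hK.2.2⟩⟩
  by_cases ho : Odd K'.card
  · exact eq_of_subset_of_card_le h1 (hmin K' ⟨h1.trans hK.1, ho, h3.trans hK.2.2⟩)
  · have h4 := card_sdiff_add_card_eq_card h1
    have h5 := hK.2.1
    have h6 := card_pos.2 h2
    have h7 := hmin (K \ K') ⟨sdiff_subset.trans hK.1, by grind,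
      (cut_sdiff_subset h1 h3).trans hK.2.2⟩
    omega

theorem p_MINO :
    S_MINO := by
  intro V E _ _ _ _ s t O hD hO
  choose k hk using mino_one s t
  have hd : ∀ X ∈ O, ∀ Y ∈ O, X ≠ Y → Disjoint (k X) (k Y) := fun X hX Y hY h =>
    (hD X hX Y hY h).mono (hk X (hO X hX)).2.2.1 (hk Y (hO Y hY)).2.2.1
  refine ⟨O.image k, ?_, card_image_of_injOn fun X hX Y hY h => ?_, fun K hK => ?_⟩
  · intro K hK K' hK' hne
    obtain ⟨X, hX, rfl⟩ := mem_image.1 hK
    obtain ⟨Y, hY, rfl⟩ := mem_image.1 hK'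
    exact hd X hX Y hY fun h => hne (h ▸ rfl)
  · by_contra hne
    have h1 := hd X hX Y hY hne
    have h2 := (hk Y (hO Y hY)).1
    rw [h, disjoint_self_iff_empty] at h1
    simp [h1] at h2
  · obtain ⟨X, hX, rfl⟩ := mem_image.1 hK
    obtain ⟨a, b, c, d⟩ := hk X (hO X hX)
    exact ⟨a, b, X, hX, c, d⟩

end Pool.Agent.P.MP_40718a_co.Wb

end

section
/-! Step TUT3. -/

set_option linter.unusedSectionVars false

namespace Pool.Agent.P.MP_40718a_co.Wb

open Finset ABF Bc

theorem p_TUT3 (hMINO : S_MINO) :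
    S_TUT3 := by
  intro V E _ _ _ _ s t U F hU hF
  refine or_iff_not_imp_right.2 fun hn => all_TUT V E s t U F fun S O hS hD hO => ?_
  have key : ∀ O : Finset (Finset V), Dj O → (∀ X ∈ O, X ⊆ U \ S ∧ Odd X.card ∧
      ∀ e ∈ cut s t X ∩ F, s e ∈ S ∨ t e ∈ S) → O.card ≤ S.card + 1 := fun O hD hO => by
    obtain ⟨O', a1, a2, a3⟩ := hMINO V E s t O hD fun X hX => (hO X hX).2.1
    by_contra e
    refine hn ⟨S, O', hS, a1, by omega, fun K hK => ?_⟩
    obtain ⟨b1, b2, X, b3, b4, b5⟩ := a3 K hK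
    exact ⟨b4.trans (hO X b3).1, b1, b2, fun e he =>
      (hO X b3).2.2 e (inter_subset_inter_right b5 he)⟩
  by_contra hc
  have h1 := key O hD hO
  have h2 : O.biUnion id ⊆ U \ S := biUnion_subset.2 fun X hX => (hO X hX).1
  have h3 : (O.biUnion id).card % 2 = O.card % 2 := by
    rw [card_biUnion (t := id) fun X hX Y hY e => hD X hX Y hY e, sum_nat_mod,
      sum_congr rfl (f := fun X => #(id X) % 2) fun X hX => Nat.odd_iff.1 (hO X hX).2.1]
    simp
  have h4 := card_sdiff_add_card_eq_card h2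
  have h5 := card_sdiff_add_card_eq_card hS
  have h6 : Odd ((U \ S) \ O.biUnion id).card := by
    rw [Nat.even_iff] at hU
    rw [Nat.odd_iff]
    omega
  have h7 : ∀ X ∈ O, Disjoint ((U \ S) \ O.biUnion id) X := fun X hX =>
    sdiff_disjoint.mono_right (subset_biUnion_of_mem id hX)
  have h8 : (U \ S) \ O.biUnion id ∉ O := fun h => by
    rw [disjoint_self.1 (h7 _ h)] at h6
    simp at h6
  have h9 := key (insert ((U \ S) \ O.biUnion id) O) (fun X hX Y hY e => by
    rcases mem_insert.1 hX with rfl | h <;> rcases mem_insert.1 hY with rfl | h'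
    exacts [absurd rfl e, h7 _ h', (h7 _ h).symm, hD X h Y h' e]) fun X hX => by
      rcases mem_insert.1 hX with rfl | h
      · refine ⟨sdiff_subset, h6, fun e he => ?_⟩
        by_contra hs
        obtain ⟨a1, a2⟩ := mem_inter.1 he
        have a3 := mem_ins.1 (hF a2)
        have a4 : ∀ X ∈ O, s e ∈ X ↔ t e ∈ X := fun X hX => by
          by_contra a
          exact hs ((hO X hX).2.2 e (mem_inter.2 ⟨mem_cut.2 a, a2⟩))
        rw [not_or] at hs
        refine mem_cut.1 a1 ?_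
        simp only [mem_sdiff, mem_biUnion, a3, hs, id]
        exact and_congr_right fun _ => not_congr (exists_congr fun X => and_congr_right (a4 X))
      · exact hO X h
  rw [card_insert_of_notMem h8] at h9
  omega

end Pool.Agent.P.MP_40718a_co.Wb

end

section
/-! Step BM. -/

set_option linter.unusedSectionVars false

namespace Pool.Agent.P.MP_40718a_co.Wb

open Finset ABF Bc

theorem p_BM :
    S_BM := by
  intro V E _ _ _ _ s t U S O M hM hB hI
  obtain ⟨hSU, hD, hO⟩ := hB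
  have key : ∀ X : Finset V, X ∈ O → ∃ w ∈ S, ∃ e ∈ M, e ∈ cut s t X ∧ (s e = w ∨ t e = w) := by
    intro X hX
    obtain ⟨h1, h2, h3⟩ := hO X hX
    have h4 := odd_cut (s := s) (t := t) (M := M) (X := X)
      (fun v hv => hM v (mem_sdiff.1 (h1 hv)).1) h2
    obtain ⟨e, he⟩ := card_pos.1 h4.pos
    have h5 := mem_inter.1 he
    rcases h3 e (mem_inter.2 ⟨h5.2, hI X hX he⟩) with h | h
    · exact ⟨_, h, e, h5.1, h5.2, Or.inl rfl⟩
    · exact ⟨_, h, e, h5.1, h5.2, Or.inr rfl⟩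
  choose w hw e heM hec hew using key
  have hinj : ∀ X X' hX hX', w X hX = w X' hX' → X = X' := by
    intro X X' hX hX' h
    by_contra hne
    have h1 : e X hX = e X' hX' :=
      edge_unique (hM _ (hSU (hw X hX))).le (heM X hX) (heM X' hX') (hew X hX) (h ▸ hew X' hX')
    have h2 := mem_cut.1 (hec X hX)
    have h3 := mem_cut.1 (h1 ▸ hec X' hX')
    have h4 : w X hX ∉ X := fun h => (mem_sdiff.1 ((hO X hX).1 h)).2 (hw X hX)
    have h5 : w X hX ∉ X' := fun h => (mem_sdiff.1 ((hO X' hX').1 h)).2 (hw X hX)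
    have h6 := disjoint_left.1 (hD X hX X' hX' hne)
    rcases hew X hX with h7 | h7
    · rw [h7] at h2 h3
      exact h6 (a := t (e X hX)) (by tauto) (by tauto)
    · rw [h7] at h2 h3
      exact h6 (a := s (e X hX)) (by tauto) (by tauto)
  refine ⟨?_, fun hc f hf => ?_⟩
  · rw [← card_attach (s := O)]
    exact card_le_card_of_injOn (fun X => w X.1 X.2) (fun X _ => hw X.1 X.2)
      fun X _ X' _ h => Subtype.ext (hinj _ _ _ _ h)
  · obtain ⟨hfM, hfS⟩ := mem_inter.1 hf
    have hs : ∃ v ∈ S, s f = v ∨ t f = v := by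
      rcases (mem_filter.1 hfS).2 with h | h
      · exact ⟨_, h, Or.inl rfl⟩
      · exact ⟨_, h, Or.inr rfl⟩
    obtain ⟨v, hv, hfv⟩ := hs
    obtain ⟨X, hX, rfl⟩ := surj_on_of_inj_on_of_card_le w hw hinj hc v hv
    exact ⟨X, hX, edge_unique (hM _ (hSU hv)).le (heM X hX) hfM (hew X hX) hfv ▸ hec X hX⟩

end Pool.Agent.P.MP_40718a_co.Wb

end

section
/-! Step WT. -/

set_option linter.unusedSectionVars false

namespace Pool.Agent.P.MP_40718a_co.Wb

open Finset ABF Bc

theorem p_WT :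
    S_WT := by
  intro V E _ _ _ _ s t S O E1 hD hS h1 h2
  have A : ∀ (y : E → ℤ) (Q : ℤ), (∀ e, 0 ≤ y e) → (∀ v ∈ S, vs s t y v = Q) →
      ∑ X ∈ O, ∑ e ∈ cut s t X ∩ meet s t S, y e + ∑ e ∈ E1, y e + ∑ e ∈ ins s t S, y e ≤
        S.card * Q := by
    intro y Q hy hQ
    have d1 : (O : Set (Finset V)).PairwiseDisjoint fun X => cut s t X ∩ meet s t S := by
      intro X hX Y hY h
      refine disjoint_left.2 fun e a b => ?_
      have c1 := disjoint_left.1 (hD X hX Y hY h)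
      have c2 := disjoint_left.1 (hS X hX)
      have c3 := disjoint_left.1 (hS Y hY)
      simp only [mem_inter, mem_cut, mem_meet] at a b
      have := @c1 (s e); have := @c1 (t e); have := @c2 (s e); have := @c2 (t e)
      have := @c3 (s e); have := @c3 (t e)
      grind
    have d2 : Disjoint (O.biUnion fun X => cut s t X ∩ meet s t S) E1 :=
      (disjoint_biUnion_left _ _ _).2 fun X hX => ((h2 X hX).symm.mono_left inter_subset_left)
    have d3 := sum_le_sum_of_subset_of_nonneg (f := y)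
      (union_subset (biUnion_subset.2 fun X (_ : X ∈ O) =>
        (inter_subset_right : cut s t X ∩ meet s t S ⊆ _)) h1) fun e _ _ => hy e
    rw [sum_union d2, sum_biUnion d1, meet_eq, sum_union (disjoint_ins_cut S)] at d3
    have d4 := sum_vs (s := s) (t := t) y S
    rw [sum_congr rfl hQ, sum_const, nsmul_eq_mul] at d4
    rw [meet_eq]
    linarith
  refine ⟨A, fun h => ?_, fun U hU => ?_⟩
  · have := A (fun _ => 1) (3 * 1) (fun _ => zero_le_one) fun v _ => vs_const h 1 v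
    simp only [sum_const, nsmul_eq_mul, mul_one] at this
    zify
    linarith
  · rw [← card_biUnion]
    · refine card_le_card (biUnion_subset.2 fun X hX e he => ?_)
      simp only [mem_inter, mem_cut, mem_biUnion, id] at he ⊢
      have a1 : ∀ v, (∃ a ∈ O, v ∈ a) → v ∈ U := fun v ⟨a, h, h'⟩ => hU a h h'
      have a2 : ∀ v ∈ X, ∃ a ∈ O, v ∈ a := fun v h => ⟨X, hX, h⟩
      have := a1 (s e); have := a1 (t e); have := a2 (s e); have := a2 (t e)
      grind
    · intro X hX Y hY h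
      refine disjoint_left.2 fun e a b => ?_
      have c1 := disjoint_left.1 (hD X hX Y hY h)
      simp only [mem_inter, mem_cut] at a b
      have := @c1 (s e); have := @c1 (t e); have := @hU X hX (s e); have := @hU X hX (t e)
      have := @hU Y hY (s e); have := @hU Y hY (t e)
      grind

end Pool.Agent.P.MP_40718a_co.Wb

end

section
/-! Step COVL. -/

set_option linter.unusedSectionVars false

namespace Pool.Agent.P.MP_40718a_co.Wb

open Finset ABF Bc

theorem p_COVL :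
    S_COVL := by
  intro V E _ _ _ _ s t Y σ ⟨M0, hM0⟩
  have key : ∀ (C : Type) [Fintype C] (K : ℕ) (N : C → Finset E) (Rq : E → Prop),
      Fintype.card C ≤ K → (∀ κ, PMs s t Y σ (N κ)) →
      (∀ e ∈ ins s t Y, Rq e → Al s t Y σ e → ∃ κ, e ∈ N κ) → CovR s t Y σ K Rq := by
    intro C _ K N Rq hK hN hc
    obtain ⟨f⟩ := Function.Embedding.nonempty_of_card_le (α := C) (β := Fin K) (by simpa using hK)
    refine ⟨Function.extend f N fun _ => M0, fun i => ?_, fun e h1 h2 h3 => ?_⟩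
    · by_cases h : ∃ κ, f κ = i
      · obtain ⟨κ, rfl⟩ := h
        rw [f.injective.extend_apply]
        exact hN κ
      · rw [Function.extend_apply' _ _ _ h]
        exact hM0
    · obtain ⟨κ, h⟩ := hc e h1 h2 h3
      exact ⟨f κ, by rwa [f.injective.extend_apply]⟩
  have one : ∀ e0, ∃ M, PMs s t Y σ M ∧ (Al s t Y σ e0 → e0 ∈ M) := fun e0 => by
    by_cases h : Al s t Y σ e0
    · obtain ⟨M, a, b⟩ := h
      exact ⟨M, a, fun _ => b⟩
    · exact ⟨M0, hM0, fun a => (h a).elim⟩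
  refine ⟨fun C _ cls K Rq hK h => ?_, fun K K' Rq Rq' ⟨M, a, b⟩ hK h => ?_,
    fun K K' Rq Rq' ⟨M, a, b⟩ ⟨M', a', b'⟩ => ?_, fun F K hK => ?_⟩
  · have : ∀ κ, ∃ M, PMs s t Y σ M ∧
        ∀ e ∈ ins s t Y, Rq e → Al s t Y σ e → cls e = κ → e ∈ M := fun κ => by
      rcases h κ with ⟨e0, h⟩ | ⟨M, a, b⟩
      · obtain ⟨M, a, b⟩ := one e0
        refine ⟨M, a, fun e h1 h2 h3 h4 => ?_⟩
        obtain rfl := h e h1 h2 h4
        exact b h3
      · exact ⟨M, a, fun e h1 h2 _ => b e h1 h2⟩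
    choose N hN hN' using this
    exact key C K N Rq hK hN fun e h1 h2 h3 => ⟨cls e, hN' _ e h1 h2 h3 rfl⟩
  · exact key (Fin K) K' M Rq' (by simpa using hK) a fun e h1 h2 h3 => b e h1 (h e h1 h3 h2) h3
  · refine key (Fin K ⊕ Fin K') _ (Sum.elim M M') _ (by simp) (Sum.rec a a') fun e h1 h2 h3 => ?_
    rcases h2 with h2 | h2
    · exact (b e h1 h2 h3).elim fun i h => ⟨.inl i, h⟩
    · exact (b' e h1 h2 h3).elim fun i h => ⟨.inr i, h⟩
  · choose N hN hN' using one
    exact key F K (fun e => N e) _ (by simpa using hK) (fun e => hN e) fun e _ h2 h3 =>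
      ⟨⟨e, h2⟩, hN' e h3⟩

end Pool.Agent.P.MP_40718a_co.Wb

end

section
/-! Step STU. -/

set_option linter.unusedSectionVars false

namespace Pool.Agent.P.MP_40718a_co.Wb

open Finset ABF Bc

section

variable {V E : Type} [Fintype V] [Fintype E] [DecidableEq V] [DecidableEq E] {s t : E → V}
  {Y : Finset V} {σ N : Finset E} {e : E}

theorem stu_ends (h : e ∈ σ) : s e ∈ endsOf s t σ ∧ t e ∈ endsOf s t σ :=
  ⟨mem_endsOf.2 ⟨e, h, .inl rfl⟩, mem_endsOf.2 ⟨e, h, .inr rfl⟩⟩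

theorem stu_key (h : PMs s t Y σ N) (he : e ∈ N) {v : V} (hv : s e = v ∨ t e = v) (h1 : v ∈ Y)
    (h2 : v ∈ endsOf s t σ) : e ∈ σ := by
  obtain ⟨f, hf, h3⟩ := mem_endsOf.1 h2
  exact edge_unique (h.1 v h1).le (mem_inter.1 (h.2.symm ▸ hf)).1 he h3 hv ▸ hf

end

theorem p_STU :
    S_STU := by
  rintro V E _ _ _ _ s t Y σ hc ⟨N0, h0⟩
  have a2 : ∀ N, PMs s t Y σ N → PMs s t (Y \ endsOf s t σ) ∅ N := fun N h =>
    ⟨h.1.mono sdiff_subset, eq_empty_of_forall_notMem fun e he => by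
      obtain ⟨h1, h2⟩ := mem_inter.1 he
      have b1 : e ∈ cut s t Y → e ∈ σ := fun a => h.2 ▸ mem_inter.2 ⟨h1, a⟩
      have b2 := stu_ends (s := s) (t := t) (σ := σ) (e := e)
      have b3 := stu_key h h1 (.inl rfl)
      have b4 := stu_key h h1 (.inr rfl)
      simp only [mem_cut, mem_sdiff] at h2 b1
      tauto⟩
  have a3 : ∀ L, PMs s t (Y \ endsOf s t σ) ∅ L →
      PMs s t Y σ (σ ∪ L ∩ ins s t (Y \ endsOf s t σ)) := fun L h => by
    refine ⟨fun v hv => ?_, ?_⟩
    · by_cases h1 : v ∈ endsOf s t σ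
      · rw [← h0.1 v hv]
        refine deg_congr fun e he => ⟨fun a => ?_, fun a => mem_union_left _ (stu_key h0 a he hv h1)⟩
        rcases mem_union.1 a with a | a
        · exact (mem_inter.1 (h0.2.symm ▸ a)).1
        · simp only [mem_inter, mem_ins, mem_sdiff] at a
          rcases he with rfl | rfl <;> tauto
      · rw [← h.1 v (mem_sdiff.2 ⟨hv, h1⟩)]
        refine deg_congr fun e he => ?_
        have b1 := stu_ends (s := s) (t := t) (σ := σ) (e := e)
        have b2 : e ∉ L ∩ cut s t (Y \ endsOf s t σ) := h.2 ▸ notMem_empty e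
        simp only [mem_union, mem_inter, mem_ins, mem_cut, mem_sdiff] at b2 ⊢
        rcases he with rfl | rfl <;> tauto
    · ext e
      have b1 := @h0.sub _ _ _ _ _ _ _ _ _ _ _ e
      have b2 := not_ins_of_cut (s := s) (t := t) (e := e) (sdiff_subset (s := Y) (t := endsOf s t σ))
      simp only [mem_union, mem_inter]
      tauto
  have a4 : ∀ e ∈ ins s t Y, Al s t Y σ e → e ∈ ins s t (Y \ endsOf s t σ) := by
    rintro e he ⟨N, h, h1⟩
    have b1 : e ∉ σ := fun a => disjoint_left.1 (disjoint_ins_cut Y) he (h.sub a)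
    rw [mem_ins] at he ⊢
    exact ⟨mem_sdiff.2 ⟨he.1, mt (stu_key h h1 (.inl rfl) he.1) b1⟩,
      mem_sdiff.2 ⟨he.2, mt (stu_key h h1 (.inr rfl) he.2) b1⟩⟩
  refine ⟨?_, a2, a3, a4, fun K ⟨M, h1, h2⟩ => ⟨_, fun i => a3 _ (h1 i), fun e he _ h => ?_⟩⟩
  · have b1 : Y ∩ endsOf s t σ ⊆ σ.image fun e => if s e ∈ Y then s e else t e := fun v hv => by
      obtain ⟨h1, h2⟩ := mem_inter.1 hv
      obtain ⟨e, he, h⟩ := mem_endsOf.1 h2
      have := mem_cut.1 (h0.sub he)
      refine mem_image.2 ⟨e, he, ?_⟩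
      rcases h with rfl | rfl
      · exact if_pos h1
      · exact if_neg (by tauto)
    have b2 : σ ⊆ meet s t (Y ∩ endsOf s t σ) := fun e he => by
      have := mem_cut.1 (h0.sub he)
      have := stu_ends (s := s) (t := t) he
      simp only [mem_meet, mem_inter]
      tauto
    have b3 : cut s t (Y \ endsOf s t σ) ⊆ cut s t Y \ σ ∪ meet s t (Y ∩ endsOf s t σ) \ σ :=
      fun e he => by
        have := stu_ends (s := s) (t := t) (σ := σ) (e := e)
        simp only [mem_union, mem_sdiff, mem_cut, mem_meet, mem_inter] at he ⊢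
        tauto
    have := (card_le_card b1).trans card_image_le
    have := (card_le_card b3).trans (card_union_le _ _)
    have := card_sdiff_add_card_eq_card b2
    have := card_sdiff_add_card_eq_card h0.sub
    have := meet_card hc (Y ∩ endsOf s t σ)
    omega
  · have b := a4 e he h
    obtain ⟨N, h3, h4⟩ := h
    obtain ⟨i, hi⟩ := h2 e b trivial ⟨N, a2 N h3, h4⟩
    exact ⟨i, mem_union_right _ (mem_inter.2 ⟨hi, b⟩)⟩

end Pool.Agent.P.MP_40718a_co.Wb

end

section
/-! Step SPL. -/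

set_option linter.unusedSectionVars false

namespace Pool.Agent.P.MP_40718a_co.Wb

open Finset ABF Bc

section
variable {V E : Type} [Fintype V] [Fintype E] [DecidableEq V] [DecidableEq E]
variable {s t : E → V} {U X : Finset V} {M N N' φ : Finset E}

theorem spl_res (hX : X ⊆ U) (h : PMs s t U ∅ M) :
    PMs s t X (M ∩ cut s t X) M ∧ PMs s t (U \ X) (M ∩ cut s t X) M := by
  refine ⟨(h.1.mono hX).pms, h.1.mono sdiff_subset, ?_⟩
  ext e
  have h1 := Finset.ext_iff.1 h.2 e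
  have h2 := @hX (s e)
  have h3 := @hX (t e)
  simp only [mem_inter, mem_cut, mem_sdiff, notMem_empty] at h1 ⊢
  grind

theorem spl_glue (hX : X ⊆ U) (h : PMs s t X φ N) (h' : PMs s t (U \ X) φ N') :
    PMs s t U ∅ ((N ∩ meet s t X) ∪ (N' ∩ meet s t (U \ X))) := by
  have k : ∀ e, ((e ∈ N ∧ ¬(s e ∈ X ↔ t e ∈ X)) ↔ e ∈ φ) ∧
      ((e ∈ N' ∧ ¬(s e ∈ U ∧ s e ∉ X ↔ t e ∈ U ∧ t e ∉ X)) ↔ e ∈ φ) := fun e => by
    have h1 := Finset.ext_iff.1 h.2 e
    have h2 := Finset.ext_iff.1 h'.2 e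
    simp only [mem_inter, mem_cut, mem_sdiff] at h1 h2
    exact ⟨h1, h2⟩
  refine ⟨fun v hv => ?_, ?_⟩
  · by_cases hv' : v ∈ X
    · refine h.1.congr (fun e he => ?_) v hv'
      have := k e
      simp only [mem_inter, mem_union, mem_meet, mem_sdiff] at he ⊢
      grind
    · refine h'.1.congr (fun e he => ?_) v (mem_sdiff.2 ⟨hv, hv'⟩)
      have := k e
      simp only [mem_inter, mem_union, mem_meet, mem_sdiff] at he ⊢
      grind
  · ext e
    have := k e
    have h2 := @hX (s e)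
    have h3 := @hX (t e)
    simp only [mem_inter, mem_union, mem_meet, mem_sdiff, mem_cut, notMem_empty]
    grind

end

theorem p_SPL :
    S_SPL := by
  intro V E _ _ _ _ s t U X Φ K hX hK ⟨M0, hM0⟩ hΦ hc
  have key : ∀ φ : Φ, ∃ F : Fin K → Finset E, (∀ i, PMs s t U ∅ (F i)) ∧
      ∀ M, PMs s t U ∅ M → M ∩ cut s t X = φ → ∀ e ∈ M, e ∈ ins s t U → ∃ i, e ∈ F i := by
    intro φ
    by_cases h : St s t X φ ∧ St s t (U \ X) φ
    · obtain ⟨⟨N, a1, a2⟩, N', b1, b2⟩ := hc φ φ.2 h.1 h.2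
      refine ⟨fun i => _, fun i => spl_glue hX (a1 i) (b1 i), fun M hM e1 e he hU => ?_⟩
      obtain ⟨c1, c2⟩ := spl_res hX hM
      rw [e1] at c1 c2
      by_cases h1 : e ∈ ins s t X
      · obtain ⟨i, hi⟩ := a2 e h1 trivial ⟨M, c1, he⟩
        exact ⟨i, mem_union_left _ (mem_inter.2 ⟨hi, mem_meet.2 (Or.inl (mem_ins.1 h1).1)⟩)⟩
      by_cases h2 : e ∈ ins s t (U \ X)
      · obtain ⟨i, hi⟩ := b2 e h2 trivial ⟨M, c2, he⟩
        exact ⟨i, mem_union_right _ (mem_inter.2 ⟨hi, mem_meet.2 (Or.inl (mem_ins.1 h2).1)⟩)⟩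
      have h3 : e ∈ cut s t X := by
        simp only [mem_ins, mem_cut, mem_sdiff] at h1 h2 hU ⊢
        grind
      have h4 : e ∈ N ⟨0, hK⟩ ∩ cut s t X := by
        rw [(a1 _).2, ← e1]
        exact mem_inter.2 ⟨he, h3⟩
      refine ⟨⟨0, hK⟩, mem_union_left _ (mem_inter.2 ⟨(mem_inter.1 h4).1, ?_⟩)⟩
      rw [meet_eq]
      exact mem_union_right _ h3
    · refine ⟨fun _ => M0, fun _ => hM0, fun M hM e1 => absurd ?_ h⟩
      obtain ⟨c1, c2⟩ := spl_res hX hM
      rw [e1] at c1 c2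
      exact ⟨c1.st, c2.st⟩
  choose F hF hF' using key
  refine ⟨fun j => F (Φ.equivFin.symm (finProdFinEquiv.symm j).1) (finProdFinEquiv.symm j).2,
    fun j => hF _ _, fun e he _ ⟨M, hM, heM⟩ => ?_⟩
  obtain ⟨i, hi⟩ := hF' ⟨_, hΦ M hM⟩ M hM rfl e heM he
  exact ⟨finProdFinEquiv (Φ.equivFin ⟨_, hΦ M hM⟩, i), by simpa using hi⟩

end Pool.Agent.P.MP_40718a_co.Wb

end

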