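import Pool.Agent.P.MP_40718a_co.Wb.IfaceB
import Pool.Agent.P.MP_40718a_co.Wb.Iface

section
/-! Step FC1. -/

set_option linter.unusedSectionVars false

namespace Pool.Agent.P.MP_40718a_co.Wb

open Finset ABF Bc

theorem fc1_low {E : Type} {y : E → ℤ} {Q : ℤ} {F G : Finset E} (hy : ∀ e, 0 ≤ y e) (hQ : 0 < Q)
    (h : F ⊆ G) (h' : ∀ e ∈ F, 3 * Q ≤ 10 * y e) (h4 : 4 ≤ F.card) : Q ≤ ∑ e ∈ G, y e := by
  have h1 := card_nsmul_le_sum F (fun e => 10 * y e) (3 * Q) h'
  have h2 : ∑ e ∈ F, y e ≤ ∑ e ∈ G, y e := sum_le_sum_of_subset_of_nonneg h fun e _ _ => hy e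
  rw [← mul_sum, nsmul_eq_mul] at h1
  have h3 : (4 : ℤ) * Q ≤ F.card * Q := mul_le_mul_of_nonneg_right (by exact_mod_cast h4) hQ.le
  linarith

theorem p_FC1 (hWT : S_WT) (hSHELL : S_SHELL) :
    S_FC1 := by
  classical
  intro V E _ _ _ _ s t U S O y Q Co Ex m r r0 L Z hc hU hW hB hEx hZr hr hsh
  obtain ⟨hQ, hy, hvs, hCo, hlow, -, hcl⟩ := hW
  obtain ⟨hSU, hDj, hcard, hO⟩ := hB
  have hXS : ∀ X ∈ O, ∀ v ∈ X, v ∈ U ∧ v ∉ S := fun X hX v hv => mem_sdiff.1 ((hO X hX).1 hv)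
  have hpos : ∀ e ∉ Co, y e ≠ 0 := fun e he h => by
    have := hlow e he
    rw [h] at this
    omega
  set B := term s t U with hBdef
  set S1 := S ∩ ball s t B r with hS1
  set S2 := S \ ball s t B r with hS2
  set O1 := O.filter fun X => X ⊆ ball s t B (r + 1 + L) with hO1
  set G := O.filter fun X => Q ≤ ∑ e ∈ cut s t X ∩ meet s t S2, y e with hG
  set O3 := (O \ O1) \ G with hO3
  have mO1 : ∀ X, X ∈ O1 ↔ X ∈ O ∧ X ⊆ ball s t B (r + 1 + L) := fun X => mem_filter
  have hb1 : ball s t B (r + 1 + L) ⊆ ball s t B r0 := ball_mono_r (by omega)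
  have nS : S1.card + S2.card = S.card := card_inter_add_card_sdiff S _
  have nG : G.card ≤ S2.card := by
    have w := (hWT V E s t S2 G ∅ (fun A hA C hC => hDj A (mem_filter.1 hA).1 C (mem_filter.1 hC).1)
      (fun X hX => disjoint_left.2 fun v hv h => (hXS X (mem_filter.1 hX).1 v hv).2
        (mem_sdiff.1 h).1) (empty_subset _) (fun _ _ => disjoint_empty_left _)).1 y Q hy
      fun v _ => hvs v
    have a1 := card_nsmul_le_sum G (fun X => ∑ e ∈ cut s t X ∩ meet s t S2, y e) Q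
      fun X hX => (mem_filter.1 hX).2
    have a2 : 0 ≤ ∑ e ∈ ins s t S2, y e := sum_nonneg fun e _ => hy e
    rw [nsmul_eq_mul] at a1
    rw [sum_empty] at w
    have a3 : (G.card : ℤ) * Q ≤ S2.card * Q := by linarith
    exact_mod_cast le_of_mul_le_mul_right a3 hQ
  have nO : O.card ≤ O1.card + O3.card + G.card := by
    have : O ⊆ O1 ∪ O3 ∪ G := by
      intro X hX
      simp only [hO3, mem_union, mem_sdiff]
      clear * - hX
      tauto
    have a1 := (card_le_card this).trans (card_union_le _ _)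
    have a2 := card_union_le O1 O3
    omega
  have hfar : ∀ X ∈ O, Disjoint X (ball s t B (r + 1)) → X ∈ G := by
    intro X hX hd
    obtain ⟨-, hodd, hcn, hed⟩ := hO X hX
    have hin : ∀ e ∈ cut s t X, e ∈ ins s t U := by
      intro e he
      by_contra hn
      have a1 := hXS X hX (s e)
      have a2 := hXS X hX (t e)
      have he' : e ∈ cut s t U := by
        simp only [mem_cut, mem_ins] at he hn ⊢
        clear * - a1 a2 he hn
        tauto
      have a3 : ∀ v ∈ X, s e = v ∨ t e = v → False := fun v hv h =>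
        disjoint_left.1 hd hv (subset_ball _ (mem_term.2 ⟨(hXS X hX v hv).1, e, he', h⟩))
      have a4 := a3 (s e)
      have a5 := a3 (t e)
      rw [mem_cut] at he
      clear * - a4 a5 he
      tauto
    have hw : ∑ e ∈ cut s t X ∩ meet s t S2, y e = ∑ e ∈ cut s t X, y e := by
      refine sum_subset inter_subset_left fun e he h => ?_
      refine (hed e (mem_inter.2 ⟨he, hin e he⟩)).resolve_left fun h' => h ?_
      refine mem_inter.2 ⟨he, ?_⟩
      have a1 := hXS X hX (s e)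
      have a2 := hXS X hX (t e)
      have a3 : s e ∈ X → t e ∉ ball s t B r := fun h1 h2 =>
        disjoint_left.1 hd h1 (ball_step_s h2)
      have a4 : t e ∈ X → s e ∉ ball s t B r := fun h1 h2 =>
        disjoint_left.1 hd h1 (ball_step_t h2)
      rw [mem_cut] at he
      simp only [hS2, mem_meet, mem_sdiff]
      clear * - a1 a2 a3 a4 he h'
      tauto
    refine mem_filter.2 ⟨hX, ?_⟩
    rw [hw]
    by_cases h4 : (cut s t X \ Co).card ≤ 3
    · have hc2 : 2 ≤ Xᶜ.card := by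
        obtain ⟨u, hu⟩ : ∃ u, u ∉ U := by
          by_contra h
          push Not at h
          exact hU (eq_univ_of_forall h)
        obtain ⟨X', hX', hne⟩ := exists_mem_ne (by omega : 1 < O.card) X
        obtain ⟨v, hv⟩ : X'.Nonempty := card_pos.1 (hO X' hX').2.1.pos
        refine one_lt_card.2 ⟨u, mem_compl.2 fun h => hu (hXS X hX u h).1, v,
          mem_compl.2 fun h => disjoint_left.1 (hDj X' hX' X hX hne) hv h, ?_⟩
        rintro rfl
        exact hu (hXS X' hX' u hv).1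
      rcases hcl X (fun v hv => (hXS X hX v hv).1) hodd hcn hc2 h4 with h | ⟨-, h'⟩ | ⟨i, h⟩
      · obtain ⟨v, rfl⟩ := card_eq_one.1 h
        rw [← vs_eq_cut hc.1, hvs]
      · exact h'
      · obtain ⟨z, hz⟩ := hZr i
        rw [mem_inter] at hz
        exact (disjoint_left.1 hd (h hz.1) (ball_mono_r (Nat.le_succ r) hz.2)).elim
    · exact fc1_low hy hQ sdiff_subset (fun e he => hlow e (mem_sdiff.1 he).2) (by omega)
  have hsub : ∀ X ∈ O, X ⊆ U \ S1 := fun X hX =>
    (hO X hX).1.trans (sdiff_subset_sdiff (Subset.refl _) inter_subset_left)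
  have hO13 : O1 ∪ O3 ⊆ O := union_subset (filter_subset _ _) (sdiff_subset.trans sdiff_subset)
  refine ⟨S1, O1, O3, inter_subset_right.trans (ball_mono_r (by omega)),
    ⟨inter_subset_left.trans hSU, fun A hA C hC => hDj A ((mO1 A).1 hA).1 C ((mO1 C).1 hC).1,
      fun X hX => ?_⟩, fun X hX => ((mO1 X).1 hX).2.trans hb1,
    disjoint_left.2 fun X h1 h2 => (mem_sdiff.1 (mem_sdiff.1 h2).1).2 h1,
    fun A hA C hC => hDj A (hO13 hA) C (hO13 hC), by omega, fun X hX => ?_⟩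
  · obtain ⟨hX, hXb⟩ := (mO1 X).1 hX
    refine ⟨hsub X hX, (hO X hX).2.1, fun e he => ?_⟩
    have h1 := (mem_inter.1 he).1
    rw [mem_cut] at h1
    have a0 : e ∉ Co := fun h => disjoint_left.1 hEx (hCo h) (by
      have a1 : s e ∈ X → s e ∈ ball s t B r0 := fun h => hb1 (hXb h)
      have a2 : t e ∈ X → t e ∈ ball s t B r0 := fun h => hb1 (hXb h)
      rw [mem_meet]
      clear * - a1 a2 h1
      tauto)
    have a1 := ((hO X hX).2.2.2 e he).resolve_right (hpos e a0)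
    have a2 := hXS X hX (s e)
    have a3 := hXS X hX (t e)
    have a4 : s e ∈ X → t e ∈ S → t e ∈ S1 := fun h h' => mem_inter.2 ⟨h', hsh (mem_inter.2
      ⟨h', ball_mono_r (by omega) (ball_step_t (hXb h))⟩)⟩
    have a5 : t e ∈ X → s e ∈ S → s e ∈ S1 := fun h h' => mem_inter.2 ⟨h', hsh (mem_inter.2
      ⟨h', ball_mono_r (by omega) (ball_step_s (hXb h))⟩)⟩
    clear * - a1 a2 a3 a4 a5 h1
    tauto
  · obtain ⟨h1, hXG⟩ := mem_sdiff.1 hX
    obtain ⟨hX, h1⟩ := mem_sdiff.1 h1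
    refine ⟨hsub X hX, ?_, ?_⟩
    · have a1 : (X ∩ ball s t B (r + 1)).Nonempty :=
        not_disjoint_iff_nonempty_inter.1 fun h => hXG (hfar X hX h)
      exact ((hSHELL V E s t B).2 X (r + 1) L (hO X hX).2.2.1 a1
        fun h => h1 ((mO1 X).2 ⟨hX, h⟩)).trans_le
        (card_le_card (inter_subset_inter_left hb1))
    · by_contra h4
      refine hXG (mem_filter.2 ⟨hX, fc1_low
        (F := (cut s t X \ (cut s t U ∪ meet s t S1)) \ Ex) hy hQ (fun e he => ?_)
        (fun e he => hlow e fun h => (mem_sdiff.1 he).2 (hCo h)) (by omega)⟩)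
      obtain ⟨a1, a2⟩ := mem_sdiff.1 he
      obtain ⟨a1, a3⟩ := mem_sdiff.1 a1
      have a4 := hXS X hX (s e)
      have a5 := hXS X hX (t e)
      have a6 : e ∈ ins s t U := by
        simp only [mem_union, mem_cut, mem_ins] at a1 a3 ⊢
        clear * - a1 a3 a4 a5
        tauto
      have a7 := ((hO X hX).2.2.2 e (mem_inter.2 ⟨a1, a6⟩)).resolve_right
        (hpos e fun h => a2 (hCo h))
      refine mem_inter.2 ⟨a1, ?_⟩
      simp only [hS1, hS2, mem_union, mem_meet, mem_inter, mem_sdiff] at a3 ⊢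
      clear * - a3 a7
      tauto

end Pool.Agent.P.MP_40718a_co.Wb

end

section
/-! Step FC2. -/

set_option linter.unusedSectionVars false

namespace Pool.Agent.P.MP_40718a_co.Wb

open Finset ABF Bc

theorem p_FC2 (hWT : S_WT) :
    S_FC2 := by
  intro V E _ _ _ _ s t U Zn S1 O1 O3 Ex κ m L L2 hC h3 hU hZ hE hS hB hO1 hd hD hO3
  by_contra hc
  obtain ⟨-, e2, e3, e4⟩ := hE
  have hr := e4 S1 O1 hB fun X hX => card_le_card (hO1 X hX)
  rcases S1.eq_empty_or_nonempty with rfl | ⟨v, hv⟩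
  · have h1 : O1.card = 0 := by
      rcases hr with h | h
      · simp [h]
      · simp at h
    obtain ⟨X, hX, X', hX', hne⟩ := one_lt_card.1 (show 1 < O3.card by simp at hc; omega)
    obtain ⟨a1, a2, a3⟩ := hO3 X hX
    obtain ⟨b1, b2, -⟩ := hO3 X' hX'
    have := e3 X (a1.trans sdiff_subset) X' (b1.trans sdiff_subset)
      (hD X (mem_union_right _ hX) X' (mem_union_right _ hX') hne) a2 b2
    have h0 : meet s t (∅ : Finset V) = ∅ := by ext e; simp
    rw [h0, union_empty] at a3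
    omega
  · have h1 : O1.card < S1.card := by
      rcases hr with h | h
      · rw [h]; exact card_pos.2 ⟨v, hv⟩
      · exact h
    have hsub : ∀ X ∈ O1 ∪ O3, X ⊆ U \ S1 := fun X hX =>
      (mem_union.1 hX).elim (fun h => (hB.2.2 X h).1) fun h => (hO3 X h).1
    obtain ⟨-, w2, w3⟩ := hWT V E s t S1 (O1 ∪ O3) ∅ hD
      (fun X hX => disjoint_of_subset_left (hsub X hX) sdiff_disjoint) (empty_subset _)
      fun X _ => disjoint_empty_left _
    have w2 := w2 hC
    have w3 := (w3 U fun X hX => (hsub X hX).trans sdiff_subset).trans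
      ((card_le_card inter_subset_right).trans hU)
    rw [sum_union hd] at w2 w3
    have k1 : O1.card • 3 ≤
        ∑ X ∈ O1, ((cut s t X ∩ meet s t S1).card + (cut s t X ∩ cut s t U).card) := by
      refine card_nsmul_le_sum _ _ _ fun X hX => ?_
      obtain ⟨a1, a2, a3⟩ := hB.2.2 X hX
      have b1 := h3 X (card_pos.1 a2.pos) fun h => (mem_sdiff.1 (a1 (h ▸ mem_univ v))).2 hv
      have b2 := cut_split (s := s) (t := t) (a1.trans sdiff_subset)
      have b3 : (cut s t X ∩ ins s t U).card ≤ (cut s t X ∩ meet s t S1).card :=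
        card_le_card fun e he => mem_inter.2 ⟨(mem_inter.1 he).1, mem_meet.2 (a3 e he)⟩
      omega
    obtain ⟨X, hX, hm⟩ := exists_min_image O3
      (fun X => (cut s t X ∩ (cut s t U ∪ meet s t S1)).card) (card_pos.1 (by omega))
    have k2 : O3.card • (cut s t X ∩ (cut s t U ∪ meet s t S1)).card ≤
        ∑ X ∈ O3, ((cut s t X ∩ meet s t S1).card + (cut s t X ∩ cut s t U).card) := by
      refine card_nsmul_le_sum _ _ _ fun Y hY => (hm Y hY).trans ?_
      rw [inter_union_distrib_left, add_comm]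
      exact card_union_le _ _
    rw [sum_add_distrib, smul_eq_mul] at k1 k2
    obtain ⟨a1, a2, a3⟩ := hO3 X hX
    have k3 : 3 * (cut s t X ∩ (cut s t U ∪ meet s t S1)).card ≤ 2 * κ + 9 := by
      generalize (cut s t X ∩ (cut s t U ∪ meet s t S1)).card = f at k2 ⊢
      obtain ⟨p, hp⟩ : ∃ p, O3.card = p + 3 := ⟨O3.card - 3, by omega⟩
      by_contra h
      obtain ⟨f, rfl⟩ : ∃ g, f = g + 3 := ⟨f - 3, by omega⟩
      have : O3.card * (f + 3) = p * f + 3 * f + 3 * O3.card := by rw [hp]; ring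
      omega
    have k4 : cut s t X ∩ (cut s t U ∪ meet s t S1) ⊆ meet s t Zn := by
      intro e he
      rcases mem_union.1 (mem_inter.1 he).2 with h | h
      · rw [mem_meet]
        by_cases h' : s e ∈ U
        · exact Or.inl (hZ (mem_term.2 ⟨h', e, h, Or.inl rfl⟩))
        · have : t e ∈ U := by rw [mem_cut] at h; tauto
          exact Or.inr (hZ (mem_term.2 ⟨this, e, h, Or.inr rfl⟩))
      · exact meet_mono hS h
    have := e2 X (a1.trans sdiff_subset) a2 v (mem_inter.2 ⟨hB.1 hv, hS hv⟩)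
      (fun h => (mem_sdiff.1 (a1 h)).2 hv) _ k4 k3
    rw [sdiff_inter_self_left] at this
    omega

end Pool.Agent.P.MP_40718a_co.Wb

end

section
/-! Step FINR. -/

set_option linter.unusedSectionVars false

namespace Pool.Agent.P.MP_40718a_co.Wb

open Finset ABF Bc

theorem p_FINR (hFA : S_FA) (hFB : S_FB) (hSHELL : S_SHELL) (hFC1 : S_FC1) (hFC2 : S_FC2) :
    S_FINR := by
  intro V E _ _ _ _ s t U D y Q Co Ex κ m r1 L L2 Z hc hec hU hev hcut hD hy hW hE hdis hZ
  rcases hFA V E s t U D y Q hc.1 hev hD hW.1 hW.2.1 hW.2.2.1 hy with h | ⟨S, O, hB⟩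
  · exact h
  exfalso
  obtain ⟨T, hT, hST, hcnt⟩ := hFB V E s t U S O y Q Co Ex m Z hc hU hW hB
  have h1 : (S ∩ ball s t (term s t U) (r1 + (L2 + 1) * (L + 2))).card ≤ L2 := by
    by_contra h
    have := hE.1 S hB.1 T hT hST (not_le.1 h)
    omega
  obtain ⟨r, hr1, hr2, hsub⟩ := (hSHELL V E s t (term s t U)).1 S r1 (L + 2) L2 h1
  obtain ⟨S1, O1, O3, a1, a2, a3, a4, a5, a6, a7⟩ := hFC1 V E s t U S O y Q Co Ex m r _ L Z hc hU
    hW hB hdis (fun i => (hZ i).mono (inter_subset_inter_left (ball_mono_r hr1))) hr2 hsub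
  have := hFC2 V E s t U _ S1 O1 O3 Ex κ m L L2 hc hec hcut (subset_ball _) hE a1 a2 a3 a4 a5 a7
  omega

end Pool.Agent.P.MP_40718a_co.Wb

end

section
/-! Step CLF. -/

set_option linter.unusedSectionVars false

namespace Pool.Agent.P.MP_40718a_co.Wb

open Finset ABF Bc

theorem p_CLF (hCLS2 : S_CLS2) (hHCL : S_HCL) (hFINR : S_FINR) :
    S_CLF := by
  intro q m
  obtain ⟨K, hK⟩ := hCLS2 q m
  refine ⟨K, fun V E _ _ _ _ s t ld a p ρ b n κ r1 L L2 D I J φ A Z U hc hs hU ev hκ h1 h2 h3 h4 h5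
    h6 h7 h8 h9 hD hZ env => ?_⟩
  obtain ⟨cls, hcls⟩ := hK V E s t ld a p ρ b n D I J φ A Z hc h1 h2 h3 h4 h5 h6 h7 h8 h9
  refine ⟨cls, fun x => (hcls x).imp id fun ⟨y, Q, D', a1, a2, a3, a4, a5, a6, a7⟩ => ?_⟩
  obtain ⟨M, m1, m2⟩ := hFINR V E s t U (D.filter fun c => cls c = x) y Q _ _ κ m r1 L L2 Z hc
    (ec3_of_small hc hs) hU ev hκ (fun c h => (hD c (mem_filter.1 h).1).1)
    (fun c h => a7 c (mem_filter.1 h).1 (mem_filter.1 h).2)
    (hHCL V E s t q m ld a p ρ b n D I J φ A Z U y Q D' hc hs h1 h2 h3 h4 h5 h6 h7 h8 h9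
      a1 a2 a3 a4 a5 a6) env (disjoint_left.2 fun e he he' => by
      obtain ⟨c, c1, c2⟩ := mem_biUnion.1 he
      have hJ := (h6 c c1).1.2.2.2.2.1
      have up := ball_mono_r (s := s) (t := t) (S := ends s t c)
        (show a + 1 ≤ a + p * (2 * ρ + 2) by nlinarith)
      have up' := ball_mono_r (s := s) (t := t) (S := ends s t c) (Nat.le_succ a)
      have : s e ∈ ball s t (ends s t c) (a + 1) ∧ t e ∈ ball s t (ends s t c) (a + 1) :=
        (mem_meet.1 c2).elim (fun h => ⟨up' (hJ h), ball_step_t (hJ h)⟩)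
          fun h => ⟨ball_step_s (hJ h), up' (hJ h)⟩
      exact (mem_meet.1 he').elim (disjoint_left.1 (hD c c1).2 (up this.1))
        (disjoint_left.1 (hD c c1).2 (up this.2))) hZ
  exact ⟨M, m1, fun c h e => m2 (mem_filter.2 ⟨h, e⟩)⟩

end Pool.Agent.P.MP_40718a_co.Wb

end

section
/-! Step GEO2. -/

set_option linter.unusedSectionVars false

namespace Pool.Agent.P.MP_40718a_co.Wb

open Finset ABF Bc

section

variable {V E : Type} [Fintype V] [Fintype E] [DecidableEq V] [DecidableEq E] {s t : E → V}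
  {U : Finset V}

theorem geo2_term {e : E} (h : e ∈ cut s t U) : s e ∈ term s t U ∨ t e ∈ term s t U := by
  by_cases a : s e ∈ U
  · exact Or.inl (mem_term.2 ⟨a, e, h, Or.inl rfl⟩)
  · exact Or.inr (mem_term.2 ⟨by have := mem_cut.1 h; tauto, e, h, Or.inr rfl⟩)

theorem geo2_a (S : Finset V) (r : ℕ) (h : S ⊆ U) (hd : Disjoint (ball s t S r) (term s t U)) :
    ball s t S r ⊆ U := fun z hz => by
  by_contra a
  obtain ⟨e, he, b, c⟩ := exists_exit h hz a
  exact (geo2_term he).elim (disjoint_left.1 hd b) (disjoint_left.1 hd c)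

end

theorem p_GEO2 :
    S_GEO2 := by
  intro V E _ _ _ _ s t U
  refine ⟨geo2_a, fun x R hx h => geo2_a _ _ (singleton_subset_iff.2 hx)
    (disjoint_left.2 fun z a b => h (mem_ball_iff.2 ⟨z, b, ball_symm a⟩)), fun R h hU hn => ?_,
    fun h hU hn => ?_, fun r r0 h => ?_⟩
  · obtain ⟨e, he⟩ := card_pos.1 (h (U \ ball s t (term s t U) R) (sdiff_nonempty.2 hn)
      fun a => hU (univ_subset_iff.1 (a ▸ sdiff_subset)))
    have a : e ∈ cut s t U → s e ∈ ball s t (term s t U) R ∧ s e ∈ U ∨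
        t e ∈ ball s t (term s t U) R ∧ t e ∈ U := fun b => (geo2_term b).imp
      (fun c => ⟨subset_ball R c, (mem_term.1 c).1⟩) fun c => ⟨subset_ball R c, (mem_term.1 c).1⟩
    simp only [mem_cut, mem_sdiff] at he a
    by_cases b : s e ∈ U ∧ s e ∉ ball s t (term s t U) R
    · exact ⟨_, b.1, ball_step_s (by tauto), b.2⟩
    · exact ⟨t e, by tauto, ball_step_t (by tauto), by tauto⟩
  · obtain ⟨e, he⟩ := card_pos.1 (h U hn hU)
    exact (geo2_term he).elim (fun a => ⟨_, a⟩) fun a => ⟨_, a⟩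
  · rw [cnt_eq]
    refine (card_le_card (t := meet s t (ball s t (term s t U) (r0 + r))) fun c hc => ?_).trans
      ((meet_card h _).trans (Nat.mul_le_mul_left _ ((ball_card h _ _).trans
        (Nat.mul_le_mul_right _ (card_term_le U)))))
    obtain ⟨z, a, b⟩ := not_disjoint_iff.1 (mem_filter.1 hc).2
    obtain ⟨x, c, d⟩ := mem_ball_iff.1 a
    have := ball_trans b (ball_symm d)
    rcases mem_ends.1 c with rfl | rfl
    exacts [mem_meet.2 (Or.inl this), mem_meet.2 (Or.inr this)]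

end Pool.Agent.P.MP_40718a_co.Wb

end

section
/-! Step FAR. -/

set_option linter.unusedSectionVars false

namespace Pool.Agent.P.MP_40718a_co.Wb

open Finset ABF Bc

theorem p_FAR (hPRE2 : S_PRE2) (hSK2 : S_SK2) (hPAT2 : S_PAT2) (hGEO2 : S_GEO2) :
    S_FAR := by
  intro g
  set bs : ℕ → ℕ := fun j => (range (j + 1)).sup g with hbs
  obtain ⟨q, a, n, k1, hq, h5, hpre⟩ := hPRE2 bs 240 (by norm_num)
  obtain ⟨H, hH⟩ : ∃ H, H = 600 + 15 * n := ⟨_, rfl⟩
  refine ⟨q, a, bs 5, n, H, k1, hq, by omega, fun L => ?_⟩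
  obtain ⟨R, hR⟩ : ∃ R, R = H * (L + 1) := ⟨_, rfl⟩
  obtain ⟨r, hr⟩ : ∃ r, r = a + (3 * n + 4) * (2 * (4 * R) + 2) := ⟨_, rfl⟩
  obtain ⟨d, hcol⟩ := all_COL r
  refine ⟨4 * R, R + 1 + 4 * R, Fintype.card ((Fin (600 * H) → Fin H × Fin H) × Fin d), 4 ^ R, ?_⟩
  intro V E _ _ _ _ s t U κ r0 hc e3 hU h1 hκ hun hV hr0
  rw [← hr]
  have e1 : EC 1 s t := e3.mono (by omega)
  obtain ⟨ga, gb, gc, gd, -⟩ := hGEO2 V E s t U
  have hin : ∀ c ∈ ins s t U, Disjoint (ball s t (ends s t c) r) (ball s t (term s t U) r0) →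
      ball s t (ends s t c) r ⊆ U ∧ ∀ j < k1, SmallIn s t (ball s t (ends s t c) r) j (bs j) := by
    intro c hcU hd
    have hd' := hd.mono_right (subset_ball r0)
    have a1 := ga _ r (fun v hv => by
      rcases mem_ends.1 hv with rfl | rfl
      exacts [(mem_ins.1 hcU).1, (mem_ins.1 hcU).2]) hd'
    obtain ⟨x, hx⟩ := gd e1 hU ⟨_, (mem_ins.1 hcU).1⟩
    refine ⟨a1, fun j hj X hX hj' => (h1 X (hX.trans a1) ?_ (by omega)).trans
      (le_sup (f := g) (mem_range.2 (by omega)))⟩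
    rintro rfl
    exact disjoint_left.1 hd' (hX (mem_term.1 hx).1) hx
  have hP : ∀ c, ∃ (I J : Finset V) (φ : Fin (3 * q) × Fin 240 → E → ℤ), J.card ≤ n ∧
      (c ∈ ins s t U → Disjoint (ball s t (ends s t c) r) (ball s t (term s t U) r0) →
        Pre s t q 240 a (bs 5) n c (ball s t (ends s t c) r) I J φ) := by
    intro c
    by_cases h : c ∈ ins s t U ∧ Disjoint (ball s t (ends s t c) r) (ball s t (term s t U) r0)
    · obtain ⟨a1, a2⟩ := hin c h.1 h.2
      obtain ⟨I, J, φ, h'⟩ := hpre V E s t c _ hc e3 a2 (ball_mono_r (by omega))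
        fun e => hU (univ_subset_iff.1 (e ▸ a1))
      exact ⟨I, J, φ, h'.2.2.2.2.2.1, fun _ _ => h'⟩
    · exact ⟨∅, ∅, 0, by simp, fun a b => absurd ⟨a, b⟩ h⟩
  choose I J φ hJ hP using hP
  obtain ⟨A, Z, hA, hld⟩ := hSK2 V E s t U H L hc e1 hun (hR ▸ hV)
  rw [← hR] at hA
  choose τ hinj hτ using fun c => hPAT2 V E s t 600 H n A (J c) hc hH.ge (hJ c) hld
  obtain ⟨col, hcol⟩ := hcol V E s t hc
  refine ⟨I, J, φ, fun c => Fintype.equivFin _ (τ c, col c), fun D c0 h0 hD => ?_⟩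
  have hD' := fun c h => Prod.mk.inj ((Fintype.equivFin _).injective (hD c h).1)
  have far : ∀ c ∈ D, ∀ v ∈ ball s t (ends s t c) r, v ∈ U ∧ v ∉ ball s t (term s t U) R :=
    fun c h v hv => ⟨(hin c (hD c h).2.1 (hD c h).2.2).1 hv, fun h' =>
      disjoint_left.1 (hD c h).2.2 hv (ball_mono_r (by omega) h')⟩
  refine ⟨fun c h => ⟨hP c (hD c h).2.1 (hD c h).2.2, (hin c (hD c h).2.1 (hD c h).2.2).2 5 h5⟩,
    fun c h c' h' hne => hcol c c' hne ((hD' c h).2.trans (hD' c' h').2.symm),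
    fun i => A (τ c0 i), fun i => Z (τ c0 i), fun i => ⟨(hA _).1, ?_, fun c h =>
      ⟨fun v hv => (hA _).2 v (gb v R (far c h v hv).1 (far c h v hv).2), ?_⟩⟩,
    fun e => (m4_cnt (hinj c0) fun i => e ∈ A i).trans (hld e)⟩
  · have a1 := far c0 h0 _ (subset_ball r (s_mem_ends c0))
    obtain ⟨x, x1, x2, x3⟩ := gc R e1 hU fun h => a1.2 (h a1.1)
    obtain ⟨z, z1, z2⟩ := (hA (τ c0 i)).2 x (gb x R x1 x3)
    exact ⟨z, mem_inter.2 ⟨z1, ball_trans x2 z2⟩⟩
  · rw [← (hD' c h).1]; exact hτ c i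

end Pool.Agent.P.MP_40718a_co.Wb

end

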